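import Pool.Agent.H76.CR.RigM

set_option autoImplicit false
open MeasureTheory
open scoped symmDiff ENNReal
namespace Pool.Agent.H76.CR

variable {X : Type} [m0 : MeasurableSpace X] {μ : Measure X} [IsProbabilityMeasure μ]
  {τ : A → X → X}

theorem CEX_bm_int {f : X → ℝ} (hf : BM f) : Integrable f μ := by
  obtain ⟨C, hC⟩ := hf.2
  exact Integrable.of_bound hf.1.aestronglyMeasurable C
    (Filter.Eventually.of_forall (fun x => by simpa [Real.norm_eq_abs] using hC x))

theorem CE_meas (hτ : Act μ τ) (f : X → ℝ) : StronglyMeasurable (CE μ τ f) :=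
  stronglyMeasurable_condExp.mono (rig_le hτ)

/-- CEX: conditional expectation commutes with the action -/
theorem CE_comp (hτ : Act μ τ) (a : A) (f : X → ℝ) (hf : Integrable f μ) :
    CE μ τ (fun x => f (τ a x)) =ᵐ[μ] fun x => CE μ τ f (τ a x) := by
  have hle := rig_le hτ
  have hCE : Integrable (CE μ τ f) μ := integrable_condExp
  have hfa : Integrable (fun x => f (τ a x)) μ := (hτ.mp a).integrable_comp_of_integrable hf
  have hga : Integrable (fun x => CE μ τ f (τ a x)) μ :=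
    (hτ.mp a).integrable_comp_of_integrable hCE
  symm
  refine ae_eq_condExp_of_forall_setIntegral_eq hle hfa (fun s _ _ => hga.integrableOn)
    (fun P hP _ => ?_) ?_
  · have hP' : MeasurableSet[Rig μ τ] (τ (-a) ⁻¹' P) := rig_pre hτ (-a) hP
    have hP0 : MeasurableSet (τ (-a) ⁻¹' P) := hle _ hP'
    have hpre : τ a ⁻¹' (τ (-a) ⁻¹' P) = P := by
      ext x
      simp only [Set.mem_preimage]
      rw [← hτ.add, neg_add_cancel, hτ.zero]
    have key : ∀ h : X → ℝ, Integrable h μ →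
        ∫ x in P, h (τ a x) ∂μ = ∫ x in τ (-a) ⁻¹' P, h x ∂μ := by
      intro h hh
      have h1 := setIntegral_map (μ := μ) (g := τ a) (f := h) hP0
        (by rw [(hτ.mp a).map_eq]; exact hh.aestronglyMeasurable)
        (hτ.mp a).measurable.aemeasurable
      rw [(hτ.mp a).map_eq, hpre] at h1
      exact h1.symm
    rw [key _ hCE, key _ hf]
    exact setIntegral_condExp hle hf hP'
  · exact (stronglyMeasurable_condExp.comp_measurable (rig_meas hτ a)).aestronglyMeasurable

theorem CE_bdd (hτ : Act μ τ) (f : X → ℝ) (hf : Measurable f) (C : ℝ) (h : ∀ x, |f x| ≤ C) :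
    ∀ᵐ x ∂μ, |CE μ τ f x| ≤ C := by
  have hne : Nonempty X := nonempty_of_isProbabilityMeasure μ
  obtain ⟨x0⟩ := hne
  have hC : 0 ≤ C := (abs_nonneg _).trans (h x0)
  have := ae_bdd_condExp_of_ae_bdd (m := Rig μ τ) (μ := μ) (R := ⟨C, hC⟩) (f := f)
    (Filter.Eventually.of_forall h)
  exact this

/-- self-adjointness, localized -/
theorem CE_adj (hτ : Act μ τ) (f g : X → ℝ) (hf : BM f) (hg : BM g) (P : Set X)
    (hP : MeasurableSet[Rig μ τ] P) :
    ∫ x in P, f x * CE μ τ g x ∂μ = ∫ x in P, CE μ τ f x * CE μ τ g x ∂μ := by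
  have hle := rig_le hτ
  have hfi : Integrable f μ := CEX_bm_int hf
  obtain ⟨C, hC⟩ := hf.2
  have hfg : Integrable (f * CE μ τ g) μ := by
    have h1 : Integrable (CE μ τ g) μ := integrable_condExp
    exact h1.bdd_mul hf.1.aestronglyMeasurable
      (Filter.Eventually.of_forall (fun x => by simpa [Real.norm_eq_abs] using hC x))
  have h2 : μ[f * CE μ τ g | Rig μ τ] =ᵐ[μ] μ[f | Rig μ τ] * CE μ τ g :=
    condExp_mul_of_stronglyMeasurable_right stronglyMeasurable_condExp hfg hfi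
  have h3 := setIntegral_condExp (μ := μ) hle hfg hP
  have h4 : ∫ x in P, (f * CE μ τ g) x ∂μ = ∫ x in P, f x * CE μ τ g x ∂μ := rfl
  rw [← h4, ← h3]
  refine setIntegral_congr_ae (hle _ hP) ?_
  filter_upwards [h2] with x hx _
  rw [hx]
  rfl

/-- pull-out for rigid-measurable bounded functions -/
theorem CE_pull (hτ : Act μ τ) (f g : X → ℝ) (hf : Integrable f μ)
    (hg : Measurable[Rig μ τ] g) (hgb : ∃ C : ℝ, ∀ x, |g x| ≤ C) :
    CE μ τ (fun x => g x * f x) =ᵐ[μ] fun x => g x * CE μ τ f x := by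
  have hle := rig_le hτ
  obtain ⟨C, hC⟩ := hgb
  have hgf : Integrable (g * f) μ := by
    exact hf.bdd_mul (hg.mono hle le_rfl).aestronglyMeasurable
      (Filter.Eventually.of_forall (fun x => by simpa [Real.norm_eq_abs] using hC x))
  exact condExp_mul_of_stronglyMeasurable_left hg.stronglyMeasurable hgf hf

theorem CEX_int_sq (hτ : Act μ τ) (a : A) (f : X → ℝ) (hf : Integrable f μ) :
    ∫ x, (CE μ τ (fun x' => f (τ a x')) x) ^ 2 ∂μ = ∫ x, (CE μ τ f x) ^ 2 ∂μ := by
  have h1 : ∫ x, (CE μ τ (fun x' => f (τ a x')) x) ^ 2 ∂μ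
      = ∫ x, (CE μ τ f (τ a x)) ^ 2 ∂μ := by
    refine integral_congr_ae ?_
    filter_upwards [CE_comp hτ a f hf] with x hx
    rw [hx]
  rw [h1]
  have h2 := integral_map (μ := μ) (φ := τ a) (f := fun y => (CE μ τ f y) ^ 2)
    (hτ.mp a).measurable.aemeasurable
    (by rw [(hτ.mp a).map_eq]; exact ((CE_meas hτ f).pow 2).aestronglyMeasurable)
  rw [(hτ.mp a).map_eq] at h2
  exact h2.symm

theorem CEX_prod_int (hτ : Act μ τ) {g : X → ℝ} (hg : BM g) (c : A) :
    Integrable (fun x => g x * g (τ c x)) μ := by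
  obtain ⟨C, hC⟩ := hg.2
  apply CEX_bm_int
  refine ⟨hg.1.mul (hg.1.comp (hτ.mp c).measurable), C * C, fun x => ?_⟩
  rw [abs_mul]
  exact mul_le_mul (hC _) (hC _) (abs_nonneg _) ((abs_nonneg _).trans (hC x))

/-- `gamma` is symmetric and invariant -/
theorem gam_neg (hτ : Act μ τ) (g : X → ℝ) (hg : BM g) (c : A) :
    gam μ τ g (-c) = gam μ τ g c := by
  have h := CEX_int_sq hτ (-c) (fun x => g x * g (τ c x)) (CEX_prod_int hτ hg c)
  unfold gam
  rw [← h]
  have : (fun x' => g x' * g (τ (-c) x')) = fun x' => g (τ (-c) x') * g (τ c (τ (-c) x')) := by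
    funext x
    rw [← hτ.add, add_neg_cancel, hτ.zero, mul_comm]
  rw [this]

theorem gam_comp (hτ : Act μ τ) (g : X → ℝ) (hg : BM g) (z c : A) :
    gam μ τ (fun x => g (τ z x)) c = gam μ τ g c := by
  have h := CEX_int_sq hτ z (fun x => g x * g (τ c x)) (CEX_prod_int hτ hg c)
  unfold gam
  rw [← h]
  have : (fun x' => g (τ z x') * g (τ z (τ c x'))) = fun x' => g (τ z x') * g (τ c (τ z x')) := by
    funext x
    rw [← hτ.add, ← hτ.add, add_comm z c]
  rw [this]

/-- `E(g_c g_c') = E(g g_{c'-c}) ∘ τ_c` -/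
theorem Gr_gam (hτ : Act μ τ) (g : X → ℝ) (hg : BM g) (c c' : A) :
    ∫ x, (Gr μ τ g c c' x) ^ 2 ∂μ = gam μ τ g (c' - c) := by
  have h := CEX_int_sq hτ c (fun x => g x * g (τ (c' - c) x)) (CEX_prod_int hτ hg (c' - c))
  unfold gam Gr
  rw [← h]
  have : (fun x => g (τ c x) * g (τ c' x)) = fun x' => g (τ c x') * g (τ (c' - c) (τ c x')) := by
    funext x
    rw [← hτ.add, sub_add_cancel]
  rw [this]

end Pool.Agent.H76.CR
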