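import Pool.Agent.H76.CR.FixB
import Pool.Agent.H76.CR.Cex

set_option autoImplicit false
open MeasureTheory
open scoped symmDiff ENNReal
namespace Pool.Agent.H76.CR

variable {X : Type} [m0 : MeasurableSpace X] {μ : Measure X} [IsProbabilityMeasure μ]
  {τ : A → X → X}

/-- a bounded measurable selection by a measurable index is in `L^2` -/
theorem APC_sel_memLp (hτ : Act μ τ) {ι : Type} [Finite ι] (a : ι → X → ℝ) (ha : ∀ i, BM (a i))
    (q : X → ι) (hq : ∀ i, MeasurableSet[Rig μ τ] (q ⁻¹' {i})) :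
    MemLp (fun x => a (q x) x) 2 μ := by
  classical
  have := Fintype.ofFinite ι
  have hmeas : Measurable (fun x => a (q x) x) := by
    have h1 : (fun x => a (q x) x) = fun x => ∑ i, (q ⁻¹' {i}).indicator (a i) x := by
      funext x
      rw [Finset.sum_eq_single (q x)]
      · simp [Set.indicator]
      · intro i _ hi
        have : x ∉ q ⁻¹' {i} := by
          simp only [Set.mem_preimage, Set.mem_singleton_iff]
          exact fun h => hi h.symm
        simp [Set.indicator, this]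
      · intro h; exact absurd (Finset.mem_univ _) h
    rw [h1]
    exact Finset.measurable_sum _ (fun i _ =>
      (ha i).1.indicator (rig_le hτ _ (hq i)))
  choose C hC using fun i => (ha i).2
  refine MemLp.of_bound hmeas.aestronglyMeasurable (∑ i, |C i|) (Filter.Eventually.of_forall ?_)
  intro x
  rw [Real.norm_eq_abs]
  refine (hC (q x) x).trans ((le_abs_self _).trans ?_)
  exact Finset.single_le_sum (f := fun i => |C i|) (fun i _ => abs_nonneg _) (Finset.mem_univ _)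

theorem APC_diff_memLp (hτ : Act μ τ) (φ : X → ℝ) (h1 : MemLp φ 2 μ) (y : A)
    {ι : Type} [Finite ι] (a : ι → X → ℝ) (ha : ∀ i, BM (a i))
    (q : X → ι) (hq : ∀ i, MeasurableSet[Rig μ τ] (q ⁻¹' {i})) :
    MemLp (fun x => φ (τ y x) - a (q x) x) 2 μ :=
  (h1.comp_measurePreserving (hτ.mp y)).sub (APC_sel_memLp hτ a ha q hq)

/-- APC1 -/
theorem AP_const (hτ : Act μ τ) (r : ℝ) : AP μ τ (fun _ => r) := by
  intro η hη
  refine ⟨Unit, inferInstance, fun _ _ => r, fun _ => ⟨measurable_const, |r|, fun _ => le_rfl⟩,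
    fun _ => 0, fun _ _ => le_rfl, fun _ _ _ _ _ => by norm_num, hη.le, ?_⟩
  intro k κ hκ
  refine ⟨0, fun y _ => ⟨fun _ => (), fun i => ?_, fun P _ => ?_⟩⟩
  · have : (fun _ : X => ()) ⁻¹' {i} = Set.univ := by
      ext x; simp
    rw [this]
    exact @MeasurableSet.univ X (Rig μ τ)
  · simp [hκ.le]

theorem AP_congr (hτ : Act μ τ) (φ ψ : X → ℝ) (h : φ =ᵐ[μ] ψ) (hφ : AP μ τ φ) : AP μ τ ψ := by
  intro η hη
  obtain ⟨ι, hι, a, ha, H, H0, Hadd, Hη, hN⟩ := hφ η hη
  refine ⟨ι, hι, a, ha, H, H0, Hadd, Hη, ?_⟩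
  intro k κ hκ
  obtain ⟨N, hN⟩ := hN k κ hκ
  refine ⟨N, fun y hy => ?_⟩
  obtain ⟨q, hq, hP⟩ := hN y hy
  refine ⟨q, hq, fun P hPm => ?_⟩
  refine le_of_eq_of_le ?_ (hP P hPm)
  have h2 : (fun x => φ (τ y x)) =ᵐ[μ] fun x => ψ (τ y x) :=
    (hτ.mp y).quasiMeasurePreserving.ae_eq_comp h
  refine integral_congr_ae ?_
  filter_upwards [ae_restrict_of_ae h2] with x hx
  rw [hx]

/-- `2|s|^2 + 2|t|^2`, product index type, `H = 2H + 2H'` -/
theorem AP_add (hτ : Act μ τ) (φ ψ : X → ℝ) (h1 : MemLp φ 2 μ) (h2 : MemLp ψ 2 μ)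
    (hφ : AP μ τ φ) (hψ : AP μ τ ψ) : AP μ τ (fun x => φ x + ψ x) := by
  intro η hη
  obtain ⟨ι, hι, a, ha, H, H0, Hadd, Hη, hN⟩ := hφ (η / 4) (by positivity)
  obtain ⟨ι', hι', a', ha', H', H0', Hadd', Hη', hN'⟩ := hψ (η / 4) (by positivity)
  refine ⟨ι × ι', inferInstance, fun p x => a p.1 x + a' p.2 x, fun p => ⟨?_, ?_⟩,
    fun P => 2 * H P + 2 * H' P, fun P hP => ?_, fun P Q hP hQ hd => ?_, ?_, ?_⟩
  · exact (ha p.1).1.add (ha' p.2).1
  · obtain ⟨C, hC⟩ := (ha p.1).2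
    obtain ⟨C', hC'⟩ := (ha' p.2).2
    exact ⟨C + C', fun x => (abs_add_le _ _).trans (add_le_add (hC x) (hC' x))⟩
  · have := H0 P hP
    have := H0' P hP
    positivity
  · simp only
    rw [Hadd P Q hP hQ hd, Hadd' P Q hP hQ hd]; ring
  · simp only; linarith
  · intro k κ hκ
    obtain ⟨N, hN⟩ := hN k (κ / 4) (by positivity)
    obtain ⟨N', hN'⟩ := hN' k (κ / 4) (by positivity)
    refine ⟨max N N', fun y hy => ?_⟩
    obtain ⟨q, hq, hP⟩ := hN y (Y_anti (le_max_left _ _) k hy)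
    obtain ⟨q', hq', hP'⟩ := hN' y (Y_anti (le_max_right _ _) k hy)
    refine ⟨fun x => (q x, q' x), fun p => ?_, fun P hPm => ?_⟩
    · have : (fun x => (q x, q' x)) ⁻¹' {p} = q ⁻¹' {p.1} ∩ q' ⁻¹' {p.2} := by
        ext x
        simp [Prod.ext_iff]
      rw [this]
      exact @MeasurableSet.inter X (Rig μ τ) _ _ (hq p.1) (hq' p.2)
    · have hs := (APC_diff_memLp hτ φ h1 y a ha q hq).integrable_sq
      have ht := (APC_diff_memLp hτ ψ h2 y a' ha' q' hq').integrable_sq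
      have e1 : ∫ x in P, (φ (τ y x) + ψ (τ y x) - (a (q x) x + a' (q' x) x)) ^ 2 ∂μ ≤
          ∫ x in P, (2 * (φ (τ y x) - a (q x) x) ^ 2 + 2 * (ψ (τ y x) - a' (q' x) x) ^ 2) ∂μ := by
        refine integral_mono_of_nonneg (Filter.Eventually.of_forall fun x => sq_nonneg _)
          ((hs.const_mul 2).integrableOn.add (ht.const_mul 2).integrableOn)
          (Filter.Eventually.of_forall fun x => ?_)
        simp only
        nlinarith [sq_nonneg ((φ (τ y x) - a (q x) x) - (ψ (τ y x) - a' (q' x) x))]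
      rw [integral_add (hs.const_mul 2).integrableOn (ht.const_mul 2).integrableOn,
        integral_const_mul, integral_const_mul] at e1
      have := hP P hPm
      have := hP' P hPm
      simp only
      linarith

theorem AP_smul (hτ : Act μ τ) (r : ℝ) (φ : X → ℝ) (h1 : MemLp φ 2 μ)
    (hφ : AP μ τ φ) : AP μ τ (fun x => r * φ x) := by
  intro η hη
  have hr : 0 < r ^ 2 + 1 := by positivity
  obtain ⟨ι, hι, a, ha, H, H0, Hadd, Hη, hN⟩ := hφ (η / (r ^ 2 + 1)) (by positivity)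
  refine ⟨ι, hι, fun i x => r * a i x, fun i => ⟨(ha i).1.const_mul r, ?_⟩,
    fun P => r ^ 2 * H P, fun P hP => ?_, fun P Q hP hQ hd => ?_, ?_, ?_⟩
  · obtain ⟨C, hC⟩ := (ha i).2
    exact ⟨|r| * C, fun x => by
      rw [abs_mul]; exact mul_le_mul_of_nonneg_left (hC x) (abs_nonneg _)⟩
  · have := H0 P hP
    positivity
  · simp only
    rw [Hadd P Q hP hQ hd]; ring
  · have h3 : (r ^ 2 + 1) * (η / (r ^ 2 + 1)) = η := by field_simp
    have h4 : 0 ≤ H Set.univ := H0 _ (@MeasurableSet.univ X (Rig μ τ))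
    simp only
    nlinarith
  · intro k κ hκ
    obtain ⟨N, hN⟩ := hN k (κ / (r ^ 2 + 1)) (by positivity)
    refine ⟨N, fun y hy => ?_⟩
    obtain ⟨q, hq, hP⟩ := hN y hy
    refine ⟨q, hq, fun P hPm => ?_⟩
    have e1 : ∫ x in P, (r * φ (τ y x) - r * a (q x) x) ^ 2 ∂μ =
        r ^ 2 * ∫ x in P, (φ (τ y x) - a (q x) x) ^ 2 ∂μ := by
      rw [← integral_const_mul]
      refine integral_congr_ae (Filter.Eventually.of_forall fun x => ?_)
      simp only; ring
    simp only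
    rw [e1]
    have h3 : (r ^ 2 + 1) * (κ / (r ^ 2 + 1)) = κ := by field_simp
    have h5 := hP P hPm
    have h6 : 0 < κ / (r ^ 2 + 1) := by positivity
    nlinarith [sq_nonneg r, mul_le_mul_of_nonneg_left h5 (sq_nonneg r)]

theorem APC_clip_sq (s t : ℝ) :
    (max 0 (min 1 s) - max 0 (min 1 t)) ^ 2 ≤ (s - t) ^ 2 := by
  have h1 : |max 0 (min 1 s) - max 0 (min 1 t)| ≤ |s - t| := by
    refine (abs_max_sub_max_le_max 0 (min 1 s) 0 (min 1 t)).trans ?_
    rw [sub_self, abs_zero]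
    refine max_le (abs_nonneg _) ?_
    refine (abs_min_sub_min_le_max 1 s 1 t).trans ?_
    rw [sub_self, abs_zero]
    exact max_le (abs_nonneg _) le_rfl
  exact sq_le_sq.mpr h1

/-- clipping is 1-Lipschitz -/
theorem AP_clip (hτ : Act μ τ) (φ : X → ℝ) (h1 : MemLp φ 2 μ)
    (hφ : AP μ τ φ) : AP μ τ (fun x => max 0 (min 1 (φ x))) := by
  intro η hη
  obtain ⟨ι, hι, a, ha, H, H0, Hadd, Hη, hN⟩ := hφ η hη
  refine ⟨ι, hι, fun i x => max 0 (min 1 (a i x)), fun i => ⟨?_, 1, ?_⟩, H, H0, Hadd, Hη, ?_⟩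
  · exact measurable_const.max (measurable_const.min (ha i).1)
  · intro x
    rw [abs_of_nonneg (le_max_left _ _)]
    exact max_le zero_le_one (min_le_left _ _)
  · intro k κ hκ
    obtain ⟨N, hN⟩ := hN k κ hκ
    refine ⟨N, fun y hy => ?_⟩
    obtain ⟨q, hq, hP⟩ := hN y hy
    refine ⟨q, hq, fun P hPm => ?_⟩
    refine le_trans ?_ (hP P hPm)
    exact integral_mono_of_nonneg (Filter.Eventually.of_forall fun x => sq_nonneg _)
      (APC_diff_memLp hτ φ h1 y a ha q hq).integrable_sq.integrableOn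
      (Filter.Eventually.of_forall fun x => APC_clip_sq _ _)

/-- the action by one element as a measurable equivalence -/
noncomputable def APC_eqv (hτ : Act μ τ) (z : A) : X ≃ᵐ X where
  toFun := τ z
  invFun := τ (-z)
  left_inv x := by rw [← hτ.add, neg_add_cancel, hτ.zero]
  right_inv x := by rw [← hτ.add, add_neg_cancel, hτ.zero]
  measurable_toFun := (hτ.mp z).measurable
  measurable_invFun := (hτ.mp (-z)).measurable

theorem AP_comp (hτ : Act μ τ) (z : A) (φ : X → ℝ) (h1 : MemLp φ 2 μ)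
    (hφ : AP μ τ φ) : AP μ τ (fun x => φ (τ z x)) := by
  intro η hη
  obtain ⟨ι, hι, a, ha, H, H0, Hadd, Hη, hN⟩ := hφ η hη
  refine ⟨ι, hι, fun i x => a i (τ z x), fun i => ⟨?_, ?_⟩,
    fun P => H (τ (-z) ⁻¹' P), fun P hP => H0 _ (rig_pre hτ (-z) hP), fun P Q hP hQ hd => ?_,
    ?_, ?_⟩
  · exact (ha i).1.comp (hτ.mp z).measurable
  · obtain ⟨C, hC⟩ := (ha i).2
    exact ⟨C, fun x => hC _⟩
  · simp only
    rw [Set.preimage_union]
    exact Hadd _ _ (rig_pre hτ _ hP) (rig_pre hτ _ hQ) (hd.preimage _)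
  · simpa using Hη
  · intro k κ hκ
    obtain ⟨N, hN⟩ := hN k κ hκ
    refine ⟨N, fun y hy => ?_⟩
    obtain ⟨q, hq, hP⟩ := hN y hy
    refine ⟨fun x => q (τ z x), fun i => ?_, fun P hPm => ?_⟩
    · exact rig_pre hτ z (hq i)
    · have e1 : τ z ⁻¹' (τ (-z) ⁻¹' P) = P := by
        ext x
        simp only [Set.mem_preimage]
        rw [← hτ.add, neg_add_cancel, hτ.zero]
      have e2 : ∫ x in P, (φ (τ z (τ y x)) - a (q (τ z x)) (τ z x)) ^ 2 ∂μ =
          ∫ x in τ (-z) ⁻¹' P, (φ (τ y x) - a (q x) x) ^ 2 ∂μ := by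
        have h3 := (hτ.mp z).setIntegral_preimage_emb (APC_eqv hτ z).measurableEmbedding
          (fun x => (φ (τ y x) - a (q x) x) ^ 2) (τ (-z) ⁻¹' P)
        rw [← h3, e1]
        refine integral_congr_ae (Filter.Eventually.of_forall fun x => ?_)
        simp only
        rw [← hτ.add, ← hτ.add, add_comm z y]
      simp only
      rw [e2]
      exact hP _ (rig_pre hτ _ hPm)

end Pool.Agent.H76.CR
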