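import Pool.Agent.H76.CR.FixB
import Pool.Agent.H76.CR.Cex

set_option autoImplicit false
open MeasureTheory
open scoped symmDiff ENNReal
namespace Pool.Agent.H76.CR

variable {X : Type} [m0 : MeasurableSpace X] {μ : Measure X} [IsProbabilityMeasure μ]
  {τ : A → X → X}

/-- gluing of finitely many bounded measurable functions along a rigid-measurable index -/
theorem APL_glue (hτ : Act μ τ) {ι : Type} [Finite ι] (a : ι → X → ℝ) (ha : ∀ i, BM (a i))
    (q : X → ι) (hq : ∀ i, MeasurableSet[Rig μ τ] (q ⁻¹' {i})) :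
    BM (fun x => a (q x) x) := by
  classical
  have := Fintype.ofFinite ι
  choose hm C hC using ha
  have hle := rig_le hτ
  have heq : (fun x => a (q x) x) = fun x => ∑ i, (q ⁻¹' {i}).indicator (a i) x := by
    funext x
    rw [Finset.sum_eq_single (q x)]
    · simp
    · intro i _ hi
      apply Set.indicator_of_notMem
      simp only [Set.mem_preimage, Set.mem_singleton_iff]
      exact fun h => hi h.symm
    · simp
  refine ⟨?_, ∑ i, |C i|, ?_⟩
  · rw [heq]
    apply Finset.measurable_sum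
    intro i _
    exact (hm i).indicator (hle _ (hq i))
  · intro x
    calc |a (q x) x| ≤ C (q x) := hC _ _
      _ ≤ |C (q x)| := le_abs_self _
      _ ≤ ∑ i, |C i| := Finset.single_le_sum (f := fun i => |C i|) (fun i _ => abs_nonneg _)
          (Finset.mem_univ _)

/-- APL: closed under L^2 limits. `H P = 2 H' P + 2 ∫_P e`, `e = E((φ-φ')^2 | Rig)`;
`∫_P (φ-φ')^2 ∘ τ_y = ∫_P e ∘ τ_y ≤ ∫_P e + ∫ |e ∘ τ_y - e|` and `fix1_of_rig`. -/
theorem AP_lim (hτ : Act μ τ) (φ : X → ℝ) (h1 : MemLp φ 2 μ)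
    (h : ∀ ρ : ℝ, 0 < ρ → ∃ φ' : X → ℝ, MemLp φ' 2 μ ∧ AP μ τ φ' ∧
      ∫ x, (φ x - φ' x) ^ 2 ∂μ ≤ ρ) : AP μ τ φ := by
  intro η hη
  obtain ⟨φ', h2, hAP, hρ⟩ := h (η / 4) (by positivity)
  obtain ⟨ι, hι, a, ha, H', H'0, H'add, H'η, hk⟩ := hAP (η / 4) (by positivity)
  have hle := rig_le hτ
  have hd2 : MemLp (fun x => φ x - φ' x) 2 μ := h1.sub h2
  have hdi : Integrable (fun x => (φ x - φ' x) ^ 2) μ := hd2.integrable_sq
  refine ⟨ι, hι, a, ha, fun P => 2 * H' P + 2 * ∫ x in P, (φ x - φ' x) ^ 2 ∂μ, ?_, ?_, ?_, ?_⟩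
  · intro P hP
    have := H'0 P hP
    have h3 : 0 ≤ ∫ x in P, (φ x - φ' x) ^ 2 ∂μ := integral_nonneg (fun x => sq_nonneg _)
    positivity
  · intro P Q hP hQ hPQ
    simp only
    rw [H'add P Q hP hQ hPQ, setIntegral_union hPQ (hle _ hQ) hdi.integrableOn hdi.integrableOn]
    ring
  · simp only [setIntegral_univ]
    linarith
  · intro k κ hκ
    obtain ⟨N1, hN1⟩ := hk k (κ / 4) (by positivity)
    set e : X → ℝ := CE μ τ (fun x => (φ x - φ' x) ^ 2) with he
    have hem : StronglyMeasurable[Rig μ τ] e := stronglyMeasurable_condExp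
    have hei : Integrable e μ := integrable_condExp
    obtain ⟨N2, hN2⟩ := fix1_of_rig hτ e hei hem.aestronglyMeasurable k (κ / 4) (by positivity)
    refine ⟨max N1 N2, fun y hy => ?_⟩
    have hy1 := Y_anti (le_max_left N1 N2) k hy
    have hy2 := Y_anti (le_max_right N1 N2) k hy
    obtain ⟨q, hq, hqP⟩ := hN1 y hy1
    refine ⟨q, hq, fun P hP => ?_⟩
    have hP0 : MeasurableSet P := hle _ hP
    have hmp := hτ.mp y
    have hglue := APL_glue hτ a ha q hq
    obtain ⟨hgm, C, hgC⟩ := hglue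
    have hg2 : MemLp (fun x => a (q x) x) 2 μ :=
      MemLp.of_bound hgm.aestronglyMeasurable C (Filter.Eventually.of_forall (fun x => by
        rw [Real.norm_eq_abs]; exact hgC x))
    have hφ'y : MemLp (fun x => φ' (τ y x)) 2 μ := h2.comp_measurePreserving hmp
    have hi1 : Integrable (fun x => (φ' (τ y x) - a (q x) x) ^ 2) μ :=
      (hφ'y.sub hg2).integrable_sq
    have hdy : MemLp (fun x => φ (τ y x) - φ' (τ y x)) 2 μ := hd2.comp_measurePreserving hmp
    have hi2 : Integrable (fun x => (φ (τ y x) - φ' (τ y x)) ^ 2) μ := hdy.integrable_sq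
    have hφy : MemLp (fun x => φ (τ y x)) 2 μ := h1.comp_measurePreserving hmp
    have hi3 : Integrable (fun x => (φ (τ y x) - a (q x) x) ^ 2) μ :=
      (hφy.sub hg2).integrable_sq
    -- step 1
    have s1 : ∫ x in P, (φ (τ y x) - a (q x) x) ^ 2 ∂μ ≤
        2 * ∫ x in P, (φ (τ y x) - φ' (τ y x)) ^ 2 ∂μ +
          2 * ∫ x in P, (φ' (τ y x) - a (q x) x) ^ 2 ∂μ := by
      rw [← integral_const_mul, ← integral_const_mul, ← integral_add
        (hi2.integrableOn.const_mul 2) (hi1.integrableOn.const_mul 2)]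
      refine integral_mono hi3.integrableOn ((hi2.integrableOn.const_mul 2).add
        (hi1.integrableOn.const_mul 2)) (fun x => ?_)
      simp only
      nlinarith [sq_nonneg ((φ (τ y x) - φ' (τ y x)) - (φ' (τ y x) - a (q x) x))]
    -- step 2
    have s2 : ∫ x in P, (φ (τ y x) - φ' (τ y x)) ^ 2 ∂μ =
        ∫ x in P, e (τ y x) ∂μ := by
      have c1 : ∫ x in P, CE μ τ (fun x => (φ (τ y x) - φ' (τ y x)) ^ 2) x ∂μ =
          ∫ x in P, (φ (τ y x) - φ' (τ y x)) ^ 2 ∂μ := setIntegral_condExp hle hi2 hP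
      rw [← c1]
      refine setIntegral_congr_ae hP0 ?_
      filter_upwards [CE_comp hτ y (fun x => (φ x - φ' x) ^ 2) hdi] with x hx _
      exact hx
    have s3 : ∫ x in P, e x ∂μ = ∫ x in P, (φ x - φ' x) ^ 2 ∂μ := setIntegral_condExp hle hdi hP
    have hey : Integrable (fun x => e (τ y x)) μ := (hmp.integrable_comp
      hei.aestronglyMeasurable).2 hei
    have hdf : Integrable (fun x => |e (τ y x) - e x|) μ := (hey.sub hei).abs
    have s4 : ∫ x in P, e (τ y x) ∂μ ≤ ∫ x in P, e x ∂μ + κ / 4 := by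
      have b1 : ∫ x in P, e (τ y x) ∂μ ≤ ∫ x in P, (e x + |e (τ y x) - e x|) ∂μ := by
        refine integral_mono hey.integrableOn (hei.integrableOn.add hdf.integrableOn) (fun x => ?_)
        simp only
        linarith [le_abs_self (e (τ y x) - e x)]
      rw [integral_add hei.integrableOn hdf.integrableOn] at b1
      have b2 : ∫ x in P, |e (τ y x) - e x| ∂μ ≤ ∫ x, |e (τ y x) - e x| ∂μ :=
        setIntegral_le_integral hdf (Filter.Eventually.of_forall (fun x => abs_nonneg _))
      have b3 := hN2 y hy2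
      linarith
    have s5 := hqP P hP
    simp only
    rw [s2] at s1
    linarith

end Pool.Agent.H76.CR
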