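import Pool.Agent.H76.CR.FixB
import Pool.Agent.H76.CR.Cex

set_option autoImplicit false
open MeasureTheory
open scoped symmDiff ENNReal
namespace Pool.Agent.H76.CR

/-- disjoint refinement of a finite family of measurable sets -/
theorem blem_cover {X V' : Type} (m : MeasurableSpace X) (V : Finset V') (M : V' → Set X)
    (hM : ∀ v ∈ V, MeasurableSet[m] (M v)) :
    ∃ P : V' → Set X, (∀ v ∈ V, MeasurableSet[m] (P v)) ∧ (∀ v ∈ V, P v ⊆ M v) ∧
      (∀ v ∈ V, ∀ w ∈ V, v ≠ w → Disjoint (P v) (P w)) ∧ (⋃ v ∈ V, P v) = ⋃ v ∈ V, M v := by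
  classical
  induction V using Finset.induction_on with
  | empty => exact ⟨M, by simp, by simp, by simp, by simp⟩
  | insert a s ha ih =>
    obtain ⟨P, h1, h2, h3, h4⟩ := ih fun v hv => hM v (Finset.mem_insert_of_mem hv)
    have hU : MeasurableSet[m] (⋃ v ∈ s, P v) := Finset.measurableSet_biUnion s h1
    have hne : ∀ v ∈ s, v ≠ a := fun v hv h => ha (h ▸ hv)
    refine ⟨Function.update P a (M a \ ⋃ v ∈ s, P v), ?_, ?_, ?_, ?_⟩
    · intro v hv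
      rcases Finset.mem_insert.1 hv with rfl | hv'
      · rw [Function.update_self]
        exact (hM v hv).diff hU
      · rw [Function.update_of_ne (hne v hv')]
        exact h1 v hv'
    · intro v hv
      rcases Finset.mem_insert.1 hv with rfl | hv'
      · rw [Function.update_self]
        exact Set.sdiff_subset
      · rw [Function.update_of_ne (hne v hv')]
        exact h2 v hv'
    · intro v hv w hw hvw
      rcases Finset.mem_insert.1 hv with rfl | hv'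
      · rcases Finset.mem_insert.1 hw with rfl | hw'
        · exact absurd rfl hvw
        · rw [Function.update_self, Function.update_of_ne (hne w hw')]
          rw [Set.disjoint_left]
          intro x hx hx'
          exact hx.2 (Set.mem_biUnion hw' hx')
      · rcases Finset.mem_insert.1 hw with rfl | hw'
        · rw [Function.update_self, Function.update_of_ne (hne v hv')]
          rw [Set.disjoint_left]
          intro x hx hx'
          exact hx'.2 (Set.mem_biUnion hv' hx)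
        · rw [Function.update_of_ne (hne v hv'), Function.update_of_ne (hne w hw')]
          exact h3 v hv' w hw' hvw
    · rw [Finset.set_biUnion_insert, Finset.set_biUnion_insert, Function.update_self]
      have h5 : (⋃ v ∈ s, Function.update P a (M a \ ⋃ v ∈ s, P v) v) = ⋃ v ∈ s, P v := by
        refine Set.iUnion₂_congr fun v hv => ?_
        rw [Function.update_of_ne (hne v hv)]
      rw [h5, Set.sdiff_union_self, h4]

/-- superadditivity -/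
theorem blem_H {X V' : Type} (m : MeasurableSpace X) (H : Set X → ℝ)
    (h0 : ∀ P, MeasurableSet[m] P → 0 ≤ H P)
    (hadd : ∀ P Q, MeasurableSet[m] P → MeasurableSet[m] Q → Disjoint P Q →
        H (P ∪ Q) = H P + H Q) (V : Finset V') (P : V' → Set X)
    (hP : ∀ v ∈ V, MeasurableSet[m] (P v))
    (hd : ∀ v ∈ V, ∀ w ∈ V, v ≠ w → Disjoint (P v) (P w)) :
    ∑ v ∈ V, H (P v) ≤ H Set.univ := by
  classical
  have hemp : H ∅ = 0 := by
    have := hadd ∅ ∅ MeasurableSet.empty MeasurableSet.empty (Set.disjoint_empty _)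
    rw [Set.union_empty] at this
    linarith
  have h1 : H (⋃ v ∈ V, P v) = ∑ v ∈ V, H (P v) := by
    induction V using Finset.induction_on with
    | empty => simp [hemp]
    | insert a s ha ih =>
      rw [Finset.set_biUnion_insert, Finset.sum_insert ha, hadd _ _
        (hP a (Finset.mem_insert_self a s))
        (Finset.measurableSet_biUnion s fun v hv => hP v (Finset.mem_insert_of_mem hv)),
        ih (fun v hv => hP v (Finset.mem_insert_of_mem hv))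
          (fun v hv w hw => hd v (Finset.mem_insert_of_mem hv) w (Finset.mem_insert_of_mem hw))]
      rw [Set.disjoint_iUnion₂_right]
      intro v hv
      exact hd a (Finset.mem_insert_self a s) v (Finset.mem_insert_of_mem hv)
        fun h => ha (h ▸ hv)
  have hU : MeasurableSet[m] (⋃ v ∈ V, P v) := Finset.measurableSet_biUnion V hP
  have h2 := hadd _ _ hU hU.compl disjoint_compl_right
  rw [Set.union_compl_self] at h2
  have h3 := h0 _ hU.compl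
  linarith

theorem blem_pt {t0 t1 t2 s α : ℝ} (h0 : 0 ≤ t0 ∧ t0 ≤ 1)
    (h2 : 0 ≤ t2 ∧ t2 ≤ 1) (hs : 0 ≤ s) (hα : 0 < α) :
    3 * s ^ 2 * t0 - 2 * s ^ 3 - α - 1 / (2 * α) * ((t1 - t0) ^ 2 + (t2 - t0) ^ 2) ≤
      t0 * t1 * t2 := by
  have e1 : 3 * s ^ 2 * t0 - 2 * s ^ 3 ≤ t0 ^ 3 := by
    have : 0 ≤ (t0 - s) ^ 2 * (t0 + 2 * s) := by
      have := h0.1
      positivity
    nlinarith
  have e2 : ∀ z : ℝ, |z| ≤ α / 2 + 1 / (2 * α) * z ^ 2 := by
    intro z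
    have h3 : α / 2 + 1 / (2 * α) * z ^ 2 - |z| = (α - |z|) ^ 2 / (2 * α) := by
      rw [← sq_abs z]
      field_simp
      ring
    have h4 : 0 ≤ (α - |z|) ^ 2 / (2 * α) := by positivity
    linarith
  have e3 : t0 ^ 3 - |t1 - t0| - |t2 - t0| ≤ t0 * t1 * t2 := by
    have h3 : t0 * t1 * t2 - t0 ^ 3 = t0 * t2 * (t1 - t0) + t0 ^ 2 * (t2 - t0) := by ring
    have h4 : -|t1 - t0| ≤ t0 * t2 * (t1 - t0) := by
      have h5 : |t0 * t2 * (t1 - t0)| ≤ |t1 - t0| := by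
        rw [abs_mul, abs_of_nonneg (mul_nonneg h0.1 h2.1)]
        have h6 : t0 * t2 ≤ 1 := mul_le_one₀ h0.2 h2.1 h2.2
        nlinarith [abs_nonneg (t1 - t0)]
      have := neg_abs_le (t0 * t2 * (t1 - t0))
      linarith
    have h7 : -|t2 - t0| ≤ t0 ^ 2 * (t2 - t0) := by
      have h5 : |t0 ^ 2 * (t2 - t0)| ≤ |t2 - t0| := by
        rw [abs_mul, abs_of_nonneg (sq_nonneg t0)]
        have h6 : t0 ^ 2 ≤ 1 := pow_le_one₀ h0.1 h0.2
        nlinarith [abs_nonneg (t2 - t0)]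
      have := neg_abs_le (t0 ^ 2 * (t2 - t0))
      linarith
    linarith
  have e4 := e2 (t1 - t0)
  have e5 := e2 (t2 - t0)
  nlinarith

variable {X : Type} [m0 : MeasurableSpace X] {μ : Measure X} [IsProbabilityMeasure μ]
  {τ : A → X → X}

theorem blem_aq {ι : Type} [Finite ι] (a : ι → X → ℝ)
    (ha : ∀ i, BM (a i)) (q : X → ι) (hq : ∀ i, MeasurableSet (q ⁻¹' {i})) :
    BM (fun x => a (q x) x) := by
  classical
  have := Fintype.ofFinite ι
  constructor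
  · have h1 : (fun x => a (q x) x) = fun x => ∑ i, (q ⁻¹' {i}).indicator (a i) x := by
      funext x
      rw [Finset.sum_eq_single (q x)]
      · rw [Set.indicator_of_mem]
        rfl
      · intro i _ hi
        rw [Set.indicator_of_notMem]
        intro h
        exact hi h.symm
      · intro h
        exact absurd (Finset.mem_univ _) h
    rw [h1]
    exact Finset.measurable_fun_sum _ fun i _ => (ha i).1.indicator (hq i)
  · choose C hC using fun i => (ha i).2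
    refine ⟨∑ i, |C i|, fun x => (hC (q x) x).trans ((le_abs_self _).trans ?_)⟩
    exact Finset.single_le_sum (f := fun i => |C i|) (fun i _ => abs_nonneg _)
      (Finset.mem_univ (q x))

theorem BM.integrable {f : X → ℝ} (hf : BM f) : Integrable f μ := by
  obtain ⟨C, hC⟩ := hf.2
  exact Integrable.of_bound hf.1.aestronglyMeasurable C (Filter.Eventually.of_forall hC)

theorem blem_BM_sub_sq {f g : X → ℝ} (hf : BM f) (hg : BM g) :
    BM (fun x => (f x - g x) ^ 2) := by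
  obtain ⟨C, hC⟩ := hf.2
  obtain ⟨C', hC'⟩ := hg.2
  refine ⟨(hf.1.sub hg.1).pow_const 2, (C + C') ^ 2, fun x => ?_⟩
  show |(f x - g x) ^ 2| ≤ (C + C') ^ 2
  rw [abs_of_nonneg (sq_nonneg _), ← sq_abs (f x - g x)]
  refine pow_le_pow_left₀ (abs_nonneg _) ?_ 2
  exact (abs_sub _ _).trans (add_le_add (hC x) (hC' x))

/-- the local estimate -/
theorem blem_loc (hτ : Act μ τ) (f : X → ℝ) (hf : Measurable f) (h01 : ∀ x, 0 ≤ f x ∧ f x ≤ 1)
    {ι : Type} [Finite ι] (a : ι → X → ℝ) (ha : ∀ i, BM (a i)) (y : Fin 3 → A)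
    (q : Fin 3 → X → ι) (hq : ∀ t i, MeasurableSet[Rig μ τ] (q t ⁻¹' {i}))
    (P : Set X) (hP : MeasurableSet[Rig μ τ] P) (r : ℝ)
    (hr : ∀ t, ∫ x in P, (f (τ (y t) x) - a (q t x) x) ^ 2 ∂μ ≤ r)
    (hq1 : ∀ x ∈ P, q 1 x = q 0 x) (hq2 : ∀ x ∈ P, q 2 x = q 0 x) {s α : ℝ} (hs : 0 ≤ s)
    (hα : 0 < α) (hF : ∀ x ∈ P, s ≤ CE μ τ f (τ (y 0) x)) :
    (s ^ 3 - α) * μ.real P - 4 / α * r ≤
      ∫ x, f (τ (y 0) x) * f (τ (y 1) x) * f (τ (y 2) x) ∂μ := by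
  have hPm : MeasurableSet P := rig_le hτ _ hP
  have hfBM : ∀ t, BM (fun x => f (τ (y t) x)) := fun t =>
    ⟨hf.comp (hτ.mp (y t)).measurable, 1, fun x => by
      rw [abs_of_nonneg (h01 _).1]
      exact (h01 _).2⟩
  have haq : ∀ t, BM (fun x => a (q t x) x) := fun t =>
    blem_aq a ha (q t) fun i => rig_le hτ _ (hq t i)
  have hI : ∀ {g : X → ℝ}, BM g → IntegrableOn g P μ := fun hg => hg.integrable.integrableOn
  -- comparison with `b`
  have hsame : ∀ t, ∫ x in P, (f (τ (y t) x) - a (q 0 x) x) ^ 2 ∂μ ≤ r := by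
    intro t
    refine le_trans (le_of_eq ?_) (hr t)
    refine setIntegral_congr_fun hPm fun x hx => ?_
    have : q t x = q 0 x := by
      fin_cases t
      · rfl
      · exact hq1 x hx
      · exact hq2 x hx
    simp only [this]
  have hdiff : ∀ t, ∫ x in P, (f (τ (y t) x) - f (τ (y 0) x)) ^ 2 ∂μ ≤ 4 * r := by
    intro t
    have h1 : ∫ x in P, (f (τ (y t) x) - f (τ (y 0) x)) ^ 2 ∂μ ≤
        ∫ x in P, (2 * (f (τ (y t) x) - a (q 0 x) x) ^ 2 +
          2 * (f (τ (y 0) x) - a (q 0 x) x) ^ 2) ∂μ := by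
      refine setIntegral_mono_on (hI (blem_BM_sub_sq (hfBM t) (hfBM 0))) ?_ hPm fun x _ => ?_
      · exact ((hI (blem_BM_sub_sq (hfBM t) (haq 0))).const_mul 2).add
          ((hI (blem_BM_sub_sq (hfBM 0) (haq 0))).const_mul 2)
      · nlinarith [sq_nonneg ((f (τ (y t) x) - a (q 0 x) x) + (f (τ (y 0) x) - a (q 0 x) x))]
    rw [integral_add ((hI (blem_BM_sub_sq (hfBM t) (haq 0))).const_mul 2)
      ((hI (blem_BM_sub_sq (hfBM 0) (haq 0))).const_mul 2), integral_const_mul,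
      integral_const_mul] at h1
    have h2 := hsame t
    have h3 := hsame 0
    linarith
  -- the mass of `f ∘ τ_{y 0}`
  have hmass : s * μ.real P ≤ ∫ x in P, f (τ (y 0) x) ∂μ := by
    have h1 : ∫ x in P, f (τ (y 0) x) ∂μ = ∫ x in P, CE μ τ (fun x => f (τ (y 0) x)) x ∂μ := by
      unfold CE
      rw [setIntegral_condExp (rig_le hτ) (hfBM 0).integrable hP]
    have hfi : Integrable f μ := BM.integrable ⟨hf, 1, fun x => by
      rw [abs_of_nonneg (h01 _).1]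
      exact (h01 _).2⟩
    have h2 : ∫ x in P, CE μ τ (fun x => f (τ (y 0) x)) x ∂μ =
        ∫ x in P, CE μ τ f (τ (y 0) x) ∂μ :=
      integral_congr_ae (ae_restrict_of_ae (CE_comp hτ (y 0) f hfi))
    have hint : Integrable (fun x => CE μ τ f (τ (y 0) x)) μ :=
      (integrable_condExp (f := fun x => f (τ (y 0) x)) (m := Rig μ τ)).congr
        (CE_comp hτ (y 0) f hfi)
    have h3 : ∫ _x in P, s ∂μ ≤ ∫ x in P, CE μ τ f (τ (y 0) x) ∂μ :=
      setIntegral_mono_on (integrable_const s).integrableOn hint.integrableOn hPm hF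
    rw [setIntegral_const, smul_eq_mul] at h3
    rw [h1, h2]
    linarith
  have hprod : BM (fun x => f (τ (y 0) x) * f (τ (y 1) x) * f (τ (y 2) x)) := by
    refine ⟨((hfBM 0).1.mul (hfBM 1).1).mul (hfBM 2).1, 1, fun x => ?_⟩
    have h0 := h01 (τ (y 0) x)
    have h1 := h01 (τ (y 1) x)
    have h2 := h01 (τ (y 2) x)
    rw [abs_of_nonneg (mul_nonneg (mul_nonneg h0.1 h1.1) h2.1)]
    exact mul_le_one₀ (mul_le_one₀ h0.2 h1.1 h1.2) h2.1 h2.2
  obtain ⟨c, hc⟩ : ∃ c : ℝ, c = 2 * s ^ 3 + α := ⟨_, rfl⟩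
  obtain ⟨b, hb⟩ : ∃ b : ℝ, b = 1 / (2 * α) := ⟨_, rfl⟩
  have hi1 : IntegrableOn (fun x => 3 * s ^ 2 * f (τ (y 0) x)) P μ := (hI (hfBM 0)).const_mul _
  have hi2 : IntegrableOn (fun _ : X => c) P μ := (integrable_const c).integrableOn
  have hi3 : IntegrableOn (fun x => 3 * s ^ 2 * f (τ (y 0) x) - c) P μ := hi1.sub hi2
  have hi4 : IntegrableOn (fun x => (f (τ (y 1) x) - f (τ (y 0) x)) ^ 2) P μ :=
    hI (blem_BM_sub_sq (hfBM 1) (hfBM 0))
  have hi5 : IntegrableOn (fun x => (f (τ (y 2) x) - f (τ (y 0) x)) ^ 2) P μ :=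
    hI (blem_BM_sub_sq (hfBM 2) (hfBM 0))
  have hi6 : IntegrableOn (fun x => b * ((f (τ (y 1) x) - f (τ (y 0) x)) ^ 2 +
      (f (τ (y 2) x) - f (τ (y 0) x)) ^ 2)) P μ := (hi4.add hi5).const_mul b
  have hi7 : IntegrableOn (fun x => 3 * s ^ 2 * f (τ (y 0) x) - c - b *
      ((f (τ (y 1) x) - f (τ (y 0) x)) ^ 2 + (f (τ (y 2) x) - f (τ (y 0) x)) ^ 2)) P μ :=
    hi3.sub hi6
  have hlow : ∫ x in P, (3 * s ^ 2 * f (τ (y 0) x) - c - b *
      ((f (τ (y 1) x) - f (τ (y 0) x)) ^ 2 + (f (τ (y 2) x) - f (τ (y 0) x)) ^ 2)) ∂μ ≤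
      ∫ x in P, f (τ (y 0) x) * f (τ (y 1) x) * f (τ (y 2) x) ∂μ := by
    refine setIntegral_mono_on hi7 (hI hprod) hPm fun x _ => ?_
    have := blem_pt (α := α) (h01 (τ (y 0) x)) (t1 := f (τ (y 1) x)) (h01 (τ (y 2) x)) hs hα
    rw [hc, hb]
    linarith
  have hsum : ∫ x in P, (3 * s ^ 2 * f (τ (y 0) x) - c - b *
      ((f (τ (y 1) x) - f (τ (y 0) x)) ^ 2 + (f (τ (y 2) x) - f (τ (y 0) x)) ^ 2)) ∂μ =
      3 * s ^ 2 * ∫ x in P, f (τ (y 0) x) ∂μ - c * μ.real P - b *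
      (∫ x in P, (f (τ (y 1) x) - f (τ (y 0) x)) ^ 2 ∂μ +
        ∫ x in P, (f (τ (y 2) x) - f (τ (y 0) x)) ^ 2 ∂μ) := by
    rw [integral_sub hi3 hi6, integral_sub hi1 hi2, integral_const_mul, integral_const_mul,
      integral_add hi4 hi5, setIntegral_const, smul_eq_mul, mul_comm (μ.real P)]
  have hle : ∫ x in P, f (τ (y 0) x) * f (τ (y 1) x) * f (τ (y 2) x) ∂μ ≤
      ∫ x, f (τ (y 0) x) * f (τ (y 1) x) * f (τ (y 2) x) ∂μ :=
    setIntegral_le_integral hprod.integrable (Filter.Eventually.of_forall fun x =>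
      mul_nonneg (mul_nonneg (h01 _).1 (h01 _).1) (h01 _).1)
  have h4 := hdiff 1
  have h5 := hdiff 2
  have h6 : b * (∫ x in P, (f (τ (y 1) x) - f (τ (y 0) x)) ^ 2 ∂μ +
        ∫ x in P, (f (τ (y 2) x) - f (τ (y 0) x)) ^ 2 ∂μ) ≤ 4 / α * r := by
    have h7 : 4 / α * r = b * (4 * r + 4 * r) := by
      rw [hb]
      field_simp
      ring
    rw [h7]
    exact mul_le_mul_of_nonneg_left (add_le_add h4 h5) (by rw [hb]; positivity)
  have h8 : 3 * s ^ 2 * (s * μ.real P) ≤ 3 * s ^ 2 * ∫ x in P, f (τ (y 0) x) ∂μ :=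
    mul_le_mul_of_nonneg_left hmass (by positivity)
  have h9 : (s ^ 3 - α) * μ.real P = 3 * s ^ 2 * (s * μ.real P) - c * μ.real P := by
    rw [hc]
    ring
  linarith

omit [IsProbabilityMeasure μ] in
theorem blem_J3 (hτ : Act μ τ) (f : X → ℝ) (hf : Measurable f) (y0 y1 y2 e : A)
    (h1 : y1 = y0 + e) (h2 : y2 = y0 + (e + e)) :
    J3 μ τ f f f e = ∫ x, f (τ y0 x) * f (τ y1 x) * f (τ y2 x) ∂μ := by
  unfold J3
  have hm : ∀ c, Measurable (τ c) := fun c => (hτ.mp c).measurable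
  have hg : Measurable (fun x => f x * f (τ e x) * f (τ (e + e) x)) :=
    (hf.mul (hf.comp (hm e))).mul (hf.comp (hm (e + e)))
  have h3 := integral_map (μ := μ) (hm y0).aemeasurable
    (f := fun x => f x * f (τ e x) * f (τ (e + e) x)) hg.aestronglyMeasurable
  rw [(hτ.mp y0).map_eq] at h3
  rw [h3]
  refine integral_congr_ae (Filter.Eventually.of_forall fun x => ?_)
  simp only
  rw [← hτ.add, ← hτ.add, h1, h2, add_comm e y0, add_comm (e + e) y0]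

/-- the set where the conditional expectation is large -/
theorem blem_B1 (hτ : Act μ τ) (f : X → ℝ) (hf : Measurable f) (h01 : ∀ x, 0 ≤ f x ∧ f x ≤ 1)
    {s : ℝ} (hs : ∫ x, f x ∂μ = 2 * s) :
    MeasurableSet[Rig μ τ] {x | s ≤ CE μ τ f x} ∧ s ≤ μ.real {x | s ≤ CE μ τ f x} := by
  have h1 : MeasurableSet[Rig μ τ] {x | s ≤ CE μ τ f x} :=
    (stronglyMeasurable_condExp (μ := μ) (f := f) (m := Rig μ τ)).measurable measurableSet_Ici
  refine ⟨h1, ?_⟩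
  have h1m : MeasurableSet {x | s ≤ CE μ τ f x} := rig_le hτ _ h1
  have hs0 : 0 ≤ s := by
    have : 0 ≤ ∫ x, f x ∂μ := integral_nonneg fun x => (h01 x).1
    linarith
  have h2 : ∫ x, CE μ τ f x ∂μ = 2 * s := by
    unfold CE
    rw [integral_condExp (rig_le hτ), hs]
  have hint : Integrable (CE μ τ f) μ := integrable_condExp
  have h3 := integral_add_compl h1m hint
  have hb := CE_bdd hτ f hf 1 (fun x => by
    rw [abs_of_nonneg (h01 x).1]
    exact (h01 x).2)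
  have h4 : ∫ x in {x | s ≤ CE μ τ f x}, CE μ τ f x ∂μ ≤ μ.real {x | s ≤ CE μ τ f x} := by
    have h5 : ∫ x in {x | s ≤ CE μ τ f x}, CE μ τ f x ∂μ ≤
        ∫ _x in {x | s ≤ CE μ τ f x}, (1 : ℝ) ∂μ :=
      integral_mono_ae hint.integrableOn (integrable_const _)
        (ae_restrict_of_ae (hb.mono fun x hx => (abs_le.1 hx).2))
    rwa [setIntegral_const, smul_eq_mul, mul_one] at h5
  have h6 : ∫ x in {x | s ≤ CE μ τ f x}ᶜ, CE μ τ f x ∂μ ≤ s := by
    have h7 : ∫ x in {x | s ≤ CE μ τ f x}ᶜ, CE μ τ f x ∂μ ≤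
        ∫ _x in {x | s ≤ CE μ τ f x}ᶜ, s ∂μ :=
      setIntegral_mono_on hint.integrableOn (integrable_const _).integrableOn h1m.compl
        fun x hx => (le_of_lt (by
          by_contra hcon
          exact hx (not_lt.1 hcon)))
    rw [setIntegral_const, smul_eq_mul] at h7
    have h8 : μ.real {x | s ≤ CE μ τ f x}ᶜ ≤ 1 := measureReal_le_one
    nlinarith
  linarith

/-- BLEM (Lemma B of the write-up). `δ = ∫ f`, `F = CE f`, `B1 = {F ≥ δ/2}` (rigid, measure `≥ δ/2`).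
`AP` with small `η`: `ι`, `a`, `H`. `y w` gives the colour `q_w : X → ι`; `v x ∈ V` = a line
monochromatic for `w ↦ q_w x` (depends only on the finitely many rigid-measurable `q_w`, `w = θ t v`);
`P_v = {v x = v} ∩ {F (τ_{y (θ 0 v)} x) ≥ δ/2}`;
`∫_{P_v} |f∘τ_{y_t} - f∘τ_{y_0}|^2 ≤ 4 (H P_v + κ)`, `∫_{P_v} f∘τ_{y_0} = ∫_{P_v} F∘τ_{y_0} ≥ (δ/2) μ P_v`,
`t^3 ≥ 3 s^2 t - 2 s^3` with `s = δ/2`, `|s| ≤ α/2 + s^2/(2α)`, `∑ μ P_v ≥ δ/4`, `∑ H P_v ≤ η`. -/
theorem blem (hτ : Act μ τ) (f : X → ℝ) (hf : Measurable f) (h01 : ∀ x, 0 ≤ f x ∧ f x ≤ 1)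
    (hAP : AP μ τ f) (hδ : 0 < ∫ x, f x ∂μ) :
    ∃ c0 : ℝ, 0 < c0 ∧ ∃ (ι : Type) (_ : Finite ι), ∀ (W V' : Type) (V : Finset V')
      (θ : Fin 3 → V' → W),
      (∀ χ : W → ι, ∃ v ∈ V, χ (θ 0 v) = χ (θ 1 v) ∧ χ (θ 0 v) = χ (θ 2 v)) →
      ∀ k : ℕ, ∃ N : ℕ, ∀ (y : W → A) (ε : V' → A),
        (∀ v ∈ V, ∀ t, y (θ t v) ∈ Y N k) →
        (∀ v ∈ V, y (θ 1 v) = y (θ 0 v) + ε v ∧ y (θ 2 v) = y (θ 0 v) + (ε v + ε v)) →
        c0 ≤ ∑ v ∈ V, J3 μ τ f f f (ε v) := by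
  classical
  obtain ⟨s, hs⟩ : ∃ s : ℝ, ∫ x, f x ∂μ = 2 * s := ⟨(∫ x, f x ∂μ) / 2, by ring⟩
  have hs0 : 0 < s := by linarith
  obtain ⟨ι, hι, a, ha, H, hH0, hHadd, hHη, hHN⟩ := hAP (s ^ 7 / 128) (by positivity)
  refine ⟨s ^ 4 / 8, by positivity, ι, hι, fun W V' V θ hline k => ?_⟩
  obtain ⟨hB1m, hB1r⟩ := blem_B1 hτ f hf h01 hs
  set B1 : Set X := {x | s ≤ CE μ τ f x} with hB1
  have hn : (0 : ℝ) < (V.card : ℝ) + 1 := by positivity
  obtain ⟨κ, hκ⟩ : ∃ κ : ℝ, κ = s ^ 7 / (128 * ((V.card : ℝ) + 1)) := ⟨_, rfl⟩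
  obtain ⟨κ2, hκ2⟩ : ∃ κ2 : ℝ, κ2 = s / (2 * ((V.card : ℝ) + 1)) := ⟨_, rfl⟩
  have hκ0 : 0 < κ := by rw [hκ]; positivity
  have hκ20 : 0 < κ2 := by rw [hκ2]; positivity
  obtain ⟨N1, hN1⟩ := hHN k κ hκ0
  obtain ⟨N2, hN2⟩ := rig_Y hτ hB1m k (ENNReal.ofReal κ2) (by
    rw [Ne, ENNReal.ofReal_eq_zero, not_le]
    exact hκ20)
  refine ⟨max N1 N2, fun y ε hy hyε => ?_⟩
  have hy1 : ∀ v ∈ V, ∀ t, y (θ t v) ∈ Y N1 k := fun v hv t =>
    Y_anti (le_max_left N1 N2) k (hy v hv t)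
  have hy2 : ∀ v ∈ V, ∀ t, y (θ t v) ∈ Y N2 k := fun v hv t =>
    Y_anti (le_max_right N1 N2) k (hy v hv t)
  have hq : ∀ w : W, ∃ q : X → ι, y w ∈ Y N1 k → (∀ i, MeasurableSet[Rig μ τ] (q ⁻¹' {i})) ∧
      ∀ P, MeasurableSet[Rig μ τ] P →
        ∫ x in P, (f (τ (y w) x) - a (q x) x) ^ 2 ∂μ ≤ H P + κ := by
    intro w
    by_cases hw : y w ∈ Y N1 k
    · obtain ⟨q, hq⟩ := hN1 (y w) hw
      exact ⟨q, fun _ => hq⟩
    · obtain ⟨q, _⟩ := hN1 0 (Y_mono N1 (Nat.zero_le k) rfl)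
      exact ⟨q, fun h => absurd h hw⟩
  choose q hq using hq
  have hqm : ∀ v ∈ V, ∀ t i, MeasurableSet[Rig μ τ] (q (θ t v) ⁻¹' {i}) := fun v hv t i =>
    (hq (θ t v) (hy1 v hv t)).1 i
  obtain ⟨P', hP1, hP2, hP3, hP4⟩ := blem_cover (Rig μ τ) V
    (fun v => {x | q (θ 1 v) x = q (θ 0 v) x ∧ q (θ 2 v) x = q (θ 0 v) x}) (by
      intro v hv
      have h1 : {x | q (θ 1 v) x = q (θ 0 v) x ∧ q (θ 2 v) x = q (θ 0 v) x} =
          ⋃ i : ι, (q (θ 0 v) ⁻¹' {i} ∩ (q (θ 1 v) ⁻¹' {i} ∩ q (θ 2 v) ⁻¹' {i})) := by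
        ext x
        simp only [Set.mem_ofPred_eq, Set.mem_iUnion, Set.mem_inter_iff, Set.mem_preimage,
          Set.mem_singleton_iff]
        constructor
        · rintro ⟨h1, h2⟩
          exact ⟨q (θ 0 v) x, rfl, h1, h2⟩
        · rintro ⟨i, h0, h1, h2⟩
          exact ⟨h1.trans h0.symm, h2.trans h0.symm⟩
      rw [h1]
      exact MeasurableSet.iUnion fun i =>
        (hqm v hv 0 i).inter ((hqm v hv 1 i).inter (hqm v hv 2 i)))
  have hcov : (⋃ v ∈ V, P' v) = Set.univ := by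
    rw [hP4, Set.eq_univ_iff_forall]
    intro x
    obtain ⟨v, hv, h1, h2⟩ := hline fun w => q w x
    exact Set.mem_biUnion hv ⟨h1.symm, h2.symm⟩
  -- the sets `P_v`
  have hPm : ∀ v ∈ V, MeasurableSet[Rig μ τ] (P' v ∩ τ (y (θ 0 v)) ⁻¹' B1) := fun v hv =>
    (hP1 v hv).inter (rig_pre hτ _ hB1m)
  have hPd : ∀ v ∈ V, ∀ w ∈ V, v ≠ w →
      Disjoint (P' v ∩ τ (y (θ 0 v)) ⁻¹' B1) (P' w ∩ τ (y (θ 0 w)) ⁻¹' B1) := fun v hv w hw hvw =>
    (hP3 v hv w hw hvw).mono Set.inter_subset_left Set.inter_subset_left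
  have hHs := blem_H (Rig μ τ) H hH0 hHadd V _ hPm hPd
  have hloc : ∀ v ∈ V, s ^ 3 / 2 * μ.real (P' v ∩ τ (y (θ 0 v)) ⁻¹' B1) -
      8 / s ^ 3 * (H (P' v ∩ τ (y (θ 0 v)) ⁻¹' B1) + κ) ≤ J3 μ τ f f f (ε v) := by
    intro v hv
    have h1 := blem_loc hτ f hf h01 a ha (fun t => y (θ t v)) (fun t => q (θ t v))
      (fun t i => hqm v hv t i) _ (hPm v hv) (H (P' v ∩ τ (y (θ 0 v)) ⁻¹' B1) + κ)
      (fun t => (hq (θ t v) (hy1 v hv t)).2 _ (hPm v hv)) (fun x hx => (hP2 v hv hx.1).1)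
      (fun x hx => (hP2 v hv hx.1).2) hs0.le (α := s ^ 3 / 2) (by positivity)
      (fun x hx => hx.2)
    rw [blem_J3 hτ f hf (y (θ 0 v)) (y (θ 1 v)) (y (θ 2 v)) (ε v) (hyε v hv).1 (hyε v hv).2]
    have h2 : s ^ 3 - s ^ 3 / 2 = s ^ 3 / 2 := by ring
    have h3 : 4 / (s ^ 3 / 2) = 8 / s ^ 3 := by
      field_simp
      ring
    rw [h2, h3] at h1
    exact h1
  have hmeas : s / 2 ≤ ∑ v ∈ V, μ.real (P' v ∩ τ (y (θ 0 v)) ⁻¹' B1) := by
    have h1 : ∀ v ∈ V, μ.real (P' v ∩ B1) - κ2 ≤ μ.real (P' v ∩ τ (y (θ 0 v)) ⁻¹' B1) := by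
      intro v hv
      have h2 : P' v ∩ B1 ⊆ (P' v ∩ τ (y (θ 0 v)) ⁻¹' B1) ∪ ((τ (y (θ 0 v)) ⁻¹' B1) ∆ B1) := by
        intro x hx
        by_cases hx' : x ∈ τ (y (θ 0 v)) ⁻¹' B1
        · exact Or.inl ⟨hx.1, hx'⟩
        · exact Or.inr (Or.inr ⟨hx.2, hx'⟩)
      have h3 : μ.real (P' v ∩ B1) ≤ μ.real (P' v ∩ τ (y (θ 0 v)) ⁻¹' B1) +
          μ.real ((τ (y (θ 0 v)) ⁻¹' B1) ∆ B1) :=
        (measureReal_mono h2).trans (measureReal_union_le _ _)
      have h4 : μ.real ((τ (y (θ 0 v)) ⁻¹' B1) ∆ B1) ≤ κ2 :=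
        ENNReal.toReal_le_of_le_ofReal hκ20.le (hN2 _ (hy2 v hv 0))
      linarith
    have h5 : ∑ v ∈ V, μ.real (P' v ∩ B1) = μ.real B1 := by
      rw [← measureReal_biUnion_finset]
      · congr 1
        rw [← Set.iUnion₂_inter, hcov, Set.univ_inter]
      · intro v hv w hw hvw
        exact (hP3 v hv w hw hvw).mono Set.inter_subset_left Set.inter_subset_left
      · intro v hv
        exact rig_le hτ _ ((hP1 v hv).inter hB1m)
    have h6 := Finset.sum_le_sum h1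
    rw [Finset.sum_sub_distrib, h5, Finset.sum_const, nsmul_eq_mul] at h6
    have h7 : (V.card : ℝ) * κ2 ≤ s / 2 := by
      rw [hκ2]
      have h8 : s / 2 = ((V.card : ℝ) + 1) * (s / (2 * ((V.card : ℝ) + 1))) := by
        field_simp
      rw [h8]
      have h9 : 0 ≤ s / (2 * ((V.card : ℝ) + 1)) := by positivity
      nlinarith
    linarith
  have hfin := Finset.sum_le_sum hloc
  rw [Finset.sum_sub_distrib, ← Finset.mul_sum, ← Finset.mul_sum, Finset.sum_add_distrib,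
    Finset.sum_const, nsmul_eq_mul] at hfin
  refine le_trans ?_ hfin
  have h1 : (V.card : ℝ) * κ ≤ s ^ 7 / 128 := by
    rw [hκ]
    have h8 : s ^ 7 / 128 = ((V.card : ℝ) + 1) * (s ^ 7 / (128 * ((V.card : ℝ) + 1))) := by
      field_simp
    rw [h8]
    have h9 : 0 ≤ s ^ 7 / (128 * ((V.card : ℝ) + 1)) := by positivity
    nlinarith
  have h2 : 8 / s ^ 3 * (∑ v ∈ V, H (P' v ∩ τ (y (θ 0 v)) ⁻¹' B1) + V.card * κ) ≤
      8 / s ^ 3 * (s ^ 7 / 64) := by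
    refine mul_le_mul_of_nonneg_left ?_ (by positivity)
    linarith
  have h3 : 8 / s ^ 3 * (s ^ 7 / 64) = s ^ 4 / 8 := by
    field_simp
    ring
  have h4 : s ^ 3 / 2 * (s / 2) ≤
      s ^ 3 / 2 * ∑ v ∈ V, μ.real (P' v ∩ τ (y (θ 0 v)) ⁻¹' B1) :=
    mul_le_mul_of_nonneg_left hmeas (by positivity)
  have h5 : s ^ 3 / 2 * (s / 2) = s ^ 4 / 4 := by ring
  linarith

end Pool.Agent.H76.CR
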