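import Pool.Agent.H76.CR.Far

set_option autoImplicit false
namespace Pool.Agent.H76.CR

/-- unit vector `4^i e_i` -/
noncomputable def uu (i : ℕ) : A := Finsupp.single i (4 ^ i)

/-- `∑ w_j c^(j)` -/
noncomputable def ysum (w : List Lt) (cs : List A) : A :=
  (List.zipWith (fun l c => vl l • c) w cs).sum

/-- `∑ step(v_j) c^(j)` -/
noncomputable def esum (v : List Lt) (cs : List A) : A :=
  (List.zipWith (fun l c => stp l • c) v cs).sum

/-- correction letter -/
def corr (w : List Lt) : ℤ := (-(w.map vl).sum) % 3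

theorem BLK_ysum_cons (l : Lt) (w : List Lt) (c : A) (cs : List A) :
    ysum (l :: w) (c :: cs) = vl l • c + ysum w cs := by
  simp [ysum]

theorem BLK_esum_cons (l : Lt) (w : List Lt) (c : A) (cs : List A) :
    esum (l :: w) (c :: cs) = stp l • c + esum w cs := by
  simp [esum]

theorem BLK_esum_nil (cs : List A) : esum [] cs = 0 := by simp [esum]

theorem BLK_ysum_nil (cs : List A) : ysum [] cs = 0 := by simp [ysum]

/-- value of a letter after substitution, in terms of the step -/
theorem BLK_vl_th (l : Lt) : vl (th 1 l) = vl (th 0 l) + stp l ∧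
    vl (th 2 l) = vl (th 0 l) + (stp l + stp l) := by
  cases l <;> simp [vl, th, stp]

theorem BLK_ysum_th (v : List Lt) : ∀ (cs : List A), v.length ≤ cs.length →
    ysum (v.map (th 1)) cs = ysum (v.map (th 0)) cs + esum v cs ∧
    ysum (v.map (th 2)) cs = ysum (v.map (th 0)) cs + (esum v cs + esum v cs) := by
  induction v with
  | nil => intro cs _; simp [ysum, esum]
  | cons l v ih =>
    intro cs h
    cases cs with
    | nil => simp at h
    | cons c cs =>
      obtain ⟨h1, h2⟩ := ih cs (by simpa using h)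
      obtain ⟨e1, e2⟩ := BLK_vl_th l
      simp only [List.map_cons, BLK_ysum_cons, BLK_esum_cons, e1, e2, h1, h2, add_smul]
      constructor <;> abel

theorem BLK_corr_aux (v : List Lt) : ∃ k : ℤ,
    (v.map (fun l => stp l)).sum = (v.map (fun l => if l = Lt.A ∨ l = Lt.B ∨ l = Lt.D then (1 : ℤ) else 0)).sum + 3 * k := by
  induction v with
  | nil => exact ⟨0, by simp⟩
  | cons l v ih =>
    obtain ⟨k, hk⟩ := ih
    have : ∃ k' : ℤ, stp l = (if l = Lt.A ∨ l = Lt.B ∨ l = Lt.D then (1 : ℤ) else 0) + 3 * k' := by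
      cases l
      · exact ⟨0, by simp [stp]⟩
      · exact ⟨0, by simp [stp]⟩
      · exact ⟨0, by simp [stp]⟩
      · exact ⟨0, by simp [stp]⟩
      · exact ⟨0, by simp [stp]⟩
      · exact ⟨-1, by simp [stp]⟩
      · exact ⟨-1, by simp [stp]⟩
      · exact ⟨0, by simp [stp]⟩
      · exact ⟨-1, by simp [stp]⟩
    obtain ⟨k', hk'⟩ := this
    refine ⟨k + k', ?_⟩
    rw [List.map_cons, List.map_cons, List.sum_cons, List.sum_cons, hk, hk']
    ring

theorem BLK_wt_cast (v : List Lt) :
    (v.map wt).sum = ((v.map (fun l => if l = Lt.A ∨ l = Lt.B ∨ l = Lt.D then (1 : ℤ) else 0)).sum : ℤ) := by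
  induction v with
  | nil => simp
  | cons l v ih =>
    rw [List.map_cons, List.map_cons, List.sum_cons, List.sum_cons, ih, Int.cast_add]
    congr 1
    cases l <;> simp [wt]

theorem BLK_map_th (v : List Lt) :
    ((v.map (th 1)).map vl).sum = ((v.map (th 0)).map vl).sum + (v.map (fun l => stp l)).sum ∧
    ((v.map (th 2)).map vl).sum = ((v.map (th 0)).map vl).sum +
      ((v.map (fun l => stp l)).sum + (v.map (fun l => stp l)).sum) := by
  induction v with
  | nil => simp
  | cons l v ih =>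
    obtain ⟨h1, h2⟩ := ih
    obtain ⟨e1, e2⟩ := BLK_vl_th l
    simp only [List.map_cons, List.sum_cons, h1, h2, e1, e2]
    constructor <;> ring

/-- BLKA: lines. `vl (th t l) = vl (th 0 l) + t * stp l`; the correction is constant on a line of
weight divisible by 3. -/
theorem ysum_line (v : List Lt) (cs : List A) (h : v.length ≤ cs.length)
    (hw : (v.map wt).sum = 3) (i : ℕ) :
    (ysum (v.map (th 1)) cs + corr (v.map (th 1)) • uu i =
      (ysum (v.map (th 0)) cs + corr (v.map (th 0)) • uu i) + esum v cs) ∧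
    (ysum (v.map (th 2)) cs + corr (v.map (th 2)) • uu i =
      (ysum (v.map (th 0)) cs + corr (v.map (th 0)) • uu i) + (esum v cs + esum v cs)) := by
  obtain ⟨h1, h2⟩ := BLK_ysum_th v cs h
  obtain ⟨g1, g2⟩ := BLK_map_th v
  obtain ⟨k, hk⟩ := BLK_corr_aux v
  have hs : (3 : ℤ) ∣ (v.map (fun l => stp l)).sum := by
    rw [hk]
    rw [BLK_wt_cast] at hw
    have h3 : (((v.map (fun l => if l = Lt.A ∨ l = Lt.B ∨ l = Lt.D then (1 : ℤ) else 0)).sum - 3 : ℤ) : ZMod 9) = 0 := by
      rw [Int.cast_sub, hw]; decide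
    rw [ZMod.intCast_zmod_eq_zero_iff_dvd] at h3
    omega
  have c1 : corr (v.map (th 1)) = corr (v.map (th 0)) := by
    rw [corr, corr, g1]; omega
  have c2 : corr (v.map (th 2)) = corr (v.map (th 0)) := by
    rw [corr, corr, g2]; omega
  rw [h1, h2, c1, c2]
  constructor <;> abel

/-! ### digit counts -/

theorem BLK_mem_om (c : A) (i : ℕ) : i ∈ c.support.filter (fun i => c i % 3 = 1) ↔ c i % 3 = 1 := by
  rw [Finset.mem_filter, Finsupp.mem_support_iff]
  constructor
  · exact fun h => h.2
  · intro h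
    refine ⟨?_, h⟩
    intro h0
    rw [h0] at h
    simp at h

theorem BLK_om_add (x y : A) (h : ∀ i, x i = 0 ∨ y i = 0) : om (x + y) = om x + om y := by
  unfold om
  rw [← Finset.card_union_of_disjoint]
  · congr 1
    ext i
    rw [Finset.mem_union, BLK_mem_om, BLK_mem_om, BLK_mem_om, Finsupp.add_apply]
    rcases h i with h | h <;> rw [h] <;> simp
  · rw [Finset.disjoint_left]
    intro i hi hi'
    rw [BLK_mem_om] at hi hi'
    rcases h i with h0 | h0
    · rw [h0] at hi; simp at hi
    · rw [h0] at hi'; simp at hi'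

theorem BLK_om_congr (x y : A) (h : ∀ i, x i % 3 = 1 ↔ y i % 3 = 1) : om x = om y := by
  unfold om
  congr 1
  ext i
  rw [BLK_mem_om, BLK_mem_om, h i]

theorem BLK_om_none (x : A) (h : ∀ i, x i % 3 ≠ 1) : om x = 0 := by
  unfold om
  rw [Finset.card_eq_zero]
  ext i
  rw [BLK_mem_om]
  simp [h i]

theorem BLK_om_zero : om 0 = 0 := BLK_om_none 0 (by intro i; simp)

theorem BLK_four_mod (i : ℕ) : (4 : ℤ) ^ i % 3 = 1 := by
  induction i with
  | zero => norm_num
  | succ n ih => rw [pow_succ]; omega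

theorem BLK_om_uu (i : ℕ) : om (uu i) = 1 := by
  have : (uu i).support.filter (fun k => uu i k % 3 = 1) = {i} := by
    ext k
    rw [BLK_mem_om, Finset.mem_singleton, uu, Finsupp.single_apply]
    constructor
    · intro h
      by_contra hk
      rw [if_neg (fun e => hk e.symm)] at h
      simp at h
    · rintro rfl
      rw [if_pos rfl]
      exact BLK_four_mod _
  unfold om
  rw [this, Finset.card_singleton]

theorem BLK_uu_apply (i k : ℕ) : uu i k = if i = k then 4 ^ i else 0 := by
  rw [uu, Finsupp.single_apply]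

theorem BLK_om_stp (l : Lt) (c : A) (hc : (om c : ZMod 9) = 1) :
    (om (stp l • c) : ZMod 9) = wt l := by
  have h0 : ∀ z : ℤ, z % 3 = 0 → om (z • c) = 0 := by
    intro z hz
    apply BLK_om_none
    intro i
    rw [Finsupp.smul_apply, smul_eq_mul, Int.mul_emod, hz]
    simp
  have h1 : ∀ z : ℤ, z % 3 = 1 → om (z • c) = om c := by
    intro z hz
    apply BLK_om_congr
    intro i
    rw [Finsupp.smul_apply, smul_eq_mul, Int.mul_emod, hz, one_mul, Int.emod_emod]
  cases l
  · rw [h0 _ (by simp [stp])]; simp [wt]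
  · rw [h0 _ (by simp [stp])]; simp [wt]
  · rw [h0 _ (by simp [stp])]; simp [wt]
  · rw [h0 _ (by simp [stp])]; simp [wt]
  · rw [h0 _ (by simp [stp])]; simp [wt]
  · rw [h1 _ (by simp [stp]), hc]; simp [wt]
  · rw [h1 _ (by simp [stp]), hc]; simp [wt]
  · rw [h1 _ (by simp [stp]), hc]; simp [wt]
  · rw [h0 _ (by simp [stp])]; simp [wt]

/-! ### blocks -/

/-- a block `uu i + b` with `N < i` -/
def BLK_good (N : ℕ) (c : A) : Prop := ∃ i b, N < i ∧ b ∈ B (i + 1) ∧ c = uu i + b

theorem BLK_nsmul_Y (N k n : ℕ) (y : A) (h : y ∈ Y N k) : n • y ∈ Y N (n * k) := by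
  induction n with
  | zero => simp [Y]
  | succ n ih =>
    rw [succ_nsmul, Nat.succ_mul]
    exact Y_add N _ _ _ _ ih h

/-- a sum of eight further units -/
noncomputable def BLK_U (i : ℕ) : A := ∑ k ∈ Finset.range 8, uu (i + 1 + k)

theorem BLK_U_apply (i p : ℕ) : BLK_U i p = if i < p ∧ p ≤ i + 8 then 4 ^ p else 0 := by
  unfold BLK_U
  rw [Finsupp.finsetSum_apply]
  simp only [BLK_uu_apply, Finset.sum_range_succ, Finset.sum_range_zero]
  by_cases h : i < p ∧ p ≤ i + 8
  · rw [if_pos h]
    obtain ⟨k, rfl⟩ : ∃ k, p = i + 1 + k := ⟨p - (i + 1), by omega⟩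
    have hk : k < 8 := by omega
    interval_cases k <;> simp
  · rw [if_neg h]
    have h0 : ¬ i + 1 = p := by omega
    have : ∀ k, k < 8 → ¬ i + 1 + k = p := by intro k hk; omega
    simp [this, h0]

theorem BLK_om_U (i : ℕ) : om (BLK_U i) = 8 := by
  have : (BLK_U i).support.filter (fun k => BLK_U i k % 3 = 1) = Finset.Ioc i (i + 8) := by
    ext k
    rw [BLK_mem_om, Finset.mem_Ioc, BLK_U_apply]
    constructor
    · intro h
      by_contra hk
      rw [if_neg hk] at h
      simp at h
    · intro h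
      rw [if_pos h]
      exact BLK_four_mod _
  unfold om
  rw [this]
  simp

theorem BLK_unit_B (N i j : ℕ) (hj : N ≤ j) (hji : j ≤ i) : uu j + BLK_U i ∈ B N := by
  refine ⟨fun p => ?_, ?_⟩
  · rw [Finsupp.add_apply, BLK_uu_apply, BLK_U_apply]
    by_cases h1 : j = p
    · subst h1
      rw [if_pos rfl, if_neg (by omega), add_zero]
      refine ⟨fun _ => hj, pow_dvd_pow _ hj, Or.inr (BLK_four_mod _), ?_⟩
      rw [abs_of_nonneg (by positivity)]
      exact pow_le_pow_left₀ (by norm_num) (by norm_num) _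
    · rw [if_neg h1]
      by_cases h2 : i < p ∧ p ≤ i + 8
      · rw [if_pos h2, zero_add]
        refine ⟨fun _ => by omega, pow_dvd_pow _ (by omega), Or.inr (BLK_four_mod _), ?_⟩
        rw [abs_of_nonneg (by positivity)]
        exact pow_le_pow_left₀ (by norm_num) (by norm_num) _
      · rw [if_neg h2]
        simp
  · rw [BLK_om_add, BLK_om_uu, BLK_om_U]
    intro p
    rw [BLK_uu_apply, BLK_U_apply]
    by_cases h1 : j = p
    · right; rw [if_neg (by omega)]
    · left; rw [if_neg h1]

theorem BLK_unit_diff (N i : ℕ) (h : N < i) : uu i - uu N ∈ Y N 2 := by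
  have h1 := B_sub_Y N (BLK_unit_B N i i h.le le_rfl)
  have h2 := Y_neg N 1 _ (B_sub_Y N (BLK_unit_B N i N le_rfl h.le))
  have h3 := Y_add N 1 1 _ _ h1 h2
  have e : uu i - uu N = uu i + BLK_U i + -(uu N + BLK_U i) := by abel
  rw [e]
  exact h3

theorem BLK_three (N : ℕ) (hN : 2 ≤ N) : (3 : ℤ) • uu N ∈ B N := by
  refine ⟨fun p => ?_, ?_⟩
  · rw [Finsupp.smul_apply, BLK_uu_apply, smul_eq_mul]
    by_cases h : N = p
    · subst h
      rw [if_pos rfl]
      refine ⟨fun _ => le_rfl, Dvd.intro_left _ rfl, Or.inl (by omega), ?_⟩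
      rw [abs_of_nonneg (by positivity)]
      have e : (8 : ℤ) ^ N = 2 ^ N * 4 ^ N := by rw [← mul_pow]; norm_num
      rw [e]
      have : (3 : ℤ) ≤ 2 ^ N := by
        calc (3 : ℤ) ≤ 2 ^ 2 := by norm_num
          _ ≤ 2 ^ N := pow_le_pow_right₀ (by norm_num) hN
      exact mul_le_mul_of_nonneg_right this (by positivity)
    · rw [if_neg h]
      simp
  · rw [BLK_om_none]
    · exact dvd_zero 9
    · intro i
      rw [Finsupp.smul_apply, smul_eq_mul]
      omega

theorem BLK_good_Y (N : ℕ) (c : A) (hc : BLK_good N c) : c - uu N ∈ Y N 3 := by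
  obtain ⟨i, b, hi, hb, rfl⟩ := hc
  have h1 := BLK_unit_diff N i hi
  have h2 := B_sub_Y N (B_anti (by omega) hb)
  have h3 := Y_add N 2 1 _ _ h1 h2
  have e : uu i + b - uu N = uu i - uu N + b := by abel
  rw [e]
  exact h3

theorem BLK_vl_nat (l : Lt) : ∃ n : ℕ, vl l = n ∧ n ≤ 6 := by
  cases l
  · exact ⟨0, rfl, by norm_num⟩
  · exact ⟨2, rfl, by norm_num⟩
  · exact ⟨3, rfl, by norm_num⟩
  · exact ⟨4, rfl, by norm_num⟩
  · exact ⟨6, rfl, by norm_num⟩
  · exact ⟨0, rfl, by norm_num⟩
  · exact ⟨0, rfl, by norm_num⟩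
  · exact ⟨0, rfl, by norm_num⟩
  · exact ⟨0, rfl, by norm_num⟩

theorem BLK_ysum_Y (N : ℕ) (w : List Lt) : ∀ cs : List A, w.length ≤ cs.length →
    (∀ c ∈ cs, BLK_good N c) →
    ysum w cs - (w.map vl).sum • uu N ∈ Y N (18 * w.length) := by
  induction w with
  | nil => intro cs _ _; simp [ysum, Y]
  | cons l w ih =>
    intro cs h hg
    cases cs with
    | nil => simp at h
    | cons c cs =>
      have h1 := ih cs (by simpa using h) (fun c hc => hg c (List.mem_cons_of_mem _ hc))
      obtain ⟨n, hn, hn6⟩ := BLK_vl_nat l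
      have h2 := BLK_nsmul_Y N 3 n _ (BLK_good_Y N c (hg c List.mem_cons_self))
      have h3 := Y_mono N (show n * 3 ≤ 18 by omega) h2
      have h4 := Y_add N _ _ _ _ h3 h1
      have e : ysum (l :: w) (c :: cs) - ((l :: w).map vl).sum • uu N =
          n • (c - uu N) + (ysum w cs - (w.map vl).sum • uu N) := by
        rw [BLK_ysum_cons, List.map_cons, List.sum_cons, add_smul, hn, natCast_zsmul,
          natCast_zsmul, nsmul_sub]
        abel
      rw [e, List.length_cons]
      have e2 : 18 * (w.length + 1) = 18 + 18 * w.length := by ring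
      rw [e2]
      exact h4

theorem BLK_vl_sum (w : List Lt) : 0 ≤ (w.map vl).sum ∧ (w.map vl).sum ≤ 6 * w.length := by
  induction w with
  | nil => simp
  | cons l w ih =>
    obtain ⟨n, hn, hn6⟩ := BLK_vl_nat l
    rw [List.map_cons, List.sum_cons, hn, List.length_cons]
    push_cast
    omega

theorem BLK_Y_total (N : ℕ) (hN : 2 ≤ N) (w : List Lt) (cs : List A) (h : w.length ≤ cs.length)
    (hg : ∀ c ∈ cs, BLK_good N c) :
    ysum w cs + corr w • uu N ∈ Y N (30 * cs.length + 30) := by
  have h1 := BLK_ysum_Y N w cs h hg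
  obtain ⟨s0, s1⟩ := BLK_vl_sum w
  obtain ⟨t, ht, ht2⟩ : ∃ t : ℕ, (w.map vl).sum + corr w = (t : ℤ) * 3 ∧ t ≤ 2 * w.length := by
    have hc0 : 0 ≤ corr w ∧ corr w < 3 := by
      unfold corr
      omega
    have hd : (3 : ℤ) ∣ (w.map vl).sum + corr w := by
      unfold corr
      omega
    obtain ⟨t, ht⟩ := hd
    refine ⟨t.toNat, ?_, ?_⟩ <;> omega
  have h2 := BLK_nsmul_Y N 1 t _ (B_sub_Y N (BLK_three N hN))
  have h3 := Y_add N _ _ _ _ h1 h2
  have e : ysum w cs + corr w • uu N =
      ysum w cs - (w.map vl).sum • uu N + t • ((3 : ℤ) • uu N) := by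
    rw [← natCast_zsmul, smul_smul, ← ht, add_smul]
    abel
  rw [e]
  exact Y_mono N (by omega) h3

/-- digit invariants of the `esum`s -/
def BLK_inv (cs : List A) (M : ℕ) : Prop :=
  ∀ v : List Lt, v.length = cs.length →
    (∀ p, (esum v cs p % 3 = 0 ∨ esum v cs p % 3 = 1) ∧ |esum v cs p| ≤ 16 ^ p ∧
      (M ≤ p → esum v cs p = 0)) ∧
    (om (esum v cs) : ZMod 9) = (v.map wt).sum

theorem BLK_zip_append (v : List Lt) : ∀ (cs : List A) (l : Lt) (c : A), v.length = cs.length →
    esum (v ++ [l]) (cs ++ [c]) = esum v cs + stp l • c := by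
  induction v with
  | nil =>
    intro cs l c h
    cases cs with
    | nil => simp [esum]
    | cons _ _ => simp at h
  | cons a v ih =>
    intro cs l c h
    cases cs with
    | nil => simp at h
    | cons c' cs =>
      rw [List.cons_append, List.cons_append, BLK_esum_cons, BLK_esum_cons, ih cs l c (by simpa using h)]
      abel

theorem BLK_zip_short (v : List Lt) : ∀ (cs : List A) (c : A), v.length ≤ cs.length →
    esum v (cs ++ [c]) = esum v cs := by
  induction v with
  | nil => intro cs c _; simp [esum]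
  | cons a v ih =>
    intro cs c h
    cases cs with
    | nil => simp at h
    | cons c' cs =>
      rw [List.cons_append, BLK_esum_cons, BLK_esum_cons, ih cs c (by simpa using h)]

theorem BLK_stp_abs (l : Lt) : |stp l| ≤ 3 := by
  cases l <;> simp [stp]

theorem BLK_stp_mod (l : Lt) : stp l % 3 = 0 ∨ stp l % 3 = 1 := by
  cases l <;> simp [stp]

theorem BLK_block_digits (i : ℕ) (b : A) (hb : b ∈ B (i + 1)) (p : ℕ) :
    ((uu i + b) p % 3 = 0 ∨ (uu i + b) p % 3 = 1) ∧ |(uu i + b) p| ≤ 8 ^ p ∧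
      ((uu i + b) p ≠ 0 → i ≤ p) := by
  obtain ⟨h1, _, h3, h4⟩ := hb.1 p
  rw [Finsupp.add_apply, BLK_uu_apply]
  by_cases h : i = p
  · subst h
    have hb0 : b i = 0 := by
      by_contra hne
      have := h1 hne
      omega
    rw [if_pos rfl, hb0, add_zero]
    refine ⟨Or.inr (BLK_four_mod _), ?_, fun _ => le_rfl⟩
    rw [abs_of_nonneg (by positivity)]
    exact pow_le_pow_left₀ (by norm_num) (by norm_num) _
  · rw [if_neg h, zero_add]
    exact ⟨h3, h4, fun hne => by have := h1 hne; omega⟩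

theorem BLK_block_om (i : ℕ) (b : A) (hb : b ∈ B (i + 1)) : (om (uu i + b) : ZMod 9) = 1 := by
  rw [BLK_om_add, BLK_om_uu]
  · have : (om b : ZMod 9) = 0 := (ZMod.natCast_eq_zero_iff _ _).2 hb.2
    rw [Nat.cast_add, this]
    simp
  · intro p
    rw [BLK_uu_apply]
    by_cases h : i = p
    · right
      by_contra hne
      have := (hb.1 p).1 hne
      omega
    · left; rw [if_neg h]

theorem BLK_step (cs : List A) (M i : ℕ) (h : BLK_inv cs M) (hi : M ≤ i) (hi2 : 2 ≤ i) (b : A)
    (hb : b ∈ B (i + 1)) : ∃ M', BLK_inv (cs ++ [uu i + b]) M' := by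
  refine ⟨M + i + 1 + (b.support.sup id + 1), ?_⟩
  intro v hv
  obtain ⟨v, l, rfl⟩ : ∃ v' l, v = v' ++ [l] := by
    rcases List.eq_nil_or_concat v with rfl | ⟨v', l, rfl⟩
    · simp at hv
    · exact ⟨v', l, by simp⟩
  have hv' : v.length = cs.length := by simpa using hv
  rw [BLK_zip_append v cs l _ hv']
  obtain ⟨h1, h2⟩ := h v hv'
  have hdisj : ∀ p, esum v cs p = 0 ∨ (stp l • (uu i + b)) p = 0 := by
    intro p
    by_cases hp : M ≤ p
    · left; exact (h1 p).2.2 hp
    · right
      rw [Finsupp.smul_apply, smul_eq_mul]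
      have : (uu i + b) p = 0 := by
        by_contra hne
        have := (BLK_block_digits i b hb p).2.2 hne
        omega
      rw [this, mul_zero]
  refine ⟨fun p => ?_, ?_⟩
  · rw [Finsupp.add_apply]
    obtain ⟨g1, g2, g3⟩ := h1 p
    obtain ⟨k1, k2, k3⟩ := BLK_block_digits i b hb p
    by_cases hp : M ≤ p
    · rw [g3 hp, zero_add, Finsupp.smul_apply, smul_eq_mul]
      refine ⟨?_, ?_, ?_⟩
      · rw [Int.mul_emod]
        rcases BLK_stp_mod l with h | h <;> rcases k1 with h' | h' <;> rw [h, h'] <;> simp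
      · by_cases h0 : (uu i + b) p = 0
        · rw [h0, mul_zero, abs_zero]; positivity
        · have hp2 : 2 ≤ p := le_trans hi2 (k3 h0)
          rw [abs_mul]
          have e : (16 : ℤ) ^ p = 2 ^ p * 8 ^ p := by rw [← mul_pow]; norm_num
          rw [e]
          have h3 : (3 : ℤ) ≤ 2 ^ p := by
            calc (3 : ℤ) ≤ 2 ^ 2 := by norm_num
              _ ≤ 2 ^ p := pow_le_pow_right₀ (by norm_num) hp2
          exact mul_le_mul (le_trans (BLK_stp_abs l) h3) k2 (abs_nonneg _) (by positivity)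
      · intro hbig
        have : (uu i + b) p = 0 := by
          rw [Finsupp.add_apply, BLK_uu_apply, if_neg (by omega), zero_add]
          by_contra hne
          have h5 : p ∈ b.support := Finsupp.mem_support_iff.2 hne
          have h6 : id p ≤ b.support.sup id := Finset.le_sup h5
          simp only [id] at h6
          omega
        rw [this, mul_zero]
    · have h0 : (stp l • (uu i + b)) p = 0 := by
        rw [Finsupp.smul_apply, smul_eq_mul]
        have : (uu i + b) p = 0 := by
          by_contra hne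
          have := k3 hne
          omega
        rw [this, mul_zero]
      rw [h0, add_zero]
      exact ⟨g1, g2, fun hbig => g3 (by omega)⟩
  · rw [BLK_om_add _ _ hdisj, Nat.cast_add, h2, BLK_om_stp l _ (BLK_block_om i b hb)]
    simp

theorem BLK_wt_cst (l : Lt) (h : cst l) : wt l = 0 ∧ stp l = 0 := by
  cases l <;> simp_all [cst, wt, stp]

/-- BLKB: construction of the blocks `c^(j) = uu i_j + b_j`, `N < i_1 < supp b_1 < i_2 < ...`,
`b_j ∈ B (i_j + 1)`; induction on `d`, appending the last block; the hypothesis is used for the finite set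
`Z = {esum v' cs + uu i | v' word of length d, weight v' + 1 = 3}`.
Membership in `Y N k`: `uu i - uu N = (uu i + U) - (uu N + U)` with `U` a sum of eight further units,
`3 • uu N ∈ B N`, `b_j ∈ B N`. Digits of `esum v cs`: `-2 * 1 = 1`, `1 * 1 = 1`, `-3 * 1 = 0` mod 3,
`3 * 8^i ≤ 16^i` for `i ≥ 2`; `om (esum v cs) ≡ weight v mod 9`. -/
theorem blocks (Js : A → ℝ)
    (hSel : ∀ (Z : Finset A) (M : ℕ) (κ : ℝ), 0 < κ →
      (∀ z ∈ Z, ∀ b ∈ B M, z + b ∈ D ∧ ¬ 9 ∣ om (z + b)) →
      ∃ b ∈ B M, ∀ z ∈ Z, Js (z + b) ≤ κ)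
    (N : ℕ) (hN : 2 ≤ N) (d : ℕ) (κ : ℝ) (hκ : 0 < κ) :
    ∃ cs : List A, cs.length = d ∧
      (∀ w : List Lt, w.length ≤ d → ysum w cs + corr w • uu N ∈ Y N (30 * d + 30)) ∧
      ∀ v' w : List Lt, (v' ++ Lt.D :: w).length ≤ d → (∀ l ∈ w, cst l) →
        ((v' ++ Lt.D :: w).map wt).sum = 3 → Js (esum (v' ++ Lt.D :: w) cs) ≤ κ := by
  have main : ∃ (cs : List A) (M : ℕ), cs.length = d ∧ BLK_inv cs M ∧ (∀ c ∈ cs, BLK_good N c) ∧
      ∀ v' w : List Lt, (v' ++ Lt.D :: w).length ≤ d → (∀ l ∈ w, cst l) →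
        ((v' ++ Lt.D :: w).map wt).sum = 3 → Js (esum (v' ++ Lt.D :: w) cs) ≤ κ := by
    induction d with
    | zero =>
      refine ⟨[], 0, rfl, ?_, by simp, ?_⟩
      · intro v hv
        have : v = [] := by simpa using hv
        subst this
        simp [esum, BLK_om_zero]
      · intro v' w h
        simp at h
    | succ d ih =>
      obtain ⟨cs, M, hlen, hinv, hgood, hJ⟩ := ih
      obtain ⟨i, hi⟩ : ∃ i, i = M + N + 1 := ⟨_, rfl⟩
      have hfin : Set.Finite {v : List Lt | v.length = d ∧ (v.map wt).sum + 1 = 3} :=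
        (List.finite_length_eq Lt d).subset (fun v hv => hv.1)
      obtain ⟨b, hb, hbJ⟩ := hSel (hfin.toFinset.image (fun v => esum v cs + uu i)) (i + 1) κ hκ (by
        intro z hz b hb
        rw [Finset.mem_image] at hz
        obtain ⟨v, hv, rfl⟩ := hz
        rw [Set.Finite.mem_toFinset] at hv
        obtain ⟨hv1, hv2⟩ := hv
        obtain ⟨M', hM'⟩ := BLK_step cs M i hinv (by omega) (by omega) b hb
        obtain ⟨g1, g2⟩ := hM' (v ++ [Lt.D]) (by simp [hv1, hlen])
        have e : esum (v ++ [Lt.D]) (cs ++ [uu i + b]) = esum v cs + uu i + b := by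
          rw [BLK_zip_append v cs _ _ (by omega)]
          simp [stp, add_assoc]
        rw [e] at g1 g2
        refine ⟨fun p => ⟨(g1 p).1, (g1 p).2.1⟩, ?_⟩
        intro hdvd
        rw [(ZMod.natCast_eq_zero_iff _ _).2 hdvd] at g2
        rw [List.map_append, List.sum_append] at g2
        have : (([Lt.D] : List Lt).map wt).sum = 1 := by simp [wt]
        rw [this, hv2] at g2
        exact absurd g2 (by decide))
      obtain ⟨M', hM'⟩ := BLK_step cs M i hinv (by omega) (by omega) b hb
      refine ⟨cs ++ [uu i + b], M', by simp [hlen], hM', ?_, ?_⟩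
      · intro c hc
        rw [List.mem_append, List.mem_singleton] at hc
        rcases hc with hc | rfl
        · exact hgood c hc
        · exact ⟨i, b, by omega, hb, rfl⟩
      · intro v' w hl hw hwt
        by_cases hle : (v' ++ Lt.D :: w).length ≤ d
        · rw [BLK_zip_short _ _ _ (by omega)]
          exact hJ v' w hle hw hwt
        · have heq : (v' ++ Lt.D :: w).length = d + 1 := by omega
          rcases List.eq_nil_or_concat w with rfl | ⟨w', l, rfl⟩
          · have hv'd : v'.length = d := by simpa using heq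
            rw [BLK_zip_append v' cs _ _ (by omega)]
            have e : esum v' cs + stp Lt.D • (uu i + b) = esum v' cs + uu i + b := by
              simp [stp, add_assoc]
            rw [e]
            apply hbJ
            rw [Finset.mem_image]
            refine ⟨v', ?_, rfl⟩
            rw [Set.Finite.mem_toFinset]
            refine ⟨hv'd, ?_⟩
            rw [List.map_append, List.sum_append] at hwt
            simpa [wt] using hwt
          · rw [List.concat_eq_append] at hl hw hwt heq hle ⊢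
            have hcl := BLK_wt_cst l (hw l (by simp))
            have e1 : v' ++ Lt.D :: (w' ++ [l]) = (v' ++ Lt.D :: w') ++ [l] := by simp
            rw [e1] at heq hwt ⊢
            rw [BLK_zip_append _ cs _ _ (by simp at heq ⊢; omega), hcl.2, zero_smul, add_zero]
            apply hJ v' w' (by simp at heq ⊢; omega) (fun l' hl' => hw l' (by simp [hl']))
            rw [List.map_append, List.sum_append] at hwt
            simpa [hcl.1] using hwt
  obtain ⟨cs, M, hlen, _, hgood, hJ⟩ := main
  refine ⟨cs, hlen, ?_, hJ⟩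
  intro w hw
  rw [← hlen]
  exact BLK_Y_total N hN w cs (by omega) hgood

end Pool.Agent.H76.CR
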