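import Pool.Agent.H76.CR.Far

set_option autoImplicit false
namespace Pool.Agent.H76.CR

theorem conv_avg_eq {V : Type*} [AddCommGroup V] [Module ℝ V] (m : A →₀ ℝ) (F : A → V) :
    avg m F = Finsupp.linearCombination ℝ F m := rfl

theorem avg_add {V : Type*} [AddCommGroup V] [Module ℝ V] (m : A →₀ ℝ) (F G : A → V) :
    avg m (fun c => F c + G c) = avg m F + avg m G := by
  simp only [avg, Finsupp.sum, smul_add, Finset.sum_add_distrib]

theorem avg_smul {V : Type*} [AddCommGroup V] [Module ℝ V] (m : A →₀ ℝ) (r : ℝ) (F : A → V) :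
    avg m (fun c => r • F c) = r • avg m F := by
  simp only [avg, Finsupp.sum, Finset.smul_sum]
  exact Finset.sum_congr rfl fun c _ => smul_comm _ _ _

theorem avg_conv {V : Type*} [AddCommGroup V] [Module ℝ V] (m m' : A →₀ ℝ) (F : A → V) :
    avg (conv m m') F = avg m (fun c => avg m' (fun c' => F (c + c'))) := by
  rw [conv_avg_eq, conv, Finsupp.sum, map_sum, avg, Finsupp.sum]
  refine Finset.sum_congr rfl fun c _ => ?_
  rw [map_smul, Finsupp.linearCombination_mapDomain]
  rfl

theorem avg_const {V : Type*} [AddCommGroup V] [Module ℝ V] {S : Set A} {m : A →₀ ℝ}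
    (hm : IsProb S m) (v : V) : avg m (fun _ => v) = v := by
  have h := hm.2.1
  rw [Finsupp.sum] at h
  rw [avg, Finsupp.sum, ← Finset.sum_smul, h, one_smul]

theorem avg_mono {S : Set A} {m : A →₀ ℝ} (hm : IsProb S m) (F G : A → ℝ)
    (h : ∀ c ∈ S, F c ≤ G c) : avg m F ≤ avg m G := by
  simp only [avg, Finsupp.sum, smul_eq_mul]
  exact Finset.sum_le_sum fun c hc =>
    mul_le_mul_of_nonneg_left (h c (hm.2.2 c hc)) (hm.1 c)

theorem norm_avg_le {V : Type*} [SeminormedAddCommGroup V] [NormedSpace ℝ V] {S : Set A}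
    {m : A →₀ ℝ} (hm : IsProb S m) (F : A → V) (C : ℝ) (h : ∀ c ∈ S, ‖F c‖ ≤ C) :
    ‖avg m F‖ ≤ C := by
  have h1 := hm.2.1
  rw [Finsupp.sum] at h1
  calc ‖avg m F‖ ≤ ∑ c ∈ m.support, ‖m c • F c‖ := norm_sum_le _ _
    _ ≤ ∑ c ∈ m.support, m c * C := by
        refine Finset.sum_le_sum fun c hc => ?_
        rw [norm_smul, Real.norm_eq_abs, abs_of_nonneg (hm.1 c)]
        exact mul_le_mul_of_nonneg_left (h c (hm.2.2 c hc)) (hm.1 c)
    _ = C := by rw [← Finset.sum_mul, h1, one_mul]

theorem isProb_mono {S S' : Set A} (h : S ⊆ S') {m : A →₀ ℝ} (hm : IsProb S m) : IsProb S' m :=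
  ⟨hm.1, hm.2.1, fun c hc => h (hm.2.2 c hc)⟩

theorem conv_apply_eq (m m' : A →₀ ℝ) (d : A) :
    conv m m' d = ∑ c ∈ m.support, m c * (m'.mapDomain (fun c' => c + c')) d := by
  rw [conv, Finsupp.sum, Finsupp.finsetSum_apply]
  refine Finset.sum_congr rfl fun c _ => ?_
  rw [Finsupp.smul_apply, smul_eq_mul]

theorem conv_mapDomain_nonneg {m' : A →₀ ℝ} (h : ∀ c, 0 ≤ m' c) (c d : A) :
    0 ≤ (m'.mapDomain (fun c' => c + c')) d := by
  have hd : d = c + (d - c) := by abel
  rw [hd, Finsupp.mapDomain_apply (add_right_injective c)]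
  exact h _

theorem isProb_conv {S S' S'' : Set A} {m m' : A →₀ ℝ} (hm : IsProb S m) (hm' : IsProb S' m')
    (h : ∀ c ∈ m.support, ∀ c' ∈ S', c + c' ∈ S'') : IsProb S'' (conv m m') := by
  refine ⟨fun d => ?_, ?_, fun d hd => ?_⟩
  · rw [conv_apply_eq]
    exact Finset.sum_nonneg fun c _ => mul_nonneg (hm.1 c) (conv_mapDomain_nonneg hm'.1 c d)
  · have h1 : (conv m m').sum (fun _ r => r) = avg (conv m m') (fun _ => (1 : ℝ)) := by
      simp only [avg, smul_eq_mul, mul_one]
    rw [h1, avg_conv, avg_const hm', avg_const hm]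
  · rw [Finsupp.mem_support_iff, conv_apply_eq] at hd
    obtain ⟨c, hc, hc'⟩ := Finset.exists_ne_zero_of_sum_ne_zero hd
    have h2 : (m'.mapDomain (fun c' => c + c')) d ≠ 0 := right_ne_zero_of_mul hc'
    have hdd : d = c + (d - c) := by abel
    have h3 : m' (d - c) ≠ 0 := by
      rw [hdd, Finsupp.mapDomain_apply (add_right_injective c)] at h2
      exact h2
    rw [hdd]
    exact h c hc _ (hm'.2.2 _ (Finsupp.mem_support_iff.2 h3))

/-- properties attained by averages over every `B N` -/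
def Attain (Q : (A →₀ ℝ) → Prop) : Prop := ∀ N, ∃ m, IsProb (B N) m ∧ Q m

/-- properties stable under convolution -/
def Stab (Q : (A →₀ ℝ) → Prop) : Prop :=
  ∀ m m', IsProb Set.univ m → IsProb Set.univ m' → (Q m ∨ Q m') → Q (conv m m')

/-- for `m` on `B N` there is `N'` with `supp m + B N' ⊆ B N` -/
theorem conv_far {N : ℕ} {m : A →₀ ℝ} (hm : IsProb (B N) m) (N₀ : ℕ) :
    ∃ N', N₀ ≤ N' ∧ ∀ c ∈ m.support, ∀ c' ∈ B N', c + c' ∈ B N := by
  classical
  have key : ∀ s : Finset A, (∀ c ∈ s, c ∈ B N) →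
      ∃ N', N₀ ≤ N' ∧ ∀ c ∈ s, ∀ c' ∈ B N', c + c' ∈ B N := by
    intro s
    induction s using Finset.induction_on with
    | empty => exact fun _ => ⟨N₀, le_refl _, fun c hc => absurd hc (Finset.notMem_empty c)⟩
    | insert a s ha ih =>
      intro hs
      obtain ⟨N1, hN1, h1⟩ := ih fun c hc => hs c (Finset.mem_insert_of_mem hc)
      obtain ⟨N2, -, h2⟩ := B_add N a (hs a (Finset.mem_insert_self _ _))
      refine ⟨max N1 N2, le_trans hN1 (le_max_left _ _), fun c hc c' hc' => ?_⟩
      rcases Finset.mem_insert.1 hc with rfl | hc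
      · exact h2 c' (B_anti (le_max_right _ _) hc')
      · exact h1 c hc c' (B_anti (le_max_left _ _) hc')
  exact key m.support hm.2.2

/-- Finitely many stable attainable properties can be attained simultaneously (convolve, choosing
the measures farther and farther: for `m` on `B N` there is `N'` with `supp m + B N' ⊆ B N`),
together with properties valid for all far averages. -/
theorem attain_all {ι : Type*} [Finite ι] (Q : ι → (A →₀ ℝ) → Prop) (hQ : ∀ i, Attain (Q i))
    (hS : ∀ i, Stab (Q i)) (R : (A →₀ ℝ) → Prop) (hR : ∃ N, ∀ m, IsProb (B N) m → R m) (N : ℕ) :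
    ∃ m, IsProb (B N) m ∧ (∀ i, Q i m) ∧ R m := by
  classical
  have := Fintype.ofFinite ι
  obtain ⟨NR, hNR⟩ := hR
  have key : ∀ s : Finset ι, ∀ N, ∃ m, IsProb (B N) m ∧ ∀ i ∈ s, Q i m := by
    intro s
    induction s using Finset.induction_on with
    | empty =>
      intro N
      refine ⟨Finsupp.single 0 1, ⟨fun c => ?_, ?_, fun c hc => ?_⟩,
        fun i hi => absurd hi (Finset.notMem_empty i)⟩
      · by_cases h : (0 : A) = c
        · subst h
          simp
        · rw [Finsupp.single_eq_of_ne (Ne.symm h)]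
      · rw [Finsupp.sum_single_index rfl]
      · have h1 := Finsupp.support_single_subset hc
        rw [Finset.mem_singleton] at h1
        rw [h1]
        exact B_zero N
    | insert a s ha ih =>
      intro N
      obtain ⟨m, hm, hQm⟩ := ih N
      obtain ⟨N', -, hN'⟩ := conv_far hm 0
      obtain ⟨m', hm', hQm'⟩ := hQ a N'
      have hu : IsProb Set.univ m := isProb_mono (Set.subset_univ _) hm
      have hu' : IsProb Set.univ m' := isProb_mono (Set.subset_univ _) hm'
      refine ⟨conv m m', isProb_conv hm hm' hN', fun i hi => ?_⟩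
      rcases Finset.mem_insert.1 hi with rfl | hi
      · exact hS i m m' hu hu' (Or.inr hQm')
      · exact hS i m m' hu hu' (Or.inl (hQm i hi))
  obtain ⟨m, hm, hQm⟩ := key Finset.univ (max N NR)
  exact ⟨m, isProb_mono (B_anti (le_max_left _ _)) hm, fun i => hQm i (Finset.mem_univ i),
    hNR m (isProb_mono (B_anti (le_max_right _ _)) hm)⟩

end Pool.Agent.H76.CR
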