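import Pool.Agent.H76.CR.APC
import Pool.Agent.H76.CR.APL

set_option autoImplicit false
open MeasureTheory
open scoped symmDiff ENNReal
namespace Pool.Agent.H76.CR

variable {X : Type} [m0 : MeasurableSpace X] {μ : Measure X} [IsProbabilityMeasure μ]
  {τ : A → X → X}

/-- AP functions as a subspace of `L^2` -/
def DEC_K (hτ : Act μ τ) : Submodule ℝ (Lp ℝ 2 μ) where
  carrier := {φ | AP μ τ (φ : X → ℝ)}
  add_mem' := by
    intro φ ψ hφ hψ
    exact AP_congr hτ _ _ (Lp.coeFn_add φ ψ).symm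
      (AP_add hτ _ _ (Lp.memLp φ) (Lp.memLp ψ) hφ hψ)
  zero_mem' := AP_congr hτ _ _ (Lp.coeFn_zero ℝ 2 μ).symm (AP_const hτ 0)
  smul_mem' := by
    intro r φ hφ
    exact AP_congr hτ _ _ (Lp.coeFn_smul r φ).symm (AP_smul hτ r _ (Lp.memLp φ) hφ)

theorem DEC_inner (φ ψ : Lp ℝ 2 μ) : inner ℝ φ ψ = ∫ x, φ x * ψ x ∂μ := by
  rw [L2.inner_def]
  refine integral_congr_ae (Filter.Eventually.of_forall fun x => ?_)
  simp [mul_comm]

theorem DEC_closed (hτ : Act μ τ) : IsClosed (DEC_K hτ : Set (Lp ℝ 2 μ)) := by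
  rw [← isSeqClosed_iff_isClosed]
  intro u φ hu hlim
  refine AP_lim hτ _ (Lp.memLp φ) fun ρ hρ => ?_
  have h1 : Filter.Tendsto (fun n => ‖φ - u n‖ ^ 2) Filter.atTop (nhds 0) := by
    have : Filter.Tendsto (fun n => ‖φ - u n‖ ^ 2) Filter.atTop (nhds (‖φ - φ‖ ^ 2)) :=
      ((tendsto_const_nhds.sub hlim).norm).pow 2
    simpa using this
  obtain ⟨n, hn⟩ := (h1.eventually (gt_mem_nhds hρ)).exists
  refine ⟨u n, Lp.memLp _, hu n, ?_⟩
  have h2 : ∫ x, (φ x - u n x) ^ 2 ∂μ = ‖φ - u n‖ ^ 2 := by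
    rw [← real_inner_self_eq_norm_sq, DEC_inner]
    refine integral_congr_ae ?_
    filter_upwards [Lp.coeFn_sub φ (u n)] with x hx
    rw [hx, Pi.sub_apply, pow_two]
  rw [h2]
  exact hn.le

theorem DEC_clip (a b : ℝ) (ha0 : 0 ≤ a) (ha1 : a ≤ 1) :
    (a - max 0 (min 1 b)) ^ 2 ≤ (a - b) ^ 2 := by
  apply sq_le_sq.2
  rcases le_total b 0 with h | h
  · have : max 0 (min 1 b) = 0 := by
      rw [min_eq_right (by linarith), max_eq_left h]
    rw [this]
    rw [abs_of_nonneg (by linarith), abs_of_nonneg (by linarith)]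
    linarith
  · rcases le_total b 1 with h' | h'
    · rw [min_eq_right h', max_eq_right h]
    · rw [min_eq_left h', max_eq_right zero_le_one, abs_of_nonpos (by linarith),
        abs_of_nonpos (by linarith)]
      linarith

/-- DEC: orthogonal projection of `1_{A0}` on the closed subspace of AP functions of `Lp ℝ 2 μ`;
clipping to `[0,1]` decreases the distance, so the projection has values in `[0,1]`; constants are
AP so the integral is preserved. -/
theorem dec (hτ : Act μ τ) (A0 : Set X) (hA : MeasurableSet A0) :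
    ∃ fs : X → ℝ, Measurable fs ∧ (∀ x, 0 ≤ fs x ∧ fs x ≤ 1) ∧ AP μ τ fs ∧
      ∫ x, fs x ∂μ = μ.real A0 ∧
      ∀ φ : X → ℝ, MemLp φ 2 μ → AP μ τ φ →
        ∫ x, φ x * (A0.indicator (fun _ => (1 : ℝ)) x - fs x) ∂μ = 0 := by
  set g : X → ℝ := A0.indicator (fun _ => (1 : ℝ)) with hg
  have hg01 : ∀ x, 0 ≤ g x ∧ g x ≤ 1 := by
    intro x
    rw [hg]
    by_cases hx : x ∈ A0
    · rw [Set.indicator_of_mem hx]; norm_num
    · rw [Set.indicator_of_notMem hx]; norm_num
  have hgm : Measurable g := measurable_const.indicator hA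
  have hgL : MemLp g 2 μ := by
    refine MemLp.of_bound hgm.aestronglyMeasurable 1 (Filter.Eventually.of_forall fun x => ?_)
    rw [Real.norm_eq_abs, abs_le]
    constructor <;> linarith [hg01 x]
  have : IsComplete (DEC_K hτ : Set (Lp ℝ 2 μ)) := (DEC_closed hτ).isComplete
  have : CompleteSpace (DEC_K hτ) := this.completeSpace_coe
  set u : Lp ℝ 2 μ := hgL.toLp g with hu
  set p : Lp ℝ 2 μ := (DEC_K hτ).starProjection u with hp
  have hpK : p ∈ DEC_K hτ := Submodule.starProjection_apply_mem _ _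
  have horth : ∀ v ∈ DEC_K hτ, inner ℝ v (u - p) = (0 : ℝ) := by
    intro v hv
    rw [real_inner_comm]
    exact Submodule.starProjection_inner_eq_zero u v hv
  have hpm : Measurable (p : X → ℝ) := (Lp.stronglyMeasurable p).measurable
  set c : X → ℝ := fun x => max 0 (min 1 (p x)) with hc
  have hcm : Measurable c := measurable_const.max (measurable_const.min hpm)
  have hc01 : ∀ x, 0 ≤ c x ∧ c x ≤ 1 := by
    intro x
    exact ⟨le_max_left _ _, max_le zero_le_one (min_le_left _ _)⟩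
  have hcL : MemLp c 2 μ := by
    refine MemLp.of_bound hcm.aestronglyMeasurable 1 (Filter.Eventually.of_forall fun x => ?_)
    rw [Real.norm_eq_abs, abs_le]
    constructor <;> linarith [hc01 x]
  have hcAP : AP μ τ c := AP_clip hτ _ (Lp.memLp p) hpK
  set q : Lp ℝ 2 μ := hcL.toLp c with hq
  have hqc : (q : X → ℝ) =ᵐ[μ] c := MemLp.coeFn_toLp hcL
  have hug : (u : X → ℝ) =ᵐ[μ] g := MemLp.coeFn_toLp hgL
  have hqK : q ∈ DEC_K hτ := AP_congr hτ _ _ hqc.symm hcAP
  -- `q` is at least as close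
  have hnorm : ‖u - q‖ ^ 2 ≤ ‖u - p‖ ^ 2 := by
    rw [← real_inner_self_eq_norm_sq, ← real_inner_self_eq_norm_sq, DEC_inner, DEC_inner]
    have i1 : Integrable (fun x => (u - q : Lp ℝ 2 μ) x * (u - q : Lp ℝ 2 μ) x) μ :=
      (Lp.memLp (u - q)).integrable_mul (Lp.memLp (u - q))
    have i2 : Integrable (fun x => (u - p : Lp ℝ 2 μ) x * (u - p : Lp ℝ 2 μ) x) μ :=
      (Lp.memLp (u - p)).integrable_mul (Lp.memLp (u - p))
    refine integral_mono_ae i1 i2 ?_
    filter_upwards [Lp.coeFn_sub u q, Lp.coeFn_sub u p, hqc, hug] with x h1 h2 h3 h4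
    rw [h1, h2, Pi.sub_apply, Pi.sub_apply, h3, h4, ← pow_two, ← pow_two]
    exact DEC_clip _ _ (hg01 x).1 (hg01 x).2
  have hpyth : ‖u - q‖ ^ 2 = ‖u - p‖ ^ 2 + ‖p - q‖ ^ 2 := by
    have e1 : u - q = (u - p) + (p - q) := by abel
    have e2 : inner ℝ (u - p) (p - q) = (0 : ℝ) := by
      rw [real_inner_comm]
      exact horth _ (Submodule.sub_mem _ hpK hqK)
    rw [e1, pow_two, norm_add_sq_eq_norm_sq_add_norm_sq_real e2, pow_two, pow_two]
  have hpq : p = q := by
    have h0 : ‖p - q‖ ^ 2 ≤ 0 := by linarith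
    have h1 : ‖p - q‖ = 0 := by
      have := sq_nonneg ‖p - q‖
      exact pow_eq_zero_iff (two_ne_zero) |>.1 (le_antisymm h0 this)
    exact sub_eq_zero.1 (norm_eq_zero.1 h1)
  have hmain : ∀ φ : X → ℝ, MemLp φ 2 μ → AP μ τ φ → ∫ x, φ x * (g x - c x) ∂μ = 0 := by
    intro φ hφ hAP
    have hφK : hφ.toLp φ ∈ DEC_K hτ := AP_congr hτ _ _ (MemLp.coeFn_toLp hφ).symm hAP
    have := horth _ hφK
    rw [hpq, DEC_inner] at this
    rw [← this]
    refine integral_congr_ae ?_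
    filter_upwards [Lp.coeFn_sub u q, hqc, hug, MemLp.coeFn_toLp hφ] with x h1 h2 h3 h4
    rw [h1, Pi.sub_apply, h2, h3, h4]
  refine ⟨c, hcm, hc01, hcAP, ?_, hmain⟩
  have h1 := hmain (fun _ => 1) (memLp_const 1) (AP_const hτ 1)
  have h2 : ∫ x, (1 : ℝ) * (g x - c x) ∂μ = ∫ x, g x ∂μ - ∫ x, c x ∂μ := by
    simp only [one_mul]
    exact integral_sub (hgL.integrable (by norm_num)) (hcL.integrable (by norm_num))
  have h3 : ∫ x, g x ∂μ = μ.real A0 := by
    rw [hg, integral_indicator_const _ hA]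
    simp
  rw [h2, h3] at h1
  linarith

end Pool.Agent.H76.CR
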