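import Mathlib

/-!
MP_74ad1e_an, S05062 (negation). Definitions. Proofs: /team-store/H76_74ad1e.md
-/

set_option autoImplicit false
open MeasureTheory
open scoped symmDiff ENNReal

namespace Pool.Agent.H76.CR

/-- the index group: finitely supported integer sequences -/
abbrev A := ℕ →₀ ℤ

/-- number of digits congruent to 1 mod 3 -/
def om (c : A) : ℕ := (c.support.filter (fun i => c i % 3 = 1)).card

/-- admissible digit sequences -/
def D : Set A := {c | ∀ i, (c i % 3 = 0 ∨ c i % 3 = 1) ∧ |c i| ≤ 16 ^ i}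

/-- far admissible digit sequences of weight `0 mod 9` -/
def B (N : ℕ) : Set A :=
  {c | (∀ i, (c i ≠ 0 → N ≤ i) ∧ (4 : ℤ) ^ N ∣ c i ∧ (c i % 3 = 0 ∨ c i % 3 = 1) ∧ |c i| ≤ 8 ^ i) ∧
    9 ∣ om c}

/-- sums of `k` elements of `± B N` -/
def Y (N : ℕ) : ℕ → Set A
  | 0 => {0}
  | (k + 1) => {y | ∃ y' ∈ Y N k, ∃ c ∈ B N, y = y' + c ∨ y = y' - c}

/-- measure preserving action of `A` -/
structure Act {X : Type} [MeasurableSpace X] (μ : Measure X) (τ : A → X → X) : Prop where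
  mp : ∀ a, MeasurePreserving (τ a) μ μ
  zero : ∀ x, τ 0 x = x
  add : ∀ a b x, τ (a + b) x = τ a (τ b x)

/-- finitely supported probability measures on `S` -/
def IsProb (S : Set A) (m : A →₀ ℝ) : Prop :=
  (∀ c, 0 ≤ m c) ∧ m.sum (fun _ r => r) = 1 ∧ ∀ c ∈ m.support, c ∈ S

/-- average of `F` with respect to `m` -/
noncomputable def avg {V : Type*} [AddCommGroup V] [Module ℝ V] (m : A →₀ ℝ) (F : A → V) : V :=
  m.sum (fun c r => r • F c)

/-- convolution -/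
noncomputable def conv (m m' : A →₀ ℝ) : A →₀ ℝ :=
  m.sum (fun c r => r • m'.mapDomain (fun c' => c + c'))

/-- bounded measurable -/
def BM {X : Type} [MeasurableSpace X] (f : X → ℝ) : Prop := Measurable f ∧ ∃ C : ℝ, ∀ x, |f x| ≤ C

/-- measurable with values in `[-1,1]` -/
def BM1 {X : Type} [MeasurableSpace X] (f : X → ℝ) : Prop := Measurable f ∧ ∀ x, |f x| ≤ 1

section
variable {X : Type} [m0 : MeasurableSpace X] (μ : Measure X) (τ : A → X → X)

/-- the rigid sets -/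
def RigSet (P : Set X) : Prop :=
  MeasurableSet P ∧ ∀ κ : ℝ≥0∞, κ ≠ 0 → ∃ N, ∀ c ∈ B N, μ ((τ c ⁻¹' P) ∆ P) ≤ κ

/-- the rigid sigma-algebra -/
@[reducible] def Rig : MeasurableSpace X := MeasurableSpace.generateFrom {P | RigSet μ τ P}

/-- conditional expectation on the rigid sigma-algebra -/
noncomputable def CE (f : X → ℝ) : X → ℝ := μ[f | Rig μ τ]

/-- Gram function `E(g_c g_c')` -/
noncomputable def Gr (g : X → ℝ) (c c' : A) : X → ℝ :=
  CE μ τ (fun x => g (τ c x) * g (τ c' x))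

/-- localized kernel form -/
noncomputable def Qf (g : X → ℝ) (P : Set X) (a a' : A →₀ ℝ) : ℝ :=
  a.sum fun c r => a'.sum fun c' r' => r * r' * ∫ x in P, (Gr μ τ g c c' x) ^ 2 ∂μ

/-- kernel operator -/
noncomputable def Ph (g : X → ℝ) (a : A →₀ ℝ) (u : X → ℝ) : X → ℝ := fun x =>
  a.sum fun c r => r * (g (τ c x) * CE μ τ (fun x' => g (τ c x') * u x') x)

/-- `gamma` -/
noncomputable def gam (g : X → ℝ) (c : A) : ℝ :=
  ∫ x, (CE μ τ (fun x' => g x' * g (τ c x')) x) ^ 2 ∂μ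

/-- almost periodic functions over the rigid factor -/
def AP (φ : X → ℝ) : Prop :=
  ∀ η : ℝ, 0 < η → ∃ (ι : Type) (_ : Finite ι) (a : ι → X → ℝ), (∀ i, BM (a i)) ∧
    ∃ H : Set X → ℝ,
      (∀ P, MeasurableSet[Rig μ τ] P → 0 ≤ H P) ∧
      (∀ P Q, MeasurableSet[Rig μ τ] P → MeasurableSet[Rig μ τ] Q → Disjoint P Q →
        H (P ∪ Q) = H P + H Q) ∧
      H Set.univ ≤ η ∧
      ∀ k : ℕ, ∀ κ : ℝ, 0 < κ → ∃ N, ∀ y ∈ Y N k, ∃ q : X → ι,
        (∀ i, MeasurableSet[Rig μ τ] (q ⁻¹' {i})) ∧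
        ∀ P, MeasurableSet[Rig μ τ] P → ∫ x in P, (φ (τ y x) - a (q x) x) ^ 2 ∂μ ≤ H P + κ

/-- triple correlation -/
noncomputable def J3 (f₀ f₁ f₂ : X → ℝ) (c : A) : ℝ :=
  ∫ x, f₀ x * f₁ (τ c x) * f₂ (τ (c + c) x) ∂μ

end

/-- bounded function on the index group -/
def Bdd (u : A → ℝ) : Prop := ∃ C : ℝ, ∀ b, |u b| ≤ C

/-- finitely additive means concentrated on every `B N` -/
structure IsMean (M : (A → ℝ) → ℝ) : Prop where
  add : ∀ u v, Bdd u → Bdd v → M (fun b => u b + v b) = M u + M v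
  smul : ∀ (r : ℝ) (u : A → ℝ), Bdd u → M (fun b => r * u b) = r * M u
  mono : ∀ u v, Bdd u → Bdd v → ∀ N, (∀ b ∈ B N, u b ≤ v b) → M u ≤ M v
  const : ∀ r : ℝ, M (fun _ => r) = r

/-- letters -/
inductive Lt
  | k0 | k2 | k3 | k4 | k6 | A | B | D | E
  deriving DecidableEq

instance : Fintype Lt :=
  ⟨{Lt.k0, Lt.k2, Lt.k3, Lt.k4, Lt.k6, Lt.A, Lt.B, Lt.D, Lt.E}, by intro x; cases x <;> simp⟩

/-- substitution of `t` in the variable letters -/
def th (t : Fin 3) : Lt → Lt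
  | Lt.A => if t = 0 then Lt.k6 else if t = 1 then Lt.k4 else Lt.k2
  | Lt.B => if t = 0 then Lt.k4 else if t = 1 then Lt.k2 else Lt.k0
  | Lt.D => if t = 0 then Lt.k2 else if t = 1 then Lt.k3 else Lt.k4
  | Lt.E => if t = 0 then Lt.k6 else if t = 1 then Lt.k3 else Lt.k0
  | l => l

/-- weight mod 9 of a letter -/
def wt : Lt → ZMod 9
  | Lt.A => 1
  | Lt.B => 1
  | Lt.D => 1
  | _ => 0

/-- constant letters -/
def cst : Lt → Prop
  | Lt.A => False
  | Lt.B => False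
  | Lt.D => False
  | Lt.E => False
  | _ => True

/-- numerical value of a constant letter -/
def vl : Lt → ℤ
  | Lt.k0 => 0
  | Lt.k2 => 2
  | Lt.k3 => 3
  | Lt.k4 => 4
  | Lt.k6 => 6
  | _ => 0

/-- step of a letter -/
def stp : Lt → ℤ
  | Lt.A => -2
  | Lt.B => -2
  | Lt.D => 1
  | Lt.E => -3
  | _ => 0

/-- the digit-sum set -/
noncomputable def sq (i : ℕ) : ℤ := 300 ^ ((i + 1) ^ 2)

/-- value of a digit sequence -/
noncomputable def sg (c : A) : ℤ := c.sum (fun i z => z * sq i)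

/-- the counterexample set -/
def S : Set ℤ := {n | ∃ c ∈ D, ¬ 9 ∣ om c ∧ n = sg c}

end Pool.Agent.H76.CR
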