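import Pool.Agent.H76.CR.Defs

set_option autoImplicit false
namespace Pool.Agent.H76.CR

/-- natural number version of `sq` -/
def digS (i : ℕ) : ℕ := 300 ^ ((i + 1) ^ 2)

lemma digS_cast (i : ℕ) : ((digS i : ℕ) : ℤ) = sq i := by
  unfold digS sq; push_cast; rfl

lemma digS_pos (i : ℕ) : 0 < digS i := by unfold digS; positivity

lemma digS_succ (i : ℕ) : digS (i + 1) = digS i * 300 ^ (2 * i + 3) := by
  unfold digS
  rw [← pow_add]
  congr 1
  ring

lemma digS_dvd {i j : ℕ} (h : i < j) : 3 * digS i ∣ digS j := by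
  induction j with
  | zero => omega
  | succ j ih =>
    rw [digS_succ]
    rcases Nat.lt_succ_iff_lt_or_eq.mp h with h1 | h1
    · exact (ih h1).mul_right _
    · subst h1
      rw [mul_comm 3]
      exact Nat.mul_dvd_mul_left _
        (Dvd.dvd.trans (by norm_num : 3 ∣ 300) (dvd_pow_self _ (by omega)))

lemma digS_dvd_int {i j : ℕ} (h : i < j) : (3 * (digS i : ℤ)) ∣ (digS j : ℤ) := by
  obtain ⟨k, hk⟩ := digS_dvd h
  exact ⟨(k : ℤ), by rw [hk]; push_cast; ring⟩

/-- maximal contribution of the digits below `i` -/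
def digR (i : ℕ) : ℕ := ∑ j ∈ Finset.range i, 16 ^ j * digS j

lemma digR_le (i : ℕ) : digR i * (4000 * 2 ^ i) ≤ digS i := by
  induction i with
  | zero => simp [digR]
  | succ i ih =>
    have h1 : digR (i + 1) = digR i + 16 ^ i * digS i := by
      unfold digR; rw [Finset.sum_range_succ]
    have h2 : digR i ≤ digS i := le_trans (Nat.le_mul_of_pos_right _ (by positivity)) ih
    have h3 : digR (i + 1) ≤ 2 * 16 ^ i * digS i := by
      rw [h1]
      have h4 : 1 ≤ 16 ^ i := Nat.one_le_pow _ _ (by norm_num)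
      nlinarith
    rw [digS_succ]
    calc digR (i + 1) * (4000 * 2 ^ (i + 1))
        ≤ (2 * 16 ^ i * digS i) * (4000 * 2 ^ (i + 1)) := Nat.mul_le_mul_right _ h3
      _ = digS i * (16000 * 32 ^ i) := by
          have h5 : (32 : ℕ) ^ i = 16 ^ i * 2 ^ i := by rw [← mul_pow]; norm_num
          rw [h5]; ring
      _ ≤ digS i * 300 ^ (2 * i + 3) := by
          apply Nat.mul_le_mul_left
          have h5 : (300 : ℕ) ^ (2 * i + 3) = 27000000 * 90000 ^ i := by
            rw [pow_add, pow_mul]; norm_num; ring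
          rw [h5]
          exact Nat.mul_le_mul (by norm_num) (Nat.pow_le_pow_left (by norm_num) i)

lemma dig_shift (K : ℕ) (c : A) (hc : c ∈ D) (hs : ∀ i ∈ c.support, i < K) (i : ℕ) (hi : i < K)
    (X X' : ℕ) (q : ℤ) (hX : digR i ≤ X % digS i) (hX2 : X % digS i + digR i < digS i)
    (h : (X' : ℤ) = X + sg c + ((3 * digS K : ℕ) : ℤ) * q) :
    ((X' / digS i : ℕ) : ℤ) % 3 = (((X / digS i : ℕ) : ℤ) + c i) % 3 := by
  have hpos : (0 : ℤ) < (digS i : ℤ) := by exact_mod_cast digS_pos i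
  have hsg0 : sg c = ∑ j ∈ Finset.range K, c j * (digS j : ℤ) := by
    unfold sg
    rw [Finsupp.sum_of_support_subset c (s := Finset.range K)]
    · apply Finset.sum_congr rfl
      intro j _
      rw [digS_cast]
    · intro j hj; exact Finset.mem_range.mpr (hs j hj)
    · intro j _; simp
  have hsplit : ∑ j ∈ Finset.range K, c j * (digS j : ℤ)
      = ∑ j ∈ Finset.range i, c j * (digS j : ℤ) + c i * (digS i : ℤ)
        + ∑ j ∈ Finset.Ico (i + 1) K, c j * (digS j : ℤ) := by
    rw [← Finset.sum_range_succ, Finset.sum_range_add_sum_Ico _ (by omega)]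
  have hlow : |∑ j ∈ Finset.range i, c j * (digS j : ℤ)| ≤ (digR i : ℤ) := by
    refine le_trans (Finset.abs_sum_le_sum_abs _ _) ?_
    unfold digR
    push_cast
    apply Finset.sum_le_sum
    intro j _
    rw [abs_mul, abs_of_nonneg (Int.natCast_nonneg (digS j))]
    exact mul_le_mul_of_nonneg_right (hc j).2 (Int.natCast_nonneg _)
  have hhigh : (3 * (digS i : ℤ)) ∣ ∑ j ∈ Finset.Ico (i + 1) K, c j * (digS j : ℤ) := by
    apply Finset.dvd_sum
    intro j hj
    rw [Finset.mem_Ico] at hj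
    apply Dvd.dvd.mul_left
    exact digS_dvd_int (by omega : i < j)
  have hL : (3 * (digS i : ℤ)) ∣ ((3 * digS K : ℕ) : ℤ) := by
    rw [Nat.cast_mul]
    exact Dvd.dvd.mul_left (digS_dvd_int hi) _
  obtain ⟨m1, hm1⟩ := hhigh
  obtain ⟨m2, hm2⟩ := hL
  have hXd : (X : ℤ) = (digS i : ℤ) * ((X / digS i : ℕ) : ℤ) + ((X % digS i : ℕ) : ℤ) := by
    exact_mod_cast (Nat.div_add_mod X (digS i)).symm
  set low := ∑ j ∈ Finset.range i, c j * (digS j : ℤ) with hlowdef
  have hr0 : 0 ≤ ((X % digS i : ℕ) : ℤ) + low := by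
    have h1 := neg_le_of_abs_le hlow
    have h2 : (digR i : ℤ) ≤ ((X % digS i : ℕ) : ℤ) := by exact_mod_cast hX
    linarith
  have hr1 : ((X % digS i : ℕ) : ℤ) + low < (digS i : ℤ) := by
    have h1 := le_of_abs_le hlow
    have h2 : ((X % digS i : ℕ) : ℤ) + (digR i : ℤ) < (digS i : ℤ) := by exact_mod_cast hX2
    linarith
  have hX' : (X' : ℤ) = (((X % digS i : ℕ) : ℤ) + low)
      + (digS i : ℤ) * (((X / digS i : ℕ) : ℤ) + c i + 3 * (m1 + m2 * q)) := by
    rw [h, hsg0, hsplit, hm1, hm2]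
    linear_combination hXd
  have hdiv : ((X' / digS i : ℕ) : ℤ) = ((X / digS i : ℕ) : ℤ) + c i + 3 * (m1 + m2 * q) := by
    have h1 : ((X' / digS i : ℕ) : ℤ) = (X' : ℤ) / (digS i : ℤ) := by push_cast; rfl
    rw [h1, hX', Int.add_mul_ediv_left _ _ hpos.ne', Int.ediv_eq_zero_of_lt hr0 hr1, zero_add]
  rw [hdiv]
  omega

/-- the digits -/
def digD (i X : ℕ) : ℕ := (X / digS i) % 3

lemma dig_step (d d' : ℕ) (z : ℤ) (hd : d < 3) (hd' : d' < 3) (hz : z % 3 = 0 ∨ z % 3 = 1)
    (h : (d' : ℤ) % 3 = ((d : ℤ) + z) % 3) :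
    (d' : ℤ) = d + (if z % 3 = 1 then 1 else 0) - 3 * (if d = 2 ∧ z % 3 = 1 then 1 else 0) := by
  rcases hz with hz | hz
  · simp only [hz]
    norm_num
    omega
  · simp only [hz]
    by_cases h2 : d = 2
    · subst h2
      norm_num
      push_cast at h
      omega
    · simp only [h2]
      norm_num
      omega

/-- goodness -/
def digG (K X : ℕ) : Prop := ∀ i < K, digR i ≤ X % digS i ∧ X % digS i + digR i < digS i

lemma dig_digit (K : ℕ) (c : A) (hc : c ∈ D) (hs : ∀ i ∈ c.support, i < K)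
    (X X' : ℕ) (q : ℤ) (hX : digG K X)
    (h : (X' : ℤ) = X + sg c + ((3 * digS K : ℕ) : ℤ) * q) (i : ℕ) (hi : i < K) :
    (digD i X' : ℤ) = digD i X + (if c i % 3 = 1 then 1 else 0)
      - 3 * (if digD i X = 2 ∧ c i % 3 = 1 then 1 else 0) := by
  apply dig_step
  · exact Nat.mod_lt _ (by norm_num)
  · exact Nat.mod_lt _ (by norm_num)
  · exact (hc i).1
  · have h1 := dig_shift K c hc hs i hi X X' q (hX i hi).1 (hX i hi).2 h
    unfold digD
    push_cast at h1 ⊢
    omega

/-- digit sum mod 9 -/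
def digPhi (K X : ℕ) : ZMod 9 := ∑ i ∈ Finset.range K, ((digD i X : ℤ) : ZMod 9)

/-- twisted digit sum mod 3 -/
def digPsi (K X Y : ℕ) : ZMod 3 :=
  ∑ i ∈ (Finset.range K).filter (fun i => digD i X = 2), ((digD i Y : ℤ) : ZMod 3)

/-- number of carries -/
def digK (K : ℕ) (c : A) (X : ℕ) : ℕ :=
  ((Finset.range K).filter (fun i => digD i X = 2 ∧ c i % 3 = 1)).card

lemma om_eq (K : ℕ) (c : A) (hs : ∀ i ∈ c.support, i < K) :
    om c = ((Finset.range K).filter (fun i => c i % 3 = 1)).card := by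
  unfold om
  congr 1
  ext i
  simp only [Finset.mem_filter, Finset.mem_range, Finsupp.mem_support_iff]
  constructor
  · rintro ⟨h1, h2⟩
    exact ⟨hs i (Finsupp.mem_support_iff.mpr h1), h2⟩
  · rintro ⟨_, h2⟩
    refine ⟨?_, h2⟩
    intro h0
    rw [h0] at h2
    norm_num at h2

lemma dig_phi (K : ℕ) (c : A) (hc : c ∈ D) (hs : ∀ i ∈ c.support, i < K)
    (X X' : ℕ) (q : ℤ) (hX : digG K X)
    (h : (X' : ℤ) = X + sg c + ((3 * digS K : ℕ) : ℤ) * q) :
    digPhi K X' = digPhi K X + (om c : ZMod 9) - 3 * (digK K c X : ZMod 9) := by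
  unfold digPhi
  have h1 : ∀ i ∈ Finset.range K, ((digD i X' : ℤ) : ZMod 9)
      = ((digD i X : ℤ) : ZMod 9) + (if c i % 3 = 1 then 1 else 0)
        - 3 * (if digD i X = 2 ∧ c i % 3 = 1 then 1 else 0) := by
    intro i hi
    rw [dig_digit K c hc hs X X' q hX h i (Finset.mem_range.mp hi)]
    push_cast
    split_ifs <;> simp
  rw [Finset.sum_congr rfl h1, Finset.sum_sub_distrib, Finset.sum_add_distrib, ← Finset.mul_sum,
    om_eq K c hs]
  unfold digK
  rw [Finset.sum_boole, Finset.sum_boole]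

lemma dig_psi (K : ℕ) (c : A) (hc : c ∈ D) (hs : ∀ i ∈ c.support, i < K)
    (X Y Y' : ℕ) (q : ℤ) (hY : digG K Y)
    (h : (Y' : ℤ) = Y + sg c + ((3 * digS K : ℕ) : ℤ) * q) :
    digPsi K X Y' = digPsi K X Y + (digK K c X : ZMod 3) := by
  unfold digPsi
  have h30 : (3 : ZMod 3) = 0 := by decide
  have h1 : ∀ i ∈ (Finset.range K).filter (fun i => digD i X = 2), ((digD i Y' : ℤ) : ZMod 3)
      = ((digD i Y : ℤ) : ZMod 3) + (if c i % 3 = 1 then 1 else 0) := by
    intro i hi
    rw [Finset.mem_filter, Finset.mem_range] at hi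
    rw [dig_digit K c hc hs Y Y' q hY h i hi.1]
    push_cast
    rw [h30]
    split_ifs <;> simp
  rw [Finset.sum_congr rfl h1, Finset.sum_add_distrib]
  unfold digK
  rw [Finset.sum_boole, Finset.filter_filter]

lemma dig_key (K : ℕ) (c : A) (hc : c ∈ D) (hs : ∀ i ∈ c.support, i < K)
    (X X' Y Y' : ℕ) (q q' : ℤ) (hX : digG K X) (hY : digG K Y)
    (h : (X' : ℤ) = X + sg c + ((3 * digS K : ℕ) : ℤ) * q)
    (h' : (Y' : ℤ) = Y + sg c + ((3 * digS K : ℕ) : ℤ) * q')
    (hphi : digPhi K X' = digPhi K X) (hpsi : digPsi K X Y' = digPsi K X Y) : 9 ∣ om c := by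
  rw [dig_phi K c hc hs X X' q hX h] at hphi
  rw [dig_psi K c hc hs X Y Y' q' hY h'] at hpsi
  have h1 : (digK K c X : ZMod 3) = 0 := by
    have := add_eq_left.mp hpsi
    exact this
  rw [ZMod.natCast_eq_zero_iff] at h1
  obtain ⟨k, hk⟩ := h1
  have h2 : (om c : ZMod 9) = 0 := by
    have h3 : (om c : ZMod 9) = 3 * (digK K c X : ZMod 9) := by
      linear_combination hphi
    rw [h3, hk]
    push_cast
    have h9 : (3 : ZMod 9) * 3 = 0 := by decide
    linear_combination (k : ZMod 9) * h9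
  rwa [ZMod.natCast_eq_zero_iff] at h2

lemma dig_bad (K i : ℕ) (hi : i < K) :
    ((Finset.range (3 * digS K)).filter
      (fun X => ¬ (digR i ≤ X % digS i ∧ X % digS i + digR i < digS i))).card * (2000 * 2 ^ i)
      ≤ 3 * digS K := by
  classical
  have hpos := digS_pos i
  obtain ⟨t, ht⟩ : digS i ∣ 3 * digS K :=
    Dvd.dvd.mul_left ((Dvd.intro_left 3 rfl : digS i ∣ 3 * digS i).trans (digS_dvd hi)) 3
  rw [ht]
  set bad := (Finset.range (digS i)).filter
    (fun r => ¬ (digR i ≤ r ∧ r + digR i < digS i)) with hbad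
  have hbc : bad.card ≤ 2 * digR i := by
    have hsub : bad ⊆ Finset.range (digR i) ∪ Finset.Ico (digS i - digR i) (digS i) := by
      intro r hr
      rw [hbad, Finset.mem_filter, Finset.mem_range] at hr
      rw [Finset.mem_union, Finset.mem_range, Finset.mem_Ico]
      omega
    refine le_trans (Finset.card_le_card hsub) (le_trans (Finset.card_union_le _ _) ?_)
    rw [Finset.card_range, Nat.card_Ico]
    omega
  have hc : ((Finset.range (digS i * t)).filter
      (fun X => ¬ (digR i ≤ X % digS i ∧ X % digS i + digR i < digS i))).card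
      ≤ t * (2 * digR i) := by
    calc _ ≤ ((Finset.range t) ×ˢ bad).card := by
          apply Finset.card_le_card_of_injOn (fun X => (X / digS i, X % digS i))
          · intro X hX
            rw [Finset.mem_coe, Finset.mem_filter, Finset.mem_range] at hX
            rw [Finset.mem_coe, Finset.mem_product, Finset.mem_range, hbad, Finset.mem_filter,
              Finset.mem_range]
            refine ⟨?_, Nat.mod_lt _ hpos, hX.2⟩
            exact Nat.div_lt_of_lt_mul hX.1
          · intro X _ Y _ hXY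
            simp only [Prod.mk.injEq] at hXY
            rw [← Nat.div_add_mod X (digS i), ← Nat.div_add_mod Y (digS i), hXY.1, hXY.2]
      _ = t * bad.card := by rw [Finset.card_product, Finset.card_range]
      _ ≤ t * (2 * digR i) := Nat.mul_le_mul_left _ hbc
  calc _ ≤ (t * (2 * digR i)) * (2000 * 2 ^ i) := Nat.mul_le_mul_right _ hc
    _ = t * (digR i * (4000 * 2 ^ i)) := by ring
    _ ≤ t * digS i := Nat.mul_le_mul_left _ (digR_le i)
    _ = digS i * t := mul_comm _ _

open Classical in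
lemma dig_good (K : ℕ) :
    (1 - 1 / 1000) * ((3 * digS K : ℕ) : ℝ) ≤
      (((Finset.range (3 * digS K)).filter (fun X => digG K X)).card : ℝ) := by
  set L := 3 * digS K with hL
  set G := (Finset.range L).filter (fun X => digG K X) with hG
  set Bd : ℕ → Finset ℕ := fun i => (Finset.range L).filter
    (fun X => ¬ (digR i ≤ X % digS i ∧ X % digS i + digR i < digS i)) with hBd
  have hcov : Finset.range L ⊆ G ∪ (Finset.range K).biUnion Bd := by
    intro X hX
    rw [Finset.mem_union, Finset.mem_biUnion]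
    by_cases h : digG K X
    · left; rw [hG, Finset.mem_filter]; exact ⟨hX, h⟩
    · right
      unfold digG at h
      push Not at h
      obtain ⟨i, hi, h⟩ := h
      refine ⟨i, Finset.mem_range.mpr hi, ?_⟩
      rw [hBd, Finset.mem_filter]
      refine ⟨hX, ?_⟩
      rintro ⟨h1, h2⟩
      exact absurd h2 (not_lt.mpr (h h1))
  have h1 : L ≤ G.card + ∑ i ∈ Finset.range K, (Bd i).card := by
    calc L = (Finset.range L).card := (Finset.card_range L).symm
      _ ≤ _ := Finset.card_le_card hcov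
      _ ≤ _ := Finset.card_union_le _ _
      _ ≤ _ := Nat.add_le_add_left Finset.card_biUnion_le _
  have h2 : ∀ i ∈ Finset.range K, ((Bd i).card : ℝ) ≤ (L : ℝ) / 2000 * (1 / 2) ^ i := by
    intro i hi
    have h3 := dig_bad K i (Finset.mem_range.mp hi)
    have h4 : ((Bd i).card : ℝ) * (2000 * 2 ^ i) ≤ (L : ℝ) := by exact_mod_cast h3
    rw [one_div, inv_pow, ← div_eq_mul_inv, div_div, le_div_iff₀ (by positivity)]
    exact h4
  have h5 : (L : ℝ) ≤ (G.card : ℝ) + ∑ i ∈ Finset.range K, ((Bd i).card : ℝ) := by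
    exact_mod_cast h1
  have h6 : ∑ i ∈ Finset.range K, ((Bd i).card : ℝ) ≤ (L : ℝ) / 2000 * 2 := by
    refine le_trans (Finset.sum_le_sum h2) ?_
    rw [← Finset.mul_sum]
    exact mul_le_mul_of_nonneg_left (sum_geometric_two_le K) (by positivity)
  linarith

/-- DIG: the finite corner-free sets (Claim 1 of the write-up). `L = 3 * sq K`,
`d i x = (x.val / sq i) % 3`, `rho i = ∑_{j<i} 16^j sq j`, `x` good if `rho i ≤ x.val % sq i < sq i - rho i`
for all `i < K`; for `c ∈ D` supported below `K` and good `x`: `d i (x + sg c) = (d i x + c i) % 3`.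
`phi x = ∑_{i<K} d i x` mod 9, `psi x y = ∑_{i<K, d i x = 2} d i y` mod 3; `E = {x, y good, phi x = b,
psi x y = c}` for the most popular `(b, c)`. For `x, y` good the differences are
`phi (x+n) - phi x = om c - 3 k` mod 9 and `psi x (y+n) - psi x y = k` mod 3 with
`k = #{i : d i x = 2, c i % 3 = 1}`. -/
theorem dig (K : ℕ) : ∃ (L : ℕ) (_ : NeZero L) (E : Finset (ZMod L × ZMod L)),
    (L : ℝ) ^ 2 ≤ 28 * (E.card : ℝ) ∧
    ∀ c ∈ D, (∀ i ∈ c.support, i < K) → ¬ 9 ∣ om c → ∀ p ∈ E,
      ¬ ((p.1 + ((sg c : ℤ) : ZMod L), p.2) ∈ E ∧ (p.1, p.2 + ((sg c : ℤ) : ZMod L)) ∈ E) := by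
  classical
  have hLpos : 0 < 3 * digS K := Nat.mul_pos (by norm_num) (digS_pos K)
  have hne : NeZero (3 * digS K) := ⟨hLpos.ne'⟩
  set GZ : Finset (ZMod (3 * digS K)) := Finset.univ.filter (fun x => digG K x.val) with hGZ
  have hcard : GZ.card = ((Finset.range (3 * digS K)).filter (fun X => digG K X)).card := by
    rw [← Finset.card_image_of_injective GZ (ZMod.val_injective (3 * digS K))]
    congr 1
    ext X
    rw [Finset.mem_image, Finset.mem_filter, Finset.mem_range]
    constructor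
    · rintro ⟨x, hx, rfl⟩
      rw [hGZ, Finset.mem_filter] at hx
      exact ⟨ZMod.val_lt x, hx.2⟩
    · rintro ⟨h1, h2⟩
      refine ⟨(X : ZMod (3 * digS K)), ?_, ZMod.val_cast_of_lt h1⟩
      rw [hGZ, Finset.mem_filter]
      refine ⟨Finset.mem_univ _, ?_⟩
      rw [ZMod.val_cast_of_lt h1]
      exact h2
  have hgood := dig_good K
  rw [← hcard] at hgood
  set Lr : ℝ := ((3 * digS K : ℕ) : ℝ) with hLr
  have hLr0 : 0 ≤ Lr := Nat.cast_nonneg _
  have hpig : ∃ y ∈ (Finset.univ : Finset (ZMod 9 × ZMod 3)), Lr ^ 2 / 28 ≤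
      (((GZ ×ˢ GZ).filter (fun p => (digPhi K p.1.val, digPsi K p.1.val p.2.val) = y)).card : ℝ) := by
    apply Finset.exists_le_card_fiber_of_nsmul_le_card_of_maps_to
    · intro a _; exact Finset.mem_univ _
    · exact Finset.univ_nonempty
    · rw [Finset.card_product]
      have h27 : (Finset.univ : Finset (ZMod 9 × ZMod 3)).card = 27 := by decide
      rw [h27, nsmul_eq_mul]
      push_cast
      have : (1 - 1 / 1000) * Lr * ((1 - 1 / 1000) * Lr) ≤ (GZ.card : ℝ) * (GZ.card : ℝ) := by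
        apply mul_le_mul hgood hgood
        · have : (0 : ℝ) ≤ 1 - 1 / 1000 := by norm_num
          positivity
        · positivity
      nlinarith [sq_nonneg Lr]
  obtain ⟨y, _, hy⟩ := hpig
  refine ⟨3 * digS K, hne,
    (GZ ×ˢ GZ).filter (fun p => (digPhi K p.1.val, digPsi K p.1.val p.2.val) = y), ?_, ?_⟩
  · have : Lr ^ 2 ≤ 28 * (((GZ ×ˢ GZ).filter
        (fun p => (digPhi K p.1.val, digPsi K p.1.val p.2.val) = y)).card : ℝ) := by linarith
    exact this
  · intro c hc hs hom p hp ⟨h1, h2⟩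
    rw [Finset.mem_filter, Finset.mem_product, hGZ, Finset.mem_filter, Finset.mem_filter] at hp h1 h2
    simp only at hp h1 h2
    apply hom
    have hval : ∀ x : ZMod (3 * digS K), ∃ q : ℤ,
        (((x + ((sg c : ℤ) : ZMod (3 * digS K))).val : ℕ) : ℤ)
          = (x.val : ℤ) + sg c + ((3 * digS K : ℕ) : ℤ) * q := by
      intro x
      have h3 : (((x + ((sg c : ℤ) : ZMod (3 * digS K))).val : ℤ) : ZMod (3 * digS K))
          = (((x.val : ℤ) + sg c : ℤ) : ZMod (3 * digS K)) := by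
        push_cast
        rw [ZMod.natCast_zmod_val, ZMod.natCast_zmod_val]
      rw [ZMod.intCast_eq_intCast_iff_dvd_sub] at h3
      obtain ⟨q, hq⟩ := h3
      refine ⟨-q, ?_⟩
      linear_combination -hq
    obtain ⟨q, hq⟩ := hval p.1
    obtain ⟨q', hq'⟩ := hval p.2
    have e0 := hp.2
    have e1 := h1.2
    have e2 := h2.2
    exact dig_key K c hc hs p.1.val _ p.2.val _ q q' hp.1.1.2 hp.1.2.2 hq hq'
      ((Prod.mk.injEq _ _ _ _ ▸ (e1.trans e0.symm)).1) ((Prod.mk.injEq _ _ _ _ ▸ (e2.trans e0.symm)).2)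

end Pool.Agent.H76.CR
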