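import Pool.Agent.H76.CR.RigM

set_option autoImplicit false
open MeasureTheory
open scoped symmDiff ENNReal
namespace Pool.Agent.H76.CR

variable {X : Type} [m0 : MeasurableSpace X] {μ : Measure X} [IsProbabilityMeasure μ]
  {τ : A → X → X}

/-- one-sided estimate: `{ψ > t}` loses little mass -/
theorem FIXA_half (hτ : Act μ τ) (ψ : X → ℝ) (hm : Measurable ψ) (hψ : MemLp ψ 2 μ)
    (h : ∀ κ : ℝ, 0 < κ → ∃ N, ∀ c ∈ B N, ∫ x, (ψ (τ c x) - ψ x) ^ 2 ∂μ ≤ κ) (t k : ℝ)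
    (hk : 0 < k) : ∃ N, ∀ c ∈ B N,
      μ.real ({x | t < ψ x} \ (τ c ⁻¹' {x | t < ψ x})) ≤ k := by
  -- a small level band
  obtain ⟨n, hn⟩ : ∃ n : ℕ, μ {x | t < ψ x ∧ ψ x ≤ t + 1 / ((n : ℝ) + 1)} ≤
      ENNReal.ofReal (k / 2) := by
    have hmeas : ∀ n : ℕ, MeasurableSet {x | t < ψ x ∧ ψ x ≤ t + 1 / ((n : ℝ) + 1)} := fun n =>
      (measurableSet_lt measurable_const hm).inter (measurableSet_le hm measurable_const)
    have hanti : Antitone fun n : ℕ => {x | t < ψ x ∧ ψ x ≤ t + 1 / ((n : ℝ) + 1)} := by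
      intro a b hab x hx
      refine ⟨hx.1, hx.2.trans ?_⟩
      have : (1 : ℝ) / ((b : ℝ) + 1) ≤ 1 / ((a : ℝ) + 1) :=
        one_div_le_one_div_of_le (by positivity) (by
          have : (a : ℝ) ≤ b := by exact_mod_cast hab
          linarith)
      linarith
    have hlim := tendsto_measure_iInter_atTop (μ := μ) (fun n => (hmeas n).nullMeasurableSet) hanti
      ⟨0, measure_ne_top _ _⟩
    have hempty : (⋂ n : ℕ, {x | t < ψ x ∧ ψ x ≤ t + 1 / ((n : ℝ) + 1)}) = ∅ := by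
      ext x
      simp only [Set.mem_iInter, Set.mem_empty_iff_false, iff_false]
      intro hx
      have h1 : t < ψ x := (hx 0).1
      obtain ⟨n, hn⟩ := exists_nat_one_div_lt (sub_pos.2 h1)
      have h2 := (hx n).2
      linarith
    rw [hempty, measure_empty] at hlim
    have hpos : (0 : ℝ≥0∞) < ENNReal.ofReal (k / 2) := ENNReal.ofReal_pos.2 (half_pos hk)
    obtain ⟨n, hn⟩ := (hlim.eventually (ge_mem_nhds hpos)).exists
    exact ⟨n, hn⟩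
  set δ : ℝ := 1 / ((n : ℝ) + 1) with hδ
  have hδ0 : 0 < δ := by positivity
  obtain ⟨N, hN⟩ := h (δ ^ 2 * (k / 2)) (by positivity)
  refine ⟨N, fun c hc => ?_⟩
  have hcomp : MemLp (fun x => ψ (τ c x)) 2 μ := hψ.comp_measurePreserving (hτ.mp c)
  have hint : Integrable (fun x => (ψ (τ c x) - ψ x) ^ 2) μ := (hcomp.sub hψ).integrable_sq
  have hcheb := mul_meas_ge_le_integral_of_nonneg (μ := μ)
    (Filter.Eventually.of_forall fun x => sq_nonneg (ψ (τ c x) - ψ x)) hint (δ ^ 2)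
  have h1 : δ ^ 2 * μ.real {x | δ ^ 2 ≤ (ψ (τ c x) - ψ x) ^ 2} ≤ δ ^ 2 * (k / 2) :=
    hcheb.trans (hN c hc)
  have h2 : μ.real {x | δ ^ 2 ≤ (ψ (τ c x) - ψ x) ^ 2} ≤ k / 2 :=
    le_of_mul_le_mul_left h1 (by positivity)
  have h3 : μ.real {x | t < ψ x ∧ ψ x ≤ t + δ} ≤ k / 2 := by
    rw [Measure.real]
    exact ENNReal.toReal_le_of_le_ofReal (half_pos hk).le hn
  have hsub : {x | t < ψ x} \ (τ c ⁻¹' {x | t < ψ x}) ⊆
      {x | δ ^ 2 ≤ (ψ (τ c x) - ψ x) ^ 2} ∪ {x | t < ψ x ∧ ψ x ≤ t + δ} := by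
    rintro x ⟨hx1, hx2⟩
    simp only [Set.mem_preimage, Set.mem_ofPred_eq, not_lt] at hx1 hx2
    by_cases h4 : ψ x ≤ t + δ
    · exact Or.inr ⟨hx1, h4⟩
    · left
      push Not at h4
      have h5 : δ ≤ ψ x - ψ (τ c x) := by linarith
      change δ ^ 2 ≤ (ψ (τ c x) - ψ x) ^ 2
      nlinarith
  calc μ.real ({x | t < ψ x} \ (τ c ⁻¹' {x | t < ψ x}))
      ≤ μ.real ({x | δ ^ 2 ≤ (ψ (τ c x) - ψ x) ^ 2} ∪ {x | t < ψ x ∧ ψ x ≤ t + δ}) :=
        measureReal_mono hsub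
    _ ≤ μ.real {x | δ ^ 2 ≤ (ψ (τ c x) - ψ x) ^ 2} + μ.real {x | t < ψ x ∧ ψ x ≤ t + δ} :=
        measureReal_union_le _ _
    _ ≤ k / 2 + k / 2 := add_le_add h2 h3
    _ = k := by ring

theorem FIXA_rig (hτ : Act μ τ) (ψ : X → ℝ) (hm : Measurable ψ) (hψ : MemLp ψ 2 μ)
    (h : ∀ κ : ℝ, 0 < κ → ∃ N, ∀ c ∈ B N, ∫ x, (ψ (τ c x) - ψ x) ^ 2 ∂μ ≤ κ) (t : ℝ) :
    RigSet μ τ {x | t < ψ x} := by
  have hP : MeasurableSet {x | t < ψ x} := measurableSet_lt measurable_const hm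
  refine ⟨hP, fun κ hκ => ?_⟩
  have hmin : min κ 1 ≠ 0 := by
    intro h0
    rcases min_choice κ 1 with h1 | h1
    · rw [h1] at h0
      exact hκ h0
    · rw [h1] at h0
      exact one_ne_zero h0
  have hmin2 : min κ 1 ≠ ⊤ := ne_top_of_le_ne_top ENNReal.one_ne_top (min_le_right _ _)
  have hk : 0 < (min κ 1).toReal := ENNReal.toReal_pos hmin hmin2
  obtain ⟨N, hN⟩ := FIXA_half hτ ψ hm hψ h t ((min κ 1).toReal / 2) (half_pos hk)
  refine ⟨N, fun c hc => ?_⟩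
  have hQ : MeasurableSet (τ c ⁻¹' {x | t < ψ x}) := (hτ.mp c).measurable hP
  have h1 := hN c hc
  have h2 : μ.real (τ c ⁻¹' {x | t < ψ x}) = μ.real {x | t < ψ x} :=
    (hτ.mp c).measureReal_preimage hP.nullMeasurableSet
  have h3 := measureReal_sdiff_add_inter (μ := μ) (s := {x | t < ψ x})
    (t := τ c ⁻¹' {x | t < ψ x}) hQ
  have h4 := measureReal_sdiff_add_inter (μ := μ) (s := τ c ⁻¹' {x | t < ψ x})
    (t := {x | t < ψ x}) hP
  rw [Set.inter_comm] at h4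
  have h5 : μ.real ((τ c ⁻¹' {x | t < ψ x}) ∆ {x | t < ψ x}) ≤ (min κ 1).toReal := by
    have h6 : μ.real ((τ c ⁻¹' {x | t < ψ x}) ∆ {x | t < ψ x}) ≤
        μ.real ((τ c ⁻¹' {x | t < ψ x}) \ {x | t < ψ x}) +
        μ.real ({x | t < ψ x} \ (τ c ⁻¹' {x | t < ψ x})) := measureReal_union_le _ _
    linarith
  have h7 : μ ((τ c ⁻¹' {x | t < ψ x}) ∆ {x | t < ψ x}) ≤ min κ 1 := by
    rw [← ENNReal.toReal_le_toReal (measure_ne_top _ _) hmin2]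
    exact h5
  exact h7.trans (min_le_left _ _)

/-- FIXA: asymptotically fixed L^2 functions are measurable for the rigid sigma-algebra.
Proof: for a measurable representative, `1_{ψ > t}` is the L^2 limit of `min (1, n (ψ-t)^+)`, each
of which is asymptotically fixed (Lipschitz function of `ψ`), so `{ψ > t}` is a rigid set. -/
theorem rig_of_fix (hτ : Act μ τ) (ψ : X → ℝ) (hψ : MemLp ψ 2 μ)
    (h : ∀ κ : ℝ, 0 < κ → ∃ N, ∀ c ∈ B N, ∫ x, (ψ (τ c x) - ψ x) ^ 2 ∂μ ≤ κ) :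
    AEStronglyMeasurable[Rig μ τ] ψ μ := by
  have hsm : StronglyMeasurable (hψ.1.mk ψ) := hψ.1.stronglyMeasurable_mk
  have hae : ψ =ᵐ[μ] hψ.1.mk ψ := hψ.1.ae_eq_mk
  have hψ' : MemLp (hψ.1.mk ψ) 2 μ := (memLp_congr_ae hae).1 hψ
  have h' : ∀ κ : ℝ, 0 < κ → ∃ N, ∀ c ∈ B N,
      ∫ x, (hψ.1.mk ψ (τ c x) - hψ.1.mk ψ x) ^ 2 ∂μ ≤ κ := by
    intro κ hκ
    obtain ⟨N, hN⟩ := h κ hκ
    refine ⟨N, fun c hc => le_of_eq_of_le ?_ (hN c hc)⟩
    refine integral_congr_ae ?_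
    have h1 : ψ ∘ τ c =ᵐ[μ] hψ.1.mk ψ ∘ τ c :=
      (hτ.mp c).quasiMeasurePreserving.ae_eq_comp hae
    filter_upwards [hae, h1] with x hx hx'
    simp only [Function.comp_apply] at hx'
    rw [← hx, ← hx']
  refine ⟨hψ.1.mk ψ, ?_, hae⟩
  have hmeas : Measurable[Rig μ τ] (hψ.1.mk ψ) := by
    refine measurable_of_Ioi fun t => ?_
    have h2 : hψ.1.mk ψ ⁻¹' Set.Ioi t = {x | t < hψ.1.mk ψ x} := rfl
    rw [h2]
    exact MeasurableSpace.measurableSet_generateFrom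
      (FIXA_rig hτ _ hsm.measurable hψ' h' t)
  exact hmeas.stronglyMeasurable

end Pool.Agent.H76.CR
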