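import Pool.Agent.H76.CR.RigM

set_option autoImplicit false
open MeasureTheory
open scoped symmDiff ENNReal
namespace Pool.Agent.H76.CR

variable {X : Type} [m0 : MeasurableSpace X] {μ : Measure X} [IsProbabilityMeasure μ]
  {τ : A → X → X}

/-- asymptotically fixed, `L^p` version -/
def FixbP (μ : Measure X) (τ : A → X → X) (k : ℕ) (p : ℝ≥0∞) (f : X → ℝ) : Prop :=
  ∀ κ : ℝ≥0∞, κ ≠ 0 → ∃ N, ∀ y ∈ Y N k, eLpNorm (fun x => f (τ y x) - f x) p μ ≤ κ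

theorem fixb_main (hτ : Act μ τ) (k : ℕ) (p : ℝ≥0∞) [hp1 : Fact (1 ≤ p)] (hp : p ≠ ∞)
    (ψ : X → ℝ) (hψ : MemLp ψ p μ) (hm : AEStronglyMeasurable[Rig μ τ] ψ μ) :
    FixbP μ τ k p ψ := by
  have hp0 : p ≠ 0 := fun h => by
    have := hp1.out; rw [h] at this; simp at this
  have hp0' : 0 < p.toReal := ENNReal.toReal_pos hp0 hp
  refine MemLp.induction_stronglyMeasurable (rig_le hτ) hp (FixbP μ τ k p) ?_ ?_ ?_ ?_ hψ hm
  · -- indicators
    intro c s hs _ κ hκ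
    have hc1 : ‖c‖ₑ + 1 ≠ ∞ := by simp
    have hκ' : (κ / (‖c‖ₑ + 1)) ^ p.toReal ≠ 0 := by
      rw [Ne, ENNReal.rpow_eq_zero_iff]
      push Not
      refine ⟨fun h => ?_, fun _ => hp0'.le⟩
      rw [ENNReal.div_eq_zero_iff] at h
      rcases h with h | h
      · exact absurd h hκ
      · exact absurd h hc1
    obtain ⟨N, hN⟩ := rig_Y hτ hs k _ hκ'
    refine ⟨N, fun y hy => ?_⟩
    calc eLpNorm (fun x => s.indicator (fun _ => c) (τ y x) - s.indicator (fun _ => c) x) p μ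
        ≤ eLpNorm (((τ y ⁻¹' s) ∆ s).indicator (fun _ => c)) p μ := by
          refine eLpNorm_mono fun x => ?_
          by_cases h1 : τ y x ∈ s <;> by_cases h2 : x ∈ s <;>
            simp [Set.indicator, h1, h2, Set.mem_symmDiff]
      _ ≤ ‖c‖ₑ * μ ((τ y ⁻¹' s) ∆ s) ^ (1 / p.toReal) := eLpNorm_indicator_const_le _ _
      _ ≤ (‖c‖ₑ + 1) * (κ / (‖c‖ₑ + 1)) := by
          refine mul_le_mul' le_self_add ?_
          calc μ ((τ y ⁻¹' s) ∆ s) ^ (1 / p.toReal)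
              ≤ ((κ / (‖c‖ₑ + 1)) ^ p.toReal) ^ (1 / p.toReal) :=
                ENNReal.rpow_le_rpow (hN y hy) (by positivity)
            _ = κ / (‖c‖ₑ + 1) := by
                rw [one_div, ENNReal.rpow_rpow_inv hp0'.ne']
      _ ≤ κ := ENNReal.mul_div_le
  · -- sums
    intro f g _ hf hg _ _ hPf hPg κ hκ
    obtain ⟨N, hN⟩ := hPf (κ / 2) (by simpa using hκ)
    obtain ⟨M, hM⟩ := hPg (κ / 2) (by simpa using hκ)
    refine ⟨max N M, fun y hy => ?_⟩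
    have e : (fun x => (f + g) (τ y x) - (f + g) x) =
        (fun x => f (τ y x) - f x) + (fun x => g (τ y x) - g x) := by
      ext x; simp only [Pi.add_apply]; ring
    rw [e]
    have mf : AEStronglyMeasurable (fun x => f (τ y x) - f x) μ :=
      (hf.1.comp_measurePreserving (hτ.mp y)).sub hf.1
    have mg : AEStronglyMeasurable (fun x => g (τ y x) - g x) μ :=
      (hg.1.comp_measurePreserving (hτ.mp y)).sub hg.1
    calc _ ≤ _ := eLpNorm_add_le mf mg hp1.out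
      _ ≤ κ / 2 + κ / 2 := add_le_add (hN y (Y_anti (le_max_left _ _) k hy))
          (hM y (Y_anti (le_max_right _ _) k hy))
      _ = κ := ENNReal.add_halves κ
  · -- closedness
    refine isClosed_of_closure_subset fun f hf κ hκ => ?_
    obtain ⟨g, hg, hfg⟩ := EMetric.mem_closure_iff.1 hf (κ / 3) (ENNReal.div_pos hκ (by simp))
    obtain ⟨N, hN⟩ := hg (κ / 3) (ENNReal.div_pos hκ (by simp)).ne'
    refine ⟨N, fun y hy => ?_⟩
    have hd : eLpNorm (fun x => (f : Lp ℝ p μ) x - (g : Lp ℝ p μ) x) p μ ≤ κ / 3 := by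
      have : edist f g = eLpNorm (((f : Lp ℝ p μ) : X → ℝ) - ((g : Lp ℝ p μ) : X → ℝ)) p μ := by
        rw [Subtype.edist_eq, Lp.edist_def]
      rw [this] at hfg
      exact hfg.le
    have mf := (Lp.memLp (f : Lp ℝ p μ)).1
    have mg := (Lp.memLp (g : Lp ℝ p μ)).1
    have md : AEStronglyMeasurable (fun x => (f : Lp ℝ p μ) x - (g : Lp ℝ p μ) x) μ := mf.sub mg
    have e : (fun x => (f : Lp ℝ p μ) (τ y x) - (f : Lp ℝ p μ) x) =
        ((fun x => (f : Lp ℝ p μ) x - (g : Lp ℝ p μ) x) ∘ (τ y) +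
          (fun x => (g : Lp ℝ p μ) (τ y x) - (g : Lp ℝ p μ) x)) -
          (fun x => (f : Lp ℝ p μ) x - (g : Lp ℝ p μ) x) := by
      ext x; simp only [Pi.add_apply, Pi.sub_apply, Function.comp_apply]; ring
    rw [e]
    have m1 := md.comp_measurePreserving (hτ.mp y)
    have m2 : AEStronglyMeasurable (fun x => (g : Lp ℝ p μ) (τ y x) - (g : Lp ℝ p μ) x) μ :=
      (mg.comp_measurePreserving (hτ.mp y)).sub mg
    calc _ ≤ _ := eLpNorm_sub_le (m1.add m2) md hp1.out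
      _ ≤ (κ / 3 + κ / 3) + κ / 3 := by
          refine add_le_add ?_ hd
          refine (eLpNorm_add_le m1 m2 hp1.out).trans (add_le_add ?_ (hN y hy))
          rw [eLpNorm_comp_measurePreserving md (hτ.mp y)]
          exact hd
      _ = κ := ENNReal.add_thirds κ
  · -- ae
    intro f g hfg _ hPf κ hκ
    obtain ⟨N, hN⟩ := hPf κ hκ
    refine ⟨N, fun y hy => ?_⟩
    have h1 : (fun x => f (τ y x) - f x) =ᵐ[μ] (fun x => g (τ y x) - g x) :=
      ((hτ.mp y).quasiMeasurePreserving.ae_eq_comp hfg).sub hfg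
    rw [← eLpNorm_congr_ae h1]
    exact hN y hy

theorem fixb_int (hτ : Act μ τ) (k : ℕ) (p : ℝ≥0∞) (hp1 : 1 ≤ p) (hp : p ≠ ∞)
    (ψ : X → ℝ) (hψ : MemLp ψ p μ) (hm : AEStronglyMeasurable[Rig μ τ] ψ μ) (κ : ℝ) (hκ : 0 < κ) :
    ∃ N, ∀ y ∈ Y N k, ∫ x, ‖ψ (τ y x) - ψ x‖ ^ p.toReal ∂μ ≤ κ := by
  have hp0 : p ≠ 0 := fun h => by
    rw [h] at hp1; simp at hp1
  have hp0' : 0 < p.toReal := ENNReal.toReal_pos hp0 hp
  have : Fact (1 ≤ p) := ⟨hp1⟩
  have h0 : 0 < κ ^ p.toReal⁻¹ := Real.rpow_pos_of_pos hκ _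
  obtain ⟨N, hN⟩ := fixb_main hτ k p hp ψ hψ hm (ENNReal.ofReal (κ ^ p.toReal⁻¹))
    (by simpa using h0)
  refine ⟨N, fun y hy => ?_⟩
  have hmem : MemLp (fun x => ψ (τ y x) - ψ x) p μ :=
    (hψ.comp_measurePreserving (hτ.mp y)).sub hψ
  have h1 := hN y hy
  rw [hmem.eLpNorm_eq_integral_rpow_norm hp0 hp, ENNReal.ofReal_le_ofReal_iff h0.le] at h1
  exact (Real.rpow_le_rpow_iff (integral_nonneg fun x => by positivity) hκ.le
    (inv_pos.2 hp0')).1 h1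

/-- FIXB: rigid-measurable L^2 functions are asymptotically fixed (simple functions are dense). -/
theorem fix_of_rig (hτ : Act μ τ) (ψ : X → ℝ) (hψ : MemLp ψ 2 μ)
    (hm : AEStronglyMeasurable[Rig μ τ] ψ μ) (k : ℕ) (κ : ℝ) (hκ : 0 < κ) :
    ∃ N, ∀ y ∈ Y N k, ∫ x, (ψ (τ y x) - ψ x) ^ 2 ∂μ ≤ κ := by
  obtain ⟨N, hN⟩ := fixb_int hτ k 2 (by norm_num) (by norm_num) ψ hψ hm κ hκ
  refine ⟨N, fun y hy => ?_⟩
  have := hN y hy
  simpa using this

theorem fix1_of_rig (hτ : Act μ τ) (ψ : X → ℝ) (hψ : Integrable ψ μ)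
    (hm : AEStronglyMeasurable[Rig μ τ] ψ μ) (k : ℕ) (κ : ℝ) (hκ : 0 < κ) :
    ∃ N, ∀ y ∈ Y N k, ∫ x, |ψ (τ y x) - ψ x| ∂μ ≤ κ := by
  obtain ⟨N, hN⟩ := fixb_int hτ k 1 le_rfl (by norm_num) ψ (memLp_one_iff_integrable.2 hψ) hm κ hκ
  refine ⟨N, fun y hy => ?_⟩
  have := hN y hy
  simpa using this

end Pool.Agent.H76.CR
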