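import Pool.Agent.H76.CR.SL
import Pool.Agent.H76.CR.Fix
import Pool.Agent.H76.CR.FixB
import Pool.Agent.H76.CR.Cex
import Pool.Agent.H76.CR.Conv

set_option autoImplicit false
open MeasureTheory
open scoped symmDiff ENNReal
namespace Pool.Agent.H76.CR

variable {X : Type} [m0 : MeasurableSpace X] {μ : Measure X} [IsProbabilityMeasure μ]
  {τ : A → X → X}

/-- square of the norm in `L2` -/
lemma erg_norm_sq (f : Lp ℝ 2 μ) : ‖f‖ ^ 2 = ∫ x, (f x) ^ 2 ∂μ := by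
  rw [← real_inner_self_eq_norm_sq, L2.inner_def]
  refine integral_congr_ae (Filter.Eventually.of_forall fun x => ?_)
  simp [sq]

lemma erg_avg (hτ : Act μ τ) (ψ : X → ℝ) (hψ : MemLp ψ 2 μ) (m : A →₀ ℝ) :
    (avg m (fun c => Lp.compMeasurePreservingₗᵢ ℝ (τ c) (hτ.mp c) (hψ.toLp ψ)) : Lp ℝ 2 μ)
      =ᵐ[μ] fun x => avg m (fun c => ψ (τ c x)) := by
  unfold avg Finsupp.sum
  refine (Lp.coeFn_fun_finsetSum _ _).trans ?_
  have h1 : ∀ c ∈ m.support, ∀ᵐ x ∂μ,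
      (m c • Lp.compMeasurePreservingₗᵢ ℝ (τ c) (hτ.mp c) (hψ.toLp ψ) : Lp ℝ 2 μ) x
        = m c • ψ (τ c x) := by
    intro c _
    have h2 : (Lp.compMeasurePreserving (τ c) (hτ.mp c) (hψ.toLp ψ) : Lp ℝ 2 μ)
        =ᵐ[μ] fun x => ψ (τ c x) :=
      (Lp.coeFn_compMeasurePreserving _ (hτ.mp c)).trans
        ((hτ.mp c).quasiMeasurePreserving.ae_eq_comp hψ.coeFn_toLp)
    filter_upwards [Lp.coeFn_smul (m c)
      (Lp.compMeasurePreservingₗᵢ ℝ (τ c) (hτ.mp c) (hψ.toLp ψ)), h2] with x h3 h4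
    rw [h3, Pi.smul_apply]
    congr 1
  have h5 : ∀ᵐ x ∂μ, ∀ c ∈ m.support,
      (m c • Lp.compMeasurePreservingₗᵢ ℝ (τ c) (hτ.mp c) (hψ.toLp ψ) : Lp ℝ 2 μ) x
        = m c • ψ (τ c x) := by
    rw [Filter.eventually_all_finset]
    exact h1
  filter_upwards [h5] with x hx
  exact Finset.sum_congr rfl hx

/-- ERG: mean ergodic theorem for functions with zero conditional expectation.
Proof: `SL` in `Lp ℝ 2 μ` with `ρ c ψ = ψ ∘ τ c` (`Lp.compMeasurePreservingₗᵢ`); the limit `w` of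
the averages is asymptotically fixed, hence rigid-measurable (`rig_of_fix`), and all averages are
orthogonal to rigid-measurable functions (`CE_comp`), so `w = 0`. -/
theorem erg0 (hτ : Act μ τ) (ψ : X → ℝ) (hψ : MemLp ψ 2 μ) (h0 : CE μ τ ψ =ᵐ[μ] 0) (N : ℕ)
    (η : ℝ) (hη : 0 < η) :
    ∃ m, IsProb (B N) m ∧ ∫ x, (avg m (fun c => ψ (τ c x))) ^ 2 ∂μ ≤ η := by
  classical
  let ρ : A → Lp ℝ 2 μ →ₗᵢ[ℝ] Lp ℝ 2 μ := fun c =>
    Lp.compMeasurePreservingₗᵢ ℝ (τ c) (hτ.mp c)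
  have hρ : ∀ c (f : Lp ℝ 2 μ), (ρ c f : Lp ℝ 2 μ) =ᵐ[μ] fun x => f (τ c x) := by
    intro c f
    exact Lp.coeFn_compMeasurePreserving f (hτ.mp c)
  have hadd : ∀ a b x, ρ (a + b) x = ρ a (ρ b x) := by
    intro a b f
    refine Lp.ext ?_
    have h1 := hρ (a + b) f
    have h2 := hρ a (ρ b f)
    have h3 := (hτ.mp a).quasiMeasurePreserving.ae_eq_comp (hρ b f)
    filter_upwards [h1, h2, h3] with x e1 e2 e3
    rw [e1, e2]
    have e4 : (ρ b f : Lp ℝ 2 μ) (τ a x) = f (τ b (τ a x)) := e3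
    rw [e4, ← hτ.add, add_comm]
  obtain ⟨m, hm, hcau, hinv⟩ := SL ρ hadd (hψ.toLp ψ)
  obtain ⟨w, hw⟩ := cauchySeq_tendsto_of_complete hcau
  -- the limit is asymptotically fixed
  have hfix : ∀ κ : ℝ, 0 < κ → ∃ N, ∀ y ∈ B N, ‖ρ y w - w‖ ≤ κ := by
    intro κ hκ
    obtain ⟨N, hN⟩ := hinv κ hκ
    refine ⟨N, fun y hy => ?_⟩
    have h1 : Filter.Tendsto (fun n => ‖ρ y (avg (m n) (fun c => ρ c (hψ.toLp ψ)))
        - avg (m n) (fun c => ρ c (hψ.toLp ψ))‖) Filter.atTop (nhds ‖ρ y w - w‖) :=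
      ((((ρ y).continuous.tendsto w).comp hw).sub hw).norm
    refine le_of_tendsto h1 ?_
    filter_upwards [Filter.eventually_ge_atTop N] with n hn
    exact hN n hn y hy
  have hwm : AEStronglyMeasurable[Rig μ τ] (w : X → ℝ) μ := by
    refine rig_of_fix hτ _ (Lp.memLp w) fun κ hκ => ?_
    obtain ⟨N, hN⟩ := hfix (Real.sqrt κ) (Real.sqrt_pos.2 hκ)
    refine ⟨N, fun c hc => ?_⟩
    have h1 := hN c hc
    have h2 : ‖ρ c w - w‖ ^ 2 = ∫ x, ((w : X → ℝ) (τ c x) - w x) ^ 2 ∂μ := by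
      rw [erg_norm_sq]
      refine integral_congr_ae ?_
      filter_upwards [Lp.coeFn_sub (ρ c w) w, hρ c w] with x e1 e2
      rw [e1, Pi.sub_apply, e2]
    rw [← h2]
    calc ‖ρ c w - w‖ ^ 2 ≤ (Real.sqrt κ) ^ 2 := by gcongr
      _ = κ := Real.sq_sqrt hκ.le
  have hψi : Integrable ψ μ := hψ.integrable (by norm_num)
  -- orthogonality
  have horth : ∀ c, inner ℝ (ρ c (hψ.toLp ψ)) w = 0 := by
    intro c
    have h1 : (ρ c (hψ.toLp ψ) : Lp ℝ 2 μ) =ᵐ[μ] fun x => ψ (τ c x) :=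
      (hρ c _).trans ((hτ.mp c).quasiMeasurePreserving.ae_eq_comp hψ.coeFn_toLp)
    have hc2 : MemLp (fun x => ψ (τ c x)) 2 μ := hψ.comp_measurePreserving (hτ.mp c)
    have h2 : inner ℝ (ρ c (hψ.toLp ψ)) w = ∫ x, ψ (τ c x) * w x ∂μ := by
      rw [L2.inner_def]
      refine integral_congr_ae ?_
      filter_upwards [h1] with x e1
      rw [e1]
      simp [mul_comm]
    rw [h2]
    have hle : Rig μ τ ≤ m0 := rig_le hτ
    have h3 : Integrable ((fun x => ψ (τ c x)) * (w : X → ℝ)) μ :=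
      hc2.integrable_mul (Lp.memLp w)
    have h4 := condExp_mul_of_aestronglyMeasurable_right (m := Rig μ τ) hwm h3
      (hc2.integrable (by norm_num))
    have h5 := integral_condExp (μ := μ) (f := (fun x => ψ (τ c x)) * (w : X → ℝ)) hle
    have h6 : ∫ x, ψ (τ c x) * w x ∂μ
        = ∫ x, ((fun x => ψ (τ c x)) * (w : X → ℝ)) x ∂μ := rfl
    rw [h6, ← h5]
    have h7 := CE_comp hτ c ψ hψi
    have h8 := (hτ.mp c).quasiMeasurePreserving.ae_eq_comp h0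
    have h9 : ∀ᵐ x ∂μ, (μ[(fun x => ψ (τ c x)) * (w : X → ℝ) | Rig μ τ]) x = 0 := by
      filter_upwards [h4, h7, h8] with x e4 e7 e8
      rw [e4, Pi.mul_apply]
      have e9 : CE μ τ (fun x => ψ (τ c x)) x = 0 := by
        rw [e7]
        exact e8
      have e10 : (μ[fun x => ψ (τ c x) | Rig μ τ]) x = 0 := e9
      rw [e10, zero_mul]
    rw [integral_congr_ae h9, integral_zero]
  have havg : ∀ n, inner ℝ (avg (m n) (fun c => ρ c (hψ.toLp ψ))) w = (0 : ℝ) := by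
    intro n
    unfold avg Finsupp.sum
    rw [sum_inner]
    refine Finset.sum_eq_zero fun c _ => ?_
    rw [real_inner_smul_left, horth, mul_zero]
  have hw0 : w = 0 := by
    have h1 : Filter.Tendsto (fun n => inner ℝ (avg (m n) (fun c => ρ c (hψ.toLp ψ))) w)
        Filter.atTop (nhds (inner ℝ w w)) := hw.inner tendsto_const_nhds
    simp only [havg] at h1
    have h2 := tendsto_nhds_unique h1 tendsto_const_nhds
    exact inner_self_eq_zero.1 h2
  have hlim : Filter.Tendsto (fun n => ‖avg (m n) (fun c => ρ c (hψ.toLp ψ))‖ ^ 2)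
      Filter.atTop (nhds 0) := by
    have := (hw.norm.pow 2)
    rw [hw0] at this
    simpa using this
  have hev := (hlim.eventually (ge_mem_nhds hη)).and (Filter.eventually_ge_atTop N)
  obtain ⟨n, hn1, hn2⟩ := hev.exists
  refine ⟨m n, isProb_mono (B_anti hn2) (hm n), ?_⟩
  have h1 : ∫ x, (avg (m n) (fun c => ψ (τ c x))) ^ 2 ∂μ
      = ‖avg (m n) (fun c => ρ c (hψ.toLp ψ))‖ ^ 2 := by
    rw [erg_norm_sq]
    refine integral_congr_ae ?_
    filter_upwards [erg_avg hτ ψ hψ (m n)] with x e1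
    rw [e1]
  rw [h1]
  exact hn1


end Pool.Agent.H76.CR
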