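import Pool.Agent.H76.CR.Erg

set_option autoImplicit false
open MeasureTheory
open scoped symmDiff ENNReal
namespace Pool.Agent.H76.CR

variable {X : Type} [m0 : MeasurableSpace X] {μ : Measure X} [IsProbabilityMeasure μ]
  {τ : A → X → X}

/-- pointwise Jensen inequality -/
theorem ErgM_jensen {S : Set A} {m : A →₀ ℝ} (hm : IsProb S m) (u : A → ℝ) :
    (avg m u) ^ 2 ≤ avg m (fun c => (u c) ^ 2) := by
  have h := (even_two.convexOn_pow (𝕜 := ℝ)).map_sum_le (t := m.support) (w := m) (p := u)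
    (fun c _ => hm.1 c) hm.2.1 (fun _ _ => Set.mem_univ _)
  simpa [avg, Finsupp.sum] using h

theorem ErgM_swap (m m' : A →₀ ℝ) (F : A → A → ℝ) :
    avg m (fun c => avg m' (fun c' => F c c')) = avg m' (fun c' => avg m (fun c => F c c')) := by
  simp only [avg, Finsupp.sum, smul_eq_mul, Finset.mul_sum]
  rw [Finset.sum_comm]
  refine Finset.sum_congr rfl fun c' _ => Finset.sum_congr rfl fun c _ => ?_
  ring

omit [IsProbabilityMeasure μ] in
theorem ErgM_int {S : Set A} {m : A →₀ ℝ} (hm : IsProb S m) (G : A → X → ℝ)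
    (hG : ∀ c, MemLp (G c) 2 μ) (C : ℝ) (h : ∀ c ∈ S, ∫ x, (G c x) ^ 2 ∂μ ≤ C) :
    ∫ x, (avg m (fun c => G c x)) ^ 2 ∂μ ≤ C := by
  have hi : ∀ c, Integrable (fun x => (G c x) ^ 2) μ := fun c => (hG c).integrable_sq
  have h1 : ∫ x, (avg m (fun c => G c x)) ^ 2 ∂μ ≤
      ∫ x, avg m (fun c => (G c x) ^ 2) ∂μ := by
    refine integral_mono_of_nonneg (Filter.Eventually.of_forall fun x => sq_nonneg _) ?_
      (Filter.Eventually.of_forall fun x => ErgM_jensen hm _)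
    simp only [avg, Finsupp.sum, smul_eq_mul]
    exact integrable_finsetSum _ fun c _ => (hi c).const_mul _
  have h2 : ∫ x, avg m (fun c => (G c x) ^ 2) ∂μ = avg m (fun c => ∫ x, (G c x) ^ 2 ∂μ) := by
    simp only [avg, Finsupp.sum, smul_eq_mul]
    rw [integral_finsetSum _ fun c _ => (hi c).const_mul _]
    refine Finset.sum_congr rfl fun c _ => ?_
    rw [integral_const_mul]
  have h3 : avg m (fun c => ∫ x, (G c x) ^ 2 ∂μ) ≤ avg m (fun _ => C) := avg_mono hm _ _ h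
  rw [avg_const hm] at h3
  linarith

omit [IsProbabilityMeasure μ] in
theorem ErgM_comp (hτ : Act μ τ) (a : A) {φ : X → ℝ} (hφ : MemLp φ 2 μ) :
    MemLp (fun x => φ (τ a x)) 2 μ :=
  hφ.comp_measurePreserving (hτ.mp a)

omit [IsProbabilityMeasure μ] in
theorem ErgM_intcomp (hτ : Act μ τ) (a : A) {φ : X → ℝ} (hφ : MemLp φ 2 μ) :
    ∫ x, (φ (τ a x)) ^ 2 ∂μ = ∫ x, (φ x) ^ 2 ∂μ := by
  have h := (hτ.mp a).map_eq
  have h1 : AEStronglyMeasurable (fun x => (φ x) ^ 2) (Measure.map (τ a) μ) := by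
    rw [h]
    exact hφ.integrable_sq.aestronglyMeasurable
  have h2 := integral_map (hτ.mp a).measurable.aemeasurable h1
  rw [h] at h2
  exact h2.symm

omit [IsProbabilityMeasure μ] in
theorem ErgM_memLp (hτ : Act μ τ) (m : A →₀ ℝ) {φ : X → ℝ} (hφ : MemLp φ 2 μ) :
    MemLp (fun x => avg m (fun c => φ (τ c x))) 2 μ := by
  simp only [avg, Finsupp.sum, smul_eq_mul]
  exact memLp_finsetSum _ fun c _ => (ErgM_comp hτ c hφ).const_mul _

omit [IsProbabilityMeasure μ] in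
theorem ErgM_stab (hτ : Act μ τ) (φ : X → ℝ) (hφ : MemLp φ 2 μ) (η : ℝ) :
    Stab (fun m => ∫ x, (avg m (fun c => φ (τ c x))) ^ 2 ∂μ ≤ η) := by
  intro m m' hm hm' h
  have h1 : ∀ x, avg (conv m m') (fun c => φ (τ c x)) =
      avg m (fun c => avg m' (fun c' => φ (τ c' (τ c x)))) := by
    intro x
    rw [avg_conv]
    congr 1
    funext c
    congr 1
    funext c'
    rw [add_comm, hτ.add]
  have h2 : ∀ x, avg (conv m m') (fun c => φ (τ c x)) =
      avg m' (fun c' => avg m (fun c => φ (τ c (τ c' x)))) := by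
    intro x
    rw [avg_conv, ErgM_swap]
    congr 1
    funext c'
    congr 1
    funext c
    rw [hτ.add]
  rcases h with h | h
  · simp only [h2]
    refine ErgM_int hm' (fun c' x => avg m (fun c => φ (τ c (τ c' x))))
      (fun c' => ErgM_comp hτ c' (ErgM_memLp hτ m hφ)) η fun c' _ => ?_
    rw [ErgM_intcomp hτ c' (ErgM_memLp hτ m hφ)]
    exact h
  · simp only [h1]
    refine ErgM_int hm (fun c x => avg m' (fun c' => φ (τ c' (τ c x))))
      (fun c => ErgM_comp hτ c (ErgM_memLp hτ m' hφ)) η fun c _ => ?_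
    rw [ErgM_intcomp hτ c (ErgM_memLp hτ m' hφ)]
    exact h

theorem ErgM_far (hτ : Act μ τ) (ψ : X → ℝ) (hψ : MemLp ψ 2 μ)
    (hm : AEStronglyMeasurable[Rig μ τ] ψ μ) (κ : ℝ) (hκ : 0 < κ) :
    ∃ N, ∀ m, IsProb (B N) m → ∫ x, (avg m (fun c => ψ (τ c x)) - ψ x) ^ 2 ∂μ ≤ κ := by
  obtain ⟨N, hN⟩ := fix_of_rig hτ ψ hψ hm 1 κ hκ
  refine ⟨N, fun m hm' => ?_⟩
  have h1 : ∀ x, avg m (fun c => ψ (τ c x)) - ψ x = avg m (fun c => ψ (τ c x) - ψ x) := by
    intro x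
    have h2 := avg_add m (fun c => ψ (τ c x) - ψ x) (fun _ => ψ x)
    rw [avg_const hm'] at h2
    simp only [sub_add_cancel] at h2
    rw [h2, add_sub_cancel_right]
  simp only [h1]
  exact ErgM_int hm' (fun c x => ψ (τ c x) - ψ x) (fun c => (ErgM_comp hτ c hψ).sub hψ) κ
    fun c hc => hN c (B_sub_Y N hc)

/-- ERGM: simultaneous version for finitely many bounded functions together with a finite family of
stable attainable properties (`attain_all`): the property `∫ (avg m (ψ - Eψ) ∘ τ)^2 ≤ η'` is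
attainable (`erg0`) and stable (averaging is a contraction of L^2 and `avg (conv m m')` is the
composition); `∫ (avg m (Eψ ∘ τ) - Eψ)^2 ≤ η'` holds for all far averages (`fix_of_rig`). -/
theorem ergM (hτ : Act μ τ) {ι κ : Type*} [Finite ι] [Finite κ] (ψ : ι → X → ℝ)
    (hψ : ∀ i, BM (ψ i)) (Q : κ → (A →₀ ℝ) → Prop) (hQ : ∀ i, Attain (Q i))
    (hS : ∀ i, Stab (Q i)) (N : ℕ) (η : ℝ) (hη : 0 < η) :
    ∃ m, IsProb (B N) m ∧ (∀ i, Q i m) ∧
      ∀ i, ∫ x, (avg m (fun c => ψ i (τ c x)) - CE μ τ (ψ i) x) ^ 2 ∂μ ≤ η := by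
  have hη4 : 0 < η / 4 := by positivity
  have hψ2 : ∀ i, MemLp (ψ i) 2 μ := by
    intro i
    obtain ⟨h1, C, hC⟩ := hψ i
    exact MemLp.of_bound h1.aestronglyMeasurable C (Filter.Eventually.of_forall fun x => by
      rw [Real.norm_eq_abs]; exact hC x)
  have hE2 : ∀ i, MemLp (CE μ τ (ψ i)) 2 μ := fun i => MemLp.condExp one_le_two (hψ2 i)
  have hEm : ∀ i, AEStronglyMeasurable[Rig μ τ] (CE μ τ (ψ i)) μ := fun i =>
    stronglyMeasurable_condExp.aestronglyMeasurable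
  have hφ2 : ∀ i, MemLp (fun x => ψ i x - CE μ τ (ψ i) x) 2 μ := fun i => (hψ2 i).sub (hE2 i)
  have hφ0 : ∀ i, CE μ τ (fun x => ψ i x - CE μ τ (ψ i) x) =ᵐ[μ] 0 := by
    intro i
    have h1 : Integrable (ψ i) μ := (hψ2 i).integrable one_le_two
    have h2 : Integrable (CE μ τ (ψ i)) μ := integrable_condExp
    have h3 := condExp_sub h1 h2 (Rig μ τ)
    have h4 : μ[CE μ τ (ψ i) | Rig μ τ] = CE μ τ (ψ i) :=
      condExp_of_stronglyMeasurable (rig_le hτ) stronglyMeasurable_condExp h2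
    refine h3.trans ?_
    rw [h4]
    refine Filter.Eventually.of_forall fun x => ?_
    simp [CE]
  choose Nf hNf using fun i => ErgM_far hτ (CE μ τ (ψ i)) (hE2 i) (hEm i) (η / 4) hη4
  obtain ⟨M, hM⟩ : ∃ M, ∀ i, Nf i ≤ M := by
    obtain ⟨M, hM⟩ := (Set.finite_range Nf).bddAbove
    exact ⟨M, fun i => hM ⟨i, rfl⟩⟩
  obtain ⟨m, hm, hmQ, hmR⟩ := attain_all
    (Q := fun i : κ ⊕ ι => Sum.elim Q
      (fun i m => ∫ x, (avg m (fun c => ψ i (τ c x) - CE μ τ (ψ i) (τ c x))) ^ 2 ∂μ ≤ η / 4) i)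
    (by
      rintro (i | i)
      · exact hQ i
      · intro N'
        exact erg0 hτ _ (hφ2 i) (hφ0 i) N' (η / 4) hη4)
    (by
      rintro (i | i)
      · exact hS i
      · exact ErgM_stab hτ (fun x => ψ i x - CE μ τ (ψ i) x) (hφ2 i) (η / 4))
    (fun m => ∀ i, ∫ x, (avg m (fun c => CE μ τ (ψ i) (τ c x)) - CE μ τ (ψ i) x) ^ 2 ∂μ ≤ η / 4)
    ⟨M, fun m hm i => hNf i m (isProb_mono (B_anti (hM i)) hm)⟩ N
  refine ⟨m, hm, fun i => hmQ (Sum.inl i), fun i => ?_⟩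
  have h1 := hmQ (Sum.inr i)
  have h2 := hmR i
  simp only [Sum.elim_inr] at h1
  have e : ∀ x, avg m (fun c => ψ i (τ c x)) - CE μ τ (ψ i) x =
      avg m (fun c => ψ i (τ c x) - CE μ τ (ψ i) (τ c x)) +
        (avg m (fun c => CE μ τ (ψ i) (τ c x)) - CE μ τ (ψ i) x) := by
    intro x
    have h3 := avg_add m (fun c => ψ i (τ c x) - CE μ τ (ψ i) (τ c x))
      (fun c => CE μ τ (ψ i) (τ c x))
    simp only [sub_add_cancel] at h3
    rw [h3]
    ring
  have i1 : Integrable (fun x => (avg m (fun c => ψ i (τ c x) - CE μ τ (ψ i) (τ c x))) ^ 2) μ :=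
    (ErgM_memLp hτ m (hφ2 i)).integrable_sq
  have i2 : Integrable (fun x => (avg m (fun c => CE μ τ (ψ i) (τ c x)) - CE μ τ (ψ i) x) ^ 2) μ :=
    ((ErgM_memLp hτ m (hE2 i)).sub (hE2 i)).integrable_sq
  calc ∫ x, (avg m (fun c => ψ i (τ c x)) - CE μ τ (ψ i) x) ^ 2 ∂μ
      ≤ ∫ x, (2 * (avg m (fun c => ψ i (τ c x) - CE μ τ (ψ i) (τ c x))) ^ 2 +
          2 * (avg m (fun c => CE μ τ (ψ i) (τ c x)) - CE μ τ (ψ i) x) ^ 2) ∂μ := by
        refine integral_mono_of_nonneg (Filter.Eventually.of_forall fun x => sq_nonneg _)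
          ((i1.const_mul 2).add (i2.const_mul 2)) (Filter.Eventually.of_forall fun x => ?_)
        beta_reduce
        rw [e x]
        nlinarith [sq_nonneg (avg m (fun c => ψ i (τ c x) - CE μ τ (ψ i) (τ c x)) -
          (avg m (fun c => CE μ τ (ψ i) (τ c x)) - CE μ τ (ψ i) x))]
    _ = 2 * ∫ x, (avg m (fun c => ψ i (τ c x) - CE μ τ (ψ i) (τ c x))) ^ 2 ∂μ +
          2 * ∫ x, (avg m (fun c => CE μ τ (ψ i) (τ c x)) - CE μ τ (ψ i) x) ^ 2 ∂μ := by
        rw [integral_add (i1.const_mul 2) (i2.const_mul 2), integral_const_mul,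
          integral_const_mul]
    _ ≤ η := by linarith

end Pool.Agent.H76.CR
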