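import Pool.Agent.H76.CR.Defs

set_option autoImplicit false
namespace Pool.Agent.H76.CR

theorem FAR_mem_om (c : A) (i : ℕ) : i ∈ c.support.filter (fun i => c i % 3 = 1) ↔ c i % 3 = 1 := by
  rw [Finset.mem_filter, Finsupp.mem_support_iff]
  constructor
  · exact fun h => h.2
  · intro h
    refine ⟨?_, h⟩
    intro h0
    rw [h0] at h
    simp at h

theorem FAR_om_add (x y : A) (h : ∀ i, x i = 0 ∨ y i = 0) : om (x + y) = om x + om y := by
  unfold om
  rw [← Finset.card_union_of_disjoint]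
  · congr 1
    ext i
    rw [Finset.mem_union, FAR_mem_om, FAR_mem_om, FAR_mem_om, Finsupp.add_apply]
    rcases h i with h | h <;> rw [h] <;> simp
  · rw [Finset.disjoint_left]
    intro i hi hi'
    rw [FAR_mem_om] at hi hi'
    rcases h i with h0 | h0
    · rw [h0] at hi; simp at hi
    · rw [h0] at hi'; simp at hi'

theorem FAR_om_congr (x y : A) (h : ∀ i, x i % 3 = 1 ↔ y i % 3 = 1) : om x = om y := by
  unfold om
  congr 1
  ext i
  rw [FAR_mem_om, FAR_mem_om, h i]

/-- FAR: elementary combinatorics of `B N`, `Y N k` (disjoint supports: `om` is additive). -/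
theorem B_zero (N : ℕ) : (0 : A) ∈ B N := by
  refine ⟨fun i => ?_, ?_⟩
  · simp
  · simp [om]

theorem B_anti {N M : ℕ} (h : N ≤ M) : B M ⊆ B N := by
  intro c hc
  refine ⟨fun i => ?_, hc.2⟩
  obtain ⟨h1, h2, h3, h4⟩ := hc.1 i
  exact ⟨fun h0 => le_trans h (h1 h0), dvd_trans (pow_dvd_pow _ h) h2, h3, h4⟩

/-- take `N'` larger than the support of `y` -/
theorem B_add (N : ℕ) (y : A) (hy : y ∈ B N) : ∃ N', N ≤ N' ∧ ∀ c ∈ B N', y + c ∈ B N := by
  refine ⟨max N (y.support.sup id + 1), le_max_left _ _, fun c hc => ?_⟩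
  have hc' := B_anti (le_max_left N (y.support.sup id + 1)) hc
  have hdisj : ∀ i, y i = 0 ∨ c i = 0 := by
    intro i
    by_contra hcon
    push Not at hcon
    have h1 : id i ≤ y.support.sup id := Finset.le_sup (Finsupp.mem_support_iff.2 hcon.1)
    have h2 := (hc.1 i).1 hcon.2
    have h3 := le_trans (le_max_right N (y.support.sup id + 1)) h2
    simp only [id] at h1
    omega
  refine ⟨fun i => ?_, ?_⟩
  · rw [Finsupp.add_apply]
    rcases hdisj i with h | h
    · rw [h, zero_add]; exact hc'.1 i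
    · rw [h, add_zero]; exact hy.1 i
  · rw [FAR_om_add y c hdisj]
    exact dvd_add hy.2 hc.2

/-- `c' = c/4`, digits `c_i / 4 ≡ c_i mod 3` -/
theorem B_four (N : ℕ) (c : A) (hc : c ∈ B (N + 1)) : ∃ c' ∈ B N, c = (c' + c') + (c' + c') := by
  have key : ∀ i, ∃ z : ℤ, c i = 4 * z ∧ (4 : ℤ) ^ N ∣ z := by
    intro i
    obtain ⟨z, hz⟩ := (hc.1 i).2.1
    exact ⟨4 ^ N * z, by rw [hz, pow_succ]; ring, Dvd.intro _ rfl⟩
  set c' : A := c.mapRange (fun z => z / 4) (by simp) with hc'
  have h4 : ∀ i, c i = 4 * c' i := by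
    intro i
    obtain ⟨z, hz, _⟩ := key i
    rw [hc', Finsupp.mapRange_apply, hz]
    omega
  refine ⟨c', ⟨fun i => ?_, ?_⟩, ?_⟩
  · obtain ⟨h1, h2, h3, h5⟩ := hc.1 i
    obtain ⟨z, hz, hz2⟩ := key i
    have e := h4 i
    have ez : c' i = z := by omega
    refine ⟨fun h0 => ?_, ?_, ?_, ?_⟩
    · have := h1 (by omega)
      omega
    · rw [ez]; exact hz2
    · omega
    · rw [e, abs_mul] at h5
      have h6 : (0 : ℤ) ≤ |c' i| := abs_nonneg _
      have h7 : |(4 : ℤ)| = 4 := by norm_num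
      rw [h7] at h5
      linarith
  · rw [FAR_om_congr c' c]
    · exact hc.2
    · intro i
      have e := h4 i
      omega
  · ext i
    rw [Finsupp.add_apply, Finsupp.add_apply, h4 i]
    ring

theorem Y_anti {N M : ℕ} (h : N ≤ M) (k : ℕ) : Y M k ⊆ Y N k := by
  induction k with
  | zero => exact le_refl _
  | succ k ih =>
    rintro y ⟨y', hy', c, hc, hy⟩
    exact ⟨y', ih hy', c, B_anti h hc, hy⟩

theorem Y_mono (N : ℕ) {k l : ℕ} (h : k ≤ l) : Y N k ⊆ Y N l := by
  induction h with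
  | refl => exact le_refl _
  | step _ ih =>
    intro y hy
    exact ⟨y, ih hy, 0, B_zero N, Or.inl (by simp)⟩

theorem Y_add (N k l : ℕ) (y y' : A) (h : y ∈ Y N k) (h' : y' ∈ Y N l) : y + y' ∈ Y N (k + l) := by
  induction l generalizing y' with
  | zero =>
    have h0 : y' = 0 := h'
    have h1 : y + y' = y := by rw [h0, add_zero]
    rw [h1]
    exact h
  | succ l ih =>
    obtain ⟨z, hz, c, hc, hy⟩ := h'
    refine ⟨y + z, ih z hz, c, hc, ?_⟩
    rcases hy with rfl | rfl
    · left; abel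
    · right; abel

theorem Y_neg (N k : ℕ) (y : A) (h : y ∈ Y N k) : -y ∈ Y N k := by
  induction k generalizing y with
  | zero =>
    have : y = 0 := h
    rw [this, neg_zero]
    exact rfl
  | succ k ih =>
    obtain ⟨z, hz, c, hc, hy⟩ := h
    refine ⟨-z, ih z hz, c, hc, ?_⟩
    rcases hy with rfl | rfl
    · right; abel
    · left; abel

theorem B_sub_Y (N : ℕ) : B N ⊆ Y N 1 := fun c hc => ⟨0, rfl, c, hc, Or.inl (by simp)⟩

end Pool.Agent.H76.CR
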