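import Mathlib

set_option autoImplicit false
open MeasureTheory Filter Topology
namespace Pool.Agent.H76.CR

/-- The configuration space. -/
abbrev WlimX : Type := ℤ × ℤ → Bool

/-- The shift of coordinates by `v`. -/
def wlimShift (v : ℤ × ℤ) : WlimX ≃ₜ WlimX where
  toFun ω := fun a => ω (a - v)
  invFun ω := fun a => ω (a + v)
  left_inv ω := by funext a; simp
  right_inv ω := by funext a; simp
  continuous_toFun := by fun_prop
  continuous_invFun := by fun_prop

/-- The configuration of `g` in the finite system. -/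
def wlimPi (L : ℕ) (E : Finset (ZMod L × ZMod L)) (g : ZMod L × ZMod L) : WlimX :=
  fun a => decide ((g.1 + (a.1 : ZMod L), g.2 + (a.2 : ZMod L)) ∈ E)

lemma wlimShift_pi (L : ℕ) (E : Finset (ZMod L × ZMod L)) (v : ℤ × ℤ) (g : ZMod L × ZMod L) :
    wlimShift v (wlimPi L E g)
      = wlimPi L E (g - ((v.1 : ZMod L), (v.2 : ZMod L))) := by
  funext a
  simp only [wlimShift, wlimPi, Homeomorph.homeomorph_mk_coe, Equiv.coe_fn_mk]
  congr 1
  have : (g.1 + ((a - v).1 : ZMod L), g.2 + ((a - v).2 : ZMod L))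
      = ((g - ((v.1 : ZMod L), (v.2 : ZMod L))).1 + (a.1 : ZMod L),
        (g - ((v.1 : ZMod L), (v.2 : ZMod L))).2 + (a.2 : ZMod L)) := by
    ext
    · simp; ring
    · simp; ring
  rw [this]

/-- The uniform measure on the configurations. -/
noncomputable def wlimM (L : ℕ) [NeZero L] (E : Finset (ZMod L × ZMod L)) : Measure WlimX :=
  ((Fintype.card (ZMod L × ZMod L) : ENNReal))⁻¹ • ∑ g : ZMod L × ZMod L, Measure.dirac (wlimPi L E g)

lemma wlimM_apply (L : ℕ) [NeZero L] (E : Finset (ZMod L × ZMod L)) (s : Set WlimX)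
    (hs : MeasurableSet s) :
    wlimM L E s = ((Fintype.card (ZMod L × ZMod L) : ENNReal))⁻¹ *
      ∑ g : ZMod L × ZMod L, s.indicator (fun _ => (1 : ENNReal)) (wlimPi L E g) := by
  rw [wlimM, Measure.smul_apply, Measure.finsetSum_apply, smul_eq_mul]
  congr 1
  refine Finset.sum_congr rfl fun g _ => ?_
  rw [Measure.dirac_apply' _ hs]
  rfl

instance wlimM_prob (L : ℕ) [NeZero L] (E : Finset (ZMod L × ZMod L)) :
    IsProbabilityMeasure (wlimM L E) := by
  constructor
  rw [wlimM_apply _ _ _ MeasurableSet.univ]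
  simp only [Set.indicator_univ, Finset.sum_const, Finset.card_univ, nsmul_eq_mul, mul_one]
  refine ENNReal.inv_mul_cancel ?_ (ENNReal.natCast_ne_top _)
  have := Fintype.card_ne_zero (α := ZMod L × ZMod L)
  exact_mod_cast this

lemma wlimM_shift (L : ℕ) [NeZero L] (E : Finset (ZMod L × ZMod L)) (v : ℤ × ℤ) :
    (wlimM L E).map (wlimShift v) = wlimM L E := by
  refine Measure.ext fun s hs => ?_
  have hm : Measurable (wlimShift v) := (wlimShift v).continuous.measurable
  rw [Measure.map_apply hm hs, wlimM_apply _ _ _ (hm hs), wlimM_apply _ _ _ hs]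
  congr 1
  refine Fintype.sum_equiv (Equiv.subRight ((v.1 : ZMod L), (v.2 : ZMod L))) _ _ fun g => ?_
  rw [Equiv.subRight_apply, ← wlimShift_pi]
  rfl

/-- The base set. -/
def wlimA : Set WlimX := {ω | ω (0, 0) = true}

lemma wlim_isClopen (a : ℤ × ℤ) : IsClopen {ω : WlimX | ω a = true} := by
  have : {ω : WlimX | ω a = true} = (fun ω : WlimX => ω a) ⁻¹' {true} := rfl
  rw [this]
  exact (isClopen_discrete _).preimage (continuous_apply a)

/-- The shifts as a homomorphism. -/
def wlimHom : Multiplicative (ℤ × ℤ) →* Equiv.Perm WlimX where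
  toFun v := (wlimShift v.toAdd).toEquiv
  map_one' := by
    ext ω a
    simp [wlimShift]
  map_mul' v w := by
    refine Equiv.ext fun ω => ?_
    funext a
    simp only [wlimShift, Equiv.coe_fn_mk, Equiv.Perm.coe_mul,
      Function.comp_apply, toAdd_mul]
    congr 1
    abel

lemma wlimShift_pow (v : ℤ × ℤ) (n : ℤ) :
    ((wlimShift v).toEquiv : Equiv.Perm WlimX) ^ n = (wlimShift (n • v)).toEquiv := by
  have := map_zpow wlimHom (Multiplicative.ofAdd v) n
  rw [← ofAdd_zsmul] at this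
  exact this.symm

lemma wlim_image (v : ℤ × ℤ) (n : ℤ) :
    ⇑(((wlimShift v).toEquiv : Equiv.Perm WlimX) ^ n) '' wlimA = {ω | ω (n • v) = true} := by
  rw [wlimShift_pow, Equiv.image_eq_preimage_symm]
  ext ω
  have h1 : ((wlimShift (n • v)).toEquiv.symm ω) = fun a => ω (a + n • v) := rfl
  simp only [Set.mem_preimage, wlimA, Set.mem_ofPred_eq, h1]
  rw [show ((0, 0) : ℤ × ℤ) + n • v = n • v from zero_add _]

/-- WLIM: weak limits. For a finite set `F` let `P_F` be the law of
`(a, b) ↦ 1_E (x + a, y + b)` in `ℤ × ℤ → Bool` for uniform `(x, y) ∈ (ZMod L)^2`; take a cluster point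
(ultrafilter on `Finset ℤ`, `CompactSpace (ProbabilityMeasure _)`, clopen sets are continuity sets) `μ`.
`T₁ ω (a, b) = ω (a - 1, b)`, `T₂ ω (a, b) = ω (a, b - 1)` (so that `ω ∈ T₁^n '' A` iff `ω (n, 0) = true`
up to sign conventions), `A = {ω | ω (0,0) = true}`. -/
theorem wlim (S : Set ℤ) (δ : ℝ) (hδ : 0 < δ)
    (h : ∀ F : Finset ℤ, (∀ n ∈ F, n ∈ S) → ∃ (L : ℕ) (_ : NeZero L)
      (E : Finset (ZMod L × ZMod L)), δ * (L : ℝ) ^ 2 ≤ (E.card : ℝ) ∧
        ∀ n ∈ F, ∀ p ∈ E, ¬ ((p.1 + (n : ZMod L), p.2) ∈ E ∧ (p.1, p.2 + (n : ZMod L)) ∈ E)) :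
    ∃ (X : Type) (_ : MeasurableSpace X) (μ : Measure X) (_ : IsProbabilityMeasure μ)
      (T₁ T₂ : X ≃ᵐ X), MeasurePreserving T₁ μ μ ∧ MeasurePreserving T₂ μ μ ∧
      Commute (T₁.toEquiv : Equiv.Perm X) (T₂.toEquiv : Equiv.Perm X) ∧
      ∃ A0 : Set X, MeasurableSet A0 ∧ 0 < μ A0 ∧ ∀ n ∈ S,
        μ (A0 ∩ ⇑((T₁.toEquiv : Equiv.Perm X) ^ n) '' A0
            ∩ ⇑((T₂.toEquiv : Equiv.Perm X) ^ n) '' A0) = 0 := by
  classical
  have h' : ∀ F : Finset S, ∃ (L : ℕ) (_ : NeZero L)
      (E : Finset (ZMod L × ZMod L)), δ * (L : ℝ) ^ 2 ≤ (E.card : ℝ) ∧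
        ∀ n ∈ F, ∀ p ∈ E, ¬ ((p.1 + ((n : ℤ) : ZMod L), p.2) ∈ E ∧
          (p.1, p.2 + ((n : ℤ) : ZMod L)) ∈ E) := by
    intro F
    obtain ⟨L, hL, E, h1, h2⟩ := h (F.map (Function.Embedding.subtype _)) (by
      intro n hn
      obtain ⟨m, -, rfl⟩ := Finset.mem_map.1 hn
      exact m.2)
    exact ⟨L, hL, E, h1, fun n hn p hp => h2 n (by simpa using hn) p hp⟩
  choose L hL E hE1 hE2 using h'
  let P : Finset S → ProbabilityMeasure WlimX := fun F => ⟨wlimM (L F) (E F), inferInstance⟩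
  have hP : ∀ F, (P F : Measure WlimX) = wlimM (L F) (E F) := fun F => rfl
  obtain ⟨U, hU⟩ := exists_ultrafilter_le (f := (atTop : Filter (Finset S)))
  obtain ⟨μ, -, hμ⟩ := isCompact_univ.ultrafilter_le_nhds (U.map P) (by simp)
  have hlim : Tendsto P U (𝓝 μ) := hμ
  have hclo : ∀ s : Set WlimX, IsClopen s →
      Tendsto (fun F => (P F : Measure WlimX) s) U (𝓝 ((μ : Measure WlimX) s)) := by
    intro s hs
    exact ProbabilityMeasure.tendsto_measure_of_null_frontier_of_tendsto' hlim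
      (by simp [hs.frontier_eq])
  have hinv : ∀ v : ℤ × ℤ, MeasurePreserving (wlimShift v).toMeasurableEquiv (μ : Measure WlimX)
      (μ : Measure WlimX) := by
    intro v
    have hc := (wlimShift v).continuous
    refine ⟨hc.measurable, ?_⟩
    have h1 := ProbabilityMeasure.tendsto_map_of_tendsto_of_continuous P μ hlim hc
    have h2 : (fun F => (P F).map hc.measurable.aemeasurable) = P := by
      funext F
      apply Subtype.ext
      exact wlimM_shift (L F) (E F) v
    rw [h2] at h1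
    have h3 := tendsto_nhds_unique h1 hlim
    have h4 := congrArg (fun ν : ProbabilityMeasure WlimX => (ν : Measure WlimX)) h3
    exact h4
  have hT : ∀ v : ℤ × ℤ, ((wlimShift v).toMeasurableEquiv.toEquiv : Equiv.Perm WlimX)
      = ((wlimShift v).toEquiv : Equiv.Perm WlimX) := fun v => rfl
  refine ⟨WlimX, inferInstance, μ, inferInstance, (wlimShift (1, 0)).toMeasurableEquiv,
    (wlimShift (0, 1)).toMeasurableEquiv, hinv _, hinv _, ?_, wlimA, ?_, ?_, ?_⟩
  · rw [hT, hT]
    have := (Commute.all (Multiplicative.ofAdd ((1, 0) : ℤ × ℤ))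
      (Multiplicative.ofAdd ((0, 1) : ℤ × ℤ))).map wlimHom
    exact this
  · exact (wlim_isClopen (0, 0)).isOpen.measurableSet
  · have h1 := hclo wlimA (wlim_isClopen (0, 0))
    have h2 : ∀ F, ENNReal.ofReal δ ≤ (P F : Measure WlimX) wlimA := by
      intro F
      have hmA : MeasurableSet wlimA := (wlim_isClopen (0, 0)).isOpen.measurableSet
      rw [hP, wlimM_apply _ _ _ hmA]
      have h3 : ∀ g : ZMod (L F) × ZMod (L F),
          wlimA.indicator (fun _ => (1 : ENNReal)) (wlimPi (L F) (E F) g)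
            = if g ∈ E F then 1 else 0 := by
        intro g
        simp [Set.indicator, wlimA, wlimPi]
      simp only [h3, Finset.sum_ite_mem, Finset.univ_inter, Finset.sum_const, nsmul_eq_mul,
        mul_one, Fintype.card_prod, ZMod.card]
      have h4 : (0 : ℝ) < ((L F : ℝ)) := by
        have := (hL F).ne
        positivity
      rw [← ENNReal.div_eq_inv_mul, ENNReal.le_div_iff_mul_le]
      · rw [← ENNReal.ofReal_natCast, ← ENNReal.ofReal_natCast, ← ENNReal.ofReal_mul hδ.le]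
        apply ENNReal.ofReal_le_ofReal
        have := hE1 F
        push_cast
        nlinarith
      · left
        simp [(hL F).ne]
      · left
        exact ENNReal.natCast_ne_top _
    have h3 := ge_of_tendsto' h1 h2
    exact lt_of_lt_of_le (by simpa using hδ) h3
  · intro n hn
    rw [hT, hT, wlim_image, wlim_image]
    have hcl : IsClopen (wlimA ∩ {ω : WlimX | ω (n • ((1, 0) : ℤ × ℤ)) = true}
        ∩ {ω : WlimX | ω (n • ((0, 1) : ℤ × ℤ)) = true}) :=
      ((wlim_isClopen _).inter (wlim_isClopen _)).inter (wlim_isClopen _)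
    have h1 := hclo _ hcl
    have h2 : ∀ᶠ F in (U : Filter (Finset S)), (P F : Measure WlimX)
        (wlimA ∩ {ω : WlimX | ω (n • ((1, 0) : ℤ × ℤ)) = true}
        ∩ {ω : WlimX | ω (n • ((0, 1) : ℤ × ℤ)) = true}) = 0 := by
      have h3 : ∀ᶠ F in (atTop : Filter (Finset S)), (⟨n, hn⟩ : S) ∈ F := by
        filter_upwards [eventually_ge_atTop ({⟨n, hn⟩} : Finset S)] with F hF
        exact hF (Finset.mem_singleton_self _)
      filter_upwards [hU h3] with F hF
      rw [hP, wlimM_apply _ _ _ hcl.isOpen.measurableSet]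
      have h4 : ∀ g : ZMod (L F) × ZMod (L F),
          (wlimA ∩ {ω : WlimX | ω (n • ((1, 0) : ℤ × ℤ)) = true}
        ∩ {ω : WlimX | ω (n • ((0, 1) : ℤ × ℤ)) = true}).indicator
          (fun _ => (1 : ENNReal)) (wlimPi (L F) (E F) g) = 0 := by
        intro g
        apply Set.indicator_of_notMem
        rintro ⟨⟨ha, hb⟩, hc⟩
        simp only [wlimA, wlimPi, Set.mem_ofPred_eq, Prod.smul_mk, smul_eq_mul, mul_one, mul_zero,
          Int.cast_zero, add_zero, decide_eq_true_eq, Prod.mk.eta] at ha hb hc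
        exact hE2 F ⟨n, hn⟩ hF g ha ⟨hb, hc⟩
      rw [Finset.sum_eq_zero (fun g _ => h4 g), mul_zero]
    refine tendsto_nhds_unique h1 ?_
    exact (tendsto_congr' h2).2 tendsto_const_nhds

end Pool.Agent.H76.CR
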