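import Pool.Agent.H76.CR.Red
import Pool.Agent.H76.CR.Dig
import Pool.Agent.H76.CR.Wlim

set_option autoImplicit false
open MeasureTheory
namespace Pool.Agent.H76.CR

theorem S_bad : ∃ (X : Type) (_ : MeasurableSpace X) (μ : Measure X) (_ : IsProbabilityMeasure μ)
      (T₁ T₂ : X ≃ᵐ X), MeasurePreserving T₁ μ μ ∧ MeasurePreserving T₂ μ μ ∧
      Commute (T₁.toEquiv : Equiv.Perm X) (T₂.toEquiv : Equiv.Perm X) ∧
      ∃ A0 : Set X, MeasurableSet A0 ∧ 0 < μ A0 ∧ ∀ n ∈ S,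
        μ (A0 ∩ ⇑((T₁.toEquiv : Equiv.Perm X) ^ n) '' A0
            ∩ ⇑((T₂.toEquiv : Equiv.Perm X) ^ n) '' A0) = 0 := by
  apply wlim S (1 / 28) (by norm_num)
  intro F hF
  choose! c hcD hc9 hcn using hF
  -- a common bound for the supports
  obtain ⟨K, hK⟩ : ∃ K : ℕ, ∀ n ∈ F, ∀ i ∈ (c n).support, i < K := by
    refine ⟨F.sup (fun n => (c n).support.sup (fun i => i + 1)), fun n hn i hi => ?_⟩
    have h1 : (c n).support.sup (fun i => i + 1) ≤
        F.sup (fun n => (c n).support.sup (fun i => i + 1)) :=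
      Finset.le_sup (f := fun n => (c n).support.sup (fun i => i + 1)) hn
    have h2 : i + 1 ≤ (c n).support.sup (fun i => i + 1) :=
      Finset.le_sup (f := fun i => i + 1) hi
    omega
  obtain ⟨L, hL, E, hE, hc⟩ := dig K
  refine ⟨L, hL, E, by linarith, fun n hn p hp => ?_⟩
  have := hc (c n) (hcD n hn) (hK n hn) (hc9 n hn) p hp
  rwa [← hcn n hn] at this

theorem final :
    ¬ (∀ S : Set ℤ,
      (∀ (X : Type) [MeasurableSpace X] (μ : Measure X) [IsProbabilityMeasure μ]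
          (T : X ≃ᵐ X), MeasurePreserving T μ μ →
          ∀ A : Set X, MeasurableSet A → 0 < μ A →
            ∃ n ∈ S, n ≠ 0 ∧
              0 < μ (A ∩ ⇑((T.toEquiv : Equiv.Perm X) ^ n) '' A
                      ∩ ⇑((T.toEquiv : Equiv.Perm X) ^ (2 * n)) '' A)) →
      ∀ (X : Type) [MeasurableSpace X] (μ : Measure X) [IsProbabilityMeasure μ]
        (T₁ T₂ : X ≃ᵐ X), MeasurePreserving T₁ μ μ → MeasurePreserving T₂ μ μ →
        Commute (T₁.toEquiv : Equiv.Perm X) (T₂.toEquiv : Equiv.Perm X) →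
        ∀ A : Set X, MeasurableSet A → 0 < μ A →
          ∃ n ∈ S, n ≠ 0 ∧
            0 < μ (A ∩ ⇑((T₁.toEquiv : Equiv.Perm X) ^ n) '' A
                    ∩ ⇑((T₂.toEquiv : Equiv.Perm X) ^ n) '' A)) := by
  intro hall
  obtain ⟨X, mX, μ, hμ, T₁, T₂, h1, h2, hcomm, A0, hA, hpos, hbad⟩ := S_bad
  obtain ⟨n, hn, -, hlt⟩ := hall S (fun X _ μ _ T hT A0 hA hpos => S_rec X μ T hT A0 hA hpos)
    X μ T₁ T₂ h1 h2 hcomm A0 hA hpos
  rw [hbad n hn] at hlt
  exact lt_irrefl _ hlt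

end Pool.Agent.H76.CR
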