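import Mathlib

set_option autoImplicit false
namespace Pool.Agent.H76.CR

lemma grp_minimal {M : Type*} [Semigroup M] [TopologicalSpace M] [CompactSpace M] [T2Space M]
    (W K : Set M) (hK : IsClosed K) (hne : K.Nonempty) (hmul : ∀ w ∈ W, ∀ k ∈ K, w * k ∈ K) :
    ∃ L ⊆ K, IsClosed L ∧ L.Nonempty ∧ (∀ w ∈ W, ∀ l ∈ L, w * l ∈ L) ∧
      ∀ L' ⊆ L, IsClosed L' → L'.Nonempty → (∀ w ∈ W, ∀ l ∈ L', w * l ∈ L') → L' = L := by
  let S : Set (Set M) := {N | IsClosed N ∧ N.Nonempty ∧ ∀ w ∈ W, ∀ l ∈ N, w * l ∈ N}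
  obtain ⟨L, hLK, hL⟩ : ∃ L, L ⊆ K ∧ Minimal (· ∈ S) L := by
    refine zorn_superset_nonempty S (fun c hcs hc hcne => ?_) K ⟨hK, hne, hmul⟩
    refine ⟨⋂₀ c, ⟨isClosed_sInter fun t ht => (hcs ht).1, ?_, fun m hm m' hm' => ?_⟩,
      fun s hs => Set.sInter_subset_of_mem hs⟩
    · have : Nonempty c := hcne.coe_sort
      have h1 := @IsCompact.nonempty_iInter_of_directed_nonempty_isCompact_isClosed _ _ _ this
        ((↑) : c → Set M) (DirectedOn.directed_val (IsChain.directedOn hc.symm))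
        (fun i => (hcs i.prop).2.1) (fun i => (hcs i.prop).1.isCompact)
        (fun i => (hcs i.prop).1)
      rwa [← Set.sInter_eq_iInter] at h1
    · rw [Set.mem_sInter]
      exact fun t ht => (hcs ht).2.2 m hm m' (Set.mem_sInter.mp hm' t ht)
  exact ⟨L, hLK, hL.prop.1, hL.prop.2.1, hL.prop.2.2, fun L' h1 h2 h3 h4 =>
    hL.eq_of_subset ⟨h2, h3, h4⟩ h1⟩

/-- GRP: minimal idempotents in compact right-topological semigroups (`x ↦ x * r` continuous).
`W` closed subsemigroup: `L ⊆ W` minimal among nonempty closed sets with `W * L ⊆ L` (Zorn), `e ∈ L`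
idempotent (`exists_idempotent_in_compact_subsemigroup`); `L = W e`. An idempotent `g ∈ W` with
`e g = g = g e` lies in `L`, `W g = L ∋ e`, `e = z g`, so `e = z g g = e g = g`.
In `M e` (closed left ideal) take a minimal closed left ideal `L'`, `f0 ∈ L'` idempotent, `f = e f0`:
`f f = f`, `e f = f`, `f e = f` (`f0 e = f0`), `f ∈ L'`; every `x` with `f x = x = x f` has `M x = L' ∋ f`,
which gives left inverses in `f M f`, a group. -/
theorem grp {M : Type*} [Semigroup M] [TopologicalSpace M] [CompactSpace M] [T2Space M]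
    (hc : ∀ r : M, Continuous (· * r)) (W : Set M) (hW : IsClosed W) (hne : W.Nonempty)
    (hmul : ∀ x ∈ W, ∀ y ∈ W, x * y ∈ W) :
    ∃ e ∈ W, e * e = e ∧ (∀ g ∈ W, g * g = g → e * g = g → g * e = g → g = e) ∧
      ∃ f : M, f * f = f ∧ e * f = f ∧ f * e = f ∧
        ∀ x : M, f * x = x → x * f = x → ∃ y : M, f * y = y ∧ y * f = y ∧ y * x = f ∧ x * y = f := by
  obtain ⟨L, hLW, hLc, hLne, hLmul, hLmin⟩ := grp_minimal W W hW hne hmul
  obtain ⟨e, heL, hee⟩ := exists_idempotent_in_compact_subsemigroup hc L hLne hLc.isCompact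
    (fun x hx y hy => hLmul x (hLW hx) y hy)
  refine ⟨e, hLW heL, hee, ?_, ?_⟩
  · intro g hgW hgg heg hge
    have hgL : g ∈ L := by
      rw [← hge]
      exact hLmul g hgW e heL
    have hWg : (· * g) '' W = L := by
      apply hLmin
      · rintro _ ⟨w, hw, rfl⟩
        exact hLmul w hw g hgL
      · exact (hW.isCompact.image (hc g)).isClosed
      · exact hne.image _
      · rintro w hw _ ⟨w', hw', rfl⟩
        exact ⟨w * w', hmul w hw w' hw', mul_assoc _ _ _⟩
    obtain ⟨z, -, hz⟩ : e ∈ (· * g) '' W := by rw [hWg]; exact heL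
    have hz' : z * g = e := hz
    calc g = e * g := heg.symm
      _ = z * g * g := by rw [hz']
      _ = z * (g * g) := mul_assoc _ _ _
      _ = e := by rw [hgg, hz']
  · have : Nonempty M := ⟨e⟩
    obtain ⟨L', hLe, hLc', hLne', hLmul', hLmin'⟩ := grp_minimal (Set.univ : Set M)
      (Set.range (· * e)) (isCompact_range (hc e)).isClosed (Set.range_nonempty _) (by
        rintro w - _ ⟨m, rfl⟩
        exact ⟨w * m, mul_assoc _ _ _⟩)
    obtain ⟨f0, hf0L, hf0⟩ := exists_idempotent_in_compact_subsemigroup hc L' hLne'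
      hLc'.isCompact (fun x _ y hy => hLmul' x (Set.mem_univ _) y hy)
    have hf0e : f0 * e = f0 := by
      obtain ⟨m, hm⟩ := hLe hf0L
      have hm' : m * e = f0 := hm
      rw [← hm', mul_assoc, hee]
    have hf1 : e * f0 * (e * f0) = e * f0 := by
      rw [mul_assoc, ← mul_assoc f0 e f0, hf0e, hf0]
    have hf2 : e * (e * f0) = e * f0 := by rw [← mul_assoc, hee]
    have hf3 : e * f0 * e = e * f0 := by rw [mul_assoc, hf0e]
    have hfL : e * f0 ∈ L' := hLmul' e (Set.mem_univ _) f0 hf0L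
    set f := e * f0 with hf
    have hleft : ∀ x : M, f * x = x → x * f = x → ∃ y : M, f * y = y ∧ y * f = y ∧ y * x = f := by
      intro x hx1 hx2
      have hxL : x ∈ L' := by
        rw [← hx2]
        exact hLmul' x (Set.mem_univ _) f hfL
      have hMx : Set.range (· * x) = L' := by
        apply hLmin'
        · rintro _ ⟨m, rfl⟩
          exact hLmul' m (Set.mem_univ _) x hxL
        · exact (isCompact_range (hc x)).isClosed
        · exact Set.range_nonempty _
        · rintro w - _ ⟨m, rfl⟩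
          exact ⟨w * m, mul_assoc _ _ _⟩
      obtain ⟨m, hm⟩ : f ∈ Set.range (· * x) := by rw [hMx]; exact hfL
      have hm' : m * x = f := hm
      refine ⟨f * m * f, ?_, ?_, ?_⟩
      · rw [← mul_assoc f (f * m) f, ← mul_assoc f f m, hf1]
      · rw [mul_assoc, hf1]
      · rw [mul_assoc, hx1, mul_assoc, hm', hf1]
    refine ⟨f, hf1, hf2, hf3, fun x hx1 hx2 => ?_⟩
    obtain ⟨y, hy1, hy2, hy3⟩ := hleft x hx1 hx2
    obtain ⟨z, hz1, hz2, hz3⟩ := hleft y hy1 hy2
    refine ⟨y, hy1, hy2, hy3, ?_⟩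
    calc x * y = f * (x * y) := by rw [← mul_assoc, hx1]
      _ = z * y * (x * y) := by rw [hz3]
      _ = z * (y * x) * y := by simp only [mul_assoc]
      _ = z * y := by rw [hy3, mul_assoc, hy1]
      _ = f := hz3

end Pool.Agent.H76.CR
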