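import Pool.Agent.H76.CR.ErgM

set_option autoImplicit false
open MeasureTheory
open scoped symmDiff ENNReal
namespace Pool.Agent.H76.CR

variable {X : Type} [m0 : MeasurableSpace X] {μ : Measure X} [IsProbabilityMeasure μ]
  {τ : A → X → X}

/-- essentially bounded functions -/
def IneqAB (μ : Measure X) (f : X → ℝ) : Prop :=
  AEStronglyMeasurable f μ ∧ ∃ C : ℝ, ∀ᵐ x ∂μ, |f x| ≤ C

omit [IsProbabilityMeasure μ] in
theorem IneqAB.add {f g : X → ℝ} (hf : IneqAB μ f) (hg : IneqAB μ g) :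
    IneqAB μ (fun x => f x + g x) := by
  obtain ⟨hf1, C, hC⟩ := hf
  obtain ⟨hg1, D, hD⟩ := hg
  refine ⟨hf1.add hg1, C + D, ?_⟩
  filter_upwards [hC, hD] with x h1 h2
  exact (abs_add_le _ _).trans (add_le_add h1 h2)

omit [IsProbabilityMeasure μ] in
theorem IneqAB.sub {f g : X → ℝ} (hf : IneqAB μ f) (hg : IneqAB μ g) :
    IneqAB μ (fun x => f x - g x) := by
  obtain ⟨hf1, C, hC⟩ := hf
  obtain ⟨hg1, D, hD⟩ := hg
  refine ⟨hf1.sub hg1, C + D, ?_⟩
  filter_upwards [hC, hD] with x h1 h2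
  exact (abs_sub _ _).trans (add_le_add h1 h2)

omit [IsProbabilityMeasure μ] in
theorem IneqAB.mul {f g : X → ℝ} (hf : IneqAB μ f) (hg : IneqAB μ g) :
    IneqAB μ (fun x => f x * g x) := by
  obtain ⟨hf1, C, hC⟩ := hf
  obtain ⟨hg1, D, hD⟩ := hg
  refine ⟨hf1.mul hg1, |C| * |D|, ?_⟩
  filter_upwards [hC, hD] with x h1 h2
  rw [abs_mul]
  exact mul_le_mul (h1.trans (le_abs_self C)) (h2.trans (le_abs_self D)) (abs_nonneg _)
    (abs_nonneg _)

omit [IsProbabilityMeasure μ] in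
theorem IneqAB.cmul {f : X → ℝ} (hf : IneqAB μ f) (c : ℝ) : IneqAB μ (fun x => c * f x) :=
  IneqAB.mul ⟨aestronglyMeasurable_const, |c|, Filter.Eventually.of_forall fun _ => le_rfl⟩ hf

omit [IsProbabilityMeasure μ] in
theorem IneqAB.sum {ι : Type*} (s : Finset ι) (f : ι → X → ℝ) (hf : ∀ i ∈ s, IneqAB μ (f i)) :
    IneqAB μ (fun x => ∑ i ∈ s, f i x) := by
  classical
  induction s using Finset.induction_on with
  | empty =>
    refine ⟨?_, 0, ?_⟩
    · simpa using (aestronglyMeasurable_const : AEStronglyMeasurable (fun _ : X => (0 : ℝ)) μ)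
    · simp
  | insert i s hi ih =>
    have h1 := (hf i (Finset.mem_insert_self i s)).add
      (ih fun j hj => hf j (Finset.mem_insert_of_mem hj))
    have : (fun x => ∑ j ∈ insert i s, f j x) = fun x => f i x + ∑ j ∈ s, f j x := by
      funext x
      rw [Finset.sum_insert hi]
    rw [this]
    exact h1

theorem IneqAB.int {f : X → ℝ} (hf : IneqAB μ f) : Integrable f μ := by
  obtain ⟨hf1, C, hC⟩ := hf
  exact Integrable.of_bound hf1 C hC

/-- the basic error estimate -/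
theorem ineq_err (h φ : X → ℝ) (hh : IneqAB μ h) (hφ : IneqAB μ φ) (K : ℝ)
    (hK : ∀ᵐ x ∂μ, |h x| ≤ K) (P : Set X) (ε : ℝ) (hε : 0 < ε)
    (h2 : ∫ x, (φ x) ^ 2 ∂μ ≤ ε ^ 2) : |∫ x in P, h x * φ x ∂μ| ≤ ε * (K ^ 2 + 1) := by
  have hb : IneqAB μ fun x => ε * K ^ 2 + ε⁻¹ * (φ x * φ x) :=
    IneqAB.add ⟨aestronglyMeasurable_const, |ε * K ^ 2|,
      Filter.Eventually.of_forall fun _ => le_rfl⟩ ((hφ.mul hφ).cmul _)
  have h3 : |∫ x in P, h x * φ x ∂μ| ≤ ∫ x in P, |h x * φ x| ∂μ := by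
    have := norm_integral_le_integral_norm (μ := μ.restrict P) (fun x => h x * φ x)
    simpa [Real.norm_eq_abs] using this
  have h4 : ∫ x in P, |h x * φ x| ∂μ ≤ ∫ x, |h x * φ x| ∂μ :=
    setIntegral_le_integral (hh.mul hφ).int.abs (Filter.Eventually.of_forall fun _ => abs_nonneg _)
  have h5 : ∫ x, |h x * φ x| ∂μ ≤ ∫ x, (ε * K ^ 2 + ε⁻¹ * (φ x * φ x)) ∂μ := by
    refine integral_mono_ae (hh.mul hφ).int.abs hb.int ?_
    filter_upwards [hK] with x hx
    rw [abs_mul]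
    have h6 : |φ x| ^ 2 = φ x * φ x := by rw [sq_abs]; ring
    have h7 : 0 ≤ |φ x| := abs_nonneg _
    have h8 : 0 ≤ |h x| := abs_nonneg _
    have h9 : |h x| * |φ x| ≤ ε * |h x| ^ 2 + ε⁻¹ * |φ x| ^ 2 := by
      have h10 : 0 ≤ (ε * |h x| - |φ x|) ^ 2 := sq_nonneg _
      have h11 : ε⁻¹ * (ε * |h x| - |φ x|) ^ 2 =
          ε * |h x| ^ 2 + ε⁻¹ * |φ x| ^ 2 - 2 * (|h x| * |φ x|) := by
        field_simp
        ring
      have h12 : 0 ≤ ε⁻¹ * (ε * |h x| - |φ x|) ^ 2 := by positivity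
      have h13 : 0 ≤ |h x| * |φ x| := by positivity
      linarith
    have h14 : |h x| ^ 2 ≤ K ^ 2 := by
      apply pow_le_pow_left₀ h8 hx
    have h15 : ε * |h x| ^ 2 ≤ ε * K ^ 2 := mul_le_mul_of_nonneg_left h14 hε.le
    rw [← h6]
    linarith
  have h6 : ∫ x, (ε * K ^ 2 + ε⁻¹ * (φ x * φ x)) ∂μ = ε * K ^ 2 + ε⁻¹ * ∫ x, (φ x) ^ 2 ∂μ := by
    rw [integral_add (integrable_const _) ((hφ.mul hφ).cmul _).int]
    congr 1
    · simp
    · rw [integral_const_mul]
      simp only [pow_two]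
  have h7 : ε⁻¹ * ∫ x, (φ x) ^ 2 ∂μ ≤ ε := by
    calc ε⁻¹ * ∫ x, (φ x) ^ 2 ∂μ ≤ ε⁻¹ * ε ^ 2 := mul_le_mul_of_nonneg_left h2 (by positivity)
      _ = ε := by field_simp
  linarith

section
variable (hτ : Act μ τ)
include hτ

theorem ineq_gc (g : X → ℝ) (hg : BM g) (c : A) : BM fun x => g (τ c x) := by
  obtain ⟨h1, C, hC⟩ := hg
  exact ⟨h1.comp (hτ.mp c).measurable, C, fun x => hC _⟩

omit hτ in
omit [IsProbabilityMeasure μ] in
theorem ineq_BM_AB (g : X → ℝ) (hg : BM g) : IneqAB μ g := by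
  obtain ⟨h1, C, hC⟩ := hg
  exact ⟨h1.aestronglyMeasurable, C, Filter.Eventually.of_forall hC⟩

omit hτ [IsProbabilityMeasure μ] in
theorem ineq_BM_mul (g h : X → ℝ) (hg : BM g) (hh : BM h) : BM fun x => g x * h x := by
  obtain ⟨h1, C, hC⟩ := hg
  obtain ⟨h2, D, hD⟩ := hh
  refine ⟨h1.mul h2, |C| * |D|, fun x => ?_⟩
  rw [abs_mul]
  exact mul_le_mul ((hC x).trans (le_abs_self C)) ((hD x).trans (le_abs_self D)) (abs_nonneg _)
    (abs_nonneg _)

theorem ineq_CE_AB (f : X → ℝ) (hf : BM f) : IneqAB μ (CE μ τ f) := by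
  obtain ⟨h1, C, hC⟩ := hf
  exact ⟨(CE_meas hτ f).aestronglyMeasurable, C, CE_bdd hτ f h1 C hC⟩

theorem ineq_avg_AB (f : X → ℝ) (hf : BM f) (m : A →₀ ℝ) :
    IneqAB μ fun x => avg m (fun b => f (τ b x)) := by
  have h : (fun x => avg m (fun b => f (τ b x))) = fun x => ∑ b ∈ m.support, m b * f (τ b x) := by
    funext x
    simp only [avg, Finsupp.sum, smul_eq_mul]
  rw [h]
  exact IneqAB.sum _ _ fun b _ => (ineq_BM_AB _ (ineq_gc hτ f hf b)).cmul _

end

/-- `v_b` -/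
noncomputable def ineqV (τ : A → X → X) (g : X → ℝ) (a : A →₀ ℝ) (b : A) : X → ℝ := fun x =>
  ∑ c ∈ a.support, a c * (g (τ c x) * g (τ c (τ b x)))

theorem ineqV_AB (hτ : Act μ τ) (g : X → ℝ) (hg : BM g) (a : A →₀ ℝ) (b : A) :
    IneqAB μ (ineqV τ g a b) := by
  refine IneqAB.sum _ _ fun c _ => IneqAB.cmul (IneqAB.mul ?_ ?_) _
  · exact ineq_BM_AB _ (ineq_gc hτ g hg c)
  · exact ineq_BM_AB _ (ineq_gc hτ _ (ineq_gc hτ g hg c) b)

/-- `V_m` -/
noncomputable def ineqVm (μ : Measure X) (τ : A → X → X) (g : X → ℝ) (a m : A →₀ ℝ)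
    (P : Set X) : ℝ := ∑ b ∈ m.support, m b * ∫ x in P, (ineqV τ g a b x) ^ 2 ∂μ

/-- the main computation for the form -/
theorem ineq_form (hτ : Act μ τ) (g : X → ℝ) (hg : BM g) (P : Set X) (a m : A →₀ ℝ) :
    ∑ c ∈ a.support, ∑ c' ∈ a.support, a c * a c' *
      ∫ x in P, (g (τ c x) * g (τ c' x)) * avg m (fun b => g (τ c (τ b x)) * g (τ c' (τ b x))) ∂μ =
      ineqVm μ τ g a m P := by
  have hint : ∀ c c' b, Integrable (fun x => (g (τ c x) * g (τ c' x)) *
      (g (τ c (τ b x)) * g (τ c' (τ b x)))) (μ.restrict P) := fun c c' b =>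
    (((ineq_BM_AB _ (ineq_gc hτ g hg c)).mul (ineq_BM_AB _ (ineq_gc hτ g hg c'))).mul
      ((ineq_BM_AB _ (ineq_gc hτ _ (ineq_gc hτ g hg c) b)).mul
        (ineq_BM_AB _ (ineq_gc hτ _ (ineq_gc hτ g hg c') b)))).int.integrableOn
  have h1 : ∀ c c', ∫ x in P, (g (τ c x) * g (τ c' x)) *
      avg m (fun b => g (τ c (τ b x)) * g (τ c' (τ b x))) ∂μ =
      ∑ b ∈ m.support, m b * ∫ x in P, (g (τ c x) * g (τ c' x)) *
        (g (τ c (τ b x)) * g (τ c' (τ b x))) ∂μ := by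
    intro c c'
    have h2 : ∀ x, (g (τ c x) * g (τ c' x)) *
        avg m (fun b => g (τ c (τ b x)) * g (τ c' (τ b x))) =
        ∑ b ∈ m.support, m b * ((g (τ c x) * g (τ c' x)) *
          (g (τ c (τ b x)) * g (τ c' (τ b x)))) := by
      intro x
      simp only [avg, Finsupp.sum, smul_eq_mul]
      rw [Finset.mul_sum]
      exact Finset.sum_congr rfl fun b _ => by ring
    rw [integral_congr_ae (Filter.Eventually.of_forall h2)]
    rw [integral_finsetSum _ fun b _ => (hint c c' b).const_mul _]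
    exact Finset.sum_congr rfl fun b _ => integral_const_mul _ _
  have h3 : ∀ b, ∫ x in P, (ineqV τ g a b x) ^ 2 ∂μ =
      ∑ c ∈ a.support, ∑ c' ∈ a.support, a c * a c' * ∫ x in P, (g (τ c x) * g (τ c' x)) *
        (g (τ c (τ b x)) * g (τ c' (τ b x))) ∂μ := by
    intro b
    have h4 : ∀ x, (ineqV τ g a b x) ^ 2 = ∑ c ∈ a.support, ∑ c' ∈ a.support,
        a c * a c' * ((g (τ c x) * g (τ c' x)) * (g (τ c (τ b x)) * g (τ c' (τ b x)))) := by
      intro x
      rw [ineqV, pow_two, Finset.sum_mul_sum]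
      exact Finset.sum_congr rfl fun c _ => Finset.sum_congr rfl fun c' _ => by ring
    rw [integral_congr_ae (Filter.Eventually.of_forall h4)]
    rw [integral_finsetSum _ fun c _ => integrable_finsetSum _ fun c' _ =>
      (hint c c' b).const_mul _]
    refine Finset.sum_congr rfl fun c _ => ?_
    rw [integral_finsetSum _ fun c' _ => (hint c c' b).const_mul _]
    exact Finset.sum_congr rfl fun c' _ => integral_const_mul _ _
  rw [ineqVm]
  simp_rw [h1, h3, Finset.mul_sum]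
  have h5 : ∀ c ∈ a.support, (∑ c' ∈ a.support, ∑ b ∈ m.support, a c * a c' *
      (m b * ∫ x in P, (g (τ c x) * g (τ c' x)) * (g (τ c (τ b x)) * g (τ c' (τ b x))) ∂μ)) =
      ∑ b ∈ m.support, ∑ c' ∈ a.support, a c * a c' *
      (m b * ∫ x in P, (g (τ c x) * g (τ c' x)) * (g (τ c (τ b x)) * g (τ c' (τ b x))) ∂μ) :=
    fun c _ => Finset.sum_comm
  rw [Finset.sum_congr rfl h5, Finset.sum_comm]
  refine Finset.sum_congr rfl fun b _ => Finset.sum_congr rfl fun c _ =>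
    Finset.sum_congr rfl fun c' _ => ?_
  ring

/-- choice of the measure `m` -/
theorem ineq_pick (hτ : Act μ τ) (g u : X → ℝ) (hg : BM g) (hu : BM u) (a : A →₀ ℝ) (ε : ℝ)
    (hε : 0 < ε) : ∃ m : A →₀ ℝ, (∀ b, 0 ≤ m b) ∧ (∑ b ∈ m.support, m b) = 1 ∧
      (∀ c ∈ a.support, ∀ c' ∈ a.support,
        ∫ x, (avg m (fun b => g (τ c (τ b x)) * g (τ c' (τ b x))) - Gr μ τ g c c' x) ^ 2 ∂μ ≤
          ε ^ 2) ∧
      ∀ c ∈ a.support,
        ∫ x, (avg m (fun b => g (τ c (τ b x)) * u (τ b x)) -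
          CE μ τ (fun x' => g (τ c x') * u x') x) ^ 2 ∂μ ≤ ε ^ 2 := by
  let ψ : (a.support × a.support) ⊕ a.support → X → ℝ :=
    Sum.elim (fun p x => g (τ (p.1 : A) x) * g (τ (p.2 : A) x)) (fun c x => g (τ (c : A) x) * u x)
  have hψ : ∀ i, BM (ψ i) := by
    rintro (p | c)
    · exact ineq_BM_mul _ _ (ineq_gc hτ g hg _) (ineq_gc hτ g hg _)
    · exact ineq_BM_mul _ _ (ineq_gc hτ g hg _) hu
  obtain ⟨m, hm, -, hm2⟩ := ergM hτ (κ := Empty) ψ hψ (fun i => i.elim) (fun i => i.elim)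
    (fun i => i.elim) 0 (ε ^ 2) (by positivity)
  refine ⟨m, hm.1, hm.2.1, ?_, ?_⟩
  · intro c hc c' hc'
    exact hm2 (Sum.inl (⟨c, hc⟩, ⟨c', hc'⟩))
  · intro c hc
    exact hm2 (Sum.inr ⟨c, hc⟩)

/-- `V_m` approximates the form -/
theorem ineq_Q_approx (hτ : Act μ τ) (g : X → ℝ) (hg : BM g) (P : Set X)
    (hP : MeasurableSet[Rig μ τ] P) (a : A →₀ ℝ) : ∃ K : ℝ, 0 ≤ K ∧ ∀ ε : ℝ, 0 < ε →
      ∀ m : A →₀ ℝ, (∀ c ∈ a.support, ∀ c' ∈ a.support,
        ∫ x, (avg m (fun b => g (τ c (τ b x)) * g (τ c' (τ b x))) - Gr μ τ g c c' x) ^ 2 ∂μ ≤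
          ε ^ 2) → |ineqVm μ τ g a m P - Qf μ τ g P a a| ≤ ε * K := by
  obtain ⟨hg1, C, hC⟩ := id hg
  refine ⟨∑ c ∈ a.support, ∑ c' ∈ a.support, |a c * a c'| * ((C * C) ^ 2 + 1), by positivity, ?_⟩
  intro ε hε m hm
  have hΨ : ∀ c c', BM (fun x => g (τ c x) * g (τ c' x)) := fun c c' =>
    ineq_BM_mul _ _ (ineq_gc hτ g hg c) (ineq_gc hτ g hg c')
  have hI : ∀ c c', ∫ x in P, (Gr μ τ g c c' x) ^ 2 ∂μ =
      ∫ x in P, (g (τ c x) * g (τ c' x)) * Gr μ τ g c c' x ∂μ := by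
    intro c c'
    have h1 := CE_adj hτ (fun x => g (τ c x) * g (τ c' x)) (fun x => g (τ c x) * g (τ c' x))
      (hΨ c c') (hΨ c c') P hP
    rw [Gr]
    rw [h1]
    simp only [pow_two]
  have hQ : Qf μ τ g P a a = ∑ c ∈ a.support, ∑ c' ∈ a.support, a c * a c' *
      ∫ x in P, (g (τ c x) * g (τ c' x)) * Gr μ τ g c c' x ∂μ := by
    simp only [Qf, Finsupp.sum, hI]
  rw [← ineq_form hτ g hg P a m, hQ, ← Finset.sum_sub_distrib, Finset.mul_sum]
  refine (Finset.abs_sum_le_sum_abs _ _).trans (Finset.sum_le_sum fun c hc => ?_)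
  rw [← Finset.sum_sub_distrib, Finset.mul_sum]
  refine (Finset.abs_sum_le_sum_abs _ _).trans (Finset.sum_le_sum fun c' hc' => ?_)
  rw [← mul_sub, abs_mul]
  have h2 : |(∫ x in P, (g (τ c x) * g (τ c' x)) *
      avg m (fun b => g (τ c (τ b x)) * g (τ c' (τ b x))) ∂μ) -
      ∫ x in P, (g (τ c x) * g (τ c' x)) * Gr μ τ g c c' x ∂μ| ≤ ε * ((C * C) ^ 2 + 1) := by
    have hA := ineq_avg_AB hτ _ (hΨ c c') m
    have hB : IneqAB μ (Gr μ τ g c c') := ineq_CE_AB hτ _ (hΨ c c')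
    have hΨA := ineq_BM_AB (μ := μ) _ (hΨ c c')
    rw [← integral_sub (hΨA.mul hA).int.integrableOn (hΨA.mul hB).int.integrableOn]
    simp_rw [← mul_sub]
    refine ineq_err _ _ hΨA (hA.sub hB) (C * C) ?_ P ε hε (hm c hc c' hc')
    refine Filter.Eventually.of_forall fun x => ?_
    rw [abs_mul]
    exact mul_le_mul (hC _) (hC _) (abs_nonneg _) ((abs_nonneg _).trans (hC x))
  calc |a c * a c'| * _ ≤ |a c * a c'| * (ε * ((C * C) ^ 2 + 1)) :=
        mul_le_mul_of_nonneg_left h2 (abs_nonneg _)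
    _ = _ := by ring

theorem ineq_Vm_nonneg (g : X → ℝ) (a m : A →₀ ℝ) (P : Set X) (hm : ∀ b, 0 ≤ m b) :
    0 ≤ ineqVm μ τ g a m P :=
  Finset.sum_nonneg fun b _ => mul_nonneg (hm b) (integral_nonneg fun _ => sq_nonneg _)

/-- INEQ (I1). Take `m` from `ergM` for the functions `g_c g_c'` (`c, c' ∈ supp a`):
`Qf P a a = lim_m ∑_b m b ∫_P (∑_c a_c g_c * (g_c ∘ τ_b))^2`, using `CE_adj`. -/
theorem Q_nonneg (hτ : Act μ τ) (g : X → ℝ) (hg : BM g) (P : Set X)
    (hP : MeasurableSet[Rig μ τ] P) (a : A →₀ ℝ) : 0 ≤ Qf μ τ g P a a := by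
  obtain ⟨K, hK, h⟩ := ineq_Q_approx hτ g hg P hP a
  by_contra hneg
  push Not at hneg
  set q := Qf μ τ g P a a with hq
  have hε : 0 < -q / (2 * (K + 1)) := by
    have : 0 < -q := by linarith
    positivity
  obtain ⟨m, hm0, -, hm1, -⟩ := ineq_pick hτ g g hg hg a _ hε
  have h1 := h _ hε m hm1
  have h2 := ineq_Vm_nonneg (μ := μ) (τ := τ) g a m P hm0
  have h3 := (abs_le.mp h1).2
  have h4 : -q / (2 * (K + 1)) * K ≤ -q / 2 := by
    have h5 : -q / (2 * (K + 1)) * K = -q / 2 * (K / (K + 1)) := by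
      field_simp
    have h6 : K / (K + 1) ≤ 1 := by
      rw [div_le_one (by linarith)]
      linarith
    rw [h5]
    have : 0 ≤ -q / 2 := by linarith
    nlinarith
  linarith

theorem ineq_Ph_eq (g u : X → ℝ) (a : A →₀ ℝ) (x : X) :
    Ph μ τ g a u x = ∑ c ∈ a.support, a c * (g (τ c x) * CE μ τ (fun x' => g (τ c x') * u x') x) :=
  rfl

/-- INEQ (I2). With `w = 1_P Ph(a,u)`, `v_b = ∑_c a_c g_c * (g_c ∘ τ_b)`:
`∫ w^2 = ∫ w ∑ a_c g_c CE(g_c u) ≈ ∑_b m b ∫_P w v_b (u ∘ τ_b)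
 ≤ (∫ w^2)^(1/2) (∑_b m b ∫_P v_b^2)^(1/2)`. -/
theorem Ph_le (hτ : Act μ τ) (g u : X → ℝ) (hg : BM g) (hu : BM1 u) (P : Set X)
    (hP : MeasurableSet[Rig μ τ] P) (a : A →₀ ℝ) :
    ∫ x in P, (Ph μ τ g a u x) ^ 2 ∂μ ≤ Qf μ τ g P a a := by
  obtain ⟨hg1, C, hC⟩ := id hg
  have huB : BM u := ⟨hu.1, 1, hu.2⟩
  have hgu : ∀ c, BM (fun x => g (τ c x) * u x) := fun c => ineq_BM_mul _ _ (ineq_gc hτ g hg c) huB
  have hgA : ∀ c, IneqAB μ (fun x => g (τ c x)) := fun c => ineq_BM_AB _ (ineq_gc hτ g hg c)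
  have hPh : IneqAB μ (Ph μ τ g a u) := by
    have h1 : Ph μ τ g a u = fun x => ∑ c ∈ a.support,
        a c * (g (τ c x) * CE μ τ (fun x' => g (τ c x') * u x') x) := rfl
    rw [h1]
    exact IneqAB.sum _ _ fun c _ => ((hgA c).mul (ineq_CE_AB hτ _ (hgu c))).cmul _
  obtain ⟨hPh1, CP, hCP⟩ := id hPh
  obtain ⟨K, hK, hQa⟩ := ineq_Q_approx hτ g hg P hP a
  set L : ℝ := ∑ c ∈ a.support, |a c| * ((CP * C) ^ 2 + 1) with hL
  have hL0 : 0 ≤ L := by positivity
  set W : ℝ := ∫ x in P, (Ph μ τ g a u x) ^ 2 ∂μ with hW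
  -- main estimate for every ε
  have main : ∀ ε : ℝ, 0 < ε → W ≤ Qf μ τ g P a a + ε * (K + 2 * L) := by
    intro ε hε
    obtain ⟨m, hm0, hms, hm1, hm2⟩ := ineq_pick hτ g u hg huB a ε hε
    have e1 := hQa ε hε m hm1
    have e2 := (abs_le.mp e1).2
    -- `W` through `CE`
    have e3 : W = ∑ c ∈ a.support, a c * ∫ x in P, (Ph μ τ g a u x * g (τ c x)) *
        CE μ τ (fun x' => g (τ c x') * u x') x ∂μ := by
      rw [hW]
      have h4 : ∀ x, (Ph μ τ g a u x) ^ 2 = ∑ c ∈ a.support, a c * ((Ph μ τ g a u x * g (τ c x)) *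
          CE μ τ (fun x' => g (τ c x') * u x') x) := by
        intro x
        rw [pow_two]
        conv_lhs => rw [ineq_Ph_eq (μ := μ) (τ := τ) g u a x, ← ineq_Ph_eq]
        rw [ineq_Ph_eq (μ := μ) (τ := τ) g u a x, Finset.mul_sum]
        exact Finset.sum_congr rfl fun c _ => by ring
      rw [integral_congr_ae (Filter.Eventually.of_forall h4)]
      rw [integral_finsetSum _ fun c _ => (((hPh.mul (hgA c)).mul
        (ineq_CE_AB hτ _ (hgu c))).cmul _).int.integrableOn]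
      exact Finset.sum_congr rfl fun c _ => integral_const_mul _ _
    have e4 : ∀ c ∈ a.support, |(∫ x in P, (Ph μ τ g a u x * g (τ c x)) *
        avg m (fun b => g (τ c (τ b x)) * u (τ b x)) ∂μ) -
        ∫ x in P, (Ph μ τ g a u x * g (τ c x)) *
        CE μ τ (fun x' => g (τ c x') * u x') x ∂μ| ≤ ε * ((CP * C) ^ 2 + 1) := by
      intro c hc
      have hA := ineq_avg_AB hτ _ (hgu c) m
      have hB : IneqAB μ (CE μ τ (fun x' => g (τ c x') * u x')) := ineq_CE_AB hτ _ (hgu c)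
      have hΨA := hPh.mul (hgA c)
      rw [← integral_sub (hΨA.mul hA).int.integrableOn (hΨA.mul hB).int.integrableOn]
      simp_rw [← mul_sub]
      refine ineq_err _ _ hΨA (hA.sub hB) (CP * C) ?_ P ε hε (hm2 c hc)
      filter_upwards [hCP] with x hx
      rw [abs_mul]
      exact mul_le_mul hx (hC _) (abs_nonneg _) ((abs_nonneg _).trans hx)
    set T : ℝ := ∑ c ∈ a.support, a c * ∫ x in P, (Ph μ τ g a u x * g (τ c x)) *
        avg m (fun b => g (τ c (τ b x)) * u (τ b x)) ∂μ with hT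
    have e5 : W ≤ T + ε * L := by
      have h1 : W - T ≤ ε * L := by
        rw [e3, hT, ← Finset.sum_sub_distrib, hL, Finset.mul_sum]
        refine Finset.sum_le_sum fun c hc => ?_
        rw [← mul_sub]
        have h2 := e4 c hc
        rw [abs_sub_comm] at h2
        calc a c * _ ≤ |a c * _| := le_abs_self _
          _ = |a c| * _ := abs_mul _ _
          _ ≤ |a c| * (ε * ((CP * C) ^ 2 + 1)) := mul_le_mul_of_nonneg_left h2 (abs_nonneg _)
          _ = _ := by ring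
      linarith
    have hub : ∀ b, IneqAB μ (fun x => u (τ b x)) := fun b =>
      ineq_BM_AB _ (ineq_gc hτ u huB b)
    have hgb : ∀ c b, IneqAB μ (fun x => g (τ c (τ b x))) := fun c b =>
      ineq_BM_AB _ (ineq_gc hτ _ (ineq_gc hτ g hg c) b)
    have e6 : T = ∑ b ∈ m.support, m b * ∫ x in P, (Ph μ τ g a u x * ineqV τ g a b x) *
        u (τ b x) ∂μ := by
      have h1 : ∀ c, ∫ x in P, (Ph μ τ g a u x * g (τ c x)) *
          avg m (fun b => g (τ c (τ b x)) * u (τ b x)) ∂μ =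
          ∑ b ∈ m.support, m b * ∫ x in P, (Ph μ τ g a u x * g (τ c x)) *
            (g (τ c (τ b x)) * u (τ b x)) ∂μ := by
        intro c
        have h2 : ∀ x, (Ph μ τ g a u x * g (τ c x)) *
            avg m (fun b => g (τ c (τ b x)) * u (τ b x)) =
            ∑ b ∈ m.support, m b * ((Ph μ τ g a u x * g (τ c x)) *
              (g (τ c (τ b x)) * u (τ b x))) := by
          intro x
          simp only [avg, Finsupp.sum, smul_eq_mul]
          rw [Finset.mul_sum]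
          exact Finset.sum_congr rfl fun b _ => by ring
        rw [integral_congr_ae (Filter.Eventually.of_forall h2)]
        rw [integral_finsetSum _ fun b _ => (((hPh.mul (hgA c)).mul
          ((hgb c b).mul (hub b))).cmul _).int.integrableOn]
        exact Finset.sum_congr rfl fun b _ => integral_const_mul _ _
      have h3 : ∀ b, ∫ x in P, (Ph μ τ g a u x * ineqV τ g a b x) * u (τ b x) ∂μ =
          ∑ c ∈ a.support, a c * ∫ x in P, (Ph μ τ g a u x * g (τ c x)) *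
            (g (τ c (τ b x)) * u (τ b x)) ∂μ := by
        intro b
        have h4 : ∀ x, (Ph μ τ g a u x * ineqV τ g a b x) * u (τ b x) =
            ∑ c ∈ a.support, a c * ((Ph μ τ g a u x * g (τ c x)) *
            (g (τ c (τ b x)) * u (τ b x))) := by
          intro x
          rw [ineqV, Finset.mul_sum, Finset.sum_mul]
          exact Finset.sum_congr rfl fun c _ => by ring
        rw [integral_congr_ae (Filter.Eventually.of_forall h4)]
        rw [integral_finsetSum _ fun c _ => (((hPh.mul (hgA c)).mul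
          ((hgb c b).mul (hub b))).cmul _).int.integrableOn]
        exact Finset.sum_congr rfl fun c _ => integral_const_mul _ _
      rw [hT]
      simp_rw [h1, h3, Finset.mul_sum]
      rw [Finset.sum_comm]
      exact Finset.sum_congr rfl fun b _ => Finset.sum_congr rfl fun c _ => by ring
    have e7 : ∀ b, ∫ x in P, (Ph μ τ g a u x * ineqV τ g a b x) * u (τ b x) ∂μ ≤
        W / 2 + (∫ x in P, (ineqV τ g a b x) ^ 2 ∂μ) / 2 := by
      intro b
      have hV := ineqV_AB hτ g hg a b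
      have h1 : ∫ x in P, (Ph μ τ g a u x * ineqV τ g a b x) * u (τ b x) ∂μ ≤
          ∫ x in P, ((2 : ℝ)⁻¹ * (Ph μ τ g a u x * Ph μ τ g a u x) +
            (2 : ℝ)⁻¹ * (ineqV τ g a b x * ineqV τ g a b x)) ∂μ := by
        refine integral_mono ((hPh.mul hV).mul (hub b)).int.integrableOn
          (((hPh.mul hPh).cmul _).add ((hV.mul hV).cmul _)).int.integrableOn fun x => ?_
        have h2 : |u (τ b x)| ≤ 1 := hu.2 _
        have h3 : (Ph μ τ g a u x * ineqV τ g a b x) * u (τ b x) ≤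
            |Ph μ τ g a u x| * |ineqV τ g a b x| := by
          calc _ ≤ |(Ph μ τ g a u x * ineqV τ g a b x) * u (τ b x)| := le_abs_self _
            _ = |Ph μ τ g a u x| * |ineqV τ g a b x| * |u (τ b x)| := by rw [abs_mul, abs_mul]
            _ ≤ |Ph μ τ g a u x| * |ineqV τ g a b x| * 1 :=
              mul_le_mul_of_nonneg_left h2 (by positivity)
            _ = _ := mul_one _
        have h4 : Ph μ τ g a u x * Ph μ τ g a u x = |Ph μ τ g a u x| ^ 2 := by
          rw [sq_abs, pow_two]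
        have h5 : ineqV τ g a b x * ineqV τ g a b x = |ineqV τ g a b x| ^ 2 := by
          rw [sq_abs, pow_two]
        simp only [h4, h5]
        nlinarith [sq_nonneg (|Ph μ τ g a u x| - |ineqV τ g a b x|)]
      rw [integral_add ((hPh.mul hPh).cmul _).int.integrableOn
        ((hV.mul hV).cmul _).int.integrableOn, integral_const_mul, integral_const_mul] at h1
      have h6 : W = ∫ x in P, Ph μ τ g a u x * Ph μ τ g a u x ∂μ := by
        rw [hW]
        simp only [pow_two]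
      have h7 : ∫ x in P, (ineqV τ g a b x) ^ 2 ∂μ =
          ∫ x in P, ineqV τ g a b x * ineqV τ g a b x ∂μ := by
        simp only [pow_two]
      rw [← h6, ← h7] at h1
      linarith
    have e8 : T ≤ W / 2 + ineqVm μ τ g a m P / 2 := by
      rw [e6]
      calc ∑ b ∈ m.support, m b * ∫ x in P, (Ph μ τ g a u x * ineqV τ g a b x) * u (τ b x) ∂μ ≤
          ∑ b ∈ m.support, m b * (W / 2 + (∫ x in P, (ineqV τ g a b x) ^ 2 ∂μ) / 2) :=
            Finset.sum_le_sum fun b _ => mul_le_mul_of_nonneg_left (e7 b) (hm0 b)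
        _ = (∑ b ∈ m.support, m b) * (W / 2) + ineqVm μ τ g a m P / 2 := by
            rw [ineqVm, Finset.sum_mul, Finset.sum_div, ← Finset.sum_add_distrib]
            exact Finset.sum_congr rfl fun b _ => by ring
        _ = _ := by rw [hms, one_mul]
    have e9 : ineqVm μ τ g a m P ≤ Qf μ τ g P a a + ε * K := by linarith
    linarith
  by_contra hneg
  push Not at hneg
  have hd : 0 < W - Qf μ τ g P a a := by linarith
  have h1 := main ((W - Qf μ τ g P a a) / (2 * (K + 2 * L + 1))) (by positivity)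
  have h2 : (W - Qf μ τ g P a a) / (2 * (K + 2 * L + 1)) * (K + 2 * L) ≤
      (W - Qf μ τ g P a a) / 2 := by
    have h3 : (W - Qf μ τ g P a a) / (2 * (K + 2 * L + 1)) * (K + 2 * L) =
        (W - Qf μ τ g P a a) / 2 * ((K + 2 * L) / (K + 2 * L + 1)) := by
      field_simp
    have h4 : (K + 2 * L) / (K + 2 * L + 1) ≤ 1 := by
      rw [div_le_one (by linarith)]
      linarith
    rw [h3]
    have h5 : 0 ≤ (W - Qf μ τ g P a a) / 2 := by linarith
    exact mul_le_of_le_one_right h5 h4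
  linarith

end Pool.Agent.H76.CR
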