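import Pool.Agent.H76.CR.Far

set_option autoImplicit false
open MeasureTheory
namespace Pool.Agent.H76.CR

/-- iterated mean: `itM M k u = M_{b1} ... M_{bk} u (b1 + ... + bk)` -/
noncomputable def itM (M : (A → ℝ) → ℝ) : ℕ → (A → ℝ) → ℝ
  | 0, u => u 0
  | (k + 1), u => M (fun b => itM M k (fun c => u (b + c)))

theorem itM_abs {M : (A → ℝ) → ℝ} (hM : IsMean M) (u : A → ℝ) (C : ℝ)
    (h : ∀ b, |u b| ≤ C) : |M u| ≤ C := by
  have hC : 0 ≤ C := (abs_nonneg _).trans (h 0)
  have hu : Bdd u := ⟨C, h⟩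
  rw [abs_le]
  constructor
  · have h1 := hM.mono (fun _ => -C) u ⟨C, fun _ => by rw [abs_neg, abs_of_nonneg hC]⟩ hu 0
      (fun b _ => (abs_le.1 (h b)).1)
    rwa [hM.const] at h1
  · have h1 := hM.mono u (fun _ => C) hu ⟨C, fun _ => by rw [abs_of_nonneg hC]⟩ 0
      (fun b _ => (abs_le.1 (h b)).2)
    rwa [hM.const] at h1

/-- ITM -/
theorem itM_bdd {M : (A → ℝ) → ℝ} (hM : IsMean M) (k : ℕ) (u : A → ℝ) (C : ℝ)
    (h : ∀ b, |u b| ≤ C) : |itM M k u| ≤ C := by
  induction k generalizing u with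
  | zero => exact h 0
  | succ k ih =>
    refine itM_abs hM _ C fun b => ?_
    exact ih (fun c => u (b + c)) fun c => h (b + c)

theorem itM_bddfun {M : (A → ℝ) → ℝ} (hM : IsMean M) (k : ℕ) (u : A → ℝ) (hu : Bdd u) :
    Bdd (fun b => itM M k (fun c => u (b + c))) := by
  obtain ⟨C, hC⟩ := hu
  exact ⟨C, fun b => itM_bdd hM k (fun c => u (b + c)) C fun c => hC (b + c)⟩

theorem itM_shift {u : A → ℝ} (hu : Bdd u) (b : A) : Bdd (fun c => u (b + c)) := by
  obtain ⟨C, hC⟩ := hu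
  exact ⟨C, fun c => hC (b + c)⟩

theorem itM_add {M : (A → ℝ) → ℝ} (hM : IsMean M) (k : ℕ) (u v : A → ℝ) (hu : Bdd u)
    (hv : Bdd v) : itM M k (fun b => u b + v b) = itM M k u + itM M k v := by
  induction k generalizing u v with
  | zero => rfl
  | succ k ih =>
    change M (fun b => itM M k (fun c => u (b + c) + v (b + c))) = _
    rw [funext fun b => ih (fun c => u (b + c)) (fun c => v (b + c)) (itM_shift hu b) (itM_shift hv b)]
    exact hM.add _ _ (itM_bddfun hM k u hu) (itM_bddfun hM k v hv)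

theorem itM_smul {M : (A → ℝ) → ℝ} (hM : IsMean M) (k : ℕ) (r : ℝ) (u : A → ℝ) (hu : Bdd u) :
    itM M k (fun b => r * u b) = r * itM M k u := by
  induction k generalizing u with
  | zero => rfl
  | succ k ih =>
    change M (fun b => itM M k (fun c => r * u (b + c))) = _
    rw [funext fun b => ih (fun c => u (b + c)) (itM_shift hu b)]
    exact hM.smul r _ (itM_bddfun hM k u hu)

theorem itM_const {M : (A → ℝ) → ℝ} (hM : IsMean M) (k : ℕ) (r : ℝ) :
    itM M k (fun _ => r) = r := by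
  induction k with
  | zero => rfl
  | succ k ih =>
    change M (fun _ => itM M k (fun _ => r)) = _
    rw [ih]
    exact hM.const r

/-- uses `B_add`: for `b1 ∈ B N` there is `N'` with `b1 + B N' ⊆ B N` -/
theorem itM_mono {M : (A → ℝ) → ℝ} (hM : IsMean M) (k : ℕ) (u v : A → ℝ) (hu : Bdd u)
    (hv : Bdd v) (N : ℕ) (h : ∀ b ∈ B N, u b ≤ v b) : itM M k u ≤ itM M k v := by
  induction k generalizing u v N with
  | zero => exact h 0 (B_zero N)
  | succ k ih =>
    refine hM.mono _ _ (itM_bddfun hM k u hu) (itM_bddfun hM k v hv) N fun b hb => ?_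
    obtain ⟨N', _, hN'⟩ := B_add N b hb
    exact ih (fun c => u (b + c)) (fun c => v (b + c)) (itM_shift hu b) (itM_shift hv b) N'
      fun c hc => h (b + c) (hN' c hc)

end Pool.Agent.H76.CR
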