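import Pool.Agent.H76.CR.Cex

set_option autoImplicit false
open MeasureTheory
open scoped symmDiff ENNReal
namespace Pool.Agent.H76.CR

variable {X : Type} [m0 : MeasurableSpace X] {μ : Measure X} [IsProbabilityMeasure μ]
  {τ : A → X → X}

/-- KERN: algebra of the kernel form and of the kernel operator (finite sums). -/
theorem Qf_add_left (g : X → ℝ) (P : Set X) (a a' b : A →₀ ℝ) :
    Qf μ τ g P (a + a') b = Qf μ τ g P a b + Qf μ τ g P a' b := by
  classical
  unfold Qf
  rw [Finsupp.sum_add_index']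
  · intro c
    simp
  · intro c r r'
    rw [← Finsupp.sum_add]
    refine Finsupp.sum_congr ?_
    intro c' _
    ring

theorem Qf_smul_left (g : X → ℝ) (P : Set X) (r : ℝ) (a b : A →₀ ℝ) :
    Qf μ τ g P (r • a) b = r * Qf μ τ g P a b := by
  classical
  unfold Qf
  rw [Finsupp.sum_smul_index']
  · rw [Finsupp.mul_sum]
    refine Finsupp.sum_congr ?_
    intro c _
    rw [Finsupp.mul_sum]
    refine Finsupp.sum_congr ?_
    intro c' _
    simp only [smul_eq_mul]
    ring
  · intro c
    simp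

theorem KERN_Gr_symm (g : X → ℝ) (c c' : A) : Gr μ τ g c c' = Gr μ τ g c' c := by
  unfold Gr
  congr 1
  funext x
  exact mul_comm _ _

theorem Qf_symm (g : X → ℝ) (P : Set X) (a b : A →₀ ℝ) :
    Qf μ τ g P a b = Qf μ τ g P b a := by
  classical
  unfold Qf
  simp only [Finsupp.sum]
  rw [Finset.sum_comm]
  refine Finset.sum_congr rfl ?_
  intro c _
  refine Finset.sum_congr rfl ?_
  intro c' _
  rw [KERN_Gr_symm g c' c]
  ring

theorem KERN_gg_BM (hτ : Act μ τ) (g u : X → ℝ) (hg : BM g) (hu : BM u) (c c' : A) :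
    Measurable (fun x => g (τ c x) * u (τ c' x)) ∧
      ∃ C : ℝ, ∀ x, |g (τ c x) * u (τ c' x)| ≤ C := by
  obtain ⟨hgm, Cg, hCg⟩ := hg
  obtain ⟨hum, Cu, hCu⟩ := hu
  refine ⟨(hgm.comp (hτ.mp c).measurable).mul (hum.comp (hτ.mp c').measurable), Cg * Cu, ?_⟩
  intro x
  rw [abs_mul]
  exact mul_le_mul (hCg _) (hCu _) (abs_nonneg _) ((abs_nonneg _).trans (hCg (τ c x)))

theorem KERN_Gr_int (hτ : Act μ τ) (g : X → ℝ) (hg : BM g) (c c' : A) :
    Integrable (fun x => (Gr μ τ g c c' x) ^ 2) μ := by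
  obtain ⟨hm, C, hC⟩ := KERN_gg_BM hτ g g hg hg c c'
  have hb := CE_bdd hτ _ hm C hC
  have hs : StronglyMeasurable (Gr μ τ g c c') := CE_meas hτ _
  refine Integrable.of_bound (C := C ^ 2) ((hs.pow 2).aestronglyMeasurable) ?_
  filter_upwards [hb] with x hx
  rw [Real.norm_eq_abs, abs_pow]
  exact pow_le_pow_left₀ (abs_nonneg _) hx 2

/-- additivity in the set -/
theorem Qf_union (hτ : Act μ τ) (g : X → ℝ) (hg : BM g) (P P' : Set X)
    (hP : MeasurableSet[Rig μ τ] P) (hP' : MeasurableSet[Rig μ τ] P') (h : Disjoint P P')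
    (a b : A →₀ ℝ) :
    Qf μ τ g (P ∪ P') a b = Qf μ τ g P a b + Qf μ τ g P' a b := by
  classical
  unfold Qf
  rw [← Finsupp.sum_add]
  refine Finsupp.sum_congr ?_
  intro c _
  rw [← Finsupp.sum_add]
  refine Finsupp.sum_congr ?_
  intro c' _
  rw [setIntegral_union h (rig_le hτ _ hP') (KERN_Gr_int hτ g hg c c').integrableOn
    (KERN_Gr_int hτ g hg c c').integrableOn]
  ring

/-- translation invariance (`Gr_gam`) -/
theorem Qf_shift (hτ : Act μ τ) (g : X → ℝ) (hg : BM g) (y : A) (a b : A →₀ ℝ) :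
    Qf μ τ g Set.univ (a.mapDomain (fun c => y + c)) (b.mapDomain (fun c => y + c)) =
      Qf μ τ g Set.univ a b := by
  classical
  unfold Qf
  rw [Finsupp.sum_mapDomain_index]
  · refine Finsupp.sum_congr ?_
    intro c _
    rw [Finsupp.sum_mapDomain_index]
    · refine Finsupp.sum_congr ?_
      intro c' _
      rw [setIntegral_univ, setIntegral_univ, Gr_gam hτ g hg, Gr_gam hτ g hg,
        add_sub_add_left_eq_sub]
    · intro c'
      simp
    · intro c' r r'
      ring
  · intro c
    simp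
  · intro c r r'
    rw [← Finsupp.sum_add]
    refine Finsupp.sum_congr ?_
    intro c' _
    ring

theorem Qf_single (hτ : Act μ τ) (g : X → ℝ) (hg : BM g) (c c' : A) :
    Qf μ τ g Set.univ (Finsupp.single c 1) (Finsupp.single c' 1) = gam μ τ g (c' - c) := by
  classical
  unfold Qf
  rw [Finsupp.sum_single_index, Finsupp.sum_single_index]
  · rw [setIntegral_univ, Gr_gam hτ g hg]
    ring
  · simp
  · simp

theorem Ph_add (g u : X → ℝ) (a a' : A →₀ ℝ) (x : X) :
    Ph μ τ g (a + a') u x = Ph μ τ g a u x + Ph μ τ g a' u x := by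
  classical
  unfold Ph
  rw [Finsupp.sum_add_index']
  · intro c
    simp
  · intro c r r'
    ring

theorem Ph_sub (g u : X → ℝ) (a a' : A →₀ ℝ) (x : X) :
    Ph μ τ g (a - a') u x = Ph μ τ g a u x - Ph μ τ g a' u x := by
  classical
  unfold Ph
  rw [Finsupp.sum_sub_index]
  intro c r r'
  ring

/-- equivariance (`CE_comp`) -/
theorem Ph_comp (hτ : Act μ τ) (g u : X → ℝ) (hg : BM g) (hu : BM u) (y : A) (a : A →₀ ℝ) :
    (fun x => Ph μ τ g a u (τ y x)) =ᵐ[μ]
      Ph μ τ g (a.mapDomain (fun c => y + c)) (fun x => u (τ y x)) := by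
  classical
  have key : ∀ c ∈ a.support, ∀ᵐ x ∂μ,
      CE μ τ (fun x' => g (τ (y + c) x') * u (τ y x')) x =
        CE μ τ (fun x' => g (τ c x') * u x') (τ y x) := by
    intro c _
    obtain ⟨hm, C, hC⟩ := KERN_gg_BM hτ g u hg hu c 0
    have hm' : Measurable (fun x => g (τ c x) * u x) := by
      simpa only [hτ.zero] using hm
    have hC' : ∀ x, |g (τ c x) * u x| ≤ C := by
      intro x
      have := hC x
      rwa [hτ.zero] at this
    have hint : Integrable (fun x => g (τ c x) * u x) μ :=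
      Integrable.of_bound (C := C) hm'.aestronglyMeasurable
        (Filter.Eventually.of_forall (fun x => by rw [Real.norm_eq_abs]; exact hC' x))
    have h1 := CE_comp hτ y (fun x => g (τ c x) * u x) hint
    have h2 : (fun x => g (τ c (τ y x)) * u (τ y x)) =
        fun x' => g (τ (y + c) x') * u (τ y x') := by
      funext x
      rw [← hτ.add, add_comm c y]
    have h1' : CE μ τ (fun x => g (τ c (τ y x)) * u (τ y x)) =ᵐ[μ]
        fun x => CE μ τ (fun x => g (τ c x) * u x) (τ y x) := h1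
    rw [h2] at h1'
    exact h1'
  have key2 := (Filter.eventually_all_finset a.support).mpr key
  filter_upwards [key2] with x hx
  unfold Ph
  rw [Finsupp.sum_mapDomain_index]
  · refine Finset.sum_congr rfl ?_
    intro c hc
    simp only
    rw [hx c hc, ← hτ.add, add_comm c y]
  · intro c
    simp
  · intro c r r'
    ring

theorem KERN_Phi_term (hτ : Act μ τ) (g u : X → ℝ) (hg : BM g) (hu : BM u) (c : A) :
    StronglyMeasurable (fun x => g (τ c x) * CE μ τ (fun x' => g (τ c x') * u x') x) ∧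
      ∃ C : ℝ, ∀ᵐ x ∂μ, |g (τ c x) * CE μ τ (fun x' => g (τ c x') * u x') x| ≤ C := by
  obtain ⟨hm, C, hC⟩ := KERN_gg_BM hτ g u hg hu c 0
  have hm' : Measurable (fun x => g (τ c x) * u x) := by
    simpa only [hτ.zero] using hm
  have hC' : ∀ x, |g (τ c x) * u x| ≤ C := by
    intro x
    have := hC x
    rwa [hτ.zero] at this
  have hb := CE_bdd hτ _ hm' C hC'
  obtain ⟨hgm, Cg, hCg⟩ := hg
  refine ⟨((hgm.comp (hτ.mp c).measurable).stronglyMeasurable).mul (CE_meas hτ _), Cg * C, ?_⟩
  filter_upwards [hb] with x hx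
  rw [abs_mul]
  exact mul_le_mul (hCg _) hx (abs_nonneg _) ((abs_nonneg _).trans (hCg (τ c x)))

theorem Ph_bdd (hτ : Act μ τ) (g u : X → ℝ) (hg : BM g) (hu : BM u) (a : A →₀ ℝ) :
    StronglyMeasurable (Ph μ τ g a u) ∧ ∃ C : ℝ, ∀ᵐ x ∂μ, |Ph μ τ g a u x| ≤ C := by
  classical
  choose hs C hC using fun c => KERN_Phi_term hτ g u hg hu c
  constructor
  · have : Ph μ τ g a u = fun x => ∑ c ∈ a.support,
        a c * (g (τ c x) * CE μ τ (fun x' => g (τ c x') * u x') x) := rfl
    rw [this]
    exact Finset.stronglyMeasurable_fun_sum _ (fun c _ => (hs c).const_mul (a c))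
  · refine ⟨∑ c ∈ a.support, |a c| * C c, ?_⟩
    have h := (Filter.eventually_all_finset a.support).mpr (fun c _ => hC c)
    filter_upwards [h] with x hx
    have e : Ph μ τ g a u x = ∑ c ∈ a.support,
        a c * (g (τ c x) * CE μ τ (fun x' => g (τ c x') * u x') x) := rfl
    rw [e]
    refine (Finset.abs_sum_le_sum_abs _ _).trans (Finset.sum_le_sum ?_)
    intro c hc
    rw [abs_mul]
    exact mul_le_mul_of_nonneg_left (hx c hc) (abs_nonneg _)

/-- `∫ g Ph(a, g) = ∑ a_c gamma(c)` -/
theorem Ph_inner (hτ : Act μ τ) (g : X → ℝ) (hg : BM g) (a : A →₀ ℝ) :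
    ∫ x, g x * Ph μ τ g a g x ∂μ = avg a (fun c => gam μ τ g c) := by
  classical
  have hterm : ∀ c : A, Integrable
      (fun x => g x * (g (τ c x) * CE μ τ (fun x' => g (τ c x') * g x') x)) μ ∧
      ∫ x, g x * (g (τ c x) * CE μ τ (fun x' => g (τ c x') * g x') x) ∂μ = gam μ τ g c := by
    intro c
    obtain ⟨hs, C, hC⟩ := KERN_Phi_term hτ g g hg hg c
    have hgm : Measurable g := hg.1
    obtain ⟨Cg, hCg⟩ := hg.2
    refine ⟨?_, ?_⟩
    · refine Integrable.of_bound (C := Cg * C)
        ((hgm.stronglyMeasurable.mul hs).aestronglyMeasurable) ?_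
      filter_upwards [hC] with x hx
      have hx' : ‖g x * (g (τ c x) * CE μ τ (fun x' => g (τ c x') * g x') x)‖ ≤ Cg * C := by
        rw [Real.norm_eq_abs, abs_mul]
        exact mul_le_mul (hCg _) hx (abs_nonneg _) ((abs_nonneg _).trans (hCg x))
      exact hx'
    · have hBM : BM (fun x => g x * g (τ c x)) := by
        obtain ⟨h1, D, h2⟩ := KERN_gg_BM hτ g g hg hg 0 c
        refine ⟨?_, D, ?_⟩
        · simpa only [hτ.zero] using h1
        · intro x
          have := h2 x
          rwa [hτ.zero] at this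
      have hadj := CE_adj hτ (fun x => g x * g (τ c x)) (fun x => g x * g (τ c x)) hBM hBM
        Set.univ MeasurableSet.univ
      rw [setIntegral_univ, setIntegral_univ] at hadj
      have hcomm : (fun x' => g (τ c x') * g x') = fun x' => g x' * g (τ c x') := by
        funext x
        exact mul_comm _ _
      rw [hcomm]
      unfold gam
      rw [show (∫ x, (CE μ τ (fun x' => g x' * g (τ c x')) x) ^ 2 ∂μ) =
        ∫ x, CE μ τ (fun x' => g x' * g (τ c x')) x * CE μ τ (fun x' => g x' * g (τ c x')) x ∂μ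
        from by
          congr 1
          funext x
          ring]
      rw [← hadj]
      congr 1
      funext x
      ring
  have e : ∀ x, g x * Ph μ τ g a g x = ∑ c ∈ a.support,
      a c * (g x * (g (τ c x) * CE μ τ (fun x' => g (τ c x') * g x') x)) := by
    intro x
    have e' : Ph μ τ g a g x = ∑ c ∈ a.support,
        a c * (g (τ c x) * CE μ τ (fun x' => g (τ c x') * g x') x) := rfl
    rw [e', Finset.mul_sum]
    refine Finset.sum_congr rfl ?_
    intro c _
    ring
  simp_rw [e]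
  rw [integral_finset_sum _ (fun c _ => ((hterm c).1.const_mul (a c)))]
  unfold avg
  refine Finset.sum_congr rfl ?_
  intro c _
  rw [integral_const_mul, (hterm c).2]
  rfl

end Pool.Agent.H76.CR
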