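import Pool.Agent.H76.CR.Ineq
import Pool.Agent.H76.CR.Kern

set_option autoImplicit false
open MeasureTheory
open scoped symmDiff ENNReal
namespace Pool.Agent.H76.CR

variable {X : Type} [m0 : MeasurableSpace X] {μ : Measure X} [IsProbabilityMeasure μ]
  {τ : A → X → X}

omit [IsProbabilityMeasure μ] in
private theorem kap_norm {f : X → ℝ} (hf : MemLp f 2 μ) : ‖hf.toLp f‖ ^ 2 = ∫ x, f x ^ 2 ∂μ := by
  rw [← real_inner_self_eq_norm_sq, L2.inner_def]
  apply integral_congr_ae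
  filter_upwards [hf.coeFn_toLp] with x hx
  rw [hx, real_inner_self_eq_norm_sq, Real.norm_eq_abs, sq_abs]

omit [IsProbabilityMeasure μ] in
/-- L^2 limits -/
private theorem kap_lim (F : ℕ → X → ℝ) (hF : ∀ n, MemLp (F n) 2 μ)
    (hc : ∀ κ : ℝ, 0 < κ → ∃ N, ∀ n n', N ≤ n → N ≤ n' → ∫ x, (F n x - F n' x) ^ 2 ∂μ ≤ κ) :
    ∃ φ : X → ℝ, MemLp φ 2 μ ∧ ∀ κ : ℝ, 0 < κ → ∃ N, ∀ n, N ≤ n → ∫ x, (φ x - F n x) ^ 2 ∂μ ≤ κ := by
  have hcau : CauchySeq (fun n => (hF n).toLp (F n)) := by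
    rw [Metric.cauchySeq_iff]
    intro ε hε
    obtain ⟨N, hN⟩ := hc ((ε / 2) ^ 2) (by positivity)
    refine ⟨N, fun n hn n' hn' => ?_⟩
    have h1 := hN n n' hn hn'
    have h2 : dist ((hF n).toLp (F n)) ((hF n').toLp (F n')) ^ 2 ≤ (ε / 2) ^ 2 := by
      rw [dist_eq_norm, ← MemLp.toLp_sub, kap_norm]
      exact h1
    have h3 := abs_le_of_sq_le_sq h2 (by positivity)
    have h4 := (le_abs_self _).trans h3
    linarith
  obtain ⟨L, hL⟩ := cauchySeq_tendsto_of_complete hcau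
  refine ⟨L, Lp.memLp L, fun κ hκ => ?_⟩
  have h5 := (Metric.tendsto_atTop.1 hL) (Real.sqrt κ) (Real.sqrt_pos.2 hκ)
  obtain ⟨N, hN⟩ := h5
  refine ⟨N, fun n hn => ?_⟩
  have h6 := hN n hn
  have h7 : ∫ x, ((L : X → ℝ) x - F n x) ^ 2 ∂μ = ‖L - (hF n).toLp (F n)‖ ^ 2 := by
    have h8 : ((Lp.memLp L).sub (hF n)).toLp ((L : X → ℝ) - F n) = L - (hF n).toLp (F n) :=
      (MemLp.toLp_sub (Lp.memLp L) (hF n)).trans (by rw [Lp.toLp_coeFn])
    rw [← h8, kap_norm]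
    rfl
  rw [h7, ← dist_eq_norm, dist_comm]
  calc dist ((hF n).toLp (F n)) L ^ 2 ≤ (Real.sqrt κ) ^ 2 :=
        pow_le_pow_left₀ dist_nonneg h6.le 2
    _ = κ := Real.sq_sqrt hκ.le

private theorem kap_BM_of_BM1 {g : X → ℝ} (hg : BM1 g) : BM g := ⟨hg.1, 1, hg.2⟩

omit [IsProbabilityMeasure μ] in
private theorem kap_BM1_comp (hτ : Act μ τ) {g : X → ℝ} (hg : BM1 g) (y : A) :
    BM1 (fun x => g (τ y x)) := ⟨hg.1.comp (hτ.mp y).measurable, fun _ => hg.2 _⟩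

private theorem kap_memLp (hτ : Act μ τ) (g u : X → ℝ) (hg : BM g) (hu : BM u) (a : A →₀ ℝ) :
    MemLp (Ph μ τ g a u) 2 μ := by
  obtain ⟨h1, C, h2⟩ := Ph_bdd hτ g u hg hu a
  exact MemLp.of_bound h1.aestronglyMeasurable C (by
    filter_upwards [h2] with x hx
    rw [Real.norm_eq_abs]; exact hx)

private theorem kap_Q_mono (hτ : Act μ τ) (g : X → ℝ) (hg : BM g) (P : Set X)
    (hP : MeasurableSet[Rig μ τ] P) (a : A →₀ ℝ) :
    Qf μ τ g P a a ≤ Qf μ τ g Set.univ a a := by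
  have h1 := Qf_union hτ g hg P Pᶜ hP hP.compl disjoint_compl_right a a
  rw [Set.union_compl_self] at h1
  have h2 := Q_nonneg hτ g hg Pᶜ hP.compl a
  linarith

/-- ultrafilter limits of bounded sequences -/
private theorem kap_ulim {f : ℕ → ℝ} {C : ℝ} (h : ∀ᶠ n in (Filter.hyperfilter ℕ : Filter ℕ), 0 ≤ f n ∧ f n ≤ C) :
    ∃ L, 0 ≤ L ∧ L ≤ C ∧ Filter.Tendsto f (Filter.hyperfilter ℕ) (nhds L) := by
  have hK : IsCompact (Set.Icc (0 : ℝ) C) := isCompact_Icc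
  obtain ⟨L, hL, hL'⟩ := hK.ultrafilter_le_nhds ((Filter.hyperfilter ℕ).map f) (by
    rw [Ultrafilter.coe_map, Filter.le_principal_iff, Filter.mem_map]
    exact h)
  exact ⟨L, hL.1, hL.2, hL'⟩

/-- rounding -/
private noncomputable def kapR (K : ℕ) (t : ℝ) : ℤ := ⌊(K : ℝ) * max (-1) (min 1 t)⌋

private theorem kapR_mem (K : ℕ) (t : ℝ) : kapR K t ∈ Set.Icc (-(K : ℤ)) K := by
  have hK : (0 : ℝ) ≤ K := Nat.cast_nonneg K
  have h1 : -1 ≤ max (-1) (min 1 t) := le_max_left _ _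
  have h2 : max (-1) (min 1 t) ≤ 1 := max_le (by norm_num) (min_le_left _ _)
  unfold kapR
  constructor
  · apply Int.le_floor.2
    push_cast
    nlinarith
  · apply Int.floor_le_iff.2
    push_cast
    nlinarith

private theorem kapR_err {K : ℕ} (hK : 0 < K) {t : ℝ} (ht : |t| ≤ 1) :
    |t - (kapR K t : ℝ) / K| ≤ 1 / K := by
  have hK' : (0 : ℝ) < K := Nat.cast_pos.2 hK
  have h0 : max (-1) (min 1 t) = t := by
    rw [min_eq_right (abs_le.1 ht).2, max_eq_right (abs_le.1 ht).1]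
  have h1 : (kapR K t : ℝ) ≤ K * t := by
    unfold kapR; rw [h0]; exact Int.floor_le _
  have h2 : K * t < (kapR K t : ℝ) + 1 := by
    unfold kapR; rw [h0]; exact Int.lt_floor_add_one _
  rw [abs_le]
  constructor
  · have : (kapR K t : ℝ) / K ≤ t := by
      rw [div_le_iff₀ hK']; linarith
    have h3 : (0 : ℝ) ≤ 1 / K := by positivity
    linarith
  · rw [sub_le_iff_le_add, ← add_div, le_div_iff₀ hK']
    linarith

private theorem kapR_meas (K : ℕ) : Measurable (kapR K) := by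
  unfold kapR
  exact Int.measurable_floor.comp (by fun_prop)

private theorem kap_sq4 (a b c d : ℝ) : (a + b + c + d) ^ 2 ≤ 4 * (a ^ 2 + b ^ 2 + c ^ 2 + d ^ 2) := by
  nlinarith [sq_nonneg (a - b), sq_nonneg (a - c), sq_nonneg (a - d), sq_nonneg (b - c),
    sq_nonneg (b - d), sq_nonneg (c - d)]

/-- the finitely many functions -/
private noncomputable def kapA (τ : A → X → X) (g : X → ℝ) (m : A →₀ ℝ) (K : ℕ)
    (r : m.support → Set.Icc (-(K : ℤ)) K) (x : X) : ℝ :=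
  ∑ c : m.support, m c * ((((r c : ℤ) : ℝ) / K) * g (τ c x))

private theorem kapA_BM (hτ : Act μ τ) {g : X → ℝ} (hg : BM1 g) (m : A →₀ ℝ) (K : ℕ)
    (r : m.support → Set.Icc (-(K : ℤ)) K) : BM (kapA τ g m K r) := by
  constructor
  · unfold kapA
    refine Finset.measurable_sum _ fun c _ => ?_
    exact ((hg.1.comp (hτ.mp c).measurable).const_mul _).const_mul _
  · refine ⟨∑ c : m.support, |m c| * |((r c : ℤ) : ℝ) / K|, fun x => ?_⟩
    unfold kapA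
    refine (Finset.abs_sum_le_sum_abs _ _).trans (Finset.sum_le_sum fun c _ => ?_)
    rw [abs_mul, abs_mul]
    have h1 := hg.2 (τ c x)
    have h2 : 0 ≤ |((r c : ℤ) : ℝ) / K| := abs_nonneg _
    have h3 : 0 ≤ |m c| := abs_nonneg _
    nlinarith [mul_le_mul_of_nonneg_left h1 (mul_nonneg h3 h2)]

/-- rounding error -/
private theorem kap_round (hτ : Act μ τ) {g u : X → ℝ} (hg : BM1 g) (hu : BM1 u) {m : A →₀ ℝ}
    (hm : IsProb Set.univ m) {K : ℕ} (hK : 0 < K) :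
    ∀ᵐ x ∂μ, |Ph μ τ g m u x - kapA τ g m K (fun c => ⟨kapR K (CE μ τ (fun x' => g (τ c x') * u x') x),
      kapR_mem K _⟩) x| ≤ 1 / K := by
  have h1 : ∀ᵐ x ∂μ, ∀ c : m.support, |CE μ τ (fun x' => g (τ c x') * u x') x| ≤ 1 := by
    rw [ae_all_iff]
    intro c
    apply CE_bdd hτ
    · exact (hg.1.comp (hτ.mp c).measurable).mul hu.1
    · intro x
      rw [abs_mul]
      exact mul_le_one₀ (hg.2 _) (abs_nonneg _) (hu.2 _)
  filter_upwards [h1] with x hx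
  have hP : Ph μ τ g m u x =
      ∑ c : m.support, m c * (g (τ c x) * CE μ τ (fun x' => g (τ c x') * u x') x) := by
    unfold Ph
    rw [Finsupp.sum, ← Finset.sum_coe_sort]
  rw [hP]
  unfold kapA
  rw [← Finset.sum_sub_distrib]
  refine (Finset.abs_sum_le_sum_abs _ _).trans ?_
  have h2 : ∀ c : m.support, |m c * (g (τ c x) * CE μ τ (fun x' => g (τ c x') * u x') x) -
      m c * (((kapR K (CE μ τ (fun x' => g (τ c x') * u x') x) : ℤ) : ℝ) / K * g (τ c x))| ≤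
      m c * (1 / K) := by
    intro c
    have h3 : m c * (g (τ c x) * CE μ τ (fun x' => g (τ c x') * u x') x) -
      m c * (((kapR K (CE μ τ (fun x' => g (τ c x') * u x') x) : ℤ) : ℝ) / K * g (τ c x)) =
      m c * (g (τ c x) * (CE μ τ (fun x' => g (τ c x') * u x') x -
        ((kapR K (CE μ τ (fun x' => g (τ c x') * u x') x) : ℤ) : ℝ) / K)) := by ring
    rw [h3, abs_mul, abs_mul, abs_of_nonneg (hm.1 c)]
    apply mul_le_mul_of_nonneg_left _ (hm.1 c)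
    have h4 := kapR_err hK (hx c)
    have h5 := hg.2 (τ c x)
    calc |g (τ c x)| * _ ≤ 1 * (1 / (K : ℝ)) := by
          apply mul_le_mul h5 h4 (abs_nonneg _) (by norm_num)
      _ = 1 / K := one_mul _
  refine (Finset.sum_le_sum fun c _ => h2 c).trans (le_of_eq ?_)
  rw [← Finset.sum_mul, Finset.sum_coe_sort m.support (fun c => m c)]
  have h6 : ∑ c ∈ m.support, m c = 1 := hm.2.1
  rw [h6, one_mul]

/-- measurability of the index function -/
private theorem kap_qmeas (hτ : Act μ τ) {g u : X → ℝ} (m : A →₀ ℝ) (K : ℕ)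
    (i : m.support → Set.Icc (-(K : ℤ)) K) :
    MeasurableSet[Rig μ τ] ((fun x => (fun c : m.support =>
      (⟨kapR K (CE μ τ (fun x' => g (τ c x') * u x') x), kapR_mem K _⟩ : Set.Icc (-(K : ℤ)) K))) ⁻¹' {i}) := by
  have h1 : ((fun x => (fun c : m.support =>
      (⟨kapR K (CE μ τ (fun x' => g (τ c x') * u x') x), kapR_mem K _⟩ : Set.Icc (-(K : ℤ)) K))) ⁻¹' {i}) =
      ⋂ c : m.support, (fun x => kapR K (CE μ τ (fun x' => g (τ c x') * u x') x)) ⁻¹' {(i c : ℤ)} := by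
    ext x
    simp only [Set.mem_preimage, Set.mem_singleton_iff, Set.mem_iInter, funext_iff, Subtype.ext_iff]
  rw [h1]
  refine @MeasurableSet.iInter X _ (Rig μ τ) _ _ fun c => ?_
  have h2 : Measurable[Rig μ τ] (CE μ τ (fun x' => g (τ c x') * u x')) :=
    (stronglyMeasurable_condExp).measurable
  exact ((kapR_meas K).comp h2) (measurableSet_singleton _)

private theorem kap_inner (hτ : Act μ τ) (g : X → ℝ) (hg : BM1 g) (d : ℝ) (v : ℕ → A →₀ ℝ)
    (hd : ∃ N, ∀ n, N ≤ n → d ≤ avg (v n) (fun c => gam μ τ g c)) (φ : X → ℝ) (hφ : MemLp φ 2 μ)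
    (hφl : ∀ κ : ℝ, 0 < κ → ∃ N, ∀ n, N ≤ n → ∫ x, (φ x - Ph μ τ g (v n) g x) ^ 2 ∂μ ≤ κ) :
    d ≤ ∫ x, φ x * g x ∂μ := by
  have hgB := kap_BM_of_BM1 hg
  by_contra hlt
  push Not at hlt
  set e : ℝ := d - ∫ x, φ x * g x ∂μ with he
  have he0 : 0 < e := by linarith
  obtain ⟨N, hN⟩ := hd
  obtain ⟨N', hN'⟩ := hφl (e ^ 2 / 2) (by positivity)
  have h1 := hN (max N N') (le_max_left _ _)
  have h2 := hN' (max N N') (le_max_right _ _)
  set n := max N N' with hn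
  rw [← Ph_inner hτ g hgB] at h1
  have hF : MemLp (Ph μ τ g (v n) g) 2 μ := kap_memLp hτ g g hgB hgB (v n)
  have hg2 : MemLp g 2 μ := MemLp.of_bound hg.1.aestronglyMeasurable 1
    (Filter.Eventually.of_forall fun x => by rw [Real.norm_eq_abs]; exact hg.2 x)
  have hi1 : Integrable (fun x => φ x * g x) μ := hφ.integrable_mul hg2
  have hi2 : Integrable (fun x => g x * Ph μ τ g (v n) g x) μ := hg2.integrable_mul hF
  have hi3 : Integrable (fun x => (φ x - Ph μ τ g (v n) g x) ^ 2) μ := (hφ.sub hF).integrable_sq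
  have h3 : ∫ x, g x * Ph μ τ g (v n) g x ∂μ ≤
      ∫ x, (φ x * g x + (e / 2 + 1 / (2 * e) * (φ x - Ph μ τ g (v n) g x) ^ 2)) ∂μ := by
    apply integral_mono hi2 (hi1.add ((integrable_const _).add (hi3.const_mul _)))
    intro x
    have h4 : (g x) ^ 2 ≤ 1 := by
      rw [← sq_abs]; exact pow_le_one₀ (abs_nonneg _) (hg.2 x)
    have h5 : g x * (Ph μ τ g (v n) g x - φ x) ≤ e / 2 * (g x) ^ 2 +
        1 / (2 * e) * (φ x - Ph μ τ g (v n) g x) ^ 2 := by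
      have h6 : 0 ≤ 1 / (2 * e) * (e * g x - (Ph μ τ g (v n) g x - φ x)) ^ 2 := by positivity
      have h7 : 1 / (2 * e) * (e * g x - (Ph μ τ g (v n) g x - φ x)) ^ 2 =
          e / 2 * (g x) ^ 2 + 1 / (2 * e) * (φ x - Ph μ τ g (v n) g x) ^ 2 -
          g x * (Ph μ τ g (v n) g x - φ x) := by
        field_simp
        ring
      linarith
    have h8 : e / 2 * (g x) ^ 2 ≤ e / 2 := by nlinarith
    show g x * Ph μ τ g (v n) g x ≤ φ x * g x + (e / 2 + 1 / (2 * e) * (φ x - Ph μ τ g (v n) g x) ^ 2)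
    linarith
  have hi4 : Integrable (fun x => 1 / (2 * e) * (φ x - Ph μ τ g (v n) g x) ^ 2) μ := hi3.const_mul _
  have hi5 : Integrable (fun x => e / 2 + 1 / (2 * e) * (φ x - Ph μ τ g (v n) g x) ^ 2) μ :=
    (integrable_const _).add hi4
  rw [integral_add hi1 hi5, integral_add (integrable_const _) hi4, integral_const,
    integral_const_mul] at h3
  simp only [probReal_univ, one_smul] at h3
  have h9 : 1 / (2 * e) * ∫ x, (φ x - Ph μ τ g (v n) g x) ^ 2 ∂μ ≤ 1 / (2 * e) * (e ^ 2 / 2) :=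
    mul_le_mul_of_nonneg_left h2 (by positivity)
  have h10 : 1 / (2 * e) * (e ^ 2 / 2) = e / 4 := by field_simp; ring
  linarith

/-- the estimate of `φ ∘ τ_y` on rigid sets -/
private theorem kap_est (hτ : Act μ τ) (g : X → ℝ) (hg : BM1 g) (w m : A →₀ ℝ) (hm : IsProb Set.univ m)
    (φ : X → ℝ) (hφ : MemLp φ 2 μ) {K : ℕ} (hK : 0 < K) (y : A) (P : Set X)
    (hP : MeasurableSet[Rig μ τ] P) :
    ∫ x in P, (φ (τ y x) - kapA τ g m K (fun c =>
      ⟨kapR K (CE μ τ (fun x' => g (τ c x') * g (τ y x')) x), kapR_mem K _⟩) x) ^ 2 ∂μ ≤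
    4 * (∫ x, (φ x - Ph μ τ g w g x) ^ 2 ∂μ +
      Qf μ τ g Set.univ (w.mapDomain (fun c => y + c) - w) (w.mapDomain (fun c => y + c) - w) +
      Qf μ τ g P (w - m) (w - m) + (1 / (K : ℝ)) ^ 2 * μ.real P) := by
  have hgB := kap_BM_of_BM1 hg
  have hu : BM1 (fun x => g (τ y x)) := kap_BM1_comp hτ hg y
  have huB := kap_BM_of_BM1 hu
  set u : X → ℝ := fun x => g (τ y x) with hudef
  have hF : MemLp (Ph μ τ g w g) 2 μ := kap_memLp hτ g g hgB hgB w
  set a2 := w.mapDomain (fun c => y + c) - w with ha2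
  have h1 : MemLp (fun x => φ (τ y x) - Ph μ τ g w g (τ y x)) 2 μ :=
    (hφ.sub hF).comp_measurePreserving (hτ.mp y)
  have h2 : MemLp (Ph μ τ g a2 u) 2 μ := kap_memLp hτ g u hgB huB a2
  have h3 : MemLp (Ph μ τ g (w - m) u) 2 μ := kap_memLp hτ g u hgB huB (w - m)
  have e1 := h1.integrable_sq
  have e2 := h2.integrable_sq
  have e3 := h3.integrable_sq
  have hpt : ∀ᵐ x ∂μ, (φ (τ y x) - kapA τ g m K (fun c =>
      ⟨kapR K (CE μ τ (fun x' => g (τ c x') * g (τ y x')) x), kapR_mem K _⟩) x) ^ 2 ≤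
      4 * ((φ (τ y x) - Ph μ τ g w g (τ y x)) ^ 2 + (Ph μ τ g a2 u x) ^ 2 +
        (Ph μ τ g (w - m) u x) ^ 2 + (1 / (K : ℝ)) ^ 2) := by
    filter_upwards [Ph_comp hτ g g hgB hgB y w, kap_round hτ hg hu hm hK] with x hx1 hx2
    set z := kapA τ g m K (fun c =>
      ⟨kapR K (CE μ τ (fun x' => g (τ c x') * g (τ y x')) x), kapR_mem K _⟩) x with hz
    have h4 : φ (τ y x) - z = (φ (τ y x) - Ph μ τ g w g (τ y x)) + Ph μ τ g a2 u x +
        Ph μ τ g (w - m) u x + (Ph μ τ g m u x - z) := by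
      rw [ha2, Ph_sub, Ph_sub, hx1]
      ring
    rw [h4]
    refine (kap_sq4 _ _ _ _).trans ?_
    have h5 : (Ph μ τ g m u x - z) ^ 2 ≤ (1 / (K : ℝ)) ^ 2 := by
      rw [← sq_abs]
      exact pow_le_pow_left₀ (abs_nonneg _) hx2 2
    linarith
  have hP0 : MeasurableSet[m0] P := rig_le hτ P hP
  have e12 : Integrable (fun x => (φ (τ y x) - Ph μ τ g w g (τ y x)) ^ 2 + (Ph μ τ g a2 u x) ^ 2) μ :=
    e1.add e2
  have e123 : Integrable (fun x => (φ (τ y x) - Ph μ τ g w g (τ y x)) ^ 2 + (Ph μ τ g a2 u x) ^ 2 +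
        (Ph μ τ g (w - m) u x) ^ 2) μ := e12.add e3
  have hint : Integrable (fun x => 4 * ((φ (τ y x) - Ph μ τ g w g (τ y x)) ^ 2 + (Ph μ τ g a2 u x) ^ 2 +
        (Ph μ τ g (w - m) u x) ^ 2 + (1 / (K : ℝ)) ^ 2)) (μ.restrict P) :=
    ((((e1.add e2).add e3).add (integrable_const _)).const_mul _).restrict
  refine (integral_mono_of_nonneg (Filter.Eventually.of_forall fun x => sq_nonneg _) hint
    (ae_restrict_of_ae hpt)).trans ?_
  rw [integral_const_mul]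
  apply mul_le_mul_of_nonneg_left _ (by norm_num : (0 : ℝ) ≤ 4)
  rw [integral_add e123.restrict (integrable_const _),
    integral_add e12.restrict e3.restrict, integral_add e1.restrict e2.restrict,
    setIntegral_const, smul_eq_mul]
  have q1 : ∫ x in P, (φ (τ y x) - Ph μ τ g w g (τ y x)) ^ 2 ∂μ ≤ ∫ x, (φ x - Ph μ τ g w g x) ^ 2 ∂μ := by
    refine (setIntegral_le_integral e1 (Filter.Eventually.of_forall fun x => sq_nonneg _)).trans
      (le_of_eq ?_)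
    have h6 := integral_map (μ := μ) (hτ.mp y).measurable.aemeasurable
      (f := fun x => (φ x - Ph μ τ g w g x) ^ 2) (by
        rw [(hτ.mp y).map_eq]
        exact ((hφ.sub hF).integrable_sq).aestronglyMeasurable)
    rw [(hτ.mp y).map_eq] at h6
    exact h6.symm
  have q2 : ∫ x in P, (Ph μ τ g a2 u x) ^ 2 ∂μ ≤ Qf μ τ g Set.univ a2 a2 :=
    (Ph_le hτ g u hgB hu P hP a2).trans (kap_Q_mono hτ g hgB P hP a2)
  have q3 := Ph_le hτ g u hgB hu P hP (w - m)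
  rw [mul_comm (μ.real P)]
  linarith

/-- KAP. The structured function. `φ = lim_n Ph (v n) g` in L^2 (`Ph_le`), `∫ g φ = lim avg (v n) gam`.
`AP φ`: fix `η`, choose `n1` with `Q(v n - v n1) ≤ η/8` for `n ≥ n1`, `m = v n1`. For `y ∈ Y N k`:
`φ ∘ τ_y - Ph m (g ∘ τ_y) = (φ - Ph (v n) g) ∘ τ_y + Ph (y + v n - v n) (g ∘ τ_y)
  + Ph (v n - m) (g ∘ τ_y)`; integrate the squares over `P` and let `n → ∞` along an ultrafilter:
`H0 P = lim_n Qf P (v n - m) (v n - m)`. The coefficients of `Ph m (g ∘ τ_y)` are rounded to a grid.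
`H P = 4 H0 P + 4 ρ^2 μ(P)`. -/
theorem kap (hτ : Act μ τ) (g : X → ℝ) (hg : BM1 g) (d : ℝ) (v : ℕ → A →₀ ℝ)
    (hv : ∀ n, IsProb Set.univ (v n))
    (hc : ∀ κ : ℝ, 0 < κ → ∃ N, ∀ n n', N ≤ n → N ≤ n' →
        Qf μ τ g Set.univ (v n - v n') (v n - v n') ≤ κ)
    (hi : ∀ k : ℕ, ∀ κ : ℝ, 0 < κ → ∃ N, ∀ n, N ≤ n → ∀ y ∈ Y N k,
        Qf μ τ g Set.univ ((v n).mapDomain (fun c => y + c) - v n)
          ((v n).mapDomain (fun c => y + c) - v n) ≤ κ)
    (hd : ∃ N, ∀ n, N ≤ n → d ≤ avg (v n) (fun c => gam μ τ g c)) :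
    ∃ φ : X → ℝ, MemLp φ 2 μ ∧ AP μ τ φ ∧ d ≤ ∫ x, φ x * g x ∂μ := by
  have hgB := kap_BM_of_BM1 hg
  have huniv : MeasurableSet[Rig μ τ] (Set.univ : Set X) := MeasurableSet.univ
  have hF : ∀ n, MemLp (Ph μ τ g (v n) g) 2 μ := fun n => kap_memLp hτ g g hgB hgB (v n)
  have hcF : ∀ κ : ℝ, 0 < κ → ∃ N, ∀ n n', N ≤ n → N ≤ n' →
      ∫ x, (Ph μ τ g (v n) g x - Ph μ τ g (v n') g x) ^ 2 ∂μ ≤ κ := by
    intro κ hκ
    obtain ⟨N, hN⟩ := hc κ hκ
    refine ⟨N, fun n n' hn hn' => ?_⟩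
    refine le_trans ?_ (hN n n' hn hn')
    have h1 := Ph_le hτ g g hgB hg Set.univ huniv (v n - v n')
    rw [setIntegral_univ] at h1
    simpa only [Ph_sub] using h1
  obtain ⟨φ, hφ, hφl⟩ := kap_lim (fun n => Ph μ τ g (v n) g) hF hcF
  refine ⟨φ, hφ, ?_, kap_inner hτ g hg d v hd φ hφ hφl⟩
  intro η hη
  obtain ⟨n1, hn1⟩ := hc (η / 8) (by positivity)
  set m := v n1 with hm
  obtain ⟨K, hK0, hK⟩ : ∃ K : ℕ, 0 < K ∧ (1 / (K : ℝ)) ^ 2 ≤ η / 8 := by
    obtain ⟨K, hK⟩ := exists_nat_gt (max 1 (8 / η))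
    have h1 : (1 : ℝ) < K := lt_of_le_of_lt (le_max_left _ _) hK
    have h2 : 8 / η < K := lt_of_le_of_lt (le_max_right _ _) hK
    refine ⟨K, by exact_mod_cast (lt_trans zero_lt_one h1), ?_⟩
    have h3 : (0 : ℝ) < K := by linarith
    rw [div_pow, one_pow, div_le_div_iff₀ (by positivity) (by norm_num)]
    rw [div_lt_iff₀ hη] at h2
    nlinarith
  have hlim : ∀ P, MeasurableSet[Rig μ τ] P → ∃ L, 0 ≤ L ∧ L ≤ η / 8 ∧
      Filter.Tendsto (fun n => Qf μ τ g P (v n - m) (v n - m)) (Filter.hyperfilter ℕ) (nhds L) := by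
    intro P hP
    apply kap_ulim
    have h1 : ∀ᶠ n in (Filter.atTop : Filter ℕ), n1 ≤ n := Filter.eventually_ge_atTop n1
    filter_upwards [Nat.hyperfilter_le_atTop h1] with n hn
    exact ⟨Q_nonneg hτ g hgB P hP _, (kap_Q_mono hτ g hgB P hP _).trans (hn1 n n1 hn le_rfl)⟩
  have hH0 : ∀ P, MeasurableSet[Rig μ τ] P →
      Filter.Tendsto (fun n => Qf μ τ g P (v n - m) (v n - m)) (Filter.hyperfilter ℕ)
        (nhds (Filter.limUnder (Filter.hyperfilter ℕ : Filter ℕ) (fun n => Qf μ τ g P (v n - m) (v n - m)))) := by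
    intro P hP
    obtain ⟨L, _, _, hL⟩ := hlim P hP
    exact tendsto_nhds_limUnder ⟨L, hL⟩
  set H0 : Set X → ℝ := fun P =>
    Filter.limUnder (Filter.hyperfilter ℕ : Filter ℕ) (fun n => Qf μ τ g P (v n - m) (v n - m)) with hH0def
  have hH0b : ∀ P, MeasurableSet[Rig μ τ] P → 0 ≤ H0 P ∧ H0 P ≤ η / 8 := by
    intro P hP
    obtain ⟨L, h1, h2, hL⟩ := hlim P hP
    have h3 : H0 P = L := tendsto_nhds_unique (hH0 P hP) hL
    rw [h3]; exact ⟨h1, h2⟩
  refine ⟨m.support → Set.Icc (-(K : ℤ)) K, inferInstance, kapA τ g m K, kapA_BM hτ hg m K,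
    fun P => 4 * H0 P + 4 * ((1 / (K : ℝ)) ^ 2 * μ.real P), ?_, ?_, ?_, ?_⟩
  · intro P hP
    have h1 := (hH0b P hP).1
    have h2 : (0 : ℝ) ≤ μ.real P := measureReal_nonneg
    positivity
  · intro P Q hP hQ hPQ
    have h1 : H0 (P ∪ Q) = H0 P + H0 Q := by
      refine tendsto_nhds_unique (hH0 (P ∪ Q) (hP.union hQ)) ?_
      have h2 := (hH0 P hP).add (hH0 Q hQ)
      refine h2.congr fun n => ?_
      exact (Qf_union hτ g hgB P Q hP hQ hPQ _ _).symm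
    have h2 : μ.real (P ∪ Q) = μ.real P + μ.real Q :=
      measureReal_union hPQ (rig_le hτ Q hQ)
    show 4 * H0 (P ∪ Q) + 4 * ((1 / (K : ℝ)) ^ 2 * μ.real (P ∪ Q)) = _
    rw [h1, h2]
    ring
  · show 4 * H0 Set.univ + 4 * ((1 / (K : ℝ)) ^ 2 * μ.real Set.univ) ≤ η
    have h1 := (hH0b Set.univ huniv).2
    rw [probReal_univ]
    linarith
  · intro k κ hκ
    obtain ⟨N, hN⟩ := hi k (κ / 16) (by positivity)
    refine ⟨N, fun y hy => ⟨fun x c => ⟨kapR K (CE μ τ (fun x' => g (τ c x') * g (τ y x')) x),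
      kapR_mem K _⟩, fun i => kap_qmeas (u := fun x => g (τ y x)) hτ m K i, fun P hP => ?_⟩⟩
    obtain ⟨N2, hN2⟩ := hφl (κ / 16) (by positivity)
    have hev1 : ∀ᶠ n in (Filter.hyperfilter ℕ : Filter ℕ),
        Qf μ τ g P (v n - m) (v n - m) < H0 P + κ / 16 :=
      (hH0 P hP).eventually (gt_mem_nhds (by linarith))
    have hev2 : ∀ᶠ n in (Filter.hyperfilter ℕ : Filter ℕ), N ≤ n :=
      Nat.hyperfilter_le_atTop (Filter.eventually_ge_atTop N)
    have hev3 : ∀ᶠ n in (Filter.hyperfilter ℕ : Filter ℕ), N2 ≤ n :=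
      Nat.hyperfilter_le_atTop (Filter.eventually_ge_atTop N2)
    obtain ⟨n, h1, h2, h3⟩ := (hev1.and (hev2.and hev3)).exists
    have h4 := kap_est hτ g hg (v n) m (hv n1) φ hφ hK0 y P hP
    refine h4.trans ?_
    have h5 := hN n h2 y hy
    have h6 := hN2 n h3
    show _ ≤ 4 * H0 P + 4 * ((1 / (K : ℝ)) ^ 2 * μ.real P) + κ
    linarith

end Pool.Agent.H76.CR
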