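import Pool.Agent.H76.CR.Ineq
import Pool.Agent.H76.CR.Kern

set_option autoImplicit false
open MeasureTheory
open scoped symmDiff ENNReal
namespace Pool.Agent.H76.CR

/-- pre-inner product core of a positive semidefinite form -/
@[reducible] noncomputable def kslCore {V : Type} [AddCommGroup V] [Module ℝ V] (F : V → V → ℝ)
    (hadd : ∀ a b c, F (a + b) c = F a c + F b c) (hsmul : ∀ (r : ℝ) a b, F (r • a) b = r * F a b)
    (hsymm : ∀ a b, F a b = F b a) (hpos : ∀ a, 0 ≤ F a a) : PreInnerProductSpace.Core ℝ V where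
  inner := F
  conj_inner_symm x y := by simpa using hsymm y x
  re_inner_nonneg x := by simpa using hpos x
  add_left x y z := hadd x y z
  smul_left x y r := by simpa using hsmul r x y

/-- translation by `y` on finitely supported functions -/
noncomputable def kslSh (y : A) : (A →₀ ℝ) →ₗ[ℝ] (A →₀ ℝ) :=
  Finsupp.lmapDomain ℝ ℝ (fun c => y + c)

theorem kslSh_apply (y : A) (v : A →₀ ℝ) : kslSh y v = v.mapDomain (fun c => y + c) := rfl

theorem kslSh_add (a b : A) (v : A →₀ ℝ) : kslSh (a + b) v = kslSh a (kslSh b v) := by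
  simp only [kslSh_apply]
  rw [← Finsupp.mapDomain_comp]
  congr 1
  funext c
  simp [add_assoc]

theorem kslSh_zero (v : A →₀ ℝ) : kslSh 0 v = v := by
  simp only [kslSh_apply]
  have : (fun c : A => 0 + c) = id := by funext c; simp
  rw [this, Finsupp.mapDomain_id]

theorem ksl_avg_single (m : A →₀ ℝ) (th : ℕ) :
    avg m (fun c => kslSh (th • c) (Finsupp.single 0 1)) = m.mapDomain (fun c => th • c) := by
  unfold avg Finsupp.mapDomain
  refine Finsupp.sum_congr fun c _ => ?_
  simp only [kslSh_apply]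
  rw [Finsupp.mapDomain_single, Finsupp.smul_single]
  simp

/-- abstract version -/
theorem ksl_abs (F : (A →₀ ℝ) → (A →₀ ℝ) → ℝ)
    (hadd : ∀ a b c, F (a + b) c = F a c + F b c) (hsmul : ∀ (r : ℝ) a b, F (r • a) b = r * F a b)
    (hsymm : ∀ a b, F a b = F b a) (hpos : ∀ a, 0 ≤ F a a)
    (hsh : ∀ y a b, F (kslSh y a) (kslSh y b) = F a b) (th : ℕ) (hth : th = 1 ∨ th = 2) :
    (∀ N : ℕ, ∀ η : ℝ, 0 < η → ∃ m, IsProb (B N) m ∧
      F (m.mapDomain (fun c => th • c)) (m.mapDomain (fun c => th • c)) ≤ η) ∨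
    ∃ (d : ℝ) (v : ℕ → A →₀ ℝ), 0 < d ∧ (∀ n, IsProb Set.univ (v n)) ∧
      (∀ κ : ℝ, 0 < κ → ∃ N, ∀ n n', N ≤ n → N ≤ n' → F (v n - v n') (v n - v n') ≤ κ) ∧
      (∀ k : ℕ, ∀ κ : ℝ, 0 < κ → ∃ N, ∀ n, N ≤ n → ∀ y ∈ Y N k,
        F (kslSh y (v n) - v n) (kslSh y (v n) - v n) ≤ κ) ∧
      ∃ N, ∀ n, N ≤ n → d ≤ F (v n) (Finsupp.single 0 1) := by
  let core := kslCore F hadd hsmul hsymm hpos
  let : SeminormedAddCommGroup (A →₀ ℝ) := InnerProductSpace.Core.toSeminormedAddCommGroup (𝕜 := ℝ)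
  let : InnerProductSpace ℝ (A →₀ ℝ) := InnerProductSpace.ofCore core
  have hinner : ∀ a b : A →₀ ℝ, @inner ℝ (A →₀ ℝ) _ a b = F a b := fun a b => rfl
  have hnsq : ∀ a : A →₀ ℝ, F a a = ‖a‖ ^ 2 := fun a => by
    rw [← hinner]; exact real_inner_self_eq_norm_sq a
  have hiso : ∀ (y : A) (a : A →₀ ℝ), ‖kslSh y a‖ = ‖a‖ := by
    intro y a
    have h1 : ‖kslSh y a‖ ^ 2 = ‖a‖ ^ 2 := by rw [← hnsq, ← hnsq, hsh]
    exact (sq_eq_sq₀ (norm_nonneg _) (norm_nonneg _)).mp h1
  let ρ : A → (A →₀ ℝ) →ₗᵢ[ℝ] (A →₀ ℝ) := fun c => ⟨kslSh (th • c), fun a => hiso _ a⟩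
  have hρ : ∀ c a, ρ c a = kslSh (th • c) a := fun c a => rfl
  obtain ⟨m, hm, hcau, hinv⟩ := SL ρ (fun a b x => by
    simp only [hρ]
    rw [← kslSh_add, smul_add]) (Finsupp.single 0 1)
  set v : ℕ → A →₀ ℝ := fun n => (m n).mapDomain (fun c => th • c) with hvdef
  have hv : ∀ n, avg (m n) (fun c => ρ c (Finsupp.single 0 1)) = v n := by
    intro n
    simp only [hρ]
    exact ksl_avg_single (m n) th
  simp only [hv] at hcau hinv
  -- the deviation
  set dev : A → ℕ → ℝ := fun y n => ‖kslSh y (v n) - v n‖ with hdev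
  have hdev_add : ∀ a b n, dev (a + b) n ≤ dev a n + dev b n := by
    intro a b n
    have h1 : kslSh (a + b) (v n) - v n =
        kslSh a (kslSh b (v n) - v n) + (kslSh a (v n) - v n) := by
      rw [kslSh_add, map_sub]; abel
    calc dev (a + b) n = ‖kslSh a (kslSh b (v n) - v n) + (kslSh a (v n) - v n)‖ := by
          simp only [hdev]; rw [h1]
      _ ≤ ‖kslSh a (kslSh b (v n) - v n)‖ + ‖kslSh a (v n) - v n‖ := norm_add_le _ _
      _ = dev a n + dev b n := by rw [hiso]; simp only [hdev]; ring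
  have hdev_neg : ∀ a n, dev (-a) n = dev a n := by
    intro a n
    have h1 : kslSh (-a) (v n) - v n = - kslSh (-a) (kslSh a (v n) - v n) := by
      rw [map_sub, ← kslSh_add]
      simp [kslSh_zero]
    simp only [hdev]
    rw [h1, norm_neg, hiso]
  have hinvB : ∀ κ : ℝ, 0 < κ → ∃ N, ∀ n, N ≤ n → ∀ y ∈ B N, dev y n ≤ κ := by
    intro κ hκ
    obtain ⟨N, hN⟩ := hinv (κ / 2) (by positivity)
    refine ⟨N + 1, fun n hn y hy => ?_⟩
    rcases hth with rfl | rfl
    · have h2 := hN n (by omega) y (B_anti (Nat.le_succ N) hy)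
      rw [hρ, one_smul] at h2
      exact h2.trans (by linarith)
    · obtain ⟨c', hc', hy'⟩ := B_four N y hy
      have h2 := hN n (by omega) c' hc'
      rw [hρ, two_smul] at h2
      rw [hy']
      have h3 := hdev_add (c' + c') (c' + c') n
      have h4 : dev (c' + c') n ≤ κ / 2 := h2
      linarith
  have hinvY : ∀ k : ℕ, ∀ κ : ℝ, 0 < κ → ∃ N, ∀ n, N ≤ n → ∀ y ∈ Y N k, dev y n ≤ κ := by
    intro k κ hκ
    obtain ⟨N, hN⟩ := hinvB (κ / (k + 1)) (by positivity)
    refine ⟨N, fun n hn y hy => ?_⟩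
    have key : ∀ j : ℕ, ∀ y ∈ Y N j, dev y n ≤ j * (κ / (k + 1)) := by
      intro j
      induction j with
      | zero =>
        intro y hy
        have : y = 0 := hy
        subst this
        simp [hdev, kslSh_zero]
      | succ j ih =>
        rintro y ⟨y', hy', c, hc, h | h⟩
        · rw [h]
          have h1 := hdev_add y' c n
          have h2 := ih y' hy'
          have h3 := hN n hn c hc
          push_cast
          linarith
        · rw [h, sub_eq_add_neg]
          have h1 := hdev_add y' (-c) n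
          have h2 := ih y' hy'
          have h3 := hN n hn c hc
          rw [hdev_neg] at h1
          push_cast
          linarith
    have h1 := key k y hy
    have h2 : (k : ℝ) * (κ / (k + 1)) ≤ κ := by
      rw [mul_div_assoc', div_le_iff₀ (by positivity)]
      nlinarith
    linarith
  -- limit of the norms
  obtain ⟨d0, hd0⟩ : ∃ d0, Filter.Tendsto (fun n => ‖v n‖) Filter.atTop (nhds d0) :=
    cauchySeq_tendsto_of_complete
      (by
        rw [Metric.cauchySeq_iff'] at hcau ⊢
        intro ε hε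
        obtain ⟨N, hN⟩ := hcau ε hε
        refine ⟨N, fun n hn => lt_of_le_of_lt ?_ (hN n hn)⟩
        rw [Real.dist_eq, dist_eq_norm]
        exact abs_norm_sub_norm_le _ _)
  have hd0n : 0 ≤ d0 := ge_of_tendsto' hd0 fun n => norm_nonneg _
  rcases hd0n.eq_or_lt with h0 | hpos0
  · left
    intro N η hη
    rw [← h0] at hd0
    obtain ⟨n, hn1, hn2⟩ : ∃ n, N ≤ n ∧ ‖v n‖ < Real.sqrt η := by
      have h1 := (hd0.eventually_lt_const (Real.sqrt_pos.mpr hη)).and (Filter.eventually_ge_atTop N)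
      obtain ⟨n, hn⟩ := h1.exists
      exact ⟨n, hn.2, hn.1⟩
    refine ⟨m n, ⟨(hm n).1, (hm n).2.1, fun c hc => B_anti hn1 ((hm n).2.2 c hc)⟩, ?_⟩
    change F (v n) (v n) ≤ η
    rw [hnsq]
    have h2 := Real.sq_sqrt hη.le
    nlinarith [norm_nonneg (v n), Real.sqrt_nonneg η]
  · right
    refine ⟨d0 ^ 2 / 2, v, by positivity, fun n => ?_, fun κ hκ => ?_, fun k κ hκ => ?_, ?_⟩
    · -- IsProb of the image
      refine ⟨fun c => ?_, ?_, fun c _ => Set.mem_univ c⟩
      · simp only [hvdef]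
        rw [Finsupp.mapDomain, Finsupp.sum_apply]
        refine Finset.sum_nonneg fun a ha => ?_
        change 0 ≤ (Finsupp.single (th • a) ((m n) a)) c
        rw [Finsupp.single_apply]
        split_ifs
        · exact (hm n).1 a
        · exact le_rfl
      · simp only [hvdef]
        rw [Finsupp.sum_mapDomain_index (fun _ => rfl) (fun _ _ _ => rfl)]
        exact (hm n).2.1
    · rw [Metric.cauchySeq_iff] at hcau
      obtain ⟨N, hN⟩ := hcau (Real.sqrt κ) (Real.sqrt_pos.mpr hκ)
      refine ⟨N, fun n n' hn hn' => ?_⟩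
      have h1 := hN n hn n' hn'
      rw [dist_eq_norm] at h1
      rw [hnsq]
      have h2 := Real.sq_sqrt hκ.le
      nlinarith [norm_nonneg (v n - v n'), Real.sqrt_nonneg κ]
    · obtain ⟨N, hN⟩ := hinvY k (Real.sqrt κ) (Real.sqrt_pos.mpr hκ)
      refine ⟨N, fun n hn y hy => ?_⟩
      have h1 : ‖kslSh y (v n) - v n‖ ≤ Real.sqrt κ := hN n hn y hy
      rw [hnsq]
      have h2 := Real.sq_sqrt hκ.le
      nlinarith [norm_nonneg (kslSh y (v n) - v n), Real.sqrt_nonneg κ]
    · -- lower bound for the inner product with the point mass at 0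
      set s0 : A →₀ ℝ := Finsupp.single 0 1 with hs0
      obtain ⟨N1, hN1⟩ := hinv (d0 ^ 2 / (10 * (‖s0‖ + 1))) (by positivity)
      obtain ⟨N2, hN2⟩ := (Metric.cauchySeq_iff.mp hcau) (d0 / 10) (by positivity)
      obtain ⟨N3, hN3⟩ := Filter.eventually_atTop.mp
        (hd0.eventually (lt_mem_nhds (show 9 / 10 * d0 < d0 by linarith)))
      set N := max N1 (max N2 N3) with hNdef
      refine ⟨N, fun n hn => ?_⟩
      have hnN1 : N1 ≤ n := (le_max_left _ _).trans hn
      have hnN2 : N2 ≤ n := ((le_max_left _ _).trans (le_max_right _ _)).trans hn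
      have hnN3 : N3 ≤ n := ((le_max_right _ _).trans (le_max_right _ _)).trans hn
      have hNN1 : N1 ≤ N := le_max_left _ _
      have hNN2 : N2 ≤ N := (le_max_left _ _).trans (le_max_right _ _)
      -- inner product with the averages
      have h1 : 9 / 10 * d0 < ‖v n‖ := hN3 n hnN3
      have h2 : ‖v n - v N‖ < d0 / 10 := by
        have := hN2 n hnN2 N hNN2
        rwa [dist_eq_norm] at this
      have h3 : F (v n) (v N) = F (v n) (v n) - F (v n) (v n - v N) := by
        have : F (v n) (v n - v N) = F (v n) (v n) - F (v n) (v N) := by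
          rw [← hinner, ← hinner, ← hinner, inner_sub_right]
        linarith
      have h4 : |F (v n) (v n - v N)| ≤ ‖v n‖ * ‖v n - v N‖ := by
        rw [← hinner]; exact abs_real_inner_le_norm _ _
      have h5 : 7 / 10 * d0 ^ 2 ≤ F (v n) (v N) := by
        have h6 := abs_le.mp h4
        rw [h3, hnsq]
        nlinarith [norm_nonneg (v n), norm_nonneg (v n - v N)]
      -- compare
      have hlin : F (v n) (v N) = (m N).sum fun c r => r * F (v n) (Finsupp.single (th • c) 1) := by
        have e1 : v N = (m N).sum fun c r => r • Finsupp.single (th • c) (1 : ℝ) := by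
          simp only [hvdef, Finsupp.mapDomain]
          refine Finsupp.sum_congr fun c _ => ?_
          rw [Finsupp.smul_single]; simp
        conv_lhs => rw [e1]
        rw [← hinner, Finsupp.sum, inner_sum, Finsupp.sum]
        refine Finset.sum_congr rfl fun c _ => ?_
        rw [inner_smul_right, hinner]
      have hcmp : ∀ c ∈ (m N).support,
          |F (v n) (Finsupp.single (th • c) 1) - F (v n) s0| ≤ d0 ^ 2 / 10 := by
        intro c hc
        have hcB : c ∈ B N1 := B_anti hNN1 ((hm N).2.2 c hc)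
        have e1 : (Finsupp.single (th • c) (1 : ℝ) : A →₀ ℝ) = kslSh (th • c) s0 := by
          rw [kslSh_apply, hs0, Finsupp.mapDomain_single]; simp
        have e2 : F (v n) (Finsupp.single (th • c) 1) - F (v n) s0 =
            F (v n - kslSh (th • c) (v n)) (kslSh (th • c) s0) := by
          have e3 : F (kslSh (th • c) (v n)) (kslSh (th • c) s0) = F (v n) s0 := hsh _ _ _
          rw [← hinner (v n - _), inner_sub_left, hinner, hinner, e3, e1]
        rw [e2]
        calc |F (v n - kslSh (th • c) (v n)) (kslSh (th • c) s0)|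
            ≤ ‖v n - kslSh (th • c) (v n)‖ * ‖kslSh (th • c) s0‖ := by
              rw [← hinner]; exact abs_real_inner_le_norm _ _
          _ ≤ (d0 ^ 2 / (10 * (‖s0‖ + 1))) * ‖s0‖ := by
              rw [hiso, norm_sub_rev]
              exact mul_le_mul_of_nonneg_right (hN1 n hnN1 c hcB) (norm_nonneg _)
          _ ≤ d0 ^ 2 / 10 := by
              rw [div_mul_eq_mul_div, div_le_div_iff₀ (by positivity) (by positivity)]
              nlinarith [norm_nonneg s0, sq_nonneg d0]
      have hsum : F (v n) (v N) ≤ F (v n) s0 + d0 ^ 2 / 10 := by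
        rw [hlin]
        have e1 : ((m N).sum fun c r => r * F (v n) (Finsupp.single (th • c) 1)) ≤
            (m N).sum fun c r => r * (F (v n) s0 + d0 ^ 2 / 10) := by
          refine Finset.sum_le_sum fun c hc => ?_
          refine mul_le_mul_of_nonneg_left ?_ ((hm N).1 c)
          have := abs_le.mp (hcmp c hc)
          linarith
        refine e1.trans (le_of_eq ?_)
        rw [Finsupp.sum, ← Finset.sum_mul]
        have := (hm N).2.1
        rw [Finsupp.sum] at this
        rw [this, one_mul]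
      nlinarith [sq_nonneg d0]

variable {X : Type} [m0 : MeasurableSpace X] {μ : Measure X} [IsProbabilityMeasure μ]
  {τ : A → X → X}

theorem ksl_inner_single (hτ : Act μ τ) (g : X → ℝ) (hg : BM g) (v : A →₀ ℝ) :
    Qf μ τ g Set.univ v (Finsupp.single 0 1) = avg v (fun c => gam μ τ g c) := by
  induction v using Finsupp.induction_linear with
  | zero => simp [Qf, avg]
  | add a b ha hb =>
    rw [Qf_add_left, ha, hb]
    unfold avg
    rw [Finsupp.sum_add_index' (by simp) (by intros; rw [add_smul])]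
  | single c r =>
    have h1 : (Finsupp.single c r : A →₀ ℝ) = r • Finsupp.single c 1 := by
      rw [Finsupp.smul_single]; simp
    have h2 : avg (Finsupp.single c r) (fun c => gam μ τ g c) = r * gam μ τ g c := by
      unfold avg
      rw [Finsupp.sum_single_index (by simp)]
      rfl
    rw [h2, h1, Qf_smul_left, Qf_single hτ g hg, zero_sub, gam_neg hτ g hg]

/-- KSL. Alternative for a bounded function `g` and `th = 1, 2`. -/
theorem ksl (hτ : Act μ τ) (g : X → ℝ) (hg : BM1 g) (th : ℕ) (hth : th = 1 ∨ th = 2) :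
    (∀ N : ℕ, ∀ η : ℝ, 0 < η → ∃ m, IsProb (B N) m ∧
      Qf μ τ g Set.univ (m.mapDomain (fun c => th • c)) (m.mapDomain (fun c => th • c)) ≤ η) ∨
    ∃ (d : ℝ) (v : ℕ → A →₀ ℝ), 0 < d ∧ (∀ n, IsProb Set.univ (v n)) ∧
      (∀ κ : ℝ, 0 < κ → ∃ N, ∀ n n', N ≤ n → N ≤ n' →
        Qf μ τ g Set.univ (v n - v n') (v n - v n') ≤ κ) ∧
      (∀ k : ℕ, ∀ κ : ℝ, 0 < κ → ∃ N, ∀ n, N ≤ n → ∀ y ∈ Y N k,
        Qf μ τ g Set.univ ((v n).mapDomain (fun c => y + c) - v n)
          ((v n).mapDomain (fun c => y + c) - v n) ≤ κ) ∧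
      ∃ N, ∀ n, N ≤ n → d ≤ avg (v n) (fun c => gam μ τ g c) := by
  have hgb : BM g := ⟨hg.1, 1, hg.2⟩
  have h := ksl_abs (Qf μ τ g Set.univ) (fun a b c => Qf_add_left g _ a b c)
    (fun r a b => Qf_smul_left g _ r a b) (fun a b => Qf_symm g _ a b)
    (fun a => Q_nonneg hτ g hgb _ MeasurableSet.univ a)
    (fun y a b => Qf_shift hτ g hgb y a b) th hth
  rcases h with h | ⟨d, v, h1, h2, h3, h4, N, h5⟩
  · exact Or.inl h
  · refine Or.inr ⟨d, v, h1, h2, h3, h4, N, fun n hn => ?_⟩
    have := h5 n hn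
    rwa [ksl_inner_single hτ g hgb] at this

end Pool.Agent.H76.CR
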