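import Pool.Agent.H76.CR.KSL
import Pool.Agent.H76.CR.KAP

set_option autoImplicit false
open MeasureTheory
open scoped symmDiff ENNReal
namespace Pool.Agent.H76.CR

/-- convexity of a positive semidefinite quadratic form -/
theorem meanb_convex (F : (A →₀ ℝ) → (A →₀ ℝ) → ℝ)
    (hadd : ∀ a b c, F (a + b) c = F a c + F b c) (hsmul : ∀ (r : ℝ) a b, F (r • a) b = r * F a b)
    (hsymm : ∀ a b, F a b = F b a) (hpos : ∀ a, 0 ≤ F a a) (m : A →₀ ℝ)
    (hm : IsProb Set.univ m) (a : A → (A →₀ ℝ)) (η : ℝ) (h : ∀ c, F (a c) (a c) ≤ η) :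
    F (avg m a) (avg m a) ≤ η := by
  let core := kslCore F hadd hsmul hsymm hpos
  let : SeminormedAddCommGroup (A →₀ ℝ) := InnerProductSpace.Core.toSeminormedAddCommGroup (𝕜 := ℝ)
  let : InnerProductSpace ℝ (A →₀ ℝ) := InnerProductSpace.ofCore core
  have hinner : ∀ a b : A →₀ ℝ, @inner ℝ (A →₀ ℝ) _ a b = F a b := fun a b => rfl
  have hnsq : ∀ a : A →₀ ℝ, F a a = ‖a‖ ^ 2 := fun a => by
    rw [← hinner]; exact real_inner_self_eq_norm_sq a
  have hη : 0 ≤ η := (hpos _).trans (h 0)
  have h1 : ‖avg m a‖ ≤ Real.sqrt η := by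
    refine norm_avg_le hm a _ fun c _ => ?_
    refine Real.le_sqrt_of_sq_le ?_
    rw [← hnsq]
    exact h c
  rw [hnsq]
  have h2 := Real.sq_sqrt hη
  nlinarith [norm_nonneg (avg m a), Real.sqrt_nonneg η]

theorem meanb_conv (m m' : A →₀ ℝ) (th : ℕ) :
    (conv m m').mapDomain (fun c => th • c) =
      avg m (fun c => kslSh (th • c) (m'.mapDomain (fun c => th • c))) := by
  unfold conv avg
  rw [Finsupp.mapDomain_sum]
  refine Finsupp.sum_congr fun c _ => ?_
  simp only [Finsupp.mapDomain_smul, kslSh_apply]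
  rw [← Finsupp.mapDomain_comp, ← Finsupp.mapDomain_comp]
  congr 2
  funext c'
  simp [smul_add]

theorem meanb_comm (m m' : A →₀ ℝ) : conv m m' = conv m' m := by
  unfold conv
  simp only [Finsupp.mapDomain, Finsupp.smul_sum, Finsupp.smul_single, smul_eq_mul]
  rw [Finsupp.sum_comm]
  refine Finsupp.sum_congr fun c _ => Finsupp.sum_congr fun c' _ => ?_
  rw [add_comm, mul_comm]

variable {X : Type} [m0 : MeasurableSpace X] {μ : Measure X} [IsProbabilityMeasure μ]
  {τ : A → X → X}

/-- MEANB: stability of the kernel properties under convolution (convolution with a probability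
measure is a contraction for the seminorm `sqrt (Qf univ)`, by `Qf_shift`). -/
theorem kernel_stab (hτ : Act μ τ) (g : X → ℝ) (hg : BM1 g) (th : ℕ) (η : ℝ) (hη : 0 ≤ η) :
    Stab (fun m => Qf μ τ g Set.univ (m.mapDomain (fun c => th • c))
      (m.mapDomain (fun c => th • c)) ≤ η) := by
  have hgb : BM g := ⟨hg.1, 1, hg.2⟩
  have key : ∀ m m' : A →₀ ℝ, IsProb Set.univ m →
      Qf μ τ g Set.univ (m'.mapDomain (fun c => th • c)) (m'.mapDomain (fun c => th • c)) ≤ η →
      Qf μ τ g Set.univ ((conv m m').mapDomain (fun c => th • c))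
        ((conv m m').mapDomain (fun c => th • c)) ≤ η := by
    intro m m' hm hQ
    rw [meanb_conv]
    refine meanb_convex (Qf μ τ g Set.univ) (fun a b c => Qf_add_left g _ a b c)
      (fun r a b => Qf_smul_left g _ r a b) (fun a b => Qf_symm g _ a b)
      (fun a => Q_nonneg hτ g hgb _ MeasurableSet.univ a) m hm _ η fun c => ?_
    exact (Qf_shift hτ g hgb (th • c) _ _).le.trans hQ
  intro m m' hm hm' h
  rcases h with h | h
  · rw [meanb_comm]; exact key m' m hm' h
  · exact key m m' hm h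

end Pool.Agent.H76.CR
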