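import Pool.Agent.H76.CR.KSL
import Pool.Agent.H76.CR.KAP
import Pool.Agent.H76.CR.MeanB

set_option autoImplicit false
open MeasureTheory
open scoped symmDiff ENNReal
namespace Pool.Agent.H76.CR

variable {X : Type} [m0 : MeasurableSpace X] {μ : Measure X} [IsProbabilityMeasure μ]
  {τ : A → X → X}

/-- MEANA: a bounded function orthogonal to all AP functions has small kernel averages
(`ksl`, the second alternative contradicts `kap`). -/
theorem kernel_small (hτ : Act μ τ) (g : X → ℝ) (hg : BM1 g)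
    (horth : ∀ φ : X → ℝ, MemLp φ 2 μ → AP μ τ φ → ∫ x, φ x * g x ∂μ = 0) (th : ℕ)
    (hth : th = 1 ∨ th = 2) (N : ℕ) (η : ℝ) (hη : 0 < η) :
    ∃ m, IsProb (B N) m ∧
      Qf μ τ g Set.univ (m.mapDomain (fun c => th • c)) (m.mapDomain (fun c => th • c)) ≤ η := by
  rcases ksl hτ g hg th hth with h | ⟨d, v, hd, h1, h2, h3, h4⟩
  · exact h N η hη
  · obtain ⟨φ, hφ, hAP, hle⟩ := kap hτ g hg d v h1 h2 h3 h4
    rw [horth φ hφ hAP] at hle
    exact absurd hle (not_le.mpr hd)

/-- all the approximate properties needed for the mean at once -/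
theorem meanc_approx (hτ : Act μ τ) (g : X → ℝ) (hg : BM1 g)
    (horth : ∀ φ : X → ℝ, MemLp φ 2 μ → AP μ τ φ → ∫ x, φ x * g x ∂μ = 0)
    (F : Finset {ψ : X → ℝ // BM ψ}) (N : ℕ) (η : ℝ) (hη : 0 < η) :
    ∃ m, IsProb (B N) m ∧
      (∀ th : ℕ, th = 1 ∨ th = 2 → Qf μ τ g Set.univ (m.mapDomain (fun c => th • c))
        (m.mapDomain (fun c => th • c)) ≤ η) ∧
      ∀ ψ ∈ F, ∫ x, (avg m (fun c => ψ.1 (τ c x)) - CE μ τ ψ.1 x) ^ 2 ∂μ ≤ η := by
  obtain ⟨m, h1, h2, h3⟩ := ergM (μ := μ) hτ (ι := {x // x ∈ F}) (κ := Bool)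
    (fun i => i.1.1) (fun i => i.1.2)
    (fun b m => Qf μ τ g Set.univ (m.mapDomain (fun c => (if b then 1 else 2 : ℕ) • c))
        (m.mapDomain (fun c => (if b then 1 else 2 : ℕ) • c)) ≤ η)
    (fun b N' => kernel_small hτ g hg horth _ (by cases b <;> simp) N' η hη)
    (fun b => kernel_stab hτ g hg _ η hη.le) N η hη
  refine ⟨m, h1, ?_, fun ψ hψ => h3 ⟨ψ, hψ⟩⟩
  rintro th (rfl | rfl)
  · exact h2 true
  · exact h2 false

/-- the averages of `gam` are values of the kernel form -/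
theorem meanc_gam (hτ : Act μ τ) (g : X → ℝ) (hg : BM g) (m : A →₀ ℝ) (c : A) (th : ℕ) :
    avg m (fun b => gam μ τ g (c + th • b)) =
      Qf μ τ g Set.univ (Finsupp.single (-c) 1) (m.mapDomain (fun c => th • c)) := by
  unfold Qf avg
  rw [Finsupp.sum_single_index (by simp [Finsupp.sum])]
  rw [Finsupp.sum_mapDomain_index (by simp) (by intros; ring)]
  refine Finsupp.sum_congr fun b _ => ?_
  rw [Measure.restrict_univ, Gr_gam hτ g hg]
  simp only [smul_eq_mul, one_mul, sub_neg_eq_add]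
  rw [add_comm c]

theorem meanc_gam_nonneg (g : X → ℝ) (c : A) : 0 ≤ gam μ τ g c := by
  unfold gam
  exact integral_nonneg fun x => sq_nonneg _

/-- Cauchy-Schwarz inequality for the kernel form -/
theorem meanc_cs (hτ : Act μ τ) (g : X → ℝ) (hg : BM g) (a b : A →₀ ℝ) (t : ℝ) (ht : 0 < t) :
    Qf μ τ g Set.univ a b ≤
      (t * Qf μ τ g Set.univ a a + Qf μ τ g Set.univ b b / t) / 2 := by
  have h := Q_nonneg hτ g hg Set.univ MeasurableSet.univ (t • a + (-1 : ℝ) • b)
  rw [Qf_add_left, Qf_smul_left, Qf_smul_left, Qf_symm g Set.univ a, Qf_symm g Set.univ b,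
    Qf_add_left, Qf_add_left, Qf_smul_left, Qf_smul_left, Qf_smul_left, Qf_smul_left,
    Qf_symm g Set.univ b a] at h
  have h2 : 0 ≤ (t * (t * Qf μ τ g Set.univ a a + -1 * Qf μ τ g Set.univ a b) +
      -1 * (t * Qf μ τ g Set.univ a b + -1 * Qf μ τ g Set.univ b b)) / t := div_nonneg h ht.le
  have h3 : (t * (t * Qf μ τ g Set.univ a a + -1 * Qf μ τ g Set.univ a b) +
      -1 * (t * Qf μ τ g Set.univ a b + -1 * Qf μ τ g Set.univ b b)) / t =
      t * Qf μ τ g Set.univ a a - 2 * Qf μ τ g Set.univ a b + Qf μ τ g Set.univ b b / t := by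
    field_simp
    ring
  rw [h3] at h2
  linarith

theorem meanc_bm_int {φ : X → ℝ} (hφ : BM φ) : Integrable φ μ := by
  obtain ⟨hm, C, hC⟩ := hφ
  exact Integrable.of_bound hm.aestronglyMeasurable C (Filter.Eventually.of_forall hC)

theorem meanc_bm_mul {φ ψ : X → ℝ} (hφ : BM φ) (hψ : BM ψ) : BM (fun x => φ x * ψ x) := by
  obtain ⟨hm, C, hC⟩ := hφ
  obtain ⟨hm', C', hC'⟩ := hψ
  refine ⟨hm.mul hm', C * C', fun x => ?_⟩
  rw [abs_mul]
  exact mul_le_mul (hC x) (hC' x) (abs_nonneg _) ((abs_nonneg _).trans (hC x))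

theorem meanc_bm_comp (hτ : Act μ τ) {ψ : X → ℝ} (hψ : BM ψ) (c : A) :
    BM (fun x => ψ (τ c x)) := by
  obtain ⟨hm, C, hC⟩ := hψ
  exact ⟨hm.comp (hτ.mp c).measurable, C, fun x => hC _⟩

/-- difference of the averages of the correlations and the limit -/
theorem meanc_corr (hτ : Act μ τ) {φ ψ : X → ℝ} (hφ : BM φ) (hψ : BM ψ) {N : ℕ} {m : A →₀ ℝ}
    (hm : IsProb (B N) m) (C : ℝ) (hC : ∀ x, |φ x| ≤ C) (η t : ℝ) (ht : 0 < t)
    (h : ∫ x, (avg m (fun c => ψ (τ c x)) - CE μ τ ψ x) ^ 2 ∂μ ≤ η) :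
    |avg m (fun b => ∫ x, φ x * ψ (τ b x) ∂μ) - ∫ x, φ x * CE μ τ ψ x ∂μ| ≤
      (t * C ^ 2 + η / t) / 2 := by
  obtain ⟨hψm, C', hC'⟩ := hψ
  have hψ : BM ψ := ⟨hψm, C', hC'⟩
  have hav : Measurable (fun x => avg m (fun c => ψ (τ c x))) := by
    unfold avg Finsupp.sum
    refine Finset.measurable_sum _ fun c _ => ?_
    exact (hψm.comp (hτ.mp c).measurable).const_smul (m c)
  have havb : ∀ x, |avg m (fun c => ψ (τ c x))| ≤ C' := fun x => by
    have := norm_avg_le hm (fun c => ψ (τ c x)) C' (fun c _ => hC' _)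
    exact this
  have hce := CE_meas hτ ψ
  have hceb := CE_bdd hτ ψ hψm C' hC'
  have hint1 : Integrable (fun x => φ x * CE μ τ ψ x) μ := by
    refine Integrable.of_bound (hφ.1.mul hce.measurable).aestronglyMeasurable (C * C') ?_
    filter_upwards [hceb] with x hx
    rw [Real.norm_eq_abs, abs_mul]
    exact mul_le_mul (hC x) hx (abs_nonneg _) ((abs_nonneg _).trans (hC x))
  have hint2 : Integrable (fun x => φ x * avg m (fun c => ψ (τ c x))) μ := by
    refine Integrable.of_bound (hφ.1.mul hav).aestronglyMeasurable (C * C') ?_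
    refine Filter.Eventually.of_forall fun x => ?_
    rw [Real.norm_eq_abs, abs_mul]
    exact mul_le_mul (hC x) (havb x) (abs_nonneg _) ((abs_nonneg _).trans (hC x))
  have hint3 : Integrable (fun x => (avg m (fun c => ψ (τ c x)) - CE μ τ ψ x) ^ 2) μ := by
    refine Integrable.of_bound ((hav.sub hce.measurable).pow_const 2).aestronglyMeasurable
      ((C' + C') ^ 2) ?_
    filter_upwards [hceb] with x hx
    rw [Real.norm_eq_abs, abs_pow]
    refine pow_le_pow_left₀ (abs_nonneg _) ?_ 2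
    exact (abs_sub _ _).trans (add_le_add (havb x) hx)
  have heq : avg m (fun b => ∫ x, φ x * ψ (τ b x) ∂μ) - ∫ x, φ x * CE μ τ ψ x ∂μ =
      ∫ x, φ x * (avg m (fun c => ψ (τ c x)) - CE μ τ ψ x) ∂μ := by
    have h1 : avg m (fun b => ∫ x, φ x * ψ (τ b x) ∂μ) =
        ∫ x, φ x * avg m (fun c => ψ (τ c x)) ∂μ := by
      unfold avg Finsupp.sum
      simp only [Finset.mul_sum, smul_eq_mul]
      rw [integral_finsetSum]
      · refine Finset.sum_congr rfl fun c _ => ?_
        rw [← integral_const_mul]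
        refine integral_congr_ae (Filter.Eventually.of_forall fun x => ?_)
        simp only
        ring
      · intro c _
        have := (meanc_bm_int (μ := μ) (meanc_bm_mul hφ (meanc_bm_comp hτ hψ c))).const_mul (m c)
        refine this.congr (Filter.Eventually.of_forall fun x => ?_)
        simp only
        ring
    rw [h1, ← integral_sub hint2 hint1]
    refine integral_congr_ae (Filter.Eventually.of_forall fun x => ?_)
    simp only
    ring
  rw [heq]
  have hb : ∀ x, |φ x * (avg m (fun c => ψ (τ c x)) - CE μ τ ψ x)| ≤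
      (t * C ^ 2 + (avg m (fun c => ψ (τ c x)) - CE μ τ ψ x) ^ 2 / t) / 2 := by
    intro x
    set y := avg m (fun c => ψ (τ c x)) - CE μ τ ψ x
    rw [abs_mul]
    have h1 : |φ x| * |y| ≤ C * |y| := mul_le_mul_of_nonneg_right (hC x) (abs_nonneg _)
    refine h1.trans ?_
    have h2 : 0 ≤ (t * C - |y|) ^ 2 / t := div_nonneg (sq_nonneg _) ht.le
    have h3 : (t * C - |y|) ^ 2 / t = t * C ^ 2 - 2 * (C * |y|) + y ^ 2 / t := by
      rw [← sq_abs y]
      field_simp
      ring
    rw [h3] at h2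
    linarith
  calc |∫ x, φ x * (avg m (fun c => ψ (τ c x)) - CE μ τ ψ x) ∂μ|
      ≤ ∫ x, |φ x * (avg m (fun c => ψ (τ c x)) - CE μ τ ψ x)| ∂μ := abs_integral_le_integral_abs
    _ ≤ ∫ x, (t * C ^ 2 + (avg m (fun c => ψ (τ c x)) - CE μ τ ψ x) ^ 2 / t) / 2 ∂μ := by
        refine integral_mono ?_ ?_ hb
        · have := (hint2.sub hint1).abs
          refine this.congr (Filter.Eventually.of_forall fun x => ?_)
          simp only [Pi.sub_apply]
          ring_nf
        · exact ((integrable_const _).add (hint3.div_const _)).div_const _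
    _ = (t * C ^ 2 + (∫ x, (avg m (fun c => ψ (τ c x)) - CE μ τ ψ x) ^ 2 ∂μ) / t) / 2 := by
        rw [integral_div, integral_add (integrable_const _) (hint3.div_const _), integral_div]
        simp
    _ ≤ (t * C ^ 2 + η / t) / 2 := by
        have := div_le_div_of_nonneg_right h ht.le
        linarith

/-- a criterion for convergence to zero -/
theorem meanc_tendsto {I : Type*} (l : Filter I) (F : I → ℝ) (e : I → ℝ) (C : ℝ)
    (he : Filter.Tendsto e l (nhds 0))
    (h : ∀ t : ℝ, 0 < t → ∀ᶠ i in l, |F i| ≤ (t * C + e i / t) / 2) :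
    Filter.Tendsto F l (nhds 0) := by
  rw [Metric.tendsto_nhds]
  intro ε hε
  set t := ε / (|C| + 1)
  have hC : 0 < |C| + 1 := by positivity
  have ht : 0 < t := div_pos hε hC
  have h1 := h t ht
  have h2 : ∀ᶠ i in l, e i < ε * t := he.eventually_lt_const (mul_pos hε ht)
  filter_upwards [h1, h2] with i hi hi2
  rw [Real.dist_eq, sub_zero]
  refine lt_of_le_of_lt hi ?_
  have h3 : e i / t < ε := by rwa [div_lt_iff₀ ht]
  have h4 : t * C ≤ ε := by
    calc t * C ≤ t * (|C| + 1) := mul_le_mul_of_nonneg_left (by linarith [le_abs_self C]) ht.le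
      _ = ε := div_mul_cancel₀ _ hC.ne'
  linarith

/-- MEANC: ultrafilter limit (along the directed set of pairs (finite set of bounded functions, n))
of the measures given by `ergM` with the two kernel properties.
`gam (c+b) = ⟨single (-c), single b⟩`, so `|∑ m_b gam (c+b)| ≤ sqrt (gam 0) sqrt (Qf m m) → 0`. -/
theorem mean_exists (hτ : Act μ τ) (g : X → ℝ) (hg : BM1 g)
    (horth : ∀ φ : X → ℝ, MemLp φ 2 μ → AP μ τ φ → ∫ x, φ x * g x ∂μ = 0) :
    ∃ M : (A → ℝ) → ℝ, IsMean M ∧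
      (∀ φ ψ : X → ℝ, BM φ → BM ψ →
        M (fun b => ∫ x, φ x * ψ (τ b x) ∂μ) = ∫ x, φ x * CE μ τ ψ x ∂μ) ∧
      (∀ c, M (fun b => gam μ τ g (c + b)) = 0) ∧
      ∀ c, M (fun b => gam μ τ g (c + (b + b))) = 0 := by
  classical
  have hgB : BM g := ⟨hg.1, 1, hg.2⟩
  choose m hm1 hm2 hm3 using fun i : Finset {ψ : X → ℝ // BM ψ} × ℕ =>
    meanc_approx hτ g hg horth i.1 i.2 (1 / ((i.2 : ℝ) + 1)) (by positivity)
  let U : Ultrafilter (Finset {ψ : X → ℝ // BM ψ} × ℕ) := Ultrafilter.of Filter.atTop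
  have hU : (U : Filter (Finset {ψ : X → ℝ // BM ψ} × ℕ)) ≤ Filter.atTop := Ultrafilter.of_le _
  have hsnd : Filter.Tendsto (fun i : Finset {ψ : X → ℝ // BM ψ} × ℕ => i.2) U Filter.atTop := by
    refine Filter.Tendsto.mono_left ?_ hU
    rw [← Filter.prod_atTop_atTop_eq]
    exact Filter.tendsto_snd
  have he : Filter.Tendsto (fun i : Finset {ψ : X → ℝ // BM ψ} × ℕ => 1 / ((i.2 : ℝ) + 1)) U
      (nhds 0) := tendsto_one_div_add_atTop_nhds_zero_nat.comp hsnd
  have hconv : ∀ u : A → ℝ, Bdd u → ∃ L, Filter.Tendsto (fun i => avg (m i) u) U (nhds L) := by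
    rintro u ⟨C, hC⟩
    have hcpt : IsCompact (Set.Icc (-C) C) := isCompact_Icc
    obtain ⟨L, -, hL⟩ := hcpt.ultrafilter_le_nhds (U.map (fun i => avg (m i) u)) (by
      rw [Ultrafilter.coe_map, Filter.le_principal_iff, Filter.mem_map]
      refine Filter.univ_mem' fun i => ?_
      have := norm_avg_le (hm1 i) u C (fun c _ => hC c)
      exact abs_le.1 this)
    exact ⟨L, hL⟩
  refine ⟨fun u => Filter.limUnder (U : Filter (Finset {ψ : X → ℝ // BM ψ} × ℕ))
    (fun i => avg (m i) u), ⟨?_, ?_, ?_, ?_⟩, ?_, ?_, ?_⟩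
  · intro u v hu hv
    obtain ⟨L, hL⟩ := hconv u hu
    obtain ⟨L', hL'⟩ := hconv v hv
    have h : Filter.Tendsto (fun i => avg (m i) (fun b => u b + v b)) U (nhds (L + L')) := by
      refine (hL.add hL').congr fun i => ?_
      exact (avg_add (m i) u v).symm
    rw [h.limUnder_eq, hL.limUnder_eq, hL'.limUnder_eq]
  · intro r u hu
    obtain ⟨L, hL⟩ := hconv u hu
    have h : Filter.Tendsto (fun i => avg (m i) (fun b => r * u b)) U (nhds (r * L)) := by
      refine (hL.const_mul r).congr fun i => ?_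
      exact (avg_smul (m i) r u).symm
    rw [h.limUnder_eq, hL.limUnder_eq]
  · intro u v hu hv N huv
    obtain ⟨L, hL⟩ := hconv u hu
    obtain ⟨L', hL'⟩ := hconv v hv
    rw [hL.limUnder_eq, hL'.limUnder_eq]
    refine le_of_tendsto_of_tendsto hL hL' ?_
    filter_upwards [hsnd.eventually_ge_atTop N] with i hi
    exact avg_mono (isProb_mono (B_anti hi) (hm1 i)) u v huv
  · intro r
    have h : Filter.Tendsto (fun i => avg (m i) (fun _ => r)) U (nhds r) := by
      refine tendsto_const_nhds.congr fun i => ?_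
      exact (avg_const (hm1 i) r).symm
    exact h.limUnder_eq
  · intro φ ψ hφ hψ
    obtain ⟨C, hC⟩ := hφ.2
    have hfst : ∀ᶠ i in (U : Filter (Finset {ψ : X → ℝ // BM ψ} × ℕ)),
        (⟨ψ, hψ⟩ : {ψ : X → ℝ // BM ψ}) ∈ i.1 := by
      refine hU ?_
      filter_upwards [Filter.eventually_ge_atTop
        (({⟨ψ, hψ⟩}, 0) : Finset {ψ : X → ℝ // BM ψ} × ℕ)] with i hi
      exact hi.1 (Finset.mem_singleton_self _)
    have h0 : Filter.Tendsto (fun i => avg (m i) (fun b => ∫ x, φ x * ψ (τ b x) ∂μ) -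
        ∫ x, φ x * CE μ τ ψ x ∂μ) U (nhds 0) := by
      refine meanc_tendsto _ _ _ (C ^ 2) he fun t ht => ?_
      filter_upwards [hfst] with i hi
      exact meanc_corr hτ hφ hψ (hm1 i) C hC _ t ht (hm3 i _ hi)
    have h1 := h0.add_const (∫ x, φ x * CE μ τ ψ x ∂μ)
    simp only [sub_add_cancel, zero_add] at h1
    exact h1.limUnder_eq
  all_goals
    intro c
  · have h0 : Filter.Tendsto (fun i => avg (m i) (fun b => gam μ τ g (c + b))) U (nhds 0) := by
      refine meanc_tendsto _ _ _ (Qf μ τ g Set.univ (Finsupp.single (-c) 1)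
        (Finsupp.single (-c) 1)) he fun t ht => Filter.Eventually.of_forall fun i => ?_
      have h1 := meanc_gam hτ g hgB (m i) c 1
      have h2 := meanc_cs hτ g hgB (Finsupp.single (-c) 1) ((m i).mapDomain (fun c => 1 • c)) t ht
      have h3 := div_le_div_of_nonneg_right (hm2 i 1 (Or.inl rfl)) ht.le
      simp only [one_smul] at h1 h2 h3
      rw [abs_of_nonneg, h1]
      · linarith
      · have := avg_mono (hm1 i) (fun _ => (0 : ℝ)) (fun b => gam μ τ g (c + b))
          (fun b _ => meanc_gam_nonneg g _)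
        rwa [avg_const (hm1 i)] at this
    exact h0.limUnder_eq
  · have h0 : Filter.Tendsto (fun i => avg (m i) (fun b => gam μ τ g (c + (b + b)))) U
        (nhds 0) := by
      refine meanc_tendsto _ _ _ (Qf μ τ g Set.univ (Finsupp.single (-c) 1)
        (Finsupp.single (-c) 1)) he fun t ht => Filter.Eventually.of_forall fun i => ?_
      have h1 := meanc_gam hτ g hgB (m i) c 2
      have h2 := meanc_cs hτ g hgB (Finsupp.single (-c) 1) ((m i).mapDomain (fun c => 2 • c)) t ht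
      have h3 := div_le_div_of_nonneg_right (hm2 i 2 (Or.inr rfl)) ht.le
      simp only [two_smul] at h1 h2 h3
      rw [abs_of_nonneg, h1]
      · linarith
      · have := avg_mono (hm1 i) (fun _ => (0 : ℝ)) (fun b => gam μ τ g (c + (b + b)))
          (fun b _ => meanc_gam_nonneg g _)
        rwa [avg_const (hm1 i)] at this
    exact h0.limUnder_eq

end Pool.Agent.H76.CR
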