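import Pool.Agent.H76.CR.VdcB

set_option autoImplicit false
open MeasureTheory
open scoped symmDiff ENNReal
namespace Pool.Agent.H76.CR

variable {X : Type} [m0 : MeasurableSpace X] {μ : Measure X} [IsProbabilityMeasure μ]
  {τ : A → X → X}

theorem sel_J3_int (hτ : Act μ τ) {g0 g1 g2 : X → ℝ} (h0 : BM1 g0) (h1 : BM1 g1) (h2 : BM1 g2)
    (c : A) : Integrable (fun x => g0 x * g1 (τ c x) * g2 (τ (c + c) x)) μ := by
  have hm : Measurable fun x => g0 x * g1 (τ c x) * g2 (τ (c + c) x) :=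
    (h0.1.mul (h1.1.comp (hτ.mp c).measurable)).mul (h2.1.comp (hτ.mp (c + c)).measurable)
  refine Integrable.of_bound hm.aestronglyMeasurable 1 (Filter.Eventually.of_forall fun x => ?_)
  rw [Real.norm_eq_abs, abs_mul, abs_mul]
  exact mul_le_one₀ (mul_le_one₀ (h0.2 _) (abs_nonneg _) (h1.2 _)) (abs_nonneg _) (h2.2 _)

theorem sel_J3_bdd {g0 g1 g2 : X → ℝ} (h0 : BM1 g0) (h1 : BM1 g1)
    (h2 : BM1 g2) (c : A) : |J3 μ τ g0 g1 g2 c| ≤ 1 := by
  have h := norm_integral_le_of_norm_le_const (μ := μ) (C := 1)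
    (f := fun x => g0 x * g1 (τ c x) * g2 (τ (c + c) x)) (Filter.Eventually.of_forall fun x => by
      rw [Real.norm_eq_abs, abs_mul, abs_mul]
      exact mul_le_one₀ (mul_le_one₀ (h0.2 _) (abs_nonneg _) (h1.2 _)) (abs_nonneg _) (h2.2 _))
  simpa [J3] using h

theorem sel_itM_sum {M : (A → ℝ) → ℝ} (hM : IsMean M) (k : ℕ) (Z : Finset A) (T : A → A → ℝ)
    (C : ℝ) (hT : ∀ z b, |T z b| ≤ C) :
    itM M k (fun b => ∑ z ∈ Z, T z b) = ∑ z ∈ Z, itM M k (T z) := by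
  classical
  induction Z using Finset.induction_on with
  | empty =>
    simp only [Finset.sum_empty]
    exact itM_const hM k 0
  | insert a s ha ih =>
    have h1 : (fun b => ∑ z ∈ insert a s, T z b) = fun b => T a b + ∑ z ∈ s, T z b := by
      funext b
      rw [Finset.sum_insert ha]
    rw [h1, itM_add hM k (T a) (fun b => ∑ z ∈ s, T z b) ⟨C, hT a⟩
      ⟨∑ z ∈ s, C, fun b => (Finset.abs_sum_le_sum_abs _ _).trans
        (Finset.sum_le_sum fun z _ => hT z b)⟩, ih, Finset.sum_insert ha]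

/-- SEL: `J(1,1,1) - J(s,s,s) = J(u,1,1) + J(s,u,1) + J(s,s,u)`, `u = 1 - s`; average over
`k < K` of `itM M (k+1)`: the right side is at most `3 / sqrt K`; if `∑_{z∈Z} J(s,s,s)(z+b) > κ` for all
`b ∈ B N` the averages of the left side are at most `- κ` (`itM_mono`). `J(s,s,s) ≥ 0`. -/
theorem sel (hτ : Act μ τ) (f s : X → ℝ) (hf : Measurable f) (hs : Measurable s)
    (hf1 : ∀ x, 0 ≤ f x ∧ f x ≤ 1) (hs1 : ∀ x, 0 ≤ s x ∧ s x ≤ 1) (M : (A → ℝ) → ℝ)
    (hM : IsMean M)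
    (hm2 : ∀ φ ψ : X → ℝ, BM φ → BM ψ →
        M (fun b => ∫ x, φ x * ψ (τ b x) ∂μ) = ∫ x, φ x * CE μ τ ψ x ∂μ)
    (hm3 : ∀ c, M (fun b => gam μ τ (fun x => f x - s x) (c + b)) = 0)
    (hm4 : ∀ c, M (fun b => gam μ τ (fun x => f x - s x) (c + (b + b))) = 0)
    (Z : Finset A) (N : ℕ) (hJ : ∀ z ∈ Z, ∀ b ∈ B N, J3 μ τ f f f (z + b) = 0) (κ : ℝ)
    (hκ : 0 < κ) : ∃ b ∈ B N, ∀ z ∈ Z, J3 μ τ s s s (z + b) ≤ κ := by
  by_contra hcon
  push Not at hcon
  set u : X → ℝ := fun x => f x - s x with hu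
  have hfB : BM1 f := ⟨hf, fun x => abs_le.2 ⟨by linarith [(hf1 x).1], (hf1 x).2⟩⟩
  have hsB : BM1 s := ⟨hs, fun x => abs_le.2 ⟨by linarith [(hs1 x).1], (hs1 x).2⟩⟩
  have huB : BM1 u := ⟨hf.sub hs, fun x => abs_le.2
    ⟨by simp only [hu]; linarith [(hf1 x).1, (hs1 x).2],
      by simp only [hu]; linarith [(hf1 x).2, (hs1 x).1]⟩⟩
  -- the splitting
  have hsplit : ∀ c, J3 μ τ f f f c - J3 μ τ s s s c
      = J3 μ τ u f f c + J3 μ τ s u f c + J3 μ τ s s u c := by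
    intro c
    have i1 := sel_J3_int hτ hfB hfB hfB c
    have i2 := sel_J3_int hτ hsB hsB hsB c
    have i3 := sel_J3_int hτ huB hfB hfB c
    have i4 := sel_J3_int hτ hsB huB hfB c
    have i5 := sel_J3_int hτ hsB hsB huB c
    have i34 : Integrable (fun x => u x * f (τ c x) * f (τ (c + c) x)
        + s x * u (τ c x) * f (τ (c + c) x)) μ := i3.add i4
    simp only [J3]
    rw [← integral_sub i1 i2, ← integral_add i3 i4, ← integral_add i34 i5]
    refine integral_congr_ae (Filter.Eventually.of_forall fun x => ?_)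
    simp only [hu]
    ring
  -- nonnegativity
  have hJs : ∀ c, 0 ≤ J3 μ τ s s s c := fun c =>
    integral_nonneg fun x => mul_nonneg (mul_nonneg (hs1 _).1 (hs1 _).1) (hs1 _).1
  set T : A → A → ℝ := fun z b =>
    J3 μ τ u f f (z + b) + J3 μ τ s u f (z + b) + J3 μ τ s s u (z + b) with hT
  have b1 : ∀ z b, |J3 μ τ u f f (z + b)| ≤ 1 := fun z b => sel_J3_bdd huB hfB hfB _
  have b2 : ∀ z b, |J3 μ τ s u f (z + b)| ≤ 1 := fun z b => sel_J3_bdd hsB huB hfB _
  have b3 : ∀ z b, |J3 μ τ s s u (z + b)| ≤ 1 := fun z b => sel_J3_bdd hsB hsB huB _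
  have hTb : ∀ z b, |T z b| ≤ 3 := by
    intro z b
    have h1 := abs_le.1 (b1 z b)
    have h2 := abs_le.1 (b2 z b)
    have h3 := abs_le.1 (b3 z b)
    exact abs_le.2 ⟨by simp only [hT]; linarith, by simp only [hT]; linarith⟩
  set H : A → ℝ := fun b => ∑ z ∈ Z, T z b with hH
  have hHb : Bdd H := ⟨∑ z ∈ Z, 3, fun b => (Finset.abs_sum_le_sum_abs _ _).trans
    (Finset.sum_le_sum fun z _ => hTb z b)⟩
  -- upper bound on `B N`
  have hHle : ∀ b ∈ B N, H b ≤ -κ := by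
    intro b hb
    obtain ⟨z0, hz0, hz0'⟩ := hcon b hb
    have h1 : H b = ∑ z ∈ Z, (0 - J3 μ τ s s s (z + b)) := by
      refine Finset.sum_congr rfl fun z hz => ?_
      rw [← hJ z hz b hb, hsplit]
    have h2 : J3 μ τ s s s (z0 + b) ≤ ∑ z ∈ Z, J3 μ τ s s s (z + b) :=
      Finset.single_le_sum (f := fun z => J3 μ τ s s s (z + b)) (fun z _ => hJs _) hz0
    rw [h1]
    simp only [zero_sub, Finset.sum_neg_distrib]
    linarith
  have hup : ∀ k, itM M k H ≤ -κ := by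
    intro k
    have h := itM_mono hM k H (fun _ => -κ) hHb ⟨|κ|, fun _ => by rw [abs_neg]⟩ N hHle
    rwa [itM_const hM k (-κ)] at h
  -- the other bound
  have hlow : ∀ K : ℕ, |∑ k ∈ Finset.range K, itM M (k + 1) H| ≤ 3 * Z.card * Real.sqrt K := by
    intro K
    have e1 : ∑ k ∈ Finset.range K, itM M (k + 1) H
        = ∑ z ∈ Z, (∑ k ∈ Finset.range K, itM M (k + 1) (fun b => J3 μ τ u f f (z + b))
          + ∑ k ∈ Finset.range K, itM M (k + 1) (fun b => J3 μ τ s u f (z + b))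
          + ∑ k ∈ Finset.range K, itM M (k + 1) (fun b => J3 μ τ s s u (z + b))) := by
      have e2 : ∀ k, itM M (k + 1) H = ∑ z ∈ Z, (itM M (k + 1) (fun b => J3 μ τ u f f (z + b))
          + itM M (k + 1) (fun b => J3 μ τ s u f (z + b))
          + itM M (k + 1) (fun b => J3 μ τ s s u (z + b))) := by
        intro k
        rw [hH, sel_itM_sum hM (k + 1) Z T 3 hTb]
        refine Finset.sum_congr rfl fun z _ => ?_
        have h12 : Bdd fun b => J3 μ τ u f f (z + b) + J3 μ τ s u f (z + b) :=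
          ⟨2, fun b => (abs_add_le _ _).trans (by linarith [b1 z b, b2 z b])⟩
        rw [hT]
        rw [itM_add hM (k + 1) (fun b => J3 μ τ u f f (z + b) + J3 μ τ s u f (z + b))
          (fun b => J3 μ τ s s u (z + b)) h12 ⟨1, b3 z⟩,
          itM_add hM (k + 1) (fun b => J3 μ τ u f f (z + b)) (fun b => J3 μ τ s u f (z + b))
          ⟨1, b1 z⟩ ⟨1, b2 z⟩]
      rw [Finset.sum_congr rfl fun k _ => e2 k, Finset.sum_comm]
      refine Finset.sum_congr rfl fun z _ => ?_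
      rw [Finset.sum_add_distrib, Finset.sum_add_distrib]
    rw [e1]
    refine (Finset.abs_sum_le_sum_abs _ _).trans ?_
    have h3 : ∀ z ∈ Z, |∑ k ∈ Finset.range K, itM M (k + 1) (fun b => J3 μ τ u f f (z + b))
          + ∑ k ∈ Finset.range K, itM M (k + 1) (fun b => J3 μ τ s u f (z + b))
          + ∑ k ∈ Finset.range K, itM M (k + 1) (fun b => J3 μ τ s s u (z + b))|
        ≤ 3 * Real.sqrt K := by
      intro z _
      have v0 := abs_le.1 (vdc0 hτ M hM hm2 u f f huB hfB hfB hm4 z K)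
      have v1 := abs_le.1 (vdc1 hτ M hM hm2 s u f hsB huB hfB hm3 z K)
      have v2 := abs_le.1 (vdc2 hτ M hM hm2 s s u hsB hsB huB hm4 z K)
      exact abs_le.2 ⟨by linarith, by linarith⟩
    refine (Finset.sum_le_sum h3).trans (le_of_eq ?_)
    rw [Finset.sum_const, nsmul_eq_mul]
    ring
  -- contradiction for large `K`
  obtain ⟨n, hn⟩ := exists_nat_gt (3 * (Z.card : ℝ) / κ)
  have hn1 : (0 : ℝ) ≤ 3 * (Z.card : ℝ) / κ := by positivity
  have hn0 : (0 : ℝ) < n := lt_of_le_of_lt hn1 hn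
  have h4 := hlow (n ^ 2)
  have h5 : Real.sqrt ((n ^ 2 : ℕ) : ℝ) = n := by
    rw [Nat.cast_pow, Real.sqrt_sq (le_of_lt hn0)]
  rw [h5] at h4
  have h6 : ∑ k ∈ Finset.range (n ^ 2), itM M (k + 1) H ≤ -(κ * (n : ℝ) ^ 2) := by
    refine (Finset.sum_le_sum fun k _ => hup (k + 1)).trans (le_of_eq ?_)
    rw [Finset.sum_const, nsmul_eq_mul, Finset.card_range]
    push_cast
    ring
  have h7 : κ * (n : ℝ) ^ 2 ≤ 3 * Z.card * n := by
    have := (abs_le.1 h4).1
    linarith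
  have h8 : 3 * (Z.card : ℝ) < n * κ := (div_lt_iff₀ hκ).1 hn
  nlinarith

end Pool.Agent.H76.CR
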