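import Pool.Agent.H76.CR.TC

set_option autoImplicit false
namespace Pool.Agent.H76.CR

/-- TC2: finite version by compactness: otherwise choose a bad colouring `χ V` for every finite set `V`
of admissible words, and take the ultrafilter limit along `atTop` on `Finset (List Lt)`. -/
theorem tc (κ : Type) [Finite κ] :
    ∃ V : Finset (List Lt),
      (∀ v ∈ V, (∃ v' w : List Lt, v = v' ++ Lt.D :: w ∧ ∀ l ∈ w, cst l) ∧ (v.map wt).sum = 3) ∧
      ∀ χ : List Lt → κ, ∃ v ∈ V, χ (v.map (th 0)) = χ (v.map (th 1)) ∧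
        χ (v.map (th 0)) = χ (v.map (th 2)) := by
  classical
  by_contra hcon
  push Not at hcon
  set adm : List Lt → Prop := fun v =>
    (∃ v' w : List Lt, v = v' ++ Lt.D :: w ∧ ∀ l ∈ w, cst l) ∧ (v.map wt).sum = 3 with hadm
  have hbad : ∀ V : Finset (List Lt), ∃ χ : List Lt → κ, ∀ v ∈ V, adm v →
      (χ (v.map (th 0)) = χ (v.map (th 1)) → χ (v.map (th 0)) ≠ χ (v.map (th 2))) := by
    intro V
    obtain ⟨χ, hχ⟩ := hcon (V.filter adm) (fun v hv => (Finset.mem_filter.mp hv).2)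
    exact ⟨χ, fun v hv ha => hχ v (Finset.mem_filter.mpr ⟨hv, ha⟩)⟩
  choose X hX using hbad
  let U : Ultrafilter (Finset (List Lt)) := Ultrafilter.of Filter.atTop
  have hU : (U : Filter (Finset (List Lt))) ≤ Filter.atTop := Ultrafilter.of_le _
  have hlim : ∀ w : List Lt, ∃ k : κ, ∀ᶠ V in (U : Filter (Finset (List Lt))), X V w = k := by
    intro w
    obtain ⟨k, hk⟩ := Ultrafilter.eq_pure_of_finite (U.map (fun V => X V w))
    refine ⟨k, ?_⟩
    have h1 : ({k} : Set κ) ∈ U.map (fun V => X V w) := by rw [hk]; exact Set.mem_singleton k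
    exact h1
  choose χ hχ using hlim
  obtain ⟨v', w, hw, h3, h01, h02⟩ := tc1 χ
  set v := v' ++ Lt.D :: w with hv
  have hmem : ∀ᶠ V in (U : Filter (Finset (List Lt))), v ∈ V :=
    hU (Filter.mem_atTop_sets.mpr ⟨{v}, fun V hV => hV (Finset.mem_singleton_self v)⟩)
  obtain ⟨V, ⟨⟨hV, e0⟩, e1⟩, e2⟩ := (((hmem.and (hχ (v.map (th 0)))).and
    (hχ (v.map (th 1)))).and (hχ (v.map (th 2)))).exists
  refine hX V v hV ⟨⟨v', w, hv, hw⟩, h3⟩ ?_ ?_
  · rw [e0, e1, h01]
  · rw [e0, e2, h02]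

end Pool.Agent.H76.CR
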