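import Pool.Agent.H76.CR.Dec
import Pool.Agent.H76.CR.MeanE
import Pool.Agent.H76.CR.Sel
import Pool.Agent.H76.CR.Blem
import Pool.Agent.H76.CR.TCF
import Pool.Agent.H76.CR.Blk

set_option autoImplicit false
open MeasureTheory
open scoped symmDiff ENNReal
namespace Pool.Agent.H76.CR

variable {X : Type} [m0 : MeasurableSpace X] {μ : Measure X} [IsProbabilityMeasure μ]
  {τ : A → X → X}

theorem j3_pos (hτ : Act μ τ) (A0 : Set X) (hA : MeasurableSet A0) (hpos : 0 < μ A0) :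
    ∃ c ∈ D, ¬ 9 ∣ om c ∧
      J3 μ τ (A0.indicator (fun _ => (1 : ℝ))) (A0.indicator (fun _ => (1 : ℝ)))
        (A0.indicator (fun _ => (1 : ℝ))) c ≠ 0 := by
  by_contra hcon
  push Not at hcon
  set f : X → ℝ := A0.indicator (fun _ => (1 : ℝ)) with hf
  have hfm : Measurable f := measurable_const.indicator hA
  have hf01 : ∀ x, 0 ≤ f x ∧ f x ≤ 1 := by
    intro x
    by_cases hx : x ∈ A0 <;> simp [hf, hx]
  obtain ⟨s, hsm, hs01, hsAP, hsint, horth⟩ := dec hτ A0 hA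
  have hu : BM1 (fun x => f x - s x) := by
    refine ⟨hfm.sub hsm, fun x => ?_⟩
    have h1 := hf01 x
    have h2 := hs01 x
    rw [abs_le]
    constructor <;> linarith [h1.1, h1.2, h2.1, h2.2]
  obtain ⟨M, hM, hm2, hm3, hm4⟩ := mean_exists hτ (fun x => f x - s x) hu horth
  have hδ : 0 < ∫ x, s x ∂μ := by
    rw [hsint]
    exact ENNReal.toReal_pos hpos.ne' (measure_ne_top _ _)
  obtain ⟨c0, hc0, ι, hι, hB⟩ := blem hτ s hsm hs01 hsAP hδ
  have := hι
  obtain ⟨V, hV, hVc⟩ := tc ι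
  -- length bound
  obtain ⟨d, hd⟩ : ∃ d : ℕ, ∀ v ∈ V, v.length ≤ d := ⟨V.sup List.length, fun v hv =>
    Finset.le_sup (f := List.length) hv⟩
  obtain ⟨N0, hN0⟩ := hB (List Lt) (List Lt) V (fun t v => v.map (th t)) (fun χ => by
    obtain ⟨v, hv, h1, h2⟩ := hVc χ
    exact ⟨v, hv, h1, h2⟩) (30 * d + 30)
  set N := max N0 2 with hN
  obtain ⟨cs, hlen, hY, hJ⟩ := blocks (fun c => J3 μ τ s s s c) (by
    intro Z K κ hκ hZ
    exact sel hτ f s hfm hsm hf01 hs01 M hM hm2 hm3 hm4 Z K (fun z hz b hb =>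
      hcon _ (hZ z hz b hb).1 (hZ z hz b hb).2) κ hκ) N (le_max_right _ _) d
    (c0 / (2 * (V.card + 1))) (by positivity)
  have hfin := hN0 (fun w => ysum w cs + corr w • uu N) (fun v => esum v cs)
    (by
      intro v hv t
      refine Y_anti (le_max_left N0 2) _ (hY _ ?_)
      rw [List.length_map]
      exact hd v hv)
    (by
      intro v hv
      exact ysum_line v cs (by rw [hlen]; exact hd v hv) (hV v hv).2 N)
  have hle : ∑ v ∈ V, J3 μ τ s s s (esum v cs) ≤ V.card • (c0 / (2 * ((V.card : ℝ) + 1))) := by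
    apply Finset.sum_le_card_nsmul
    intro v hv
    obtain ⟨⟨v', w, hvw, hcst⟩, hw⟩ := hV v hv
    subst hvw
    exact hJ v' w (hd _ hv) hcst hw
  have hlt : V.card • (c0 / (2 * ((V.card : ℝ) + 1))) < c0 := by
    rw [nsmul_eq_mul]
    have h2 : (0 : ℝ) < 2 * ((V.card : ℝ) + 1) := by positivity
    rw [mul_div_assoc', div_lt_iff₀ h2]
    nlinarith [hc0, (Nat.cast_nonneg V.card : (0:ℝ) ≤ V.card)]
  exact absurd (hfin.trans hle) (not_le.mpr hlt)

/-- ONE: the theorem for actions of `A` -/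
theorem one (hτ : Act μ τ) (A0 : Set X) (hA : MeasurableSet A0) (hpos : 0 < μ A0) :
    ∃ c ∈ D, ¬ 9 ∣ om c ∧ 0 < μ (A0 ∩ (τ c ⁻¹' A0) ∩ (τ (c + c) ⁻¹' A0)) := by
  obtain ⟨c, hc, h9, hne⟩ := j3_pos hτ A0 hA hpos
  refine ⟨c, hc, h9, ?_⟩
  rw [pos_iff_ne_zero]
  intro h0
  apply hne
  unfold J3
  apply integral_eq_zero_of_ae
  rw [Filter.EventuallyEq, ae_iff]
  refine measure_mono_null ?_ h0
  intro x hx
  simp only [Set.mem_ofPred_eq, Pi.zero_apply, mul_eq_zero, not_or, Set.indicator_apply_eq_zero,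
    one_ne_zero, imp_false, not_not] at hx
  exact ⟨⟨hx.1.1, hx.1.2⟩, hx.2⟩

end Pool.Agent.H76.CR
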