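import Pool.Agent.H76.CR.One

set_option autoImplicit false
open MeasureTheory
open scoped symmDiff ENNReal
namespace Pool.Agent.H76.CR

/-- RED. `sg` is additive; `sg c ≠ 0` for `0 ≠ c ∈ D` (the top digit dominates:
`∑_{j<i} 16^j sq j < sq i`). For the action `τ c = T^(-sg c)` (`Act`: powers of `T` are measure
preserving), `τ c ⁻¹' A0 = T^(sg c) '' A0`, and `one`. -/
theorem sg_add (c c' : A) : sg (c + c') = sg c + sg c' := by
  unfold sg
  apply Finsupp.sum_add_index'
  · intro i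
    simp
  · intro i a b
    ring

theorem red_sq_pos (i : ℕ) : 0 < sq i := by
  unfold sq
  positivity

theorem red_sum_lt (i : ℕ) : ∑ j ∈ Finset.range i, (16 : ℤ) ^ j * sq j < sq i := by
  induction i with
  | zero => simpa using red_sq_pos 0
  | succ i ih =>
    rw [Finset.sum_range_succ]
    have h1 : sq (i + 1) = sq i * 300 ^ (2 * i + 3) := by
      unfold sq
      rw [← pow_add]
      congr 1
      ring
    have h2 : (1 : ℤ) + 16 ^ i ≤ 300 ^ (2 * i + 3) := by
      have h3 : (16 : ℤ) ^ i ≤ 300 ^ (2 * i + 2) := by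
        calc (16 : ℤ) ^ i ≤ 300 ^ i := by gcongr; norm_num
          _ ≤ 300 ^ (2 * i + 2) := by
            apply pow_le_pow_right₀ (by norm_num)
            omega
      have h4 : (1 : ℤ) ≤ 300 ^ (2 * i + 2) := one_le_pow₀ (by norm_num)
      have h5 : (300 : ℤ) ^ (2 * i + 3) = 300 * 300 ^ (2 * i + 2) := by ring
      rw [h5]
      linarith
    have h6 := red_sq_pos i
    calc (∑ j ∈ Finset.range i, (16 : ℤ) ^ j * sq j) + 16 ^ i * sq i
        < sq i + 16 ^ i * sq i := by linarith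
      _ = sq i * (1 + 16 ^ i) := by ring
      _ ≤ sq i * 300 ^ (2 * i + 3) := by
          apply mul_le_mul_of_nonneg_left h2 h6.le
      _ = sq (i + 1) := h1.symm

theorem sg_ne_zero (c : A) (hc : c ∈ D) (h0 : c ≠ 0) : sg c ≠ 0 := by
  intro hsg
  have hne : c.support.Nonempty := Finsupp.support_nonempty_iff.mpr h0
  set i := c.support.max' hne with hi
  have hi0 : c i ≠ 0 := Finsupp.mem_support_iff.mp (Finset.max'_mem _ hne)
  have hsub : c.support ⊆ Finset.range (i + 1) := by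
    intro j hj
    rw [Finset.mem_range, Nat.lt_succ_iff]
    exact Finset.le_max' _ _ hj
  have h1 : sg c = ∑ j ∈ Finset.range (i + 1), c j * sq j := by
    unfold sg
    rw [Finsupp.sum_of_support_subset c hsub]
    intro j _
    simp
  rw [h1, Finset.sum_range_succ] at hsg
  have h2 : |∑ j ∈ Finset.range i, c j * sq j| ≤ ∑ j ∈ Finset.range i, (16 : ℤ) ^ j * sq j := by
    refine (Finset.abs_sum_le_sum_abs _ _).trans (Finset.sum_le_sum fun j _ => ?_)
    rw [abs_mul, abs_of_pos (red_sq_pos j)]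
    exact mul_le_mul_of_nonneg_right (hc j).2 (red_sq_pos j).le
  have h3 : |c i * sq i| < sq i := by
    have h4 : c i * sq i = -∑ j ∈ Finset.range i, c j * sq j := by linarith
    rw [h4, abs_neg]
    exact h2.trans_lt (red_sum_lt i)
  rw [abs_mul, abs_of_pos (red_sq_pos i)] at h3
  have h5 : 1 ≤ |c i| := Int.one_le_abs hi0
  nlinarith [red_sq_pos i]

theorem red_mp {X : Type} [MeasurableSpace X] {μ : Measure X}
    (T : X ≃ᵐ X) (hT : MeasurePreserving T μ μ) (n : ℤ) :
    MeasurePreserving (⇑((T.toEquiv : Equiv.Perm X) ^ n)) μ μ := by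
  have hnat : ∀ (S : X ≃ᵐ X), MeasurePreserving S μ μ → ∀ k : ℕ,
      MeasurePreserving (⇑((S.toEquiv : Equiv.Perm X) ^ k)) μ μ := by
    intro S hS k
    have h := hS.iterate k
    have h2 : ⇑((S.toEquiv : Equiv.Perm X) ^ k) = (⇑S)^[k] := by
      rw [Equiv.Perm.coe_pow]
      rfl
    rw [h2]
    exact h
  obtain ⟨k, rfl | rfl⟩ := n.eq_nat_or_neg
  · rw [zpow_natCast]
    exact hnat T hT k
  · rw [zpow_neg, zpow_natCast, ← inv_pow]
    have h3 : (T.toEquiv : Equiv.Perm X)⁻¹ = T.symm.toEquiv := rfl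
    rw [h3]
    exact hnat T.symm (hT.symm T) k

theorem red_act {X : Type} [MeasurableSpace X] {μ : Measure X}
    (T : X ≃ᵐ X) (hT : MeasurePreserving T μ μ) :
    Act μ (fun c => ⇑((T.toEquiv : Equiv.Perm X) ^ (-sg c))) where
  mp := fun c => red_mp T hT _
  zero := by
    intro x
    have : sg 0 = 0 := by simp [sg]
    simp [this]
  add := by
    intro a b x
    rw [sg_add, neg_add, zpow_add, Equiv.Perm.mul_apply]

theorem red_pre {X : Type} (T : Equiv.Perm X) (n : ℤ) (A0 : Set X) :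
    ⇑(T ^ (-n)) ⁻¹' A0 = ⇑(T ^ n) '' A0 := by
  rw [zpow_neg]
  exact (Equiv.image_eq_preimage_symm (T ^ n) A0).symm

theorem S_rec (X : Type) [MeasurableSpace X] (μ : Measure X) [IsProbabilityMeasure μ]
    (T : X ≃ᵐ X) (hT : MeasurePreserving T μ μ) (A0 : Set X) (hA : MeasurableSet A0)
    (hpos : 0 < μ A0) :
    ∃ n ∈ S, n ≠ 0 ∧
      0 < μ (A0 ∩ ⇑((T.toEquiv : Equiv.Perm X) ^ n) '' A0
              ∩ ⇑((T.toEquiv : Equiv.Perm X) ^ (2 * n)) '' A0) := by
  obtain ⟨c, hc, h9, hlt⟩ := one (red_act T hT) A0 hA hpos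
  refine ⟨sg c, ⟨c, hc, h9, rfl⟩, ?_, ?_⟩
  · apply sg_ne_zero c hc
    rintro rfl
    apply h9
    simp [om]
  · rw [sg_add] at hlt
    rw [← red_pre, ← red_pre, two_mul]
    exact hlt

end Pool.Agent.H76.CR
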