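import Pool.Agent.H76.CR.Far

set_option autoImplicit false
open MeasureTheory
open scoped symmDiff ENNReal
namespace Pool.Agent.H76.CR

variable {X : Type} [m0 : MeasurableSpace X] {μ : Measure X} [IsProbabilityMeasure μ]
  {τ : A → X → X}

theorem RIG_tri (P Q R : Set X) : μ (P ∆ R) ≤ μ (P ∆ Q) + μ (Q ∆ R) :=
  measure_symmDiff_le P Q R

theorem RIG_comp (hτ : Act μ τ) (a b : A) (P : Set X) :
    τ (a + b) ⁻¹' P = τ b ⁻¹' (τ a ⁻¹' P) := by
  ext x
  simp only [Set.mem_preimage, hτ.add a b x]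

theorem RIG_comm (hτ : Act μ τ) (a b : A) (P : Set X) :
    τ a ⁻¹' (τ b ⁻¹' P) = τ b ⁻¹' (τ a ⁻¹' P) := by
  rw [← RIG_comp hτ, ← RIG_comp hτ, add_comm]

theorem RIG_empty : RigSet μ τ (∅ : Set X) :=
  ⟨MeasurableSet.empty, fun κ _ => ⟨0, fun c _ => by simp⟩⟩

theorem RIG_compl {P : Set X} (hP : RigSet μ τ P) : RigSet μ τ Pᶜ := by
  refine ⟨hP.1.compl, fun κ hκ => ?_⟩
  obtain ⟨N, hN⟩ := hP.2 κ hκ
  refine ⟨N, fun c hc => ?_⟩
  rw [Set.preimage_compl, compl_symmDiff_compl]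
  exact hN c hc

theorem RIG_union {P Q : Set X} (hP : RigSet μ τ P) (hQ : RigSet μ τ Q) :
    RigSet μ τ (P ∪ Q) := by
  refine ⟨hP.1.union hQ.1, fun κ hκ => ?_⟩
  have h2 : κ / 2 ≠ 0 := by
    rw [Ne, ENNReal.div_eq_zero_iff]
    push Not
    exact ⟨hκ, by simp⟩
  obtain ⟨N, hN⟩ := hP.2 (κ / 2) h2
  obtain ⟨M, hM⟩ := hQ.2 (κ / 2) h2
  refine ⟨max N M, fun c hc => ?_⟩
  have e1 := hN c (B_anti (le_max_left N M) hc)
  have e2 := hM c (B_anti (le_max_right N M) hc)
  calc μ ((τ c ⁻¹' (P ∪ Q)) ∆ (P ∪ Q)) ≤ μ (((τ c ⁻¹' P) ∆ P) ∪ ((τ c ⁻¹' Q) ∆ Q)) := by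
        apply measure_mono
        intro x hx
        simp only [Set.mem_symmDiff, Set.mem_union, Set.mem_preimage] at hx ⊢
        tauto
    _ ≤ μ ((τ c ⁻¹' P) ∆ P) + μ ((τ c ⁻¹' Q) ∆ Q) := measure_union_le _ _
    _ ≤ κ / 2 + κ / 2 := add_le_add e1 e2
    _ = κ := ENNReal.add_halves κ

theorem RIG_iUnion (hτ : Act μ τ) (f : ℕ → Set X) (hf : ∀ i, RigSet μ τ (f i)) :
    RigSet μ τ (⋃ i, f i) := by
  have hac : ∀ n, RigSet μ τ (Set.accumulate f n) := by
    intro n
    induction n with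
    | zero =>
      have : Set.accumulate f 0 = f 0 := by
        ext x; simp [Set.mem_accumulate]
      rw [this]; exact hf 0
    | succ n ih =>
      have : Set.accumulate f (n + 1) = Set.accumulate f n ∪ f (n + 1) := by
        ext x
        simp only [Set.mem_accumulate, Set.mem_union]
        constructor
        · rintro ⟨i, hi, hx⟩
          rcases Nat.lt_or_ge i (n + 1) with h | h
          · exact Or.inl ⟨i, by omega, hx⟩
          · have : i = n + 1 := by omega
            subst this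
            exact Or.inr hx
        · rintro (⟨i, hi, hx⟩ | hx)
          · exact ⟨i, by omega, hx⟩
          · exact ⟨n + 1, le_rfl, hx⟩
      rw [this]
      exact RIG_union ih (hf _)
  refine ⟨MeasurableSet.iUnion fun i => (hf i).1, fun κ hκ => ?_⟩
  have h3 : κ / 3 ≠ 0 := by
    rw [Ne, ENNReal.div_eq_zero_iff]
    push Not
    exact ⟨hκ, by simp⟩
  -- the tail is small
  have hlim : Filter.Tendsto (fun n => μ ((⋃ i, f i) \ Set.accumulate f n)) Filter.atTop
      (nhds 0) := by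
    have hanti : Antitone (fun n => (⋃ i, f i) \ Set.accumulate f n) := fun a b hab =>
      Set.sdiff_subset_sdiff_right (Set.monotone_accumulate hab)
    have := tendsto_measure_iInter_atTop (μ := μ)
      (s := fun n => (⋃ i, f i) \ Set.accumulate f n)
      (fun n => ((MeasurableSet.iUnion fun i => (hf i).1).diff (hac n).1).nullMeasurableSet)
      hanti ⟨0, measure_ne_top _ _⟩
    have he : ⋂ n, ((⋃ i, f i) \ Set.accumulate f n) = ∅ := by
      rw [← Set.sdiff_iUnion, Set.iUnion_accumulate, Set.sdiff_self]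
    rw [he, measure_empty] at this
    exact this
  obtain ⟨n, hn⟩ := (hlim.eventually (gt_mem_nhds (pos_iff_ne_zero.2 h3))).exists
  obtain ⟨N, hN⟩ := (hac n).2 (κ / 3) h3
  refine ⟨N, fun c hc => ?_⟩
  have e1 := hN c hc
  have hsub : Set.accumulate f n ⊆ ⋃ i, f i := Set.accumulate_subset_iUnion n
  have hms : MeasurableSet ((⋃ i, f i) \ Set.accumulate f n) :=
    (MeasurableSet.iUnion fun i => (hf i).1).diff (hac n).1
  have e2 : μ (τ c ⁻¹' ((⋃ i, f i) \ Set.accumulate f n)) =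
      μ ((⋃ i, f i) \ Set.accumulate f n) := (hτ.mp c).measure_preimage hms.nullMeasurableSet
  calc μ ((τ c ⁻¹' (⋃ i, f i)) ∆ (⋃ i, f i))
      ≤ μ ((τ c ⁻¹' ((⋃ i, f i) \ Set.accumulate f n)) ∪
          ((τ c ⁻¹' Set.accumulate f n) ∆ Set.accumulate f n) ∪
          ((⋃ i, f i) \ Set.accumulate f n)) := by
        apply measure_mono
        intro x hx
        have hs1 : x ∈ Set.accumulate f n → x ∈ ⋃ i, f i := fun h => hsub h
        have hs2 : τ c x ∈ Set.accumulate f n → τ c x ∈ ⋃ i, f i := fun h => hsub h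
        simp only [Set.mem_symmDiff, Set.mem_union, Set.mem_preimage, Set.mem_sdiff] at hx ⊢
        tauto
    _ ≤ μ ((τ c ⁻¹' ((⋃ i, f i) \ Set.accumulate f n)) ∪
          ((τ c ⁻¹' Set.accumulate f n) ∆ Set.accumulate f n)) +
          μ ((⋃ i, f i) \ Set.accumulate f n) := measure_union_le _ _
    _ ≤ μ (τ c ⁻¹' ((⋃ i, f i) \ Set.accumulate f n)) +
          μ ((τ c ⁻¹' Set.accumulate f n) ∆ Set.accumulate f n) +
          μ ((⋃ i, f i) \ Set.accumulate f n) := by
        gcongr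
        exact measure_union_le _ _
    _ ≤ κ / 3 + κ / 3 + κ / 3 := by
        rw [e2]
        gcongr
    _ = κ := ENNReal.add_thirds κ

/-- RIG: the rigid sets form a sigma-algebra (complements: symmetric difference; finite unions;
countable unions: `P \ (finite union)` has small measure, `τ` preserves `μ`). -/
theorem rig_iff (hτ : Act μ τ) (P : Set X) : MeasurableSet[Rig μ τ] P ↔ RigSet μ τ P := by
  constructor
  · intro h
    have hle : Rig μ τ ≤
      { MeasurableSet' := RigSet μ τ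
        measurableSet_empty := RIG_empty
        measurableSet_compl := fun s hs => RIG_compl hs
        measurableSet_iUnion := fun f hf => RIG_iUnion hτ f hf } :=
      MeasurableSpace.generateFrom_le fun t ht => ht
    exact hle P h
  · intro h
    exact MeasurableSpace.measurableSet_generateFrom h

theorem rig_le (hτ : Act μ τ) : Rig μ τ ≤ m0 := fun P hP => ((rig_iff hτ P).1 hP).1

/-- invariance (the action is commutative) -/
theorem rig_pre (hτ : Act μ τ) (a : A) {P : Set X} (hP : MeasurableSet[Rig μ τ] P) :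
    MeasurableSet[Rig μ τ] (τ a ⁻¹' P) := by
  rw [rig_iff hτ] at hP ⊢
  refine ⟨(hτ.mp a).measurable hP.1, fun κ hκ => ?_⟩
  obtain ⟨N, hN⟩ := hP.2 κ hκ
  refine ⟨N, fun c hc => ?_⟩
  rw [RIG_comm hτ c a, ← Set.preimage_symmDiff,
    (hτ.mp a).measure_preimage (((hτ.mp c).measurable hP.1).symmDiff hP.1).nullMeasurableSet]
  exact hN c hc

theorem rig_meas (hτ : Act μ τ) (a : A) : Measurable[Rig μ τ, Rig μ τ] (τ a) :=
  fun _ hP => rig_pre hτ a hP

/-- triangle inequality, induction on `k` -/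
theorem rig_Y (hτ : Act μ τ) {P : Set X} (hP : MeasurableSet[Rig μ τ] P) (k : ℕ) (κ : ℝ≥0∞)
    (hκ : κ ≠ 0) : ∃ N, ∀ y ∈ Y N k, μ ((τ y ⁻¹' P) ∆ P) ≤ κ := by
  rw [rig_iff hτ] at hP
  have hid : ∀ Q : Set X, τ 0 ⁻¹' Q = Q := fun Q => by
    ext x; simp only [Set.mem_preimage, hτ.zero x]
  induction k generalizing κ with
  | zero =>
    refine ⟨0, fun y hy => ?_⟩
    have hy' : y = 0 := hy
    rw [hy', hid, symmDiff_self]
    simp
  | succ k ih =>
    have h2 : κ / 2 ≠ 0 := by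
      rw [Ne, ENNReal.div_eq_zero_iff]
      push Not
      exact ⟨hκ, by simp⟩
    obtain ⟨N, hN⟩ := ih (κ / 2) h2
    obtain ⟨M, hM⟩ := hP.2 (κ / 2) h2
    refine ⟨max N M, fun y hy => ?_⟩
    obtain ⟨y', hy', c, hc, hyc⟩ := hy
    have e1 := hN y' (Y_anti (le_max_left N M) k hy')
    have e2 := hM c (B_anti (le_max_right N M) hc)
    have hPm : ∀ a : A, MeasurableSet (τ a ⁻¹' P) := fun a => (hτ.mp a).measurable hP.1
    have key : ∀ z : A, μ ((τ z ⁻¹' P) ∆ P) ≤ κ / 2 → μ ((τ (y' + z) ⁻¹' P) ∆ P) ≤ κ := by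
      intro z hz
      calc μ ((τ (y' + z) ⁻¹' P) ∆ P)
          ≤ μ ((τ (y' + z) ⁻¹' P) ∆ (τ z ⁻¹' P)) + μ ((τ z ⁻¹' P) ∆ P) := RIG_tri _ _ _
        _ = μ ((τ y' ⁻¹' P) ∆ P) + μ ((τ z ⁻¹' P) ∆ P) := by
            rw [RIG_comp hτ, ← Set.preimage_symmDiff,
              (hτ.mp z).measure_preimage ((hPm y').symmDiff hP.1).nullMeasurableSet]
        _ ≤ κ / 2 + κ / 2 := add_le_add e1 hz
        _ = κ := ENNReal.add_halves κ
    rcases hyc with rfl | rfl
    · exact key c e2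
    · rw [sub_eq_add_neg]
      apply key
      have : μ ((τ (-c) ⁻¹' P) ∆ P) = μ ((τ c ⁻¹' P) ∆ P) := by
        rw [← (hτ.mp c).measure_preimage ((hPm (-c)).symmDiff hP.1).nullMeasurableSet,
          Set.preimage_symmDiff, ← RIG_comp hτ, neg_add_cancel, hid, symmDiff_comm]
      rw [this]
      exact e2

end Pool.Agent.H76.CR
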