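import Pool.Agent.H76.CR.Far

set_option autoImplicit false
namespace Pool.Agent.H76.CR

theorem SL_avg_add_meas {V : Type*} [AddCommGroup V] [Module ℝ V] (m m' : A →₀ ℝ) (F : A → V) :
    avg (m + m') F = avg m F + avg m' F := by
  unfold avg
  rw [Finsupp.sum_add_index']
  · intro c; simp
  · intro c a b; rw [add_smul]

theorem SL_avg_smul_meas {V : Type*} [AddCommGroup V] [Module ℝ V] (r : ℝ) (m : A →₀ ℝ)
    (F : A → V) : avg (r • m) F = r • avg m F := by
  unfold avg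
  rw [Finsupp.sum_smul_index (fun c => by simp), Finsupp.smul_sum]
  simp only [mul_smul]

theorem SL_prob_single {S : Set A} {a : A} (ha : a ∈ S) : IsProb S (Finsupp.single a 1) := by
  refine ⟨fun c => ?_, by simp, fun c hc => ?_⟩
  · rw [Finsupp.single_apply]
    split_ifs <;> norm_num
  · have := Finsupp.support_single_subset hc
    rw [Finset.mem_singleton] at this
    rw [this]
    exact ha

theorem SL_prob_mid {S : Set A} {m m' : A →₀ ℝ} (hm : IsProb S m) (hm' : IsProb S m') :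
    IsProb S ((1 / 2 : ℝ) • (m + m')) := by
  refine ⟨fun c => ?_, ?_, fun c hc => ?_⟩
  · rw [Finsupp.smul_apply, Finsupp.add_apply, smul_eq_mul]
    have h1 := hm.1 c
    have h2 := hm'.1 c
    positivity
  · have h1 := SL_avg_smul_meas (1 / 2 : ℝ) (m + m') (fun _ => (1 : ℝ))
    have h2 := SL_avg_add_meas m m' (fun _ => (1 : ℝ))
    unfold avg at h1 h2
    simp only [smul_eq_mul, mul_one] at h1 h2
    rw [h1, h2, hm.2.1, hm'.2.1]
    norm_num
  · have h1 := Finsupp.support_smul hc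
    have h2 := Finsupp.support_add h1
    rw [Finset.mem_union] at h2
    rcases h2 with h | h
    · exact hm.2.2 c h
    · exact hm'.2.2 c h

theorem SL_prob_map {S S' : Set A} {m : A →₀ ℝ} (hm : IsProb S m) (f : A → A)
    (hf : ∀ c ∈ S, f c ∈ S') : IsProb S' (m.mapDomain f) := by
  refine ⟨fun c => ?_, ?_, fun c hc => ?_⟩
  · rw [Finsupp.mapDomain, Finsupp.sum_apply]
    refine Finset.sum_nonneg fun a _ => ?_
    beta_reduce
    rw [Finsupp.single_apply]
    split_ifs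
    · exact hm.1 a
    · exact le_rfl
  · rw [Finsupp.sum_mapDomain_index (fun _ => rfl) (fun _ _ _ => rfl)]
    exact hm.2.1
  · have h1 := Finsupp.mapDomain_support hc
    rw [Finset.mem_image] at h1
    obtain ⟨a, ha, rfl⟩ := h1
    exact hf a (hm.2.2 a ha)

theorem SL_prob_mono {S S' : Set A} (h : S ⊆ S') {m : A →₀ ℝ} (hm : IsProb S m) : IsProb S' m :=
  ⟨hm.1, hm.2.1, fun c hc => h (hm.2.2 c hc)⟩

theorem SL_map_avg {V : Type*} [SeminormedAddCommGroup V] [InnerProductSpace ℝ V]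
    (ρ : A → V →ₗᵢ[ℝ] V) (hadd : ∀ a b x, ρ (a + b) x = ρ a (ρ b x)) (ξ : V) (y : A)
    (m : A →₀ ℝ) : ρ y (avg m (fun c => ρ c ξ)) =
      avg (m.mapDomain (fun c => y + c)) (fun c => ρ c ξ) := by
  unfold avg
  rw [Finsupp.sum_mapDomain_index (by intro c; simp) (by intro c a b; rw [add_smul]), Finsupp.sum,
    Finsupp.sum, map_sum]
  refine Finset.sum_congr rfl fun c _ => ?_
  beta_reduce
  rw [map_smul, hadd]

/-- averages over `B N` (isometric action): near-minimisers of the norm of the averages are Cauchy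
and asymptotically invariant (parallelogram law).
Proof: `d N = inf ‖avg m (ρ · ξ)‖` over `IsProb (B N) m`, increasing and bounded, limit `d`; choose
`m n` on `B n` with `‖w n‖^2 ≤ d n^2 + 1/(n+1)`. For `x, w` averages over `B N` with norm^2 at most
`d^2 + e`: `(x+w)/2` is an average over `B N`, so `‖x - w‖^2 ≤ 4 (d^2 - d N^2) + 4 e`.
For `y ∈ B N` and `n'` large, `ρ y (w n')` is an average over `B N` (`B_add`). -/
theorem SL {V : Type*} [SeminormedAddCommGroup V] [InnerProductSpace ℝ V] (ρ : A → V →ₗᵢ[ℝ] V)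
    (hadd : ∀ a b x, ρ (a + b) x = ρ a (ρ b x)) (ξ : V) :
    ∃ m : ℕ → A →₀ ℝ, (∀ n, IsProb (B n) (m n)) ∧
      CauchySeq (fun n => avg (m n) (fun c => ρ c ξ)) ∧
      ∀ κ : ℝ, 0 < κ → ∃ N, ∀ n, N ≤ n → ∀ y ∈ B N,
        ‖ρ y (avg (m n) (fun c => ρ c ξ)) - avg (m n) (fun c => ρ c ξ)‖ ≤ κ := by
  classical
  set av : (A →₀ ℝ) → V := fun m => avg m (fun c => ρ c ξ) with hav
  set R : ℕ → Set ℝ := fun N => {r | ∃ m, IsProb (B N) m ∧ r = ‖av m‖ ^ 2} with hR
  have hne : ∀ N, (R N).Nonempty := fun N =>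
    ⟨_, Finsupp.single 0 1, SL_prob_single (B_zero N), rfl⟩
  have hbdd : ∀ N, BddBelow (R N) := fun N => ⟨0, by
    rintro r ⟨m, _, rfl⟩
    positivity⟩
  set dd : ℕ → ℝ := fun N => sInf (R N) with hdd
  have hle : ∀ N m, IsProb (B N) m → dd N ≤ ‖av m‖ ^ 2 := fun N m hm =>
    csInf_le (hbdd N) ⟨m, hm, rfl⟩
  have hmono : Monotone dd := by
    intro N M hNM
    refine le_csInf (hne M) ?_
    rintro r ⟨m, hm, rfl⟩
    exact hle N m (SL_prob_mono (B_anti hNM) hm)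
  have hub : ∀ N, dd N ≤ ‖ξ‖ ^ 2 := by
    intro N
    have h1 := hle N _ (SL_prob_single (B_zero N))
    have h2 : av (Finsupp.single 0 1) = ρ 0 ξ := by
      simp [hav, avg]
    rw [h2, LinearIsometry.norm_map] at h1
    exact h1
  have hbA : BddAbove (Set.range dd) := ⟨‖ξ‖ ^ 2, by rintro _ ⟨N, rfl⟩; exact hub N⟩
  set L : ℝ := ⨆ N, dd N with hL
  have hdL : ∀ N, dd N ≤ L := fun N => le_ciSup hbA N
  have hch : ∀ n : ℕ, ∃ m, IsProb (B n) m ∧ ‖av m‖ ^ 2 ≤ L + 1 / ((n : ℝ) + 1) := by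
    intro n
    have hpos : (0 : ℝ) < 1 / ((n : ℝ) + 1) := by positivity
    obtain ⟨r, ⟨m, hm, rfl⟩, hr⟩ := exists_lt_of_csInf_lt (hne n)
      (show sInf (R n) < dd n + 1 / ((n : ℝ) + 1) by simp only [hdd]; linarith)
    exact ⟨m, hm, by have := hdL n; linarith⟩
  choose m hm hmn using hch
  -- near minimisers are close
  have hclose : ∀ e : ℝ, 0 < e → ∃ N : ℕ, (∀ n, N ≤ n → ‖av (m n)‖ ^ 2 ≤ L + e) ∧
      ∀ m₁ m₂, IsProb (B N) m₁ → IsProb (B N) m₂ → ‖av m₁‖ ^ 2 ≤ L + e → ‖av m₂‖ ^ 2 ≤ L + e →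
        ‖av m₁ - av m₂‖ ^ 2 ≤ 8 * e := by
    intro e he
    obtain ⟨N₁, hN₁⟩ := exists_lt_of_lt_ciSup (show L - e < ⨆ N, dd N by rw [← hL]; linarith)
    obtain ⟨N₂, hN₂⟩ := exists_nat_gt (1 / e)
    refine ⟨max N₁ N₂, ?_, ?_⟩
    · intro n hn
      refine le_trans (hmn n) ?_
      have h1 : (N₂ : ℝ) ≤ n := by exact_mod_cast (le_trans (le_max_right _ _) hn)
      have h2 : 1 / e < (n : ℝ) + 1 := by linarith
      have h3 : 1 / ((n : ℝ) + 1) ≤ e := by
        rw [div_le_iff₀ (by positivity)]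
        rw [div_lt_iff₀ he] at h2
        linarith
      linarith
    · intro m₁ m₂ h₁ h₂ b₁ b₂
      have hmid := hle _ _ (SL_prob_mid h₁ h₂)
      have hdN : L - e < dd (max N₁ N₂) := lt_of_lt_of_le hN₁ (hmono (le_max_left _ _))
      have e1 : av ((1 / 2 : ℝ) • (m₁ + m₂)) = (1 / 2 : ℝ) • (av m₁ + av m₂) := by
        simp only [hav]
        rw [SL_avg_smul_meas, SL_avg_add_meas]
      rw [e1, norm_smul, mul_pow] at hmid
      have hpar := parallelogram_law_with_norm ℝ (av m₁) (av m₂)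
      have e2 : ‖(1 / 2 : ℝ)‖ ^ 2 = 1 / 4 := by norm_num
      rw [e2] at hmid
      nlinarith [hpar, hmid, hdN, b₁, b₂]
  have hclose2 : ∀ κ : ℝ, 0 < κ → ∃ N : ℕ, ∀ n, N ≤ n → ∀ n', N ≤ n' → ∀ μ, IsProb (B N) μ →
      ‖av μ‖ = ‖av (m n')‖ → ‖av μ - av (m n)‖ ≤ κ := by
    intro κ hκ
    obtain ⟨N, h1, h2⟩ := hclose (κ ^ 2 / 8) (by positivity)
    refine ⟨N, fun n hn n' hn' μ hμ hnorm => ?_⟩
    have h3 := h2 μ (m n) hμ (SL_prob_mono (B_anti hn) (hm n)) (by rw [hnorm]; exact h1 n' hn')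
      (h1 n hn)
    have h4 : ‖av μ - av (m n)‖ ^ 2 ≤ κ ^ 2 := by linarith
    exact (pow_le_pow_iff_left₀ (norm_nonneg _) hκ.le two_ne_zero).1 h4
  refine ⟨m, hm, ?_, ?_⟩
  · rw [Metric.cauchySeq_iff]
    intro ε hε
    obtain ⟨N, hN⟩ := hclose2 (ε / 2) (by positivity)
    refine ⟨N, fun n hn n' hn' => ?_⟩
    rw [dist_eq_norm]
    have := hN n' hn' n hn (m n) (SL_prob_mono (B_anti hn) (hm n)) rfl
    exact lt_of_le_of_lt this (by linarith)
  · intro κ hκ
    obtain ⟨N, hN⟩ := hclose2 (κ / 2) (by positivity)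
    refine ⟨N, fun n hn y hy => ?_⟩
    obtain ⟨N', hN', hN''⟩ := B_add N y hy
    set n' := max n N' with hn'
    have h1 : IsProb (B N) ((m n').mapDomain (fun c => y + c)) :=
      SL_prob_map (SL_prob_mono (B_anti (le_max_right n N')) (hm n')) _ hN''
    have h2 : av ((m n').mapDomain (fun c => y + c)) = ρ y (av (m n')) := by
      simp only [hav]
      rw [SL_map_avg ρ hadd]
    have hnn' : N ≤ n' := le_trans hn (le_max_left _ _)
    have h3 := hN n hn n' hnn' _ h1 (by rw [h2, LinearIsometry.norm_map])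
    rw [h2] at h3
    have h4 := hN n hn n' hnn' (m n') (SL_prob_mono (B_anti hnn') (hm n')) rfl
    have h5 : ‖ρ y (av (m n)) - ρ y (av (m n'))‖ ≤ κ / 2 := by
      rw [← map_sub, LinearIsometry.norm_map, ← norm_neg, neg_sub]
      exact h4
    calc ‖ρ y (av (m n)) - av (m n)‖
        = ‖(ρ y (av (m n)) - ρ y (av (m n'))) + (ρ y (av (m n')) - av (m n))‖ := by
          congr 1; abel
      _ ≤ ‖ρ y (av (m n)) - ρ y (av (m n'))‖ + ‖ρ y (av (m n')) - av (m n)‖ := norm_add_le _ _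
      _ ≤ κ / 2 + κ / 2 := add_le_add h5 h3
      _ = κ := by ring

end Pool.Agent.H76.CR
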