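import Pool.Agent.H76.CR.Defs
import Pool.Agent.H76.CR.Grp

set_option autoImplicit false
namespace Pool.Agent.H76.CR

section TC1Algebra

variable {M : Type*} [Semigroup M]

/-- the monoid `e M e` -/
@[reducible] def tc1K (e : M) : Type _ := {x : M // e * x = x ∧ x * e = x}

/-- monoid structure on `e M e` -/
@[reducible] def tc1Monoid (e : M) (he : e * e = e) : Monoid (tc1K e) where
  mul x y := ⟨x.1 * y.1, by rw [← mul_assoc, x.2.1], by rw [mul_assoc, y.2.2]⟩
  one := ⟨e, he, he⟩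
  mul_assoc x y z := Subtype.ext (mul_assoc x.1 y.1 z.1)
  one_mul x := Subtype.ext x.2.1
  mul_one x := Subtype.ext x.2.2

/-- group structure on `f M f` -/
@[reducible] noncomputable def tc1Group (f : M) (hf : f * f = f)
    (hg : ∀ x : M, f * x = x → x * f = x → ∃ y : M, f * y = y ∧ y * f = y ∧ y * x = f ∧ x * y = f) :
    Group (tc1K f) :=
  { tc1Monoid f hf with
    inv := fun x => ⟨(hg x.1 x.2.1 x.2.2).choose, (hg x.1 x.2.1 x.2.2).choose_spec.1,
      (hg x.1 x.2.1 x.2.2).choose_spec.2.1⟩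
    inv_mul_cancel := fun x => Subtype.ext (hg x.1 x.2.1 x.2.2).choose_spec.2.2.1 }

theorem tc1_alg (e f : M) (he : e * e = e) (hf : f * f = f) (hef : e * f = f) (hfe : f * e = f)
    (hg : ∀ x : M, f * x = x → x * f = x → ∃ y : M, f * y = y ∧ y * f = y ∧ y * x = f ∧ x * y = f)
    (θ : Fin 3 → M → M) (hθ : ∀ t x y, θ t (x * y) = θ t x * θ t y) (hθe : ∀ t, θ t e = e)
    (hθf : ∀ t, θ t f = e) (L : Lt → M) (hL : ∀ t l, θ t (L l) = L (th t l))
    (Ω : M → ZMod 9) (hΩ : ∀ x y, Ω (x * y) = Ω x + Ω y) (hΩL : ∀ l, Ω (L l) = wt l) :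
    ∃ q : M, (∀ t, θ t (q * L Lt.D * e) = e) ∧ Ω (q * L Lt.D * e) = 3 := by
  let _ : Group (tc1K f) := tc1Group f hf hg
  let _ : Monoid (tc1K e) := tc1Monoid e he
  have hmulf : ∀ x y : tc1K f, (x * y).1 = x.1 * y.1 := fun _ _ => rfl
  have hmule : ∀ x y : tc1K e, (x * y).1 = x.1 * y.1 := fun _ _ => rfl
  have honef : (1 : tc1K f).1 = f := rfl
  have honee : (1 : tc1K e).1 = e := rfl
  have hΩe : Ω e = 0 := by
    have := hΩ e e
    rw [he] at this
    linear_combination (-1 : ZMod 9) * this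
  have hΩf : Ω f = 0 := by
    have := hΩ f f
    rw [hf] at this
    linear_combination (-1 : ZMod 9) * this
  let Θ : Fin 3 → (tc1K f →* tc1K e) := fun t =>
    { toFun := fun x => ⟨θ t x.1, by rw [← hθf t, ← hθ, x.2.1], by rw [← hθf t, ← hθ, x.2.2]⟩
      map_one' := Subtype.ext (hθf t)
      map_mul' := fun x y => Subtype.ext (hθ t x.1 y.1) }
  let Φ : Fin 3 → (tc1K f →* (tc1K e)ˣ) := fun t => (Θ t).toHomUnits
  let h : Lt → tc1K f := fun l => ⟨f * L l * f, by rw [← mul_assoc, ← mul_assoc, hf],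
    by rw [mul_assoc, hf]⟩
  let U : Lt → (tc1K e)ˣ := fun c => Φ 0 (h c)
  have hU : ∀ t l, Φ t (h l) = U (th t l) := by
    intro t l
    apply Units.ext
    apply Subtype.ext
    show θ t (f * L l * f) = θ 0 (f * L (th t l) * f)
    rw [hθ, hθ, hθ, hθ, hθf, hθf, hL, hL]
    have : th 0 (th t l) = th t l := by
      revert t l
      decide
    rw [this]
  let ΩH : tc1K f →* Multiplicative (ZMod 9) :=
    { toFun := fun x => Multiplicative.ofAdd (Ω x.1)
      map_one' := by rw [honef, hΩf]; rfl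
      map_mul' := fun x y => by rw [hmulf, hΩ]; rfl }
  have hΩh : ∀ l, ΩH (h l) = Multiplicative.ofAdd (wt l) := by
    intro l
    show Multiplicative.ofAdd (Ω (f * L l * f)) = _
    rw [hΩ, hΩ, hΩf, hΩL, zero_add, add_zero]
  let eA := (h Lt.k6)⁻¹ * h Lt.A
  let eB := (h Lt.k4)⁻¹ * h Lt.B
  let eE := (h Lt.k6)⁻¹ * h Lt.E
  let x := (h Lt.k4)⁻¹ * h Lt.k2
  let q : tc1K f := x * eB⁻¹ * x⁻¹ * eB * eE⁻¹ * eA * eB * (h Lt.k2)⁻¹
  let p : tc1K f := q * h Lt.D
  have hp : ∀ t, Φ t p = 1 := by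
    intro t
    simp only [p, q, eA, eB, eE, x, map_mul, map_inv, hU]
    have c6 : ∀ s, th s Lt.k6 = Lt.k6 := fun _ => rfl
    have c4 : ∀ s, th s Lt.k4 = Lt.k4 := fun _ => rfl
    have c2 : ∀ s, th s Lt.k2 = Lt.k2 := fun _ => rfl
    simp only [c6, c4, c2]
    match t with
    | 0 =>
      have a : th 0 Lt.A = Lt.k6 := rfl
      have b : th 0 Lt.B = Lt.k4 := rfl
      have d : th 0 Lt.D = Lt.k2 := rfl
      have e' : th 0 Lt.E = Lt.k6 := rfl
      simp only [a, b, d, e']
      group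
    | 1 =>
      have a : th 1 Lt.A = Lt.k4 := rfl
      have b : th 1 Lt.B = Lt.k2 := rfl
      have d : th 1 Lt.D = Lt.k3 := rfl
      have e' : th 1 Lt.E = Lt.k3 := rfl
      simp only [a, b, d, e']
      group
    | 2 =>
      have a : th 2 Lt.A = Lt.k2 := rfl
      have b : th 2 Lt.B = Lt.k0 := rfl
      have d : th 2 Lt.D = Lt.k4 := rfl
      have e' : th 2 Lt.E = Lt.k0 := rfl
      simp only [a, b, d, e']
      group
  have hpΩ : ΩH p = Multiplicative.ofAdd 3 := by
    simp only [p, q, eA, eB, eE, x, map_mul, map_inv, hΩh]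
    decide
  refine ⟨q.1, fun t => ?_, ?_⟩
  · have h1 : θ t p.1 = e := by
      have := congrArg (fun z : (tc1K e)ˣ => (z : tc1K e).1) (hp t)
      exact this
    have h2 : p.1 = q.1 * (f * L Lt.D * f) := rfl
    have h3 : θ t q.1 * e = θ t q.1 := by rw [← hθf t, ← hθ, q.2.2]
    rw [h2, hθ, hθ, hθ, hθf, ← mul_assoc, ← mul_assoc, h3] at h1
    rw [hθ, hθ, hθe]
    exact h1
  · have h1 : Ω p.1 = 3 := Multiplicative.ofAdd.injective hpΩ
    have h2 : p.1 = q.1 * (f * L Lt.D * f) := rfl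
    rw [h2, hΩ, hΩ, hΩ, hΩf, zero_add, add_zero] at h1
    rw [hΩ, hΩ, hΩe, add_zero]
    exact h1

end TC1Algebra

section TC1Ultra

open Filter

attribute [local instance] Ultrafilter.mul Ultrafilter.semigroup

theorem tc1_map_mul {S T : Type} [Semigroup S] [Semigroup T] (φ : S → T)
    (hφ : ∀ a b, φ (a * b) = φ a * φ b) (u v : Ultrafilter S) :
    (u * v).map φ = u.map φ * v.map φ := by
  ext s
  show (∀ᶠ m in (u * v : Ultrafilter S), φ m ∈ s) ↔
    ∀ᶠ m in ((u.map φ * v.map φ : Ultrafilter T) : Filter T), m ∈ s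
  rw [Ultrafilter.eventually_mul, Ultrafilter.eventually_mul]
  show (∀ᶠ m in (u : Filter S), ∀ᶠ m' in (v : Filter S), φ (m * m') ∈ s) ↔
    ∀ᶠ m in (u : Filter S), ∀ᶠ m' in (v : Filter S), φ m * φ m' ∈ s
  simp only [hφ]

/-- TC1: twisted colouring theorem (infinite version). `M = Ultrafilter (FreeMonoid Lt)` with
`Ultrafilter.semigroup`, `W` = ultrafilters containing the set of constant words; `e`, `f` from `grp`.
The monoid homomorphisms `th t` (letterwise) extend to `Ultrafilter.map`; they fix `W` pointwise and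
`th t f` is an idempotent of `W` below `e`, so `th t f = e`. The weight `FreeMonoid Lt → ZMod 9` extends
to a homomorphism `Ultrafilter → ZMod 9`, zero on `f` and on constants.
In the group `H = f M f` put `h_l = f l f`, `e_A = h_6⁻¹ h_A`, `e_B = h_4⁻¹ h_B`, `e_D = h_2⁻¹ h_D`,
`e_E = h_6⁻¹ h_E`, `x = h_4⁻¹ h_2`, `p = x e_B⁻¹ x⁻¹ e_B e_E⁻¹ e_A e_B e_D`; `th t p = e` for
`t = 0, 1, 2` (group identity, see the write-up) and the weight of `p` is 3. Replace the last
`h_D = f D f` by `f D e`: the ultrafilter `p'` contains the set of words `v' D w`, `w` constant. -/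
theorem tc1 {κ : Type} [Finite κ] (χ : List Lt → κ) :
    ∃ v' w : List Lt, (∀ l ∈ w, cst l) ∧ (((v' ++ Lt.D :: w).map wt).sum = 3) ∧
      χ ((v' ++ Lt.D :: w).map (th 0)) = χ ((v' ++ Lt.D :: w).map (th 1)) ∧
      χ ((v' ++ Lt.D :: w).map (th 0)) = χ ((v' ++ Lt.D :: w).map (th 2)) := by
  let S := FreeMonoid Lt
  let M := Ultrafilter S
  let C : Set S := {w | ∀ l ∈ FreeMonoid.toList w, cst l}
  let W : Set M := {u | C ∈ u}
  have hCmul : ∀ a b : S, a ∈ C → b ∈ C → a * b ∈ C := by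
    intro a b ha hb l hl
    rw [FreeMonoid.toList_mul, List.mem_append] at hl
    rcases hl with hl | hl
    · exact ha l hl
    · exact hb l hl
  have hW : IsClosed W := ultrafilter_isClosed_basic C
  have hne : W.Nonempty := by
    refine ⟨(pure (1 : S) : Ultrafilter S), ?_⟩
    show C ∈ (pure (1 : S) : Ultrafilter S)
    rw [Ultrafilter.mem_pure]
    intro l hl
    simp at hl
  have hWmul : ∀ x ∈ W, ∀ y ∈ W, x * y ∈ W := by
    intro x hx y hy
    show ∀ᶠ m in ((x * y : M) : Filter S), m ∈ C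
    rw [Ultrafilter.eventually_mul]
    have hx' : ∀ᶠ m in (x : Filter S), m ∈ C := hx
    have hy' : ∀ᶠ m in (y : Filter S), m ∈ C := hy
    filter_upwards [hx'] with a ha
    filter_upwards [hy'] with b hb
    exact hCmul a b ha hb
  obtain ⟨e, heW, he, hemin, f, hf, hef, hfe, hg⟩ :=
    grp (M := M) (fun r => Ultrafilter.continuous_mul_left r) W hW hne hWmul
  -- the letterwise maps
  let ϑ : Fin 3 → S → S := fun t => FreeMonoid.map (th t)
  let θ : Fin 3 → M → M := fun t u => u.map (ϑ t)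
  have hϑ : ∀ t a b, ϑ t (a * b) = ϑ t a * ϑ t b := fun t a b => map_mul _ a b
  have hθ : ∀ t x y, θ t (x * y) = θ t x * θ t y := fun t x y => tc1_map_mul (ϑ t) (hϑ t) x y
  have hthc : ∀ t l, cst l → th t l = l := by
    intro t l hl
    cases l <;> first | rfl | exact absurd hl (by simp [cst])
  have hthc' : ∀ t l, cst (th t l) := by
    intro t l
    fin_cases t <;> cases l <;> exact trivial
  have hθW : ∀ t u, u ∈ W → θ t u = u := by
    intro t u hu
    have hu' : ∀ᶠ m in (u : Filter S), m ∈ C := hu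
    ext s
    show (∀ᶠ m in (u : Filter S), ϑ t m ∈ s) ↔ ∀ᶠ m in (u : Filter S), m ∈ s
    have key : ∀ᶠ m in (u : Filter S), (ϑ t m ∈ s ↔ m ∈ s) := by
      filter_upwards [hu'] with a ha
      have : ϑ t a = a := by
        show FreeMonoid.map (th t) a = a
        apply FreeMonoid.toList.injective
        rw [FreeMonoid.toList_map]
        conv_rhs => rw [← List.map_id (FreeMonoid.toList a)]
        apply List.map_congr_left
        intro l hl
        exact hthc t l (ha l hl)
      rw [this]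
    exact eventually_congr key
  have hWθ : ∀ t u, θ t u ∈ W := by
    intro t u
    show ∀ᶠ m in (u : Filter S), ϑ t m ∈ C
    refine Eventually.of_forall fun a => ?_
    intro l hl
    change l ∈ FreeMonoid.toList (FreeMonoid.map (th t) a) at hl
    rw [FreeMonoid.toList_map, List.mem_map] at hl
    obtain ⟨l', _, rfl⟩ := hl
    exact hthc' t l'
  have hθe : ∀ t, θ t e = e := fun t => hθW t e heW
  have hθf : ∀ t, θ t f = e := by
    intro t
    refine hemin (θ t f) (hWθ t f) ?_ ?_ ?_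
    · rw [← hθ, hf]
    · conv_lhs => rw [← hθe t, ← hθ, hef]
    · conv_lhs => rw [← hθe t, ← hθ, hfe]
  let L : Lt → M := fun l => (pure (FreeMonoid.of l) : Ultrafilter S)
  have hL : ∀ t l, θ t (L l) = L (th t l) := by
    intro t l
    show Ultrafilter.map (ϑ t) (pure (FreeMonoid.of l)) = pure (FreeMonoid.of (th t l))
    rw [Ultrafilter.map_pure]
    rfl
  -- the weight
  let ω : S → Multiplicative (ZMod 9) := fun a =>
    Multiplicative.ofAdd ((FreeMonoid.toList a).map wt).sum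
  have hω : ∀ a b, ω (a * b) = ω a * ω b := by
    intro a b
    show Multiplicative.ofAdd _ = Multiplicative.ofAdd _
    rw [FreeMonoid.toList_mul, List.map_append, List.sum_append]
    rfl
  have hex : ∀ u : M, ∃ a : Multiplicative (ZMod 9), u.map ω = pure a := by
    intro u
    have : Finite (Multiplicative (ZMod 9)) := Finite.of_equiv (ZMod 9) Multiplicative.ofAdd
    exact Ultrafilter.eq_pure_of_finite _
  let Ω : M → ZMod 9 := fun u => Multiplicative.toAdd (hex u).choose
  have hΩs : ∀ u : M, ∀ᶠ a in (u : Filter S), ((FreeMonoid.toList a).map wt).sum = Ω u := by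
    intro u
    have h1 := (hex u).choose_spec
    have aux : ∀ (V : Ultrafilter (Multiplicative (ZMod 9))) (a : Multiplicative (ZMod 9)),
        V = pure a → {a} ∈ V := by
      rintro _ a rfl
      exact Ultrafilter.mem_pure.2 rfl
    have h2 : {(hex u).choose} ∈ u.map ω := aux _ _ h1
    have h3 : ∀ᶠ a in (u : Filter S), ω a ∈ ({(hex u).choose} : Set _) := h2
    filter_upwards [h3] with a ha
    have ha' : ω a = (hex u).choose := ha
    show _ = Multiplicative.toAdd (hex u).choose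
    rw [← ha']
    rfl
  have hΩu : ∀ (u : M) (c : ZMod 9),
      (∀ᶠ a in (u : Filter S), ((FreeMonoid.toList a).map wt).sum = c) → Ω u = c := by
    intro u c hc
    obtain ⟨a, ha1, ha2⟩ := ((hΩs u).and hc).exists
    rw [← ha1, ha2]
  have hΩ : ∀ x y, Ω (x * y) = Ω x + Ω y := by
    intro x y
    apply hΩu
    rw [Ultrafilter.eventually_mul]
    filter_upwards [hΩs x] with a ha
    filter_upwards [hΩs y] with b hb
    rw [FreeMonoid.toList_mul, List.map_append, List.sum_append, ha, hb]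
  have hΩL : ∀ l, Ω (L l) = wt l := by
    intro l
    apply hΩu
    show ∀ᶠ a in ((pure (FreeMonoid.of l) : Ultrafilter S) : Filter S), _
    rw [Ultrafilter.coe_pure]
    show ((FreeMonoid.toList (FreeMonoid.of l)).map wt).sum = wt l
    simp
  obtain ⟨q, hq1, hq2⟩ := tc1_alg (M := M) e f he hf hef hfe hg θ hθ hθe hθf L hL Ω hΩ hΩL
  -- the colour of `e`
  obtain ⟨k, hk⟩ : ∃ k : κ, e.map (fun a => χ (FreeMonoid.toList a)) = pure k :=
    Ultrafilter.eq_pure_of_finite _
  have hk' : ∀ᶠ a in (e : Filter S), χ (FreeMonoid.toList a) = k := by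
    have : {k} ∈ e.map (fun a => χ (FreeMonoid.toList a)) := by
      rw [hk]
      exact Ultrafilter.mem_pure.2 rfl
    exact this
  have hcol : ∀ t, ∀ᶠ a in ((q * L Lt.D * e : M) : Filter S),
      χ (FreeMonoid.toList (ϑ t a)) = k := by
    intro t
    have h1 : ∀ᶠ a in ((θ t (q * L Lt.D * e) : M) : Filter S), χ (FreeMonoid.toList a) = k := by
      rw [hq1 t]
      exact hk'
    exact h1
  have hwt : ∀ᶠ a in ((q * L Lt.D * e : M) : Filter S),
      ((FreeMonoid.toList a).map wt).sum = 3 := by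
    have := hΩs (q * L Lt.D * e)
    rw [hq2] at this
    exact this
  have hall := ((hcol 0).and ((hcol 1).and (hcol 2))).and hwt
  rw [Ultrafilter.eventually_mul] at hall
  obtain ⟨v, hv⟩ : ∃ v : List Lt, ∀ᶠ m' in (e : Filter S),
      ((χ (FreeMonoid.toList (ϑ 0 ((FreeMonoid.ofList v * FreeMonoid.of Lt.D) * m'))) = k ∧
        χ (FreeMonoid.toList (ϑ 1 ((FreeMonoid.ofList v * FreeMonoid.of Lt.D) * m'))) = k ∧
        χ (FreeMonoid.toList (ϑ 2 ((FreeMonoid.ofList v * FreeMonoid.of Lt.D) * m'))) = k) ∧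
      ((FreeMonoid.toList ((FreeMonoid.ofList v * FreeMonoid.of Lt.D) * m')).map wt).sum = 3) := by
    rw [Ultrafilter.eventually_mul] at hall
    obtain ⟨a, ha⟩ := hall.exists
    change ∀ᶠ b in ((pure (FreeMonoid.of Lt.D) : Ultrafilter S) : Filter S), _ at ha
    rw [Ultrafilter.coe_pure, eventually_pure] at ha
    exact ⟨FreeMonoid.toList a, ha⟩
  have heC : ∀ᶠ a in (e : Filter S), a ∈ C := heW
  obtain ⟨m, ⟨⟨h0, h1, h2⟩, h3⟩, hmC⟩ := (hv.and heC).exists
  have hlist : FreeMonoid.toList ((FreeMonoid.ofList v * FreeMonoid.of Lt.D) * m) =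
      v ++ Lt.D :: FreeMonoid.toList m := by
    show (v ++ [Lt.D]) ++ FreeMonoid.toList m = v ++ Lt.D :: FreeMonoid.toList m
    rw [List.append_assoc]
    rfl
  have hmap : ∀ t, FreeMonoid.toList (ϑ t ((FreeMonoid.ofList v * FreeMonoid.of Lt.D) * m)) =
      (v ++ Lt.D :: FreeMonoid.toList m).map (th t) := by
    intro t
    rw [← hlist]
    exact FreeMonoid.toList_map _ _
  rw [hmap] at h0 h1 h2
  rw [hlist] at h3
  exact ⟨v, FreeMonoid.toList m, hmC, h3, by rw [h0, h1], by rw [h0, h2]⟩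

end TC1Ultra

end Pool.Agent.H76.CR
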