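import Pool.Agent.H76.CR.ItM

set_option autoImplicit false
open MeasureTheory
namespace Pool.Agent.H76.CR

/-- iterated mean on functions of lists of length `K` -/
noncomputable def vdcLM (M : (A → ℝ) → ℝ) : ℕ → (List A → ℝ) → ℝ
  | 0, F => F []
  | (k + 1), F => M (fun b => vdcLM M k (fun l => F (b :: l)))

/-- bounded on lists of length `K` -/
def vdcBL (K : ℕ) (F : List A → ℝ) : Prop := ∃ C : ℝ, ∀ l : List A, l.length = K → |F l| ≤ C

theorem vdc_M_bdd {M : (A → ℝ) → ℝ} (hM : IsMean M) {u : A → ℝ} {C : ℝ} (h : ∀ b, |u b| ≤ C) :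
    |M u| ≤ C := by
  have hu : Bdd u := ⟨C, h⟩
  have h1 : M u ≤ M (fun _ => C) :=
    hM.mono u _ hu ⟨|C|, fun _ => le_refl _⟩ 0 (fun b _ => (abs_le.mp (h b)).2)
  have h2 : M (fun _ => -C) ≤ M u :=
    hM.mono _ u ⟨|-C|, fun _ => le_refl _⟩ hu 0 (fun b _ => (abs_le.mp (h b)).1)
  rw [hM.const] at h1 h2
  exact abs_le.mpr ⟨h2, h1⟩

theorem vdcLM_congr {M : (A → ℝ) → ℝ} (K : ℕ) (F G : List A → ℝ)
    (h : ∀ l : List A, l.length = K → F l = G l) : vdcLM M K F = vdcLM M K G := by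
  induction K generalizing F G with
  | zero => exact h [] rfl
  | succ K ih =>
    show M _ = M _
    congr 1
    funext b
    exact ih _ _ (fun l hl => h (b :: l) (by simp [hl]))

theorem vdcLM_bdd {M : (A → ℝ) → ℝ} (hM : IsMean M) (K : ℕ) (F : List A → ℝ) (C : ℝ)
    (h : ∀ l : List A, l.length = K → |F l| ≤ C) : |vdcLM M K F| ≤ C := by
  induction K generalizing F with
  | zero => exact h [] rfl
  | succ K ih =>
    show |M _| ≤ C
    exact vdc_M_bdd hM (fun b => ih _ (fun l hl => h (b :: l) (by simp [hl])))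

theorem vdcLM_add {M : (A → ℝ) → ℝ} (hM : IsMean M) (K : ℕ) (F G : List A → ℝ)
    (hF : vdcBL K F) (hG : vdcBL K G) :
    vdcLM M K (fun l => F l + G l) = vdcLM M K F + vdcLM M K G := by
  induction K generalizing F G with
  | zero => rfl
  | succ K ih =>
    obtain ⟨C, hC⟩ := hF
    obtain ⟨C', hC'⟩ := hG
    show M _ = M _ + M _
    rw [← hM.add _ _ ⟨C, fun b => vdcLM_bdd hM K _ C (fun l hl => hC (b :: l) (by simp [hl]))⟩
      ⟨C', fun b => vdcLM_bdd hM K _ C' (fun l hl => hC' (b :: l) (by simp [hl]))⟩]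
    congr 1
    funext b
    exact ih _ _ ⟨C, fun l hl => hC (b :: l) (by simp [hl])⟩
      ⟨C', fun l hl => hC' (b :: l) (by simp [hl])⟩

theorem vdcLM_smul {M : (A → ℝ) → ℝ} (hM : IsMean M) (K : ℕ) (r : ℝ) (F : List A → ℝ)
    (hF : vdcBL K F) : vdcLM M K (fun l => r * F l) = r * vdcLM M K F := by
  induction K generalizing F with
  | zero => rfl
  | succ K ih =>
    obtain ⟨C, hC⟩ := hF
    show M _ = r * M _
    rw [← hM.smul r _ ⟨C, fun b => vdcLM_bdd hM K _ C (fun l hl => hC (b :: l) (by simp [hl]))⟩]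
    congr 1
    funext b
    exact ih _ ⟨C, fun l hl => hC (b :: l) (by simp [hl])⟩

theorem vdcLM_const {M : (A → ℝ) → ℝ} (hM : IsMean M) (K : ℕ) (r : ℝ) :
    vdcLM M K (fun _ => r) = r := by
  induction K with
  | zero => rfl
  | succ K ih =>
    show M (fun _ => vdcLM M K (fun _ => r)) = r
    rw [ih, hM.const]

theorem vdcLM_mono {M : (A → ℝ) → ℝ} (hM : IsMean M) (K : ℕ) (F G : List A → ℝ)
    (hF : vdcBL K F) (hG : vdcBL K G) (h : ∀ l : List A, l.length = K → F l ≤ G l) :
    vdcLM M K F ≤ vdcLM M K G := by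
  induction K generalizing F G with
  | zero => exact h [] rfl
  | succ K ih =>
    obtain ⟨C, hC⟩ := hF
    obtain ⟨C', hC'⟩ := hG
    show M _ ≤ M _
    refine hM.mono _ _ ⟨C, fun b => vdcLM_bdd hM K _ C (fun l hl => hC (b :: l) (by simp [hl]))⟩
      ⟨C', fun b => vdcLM_bdd hM K _ C' (fun l hl => hC' (b :: l) (by simp [hl]))⟩ 0 ?_
    intro b _
    exact ih _ _ ⟨C, fun l hl => hC (b :: l) (by simp [hl])⟩
      ⟨C', fun l hl => hC' (b :: l) (by simp [hl])⟩ (fun l hl => h (b :: l) (by simp [hl]))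

theorem vdcLM_itM {M : (A → ℝ) → ℝ} (K : ℕ) (u : A → ℝ) :
    vdcLM M K (fun l => u l.sum) = itM M K u := by
  induction K generalizing u with
  | zero => rfl
  | succ K ih =>
    show M _ = M _
    congr 1
    funext b
    have := ih (fun c => u (b + c))
    simpa using this

/-- the iterated sums -/
noncomputable def vdcY {X : Type} (x : A → X → ℝ) : List A → X → ℝ
  | [] => fun _ => 0
  | (b :: l) => fun w => x (b + l.sum) w + vdcY x l w

theorem vdcY_meas {X : Type} [MeasurableSpace X] {x : A → X → ℝ} (hx : ∀ a, BM1 (x a))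
    (l : List A) : Measurable (vdcY x l) := by
  induction l with
  | nil => exact measurable_const
  | cons b l ih => exact (hx _).1.add ih

theorem vdcY_bdd {X : Type} [MeasurableSpace X] {x : A → X → ℝ} (hx : ∀ a, BM1 (x a))
    (l : List A) (w : X) : |vdcY x l w| ≤ l.length := by
  induction l with
  | nil => simp [vdcY]
  | cons b l ih =>
    have h1 := (hx (b + l.sum)).2 w
    show |x (b + l.sum) w + vdcY x l w| ≤ _
    refine (abs_add_le _ _).trans ?_
    push_cast [List.length_cons]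
    linarith

theorem vdc_int_abs {X : Type} [MeasurableSpace X] (μ : Measure X) [IsProbabilityMeasure μ]
    {f : X → ℝ} {C : ℝ} (h : ∀ w, |f w| ≤ C) : |∫ w, f w ∂μ| ≤ C := by
  have h1 := norm_integral_le_of_norm_le_const (μ := μ) (f := f) (C := C)
    (Filter.Eventually.of_forall (fun w => by simpa [Real.norm_eq_abs] using h w))
  simpa [Real.norm_eq_abs] using h1

theorem vdc_integrable {X : Type} [MeasurableSpace X] (μ : Measure X) [IsProbabilityMeasure μ]
    {f : X → ℝ} {C : ℝ} (hf : Measurable f) (h : ∀ w, |f w| ≤ C) : Integrable f μ := by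
  refine Integrable.of_bound hf.aestronglyMeasurable C ?_
  exact Filter.Eventually.of_forall (fun w => by simpa [Real.norm_eq_abs] using h w)

theorem vdc_mul_bdd {a b C : ℝ} (ha : |a| ≤ 1) (hb : |b| ≤ C) : |a * b| ≤ C := by
  rw [abs_mul]
  have := abs_nonneg a
  have := abs_nonneg b
  nlinarith

/-- VDCA: abstract van der Corput lemma. For lists `l = [b1, ..., bK]` let
`Y l = ∑_{suffixes l' ≠ []} x (l'.sum)`, i.e. `Y (b :: l) = x (b + l.sum) + Y l`, and let `LM K` be
the iterated mean on functions of lists of length `K`.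
`Z K c := LM K (l ↦ ⟨x (c + l.sum), Y l⟩)` satisfies `Z 0 = 0`, `Z (K+1) c = κ c + M_b (Z K (c+b))`,
so `Z K = κ` for `K ≥ 1`, `M_b (Z K b) = 0`; hence `LM (K+1) |Y|^2 ≤ 1 + LM K |Y|^2`, `LM K |Y|^2 ≤ K`,
and `∑_{k<K} itM M (k+1) ⟨φ, x⟩ = LM K ⟨φ, Y⟩ ≤ (t + K / t) / 2` with `t = sqrt K`. -/
theorem vdcA {X : Type} [MeasurableSpace X] (μ : Measure X) [IsProbabilityMeasure μ]
    (M : (A → ℝ) → ℝ) (hM : IsMean M) (x : A → X → ℝ) (hx : ∀ a, BM1 (x a)) (κ : A → ℝ)
    (hκ : Bdd κ)
    (h1 : ∀ (c : A) (k : ℕ), itM M (k + 1) (fun b => ∫ w, x (c + b) w * x b w ∂μ) = κ c)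
    (h2 : ∀ c : A, M (fun b => κ (c + b)) = 0) (φ : X → ℝ) (hφ : BM1 φ) (K : ℕ) :
    |∑ k ∈ Finset.range K, itM M (k + 1) (fun b => ∫ w, φ w * x b w ∂μ)| ≤ Real.sqrt K := by
  classical
  -- bounds
  have hYm := vdcY_meas hx
  have hYb := vdcY_bdd hx
  have hxx : ∀ a b w, |x a w * x b w| ≤ 1 := fun a b w => vdc_mul_bdd ((hx a).2 w) ((hx b).2 w)
  have hxY : ∀ a (l : List A) w, |x a w * vdcY x l w| ≤ l.length :=
    fun a l w => vdc_mul_bdd ((hx a).2 w) (hYb l w)
  -- integrability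
  have ixx : ∀ a b, Integrable (fun w => x a w * x b w) μ :=
    fun a b => vdc_integrable μ ((hx a).1.mul (hx b).1) (hxx a b)
  have ixY : ∀ a (l : List A), Integrable (fun w => x a w * vdcY x l w) μ :=
    fun a l => vdc_integrable μ ((hx a).1.mul (hYm l)) (hxY a l)
  have hYY : ∀ (l : List A) w, |vdcY x l w ^ 2| ≤ (l.length : ℝ) ^ 2 := by
    intro l w
    rw [abs_pow]
    exact pow_le_pow_left₀ (abs_nonneg _) (hYb l w) 2
  have iYY : ∀ (l : List A), Integrable (fun w => vdcY x l w ^ 2) μ :=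
    fun l => vdc_integrable μ ((hYm l).pow_const 2) (hYY l)
  -- Z
  set Z : ℕ → A → ℝ := fun K c => vdcLM M K (fun l => ∫ w, x (c + l.sum) w * vdcY x l w ∂μ)
    with hZ
  have hZbd : ∀ K c, |Z K c| ≤ K := by
    intro K c
    exact vdcLM_bdd hM K _ K (fun l hl => by
      have := vdc_int_abs μ (hxY (c + l.sum) l)
      rwa [hl] at this)
  have hZ0 : ∀ c, Z 0 c = 0 := by
    intro c
    show ∫ w, x (c + ([] : List A).sum) w * vdcY x [] w ∂μ = 0
    simp [vdcY]
  have hZs : ∀ K c, Z (K + 1) c = κ c + M (fun b => Z K (c + b)) := by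
    intro K c
    have e1 : Z (K + 1) c = M (fun b => vdcLM M K (fun l =>
        ∫ w, x (c + (b + l.sum)) w * x (b + l.sum) w ∂μ) + Z K (c + b)) := by
      show M _ = M _
      congr 1
      funext b
      rw [hZ]
      simp only
      rw [← vdcLM_add hM K _ _ ⟨1, fun l _ => vdc_int_abs μ (hxx _ _)⟩
        ⟨K, fun l hl => by
          have := vdc_int_abs μ (hxY (c + b + l.sum) l)
          rwa [hl] at this⟩]
      congr 1
      funext l
      rw [← integral_add (ixx _ _) (ixY _ _)]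
      congr 1
      funext w
      simp only [List.sum_cons, vdcY, add_assoc]
      ring
    rw [e1, hM.add _ _ ⟨1, fun b => vdcLM_bdd hM K _ 1 (fun l _ => vdc_int_abs μ (hxx _ _))⟩
      ⟨K, fun b => hZbd K (c + b)⟩]
    congr 1
    rw [← h1 c K]
    show _ = M _
    congr 1
    funext b
    exact vdcLM_itM K (fun l => ∫ w, x (c + (b + l)) w * x (b + l) w ∂μ)
  have hZκ : ∀ K c, Z (K + 1) c = κ c := by
    intro K
    induction K with
    | zero =>
      intro c
      rw [hZs]
      have : (fun b => Z 0 (c + b)) = fun _ => (0 : ℝ) := by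
        funext b; exact hZ0 _
      rw [this, hM.const, add_zero]
    | succ K ih =>
      intro c
      rw [hZs]
      have : (fun b => Z (K + 1) (c + b)) = fun b => κ (c + b) := by
        funext b; exact ih _
      rw [this, h2, add_zero]
  have hMZ : ∀ K, M (fun b => Z K b) = 0 := by
    intro K
    cases K with
    | zero =>
      have : (fun b => Z 0 b) = fun _ => (0 : ℝ) := by
        funext b; exact hZ0 _
      rw [this, hM.const]
    | succ K =>
      have : (fun b => Z (K + 1) b) = fun b => κ (0 + b) := by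
        funext b; rw [hZκ, zero_add]
      rw [this, h2]
  -- second moments
  have hsq : ∀ K : ℕ, vdcLM M K (fun l => ∫ w, vdcY x l w ^ 2 ∂μ) ≤ K := by
    intro K
    induction K with
    | zero =>
      show ∫ w, vdcY x [] w ^ 2 ∂μ ≤ _
      simp [vdcY]
    | succ K ih =>
      have bxx : vdcBL K (fun _ : List A => (1 : ℝ)) := ⟨1, fun _ _ => by simp⟩
      have bYY : vdcBL K (fun l : List A => ∫ w, vdcY x l w ^ 2 ∂μ) :=
        ⟨(K : ℝ) ^ 2, fun l hl => by
          have := vdc_int_abs μ (hYY l)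
          rwa [hl] at this⟩
      have bxY : ∀ b : A, vdcBL K (fun l : List A => 2 * ∫ w, x (b + l.sum) w * vdcY x l w ∂μ) :=
        fun b => ⟨2 * K, fun l hl => by
          have := vdc_int_abs μ (hxY (b + l.sum) l)
          rw [hl] at this
          rw [abs_mul, abs_two]
          linarith⟩
      have bxY' : ∀ b : A, vdcBL K (fun l : List A => ∫ w, x (b + l.sum) w * vdcY x l w ∂μ) :=
        fun b => ⟨K, fun l hl => by
          have := vdc_int_abs μ (hxY (b + l.sum) l)
          rwa [hl] at this⟩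
      have key : ∀ b : A, vdcLM M K (fun l => ∫ w, vdcY x (b :: l) w ^ 2 ∂μ) ≤
          (1 + 2 * Z K b) + K := by
        intro b
        have hle : ∀ l : List A, l.length = K → ∫ w, vdcY x (b :: l) w ^ 2 ∂μ ≤
            ((1 : ℝ) + 2 * ∫ w, x (b + l.sum) w * vdcY x l w ∂μ) + ∫ w, vdcY x l w ^ 2 ∂μ := by
          intro l hl
          have e : ∫ w, vdcY x (b :: l) w ^ 2 ∂μ = (∫ w, x (b + l.sum) w * x (b + l.sum) w ∂μ +
              2 * ∫ w, x (b + l.sum) w * vdcY x l w ∂μ) + ∫ w, vdcY x l w ^ 2 ∂μ := by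
            have i2 : Integrable (fun w => 2 * (x (b + l.sum) w * vdcY x l w)) μ :=
              (ixY _ _).const_mul 2
            have i3 : Integrable (fun w => x (b + l.sum) w * x (b + l.sum) w +
              2 * (x (b + l.sum) w * vdcY x l w)) μ := (ixx _ _).add i2
            rw [← integral_const_mul, ← integral_add (ixx _ _) i2, ← integral_add i3 (iYY l)]
            congr 1
            funext w
            simp only [vdcY]
            ring
          rw [e]
          have := (abs_le.mp (vdc_int_abs μ (hxx (b + l.sum) (b + l.sum)))).2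
          linarith
        have b3 : vdcBL K (fun l : List A => (1 : ℝ) + 2 * ∫ w, x (b + l.sum) w * vdcY x l w ∂μ) := by
          obtain ⟨C, hC⟩ := bxY b
          refine ⟨1 + C, fun l hl => (abs_add_le _ _).trans ?_⟩
          have := hC l hl
          rw [abs_one]
          linarith
        have b4 : vdcBL K (fun l : List A =>
            ((1 : ℝ) + 2 * ∫ w, x (b + l.sum) w * vdcY x l w ∂μ) + ∫ w, vdcY x l w ^ 2 ∂μ) := by
          obtain ⟨C, hC⟩ := b3
          obtain ⟨C', hC'⟩ := bYY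
          exact ⟨C + C', fun l hl => (abs_add_le _ _).trans (add_le_add (hC l hl) (hC' l hl))⟩
        have b5 : vdcBL K (fun l : List A => ∫ w, vdcY x (b :: l) w ^ 2 ∂μ) :=
          ⟨((K + 1 : ℕ) : ℝ) ^ 2, fun l hl => by
            have := vdc_int_abs μ (hYY (b :: l))
            rwa [List.length_cons, hl] at this⟩
        calc _ ≤ vdcLM M K (fun l =>
              ((1 : ℝ) + 2 * ∫ w, x (b + l.sum) w * vdcY x l w ∂μ) + ∫ w, vdcY x l w ^ 2 ∂μ) :=
              vdcLM_mono hM K _ _ b5 b4 hle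
          _ = (1 + 2 * Z K b) + vdcLM M K (fun l => ∫ w, vdcY x l w ^ 2 ∂μ) := by
              rw [vdcLM_add hM K _ _ b3 bYY, vdcLM_add hM K _ _ bxx (bxY b), vdcLM_const hM,
                vdcLM_smul hM K 2 _ (bxY' b)]
          _ ≤ _ := by linarith
      have hb1 : Bdd (fun b => vdcLM M K (fun l => ∫ w, vdcY x (b :: l) w ^ 2 ∂μ)) :=
        ⟨((K + 1 : ℕ) : ℝ) ^ 2, fun b => vdcLM_bdd hM K _ _ (fun l hl => by
            have := vdc_int_abs μ (hYY (b :: l))
            rwa [List.length_cons, hl] at this)⟩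
      have hb2 : Bdd (fun b => Z K b) := ⟨K, hZbd K⟩
      have hb3 : Bdd (fun b => 2 * Z K b) := ⟨2 * K, fun b => by
        rw [abs_mul, abs_two]; have := hZbd K b; linarith⟩
      have hb4 : Bdd (fun _ : A => (1 : ℝ)) := ⟨1, fun _ => by simp⟩
      have hb5 : Bdd (fun b : A => 1 + 2 * Z K b) := by
        obtain ⟨C, hC⟩ := hb3
        exact ⟨1 + C, fun b => (abs_add_le _ _).trans (by have := hC b; rw [abs_one]; linarith)⟩
      have hb6 : Bdd (fun _ : A => (K : ℝ)) := ⟨K, fun _ => by simp⟩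
      have hb7 : Bdd (fun b : A => (1 + 2 * Z K b) + K) := by
        obtain ⟨C, hC⟩ := hb5
        exact ⟨C + K, fun b => (abs_add_le _ _).trans (by
          have := hC b; rw [Nat.abs_cast]; linarith)⟩
      calc vdcLM M (K + 1) (fun l => ∫ w, vdcY x l w ^ 2 ∂μ)
          = M (fun b => vdcLM M K (fun l => ∫ w, vdcY x (b :: l) w ^ 2 ∂μ)) := rfl
        _ ≤ M (fun b : A => (1 + 2 * Z K b) + K) := hM.mono _ _ hb1 hb7 0 (fun b _ => key b)
        _ = (1 + 2 * M (fun b => Z K b)) + K := by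
            rw [hM.add _ _ hb5 hb6, hM.add _ _ hb4 hb3, hM.const, hM.const, hM.smul 2 _ hb2]
        _ = ((K + 1 : ℕ) : ℝ) := by
            rw [hMZ]; push_cast; ring
  -- first moments
  have hφx : ∀ a w, |φ w * x a w| ≤ 1 := fun a w => vdc_mul_bdd (hφ.2 w) ((hx a).2 w)
  have hφY : ∀ (l : List A) w, |φ w * vdcY x l w| ≤ l.length :=
    fun l w => vdc_mul_bdd (hφ.2 w) (hYb l w)
  have iφx : ∀ a, Integrable (fun w => φ w * x a w) μ :=
    fun a => vdc_integrable μ (hφ.1.mul (hx a).1) (hφx a)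
  have iφY : ∀ (l : List A), Integrable (fun w => φ w * vdcY x l w) μ :=
    fun l => vdc_integrable μ (hφ.1.mul (hYm l)) (hφY l)
  have hsum : ∀ K : ℕ, ∑ k ∈ Finset.range K, itM M (k + 1) (fun b => ∫ w, φ w * x b w ∂μ) =
      vdcLM M K (fun l => ∫ w, φ w * vdcY x l w ∂μ) := by
    intro K
    induction K with
    | zero =>
      show _ = ∫ w, φ w * vdcY x [] w ∂μ
      simp [vdcY]
    | succ K ih =>
      rw [Finset.sum_range_succ, ih]
      have e1 : vdcLM M (K + 1) (fun l => ∫ w, φ w * vdcY x l w ∂μ) =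
          M (fun b => vdcLM M K (fun l => ∫ w, φ w * x (b + l.sum) w ∂μ) +
            vdcLM M K (fun l => ∫ w, φ w * vdcY x l w ∂μ)) := by
        show M _ = M _
        congr 1
        funext b
        rw [← vdcLM_add hM K _ _ ⟨1, fun l _ => vdc_int_abs μ (hφx _)⟩
          ⟨K, fun l hl => by
            have := vdc_int_abs μ (hφY l)
            rwa [hl] at this⟩]
        congr 1
        funext l
        rw [← integral_add (iφx _) (iφY _)]
        show ∫ w, φ w * vdcY x (b :: l) w ∂μ = _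
        congr 1
        funext w
        simp only [vdcY]
        ring
      rw [e1, hM.add _ _ ⟨1, fun b => vdcLM_bdd hM K _ 1 (fun l _ => vdc_int_abs μ (hφx _))⟩
        ⟨|vdcLM M K (fun l => ∫ w, φ w * vdcY x l w ∂μ)|, fun _ => le_refl _⟩, hM.const, add_comm]
      congr 1
      show M _ = M _
      congr 1
      funext b
      exact (vdcLM_itM K (fun l => ∫ w, φ w * x (b + l) w ∂μ)).symm
  rw [hsum]
  rcases Nat.eq_zero_or_pos K with hK | hK
  · subst hK
    show |∫ w, φ w * vdcY x [] w ∂μ| ≤ _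
    simp [vdcY]
  set t := Real.sqrt K with ht
  have hKp : (0 : ℝ) < K := by exact_mod_cast hK
  have htp : 0 < t := Real.sqrt_pos.mpr hKp
  have htt : t * t = K := Real.mul_self_sqrt hKp.le
  have bφY : vdcBL K (fun l : List A => ∫ w, φ w * vdcY x l w ∂μ) :=
    ⟨K, fun l hl => by
      have := vdc_int_abs μ (hφY l)
      rwa [hl] at this⟩
  have bYY : vdcBL K (fun l : List A => ∫ w, vdcY x l w ^ 2 ∂μ) :=
    ⟨(K : ℝ) ^ 2, fun l hl => by
      have := vdc_int_abs μ (hYY l)
      rwa [hl] at this⟩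
  have bYY' : vdcBL K (fun l : List A => (2 * t)⁻¹ * ∫ w, vdcY x l w ^ 2 ∂μ) := by
    obtain ⟨C, hC⟩ := bYY
    refine ⟨(2 * t)⁻¹ * C, fun l hl => ?_⟩
    rw [abs_mul, abs_of_pos (by positivity : (0 : ℝ) < (2 * t)⁻¹)]
    exact mul_le_mul_of_nonneg_left (hC l hl) (by positivity)
  have bt : vdcBL K (fun _ : List A => t / 2) := ⟨|t / 2|, fun _ _ => le_refl _⟩
  have bR : vdcBL K (fun l : List A => t / 2 + (2 * t)⁻¹ * ∫ w, vdcY x l w ^ 2 ∂μ) := by
    obtain ⟨C, hC⟩ := bYY'
    exact ⟨|t / 2| + C, fun l hl => (abs_add_le _ _).trans (add_le_add (le_refl _) (hC l hl))⟩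
  have hR : vdcLM M K (fun l : List A => t / 2 + (2 * t)⁻¹ * ∫ w, vdcY x l w ^ 2 ∂μ) ≤ t := by
    rw [vdcLM_add hM K _ _ bt bYY', vdcLM_const hM, vdcLM_smul hM K _ _ bYY]
    have h3 := mul_le_mul_of_nonneg_left (hsq K) (by positivity : (0 : ℝ) ≤ (2 * t)⁻¹)
    have h4 : (2 * t)⁻¹ * (K : ℝ) = t / 2 := by
      rw [← htt]; field_simp
    rw [h4] at h3
    linarith
  -- pointwise
  have hpt : ∀ s : ℝ, |s| = 1 → ∀ l : List A, s * ∫ w, φ w * vdcY x l w ∂μ ≤
      t / 2 + (2 * t)⁻¹ * ∫ w, vdcY x l w ^ 2 ∂μ := by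
    intro s hs l
    rw [← integral_const_mul, ← integral_const_mul]
    have e0 : t / 2 = ∫ _w : X, t / 2 ∂μ := by simp
    rw [e0, ← integral_add (integrable_const _) ((iYY l).const_mul _)]
    refine integral_mono ((iφY l).const_mul s) ((integrable_const _).add ((iYY l).const_mul _)) ?_
    intro w
    show s * (φ w * vdcY x l w) ≤ t / 2 + (2 * t)⁻¹ * vdcY x l w ^ 2
    have hφ2 : (s * φ w) ^ 2 ≤ 1 := by
      rw [← sq_abs, abs_mul, hs, one_mul]
      have := hφ.2 w
      have := abs_nonneg (φ w)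
      nlinarith
    have h5 : 0 ≤ (t * (s * φ w) - vdcY x l w) ^ 2 := sq_nonneg _
    have h6 : (2 * t)⁻¹ * (2 * t) = 1 := by field_simp
    have h7 : s * (φ w * vdcY x l w) * (2 * t) ≤ t * t + vdcY x l w ^ 2 := by nlinarith
    have h8 : s * (φ w * vdcY x l w) = (2 * t)⁻¹ * (s * (φ w * vdcY x l w) * (2 * t)) := by
      field_simp
    rw [h8]
    have h9 : t / 2 = (2 * t)⁻¹ * (t * t) := by field_simp
    rw [h9, ← mul_add]
    exact mul_le_mul_of_nonneg_left h7 (by positivity)
  rw [abs_le]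
  constructor
  · have h10 : vdcLM M K (fun l => (-1) * ∫ w, φ w * vdcY x l w ∂μ) ≤ t := by
      refine le_trans (vdcLM_mono hM K _ _ ?_ bR (fun l _ => hpt (-1) (by simp) l)) hR
      obtain ⟨C, hC⟩ := bφY
      exact ⟨C, fun l hl => by rw [abs_mul]; simpa using hC l hl⟩
    rw [vdcLM_smul hM K _ _ bφY] at h10
    linarith
  · have h10 : vdcLM M K (fun l => 1 * ∫ w, φ w * vdcY x l w ∂μ) ≤ t := by
      refine le_trans (vdcLM_mono hM K _ _ ?_ bR (fun l _ => hpt 1 (by simp) l)) hR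
      obtain ⟨C, hC⟩ := bφY
      exact ⟨C, fun l hl => by rw [abs_mul]; simpa using hC l hl⟩
    rw [vdcLM_smul hM K _ _ bφY] at h10
    linarith

end Pool.Agent.H76.CR
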