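import Pool.Agent.H76.CR.VdcA
import Pool.Agent.H76.CR.Cex

set_option autoImplicit false
open MeasureTheory
open scoped symmDiff ENNReal
namespace Pool.Agent.H76.CR

variable {X : Type} [m0 : MeasurableSpace X] {μ : Measure X} [IsProbabilityMeasure μ]
  {τ : A → X → X}

omit [IsProbabilityMeasure μ] in
theorem vdcb_BM_comp (hτ : Act μ τ) (a : A) {f : X → ℝ} (hf : BM f) : BM (fun x => f (τ a x)) := by
  obtain ⟨h1, C, h2⟩ := hf
  exact ⟨h1.comp (hτ.mp a).measurable, C, fun _ => h2 _⟩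

omit [IsProbabilityMeasure μ] in
theorem vdcb_BM1_comp (hτ : Act μ τ) (a : A) {f : X → ℝ} (hf : BM1 f) :
    BM1 (fun x => f (τ a x)) :=
  ⟨hf.1.comp (hτ.mp a).measurable, fun _ => hf.2 _⟩

theorem vdcb_BM1_mul {f g : X → ℝ} (hf : BM1 f) (hg : BM1 g) : BM1 (fun x => f x * g x) := by
  refine ⟨hf.1.mul hg.1, fun x => ?_⟩
  rw [abs_mul]
  exact mul_le_one₀ (hf.2 x) (abs_nonneg _) (hg.2 x)

theorem vdcb_BM1_BM {f : X → ℝ} (hf : BM1 f) : BM f := ⟨hf.1, 1, hf.2⟩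

theorem vdcb_int {f : X → ℝ} (hf : BM f) : Integrable f μ := by
  obtain ⟨h1, C, h2⟩ := hf
  exact Integrable.of_bound h1.aestronglyMeasurable C (Filter.Eventually.of_forall (fun x => by
    rw [Real.norm_eq_abs]; exact h2 x))

/-- bounded version of the conditional expectation -/
theorem vdcb_clip (hτ : Act μ τ) (ψ : X → ℝ) (hψ : BM ψ) :
    ∃ ψ' : X → ℝ, BM ψ' ∧ ψ' =ᵐ[μ] CE μ τ ψ := by
  obtain ⟨h1, C, h2⟩ := hψ
  have hb := CE_bdd hτ ψ h1 C h2
  have hm : Measurable (CE μ τ ψ) := (CE_meas hτ ψ).measurable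
  refine ⟨fun x => max (-|C|) (min |C| (CE μ τ ψ x)), ⟨?_, |C|, ?_⟩, ?_⟩
  · exact measurable_const.max (measurable_const.min hm)
  · intro x
    rw [abs_le]
    constructor
    · exact le_max_left _ _
    · exact max_le (by linarith [abs_nonneg C]) (min_le_left _ _)
  · filter_upwards [hb] with x hx
    rw [abs_le] at hx
    rw [min_eq_right (hx.2.trans (le_abs_self C)), max_eq_right]
    linarith [le_abs_self C, hx.1]

theorem vdcb_CE_CE (hτ : Act μ τ) (ψ ψ' : X → ℝ) (h : ψ' =ᵐ[μ] CE μ τ ψ) :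
    CE μ τ ψ' =ᵐ[μ] CE μ τ ψ := by
  have h1 : CE μ τ ψ' =ᵐ[μ] CE μ τ (CE μ τ ψ) := condExp_congr_ae h
  refine h1.trans ?_
  have h2 : CE μ τ (CE μ τ ψ) = CE μ τ ψ := by
    unfold CE
    exact condExp_of_stronglyMeasurable (rig_le hτ) stronglyMeasurable_condExp
      integrable_condExp
  rw [h2]

/-- iterated means of correlations -/
theorem vdcb_it (hτ : Act μ τ) (M : (A → ℝ) → ℝ)
    (hm2 : ∀ φ ψ : X → ℝ, BM φ → BM ψ →
        M (fun b => ∫ x, φ x * ψ (τ b x) ∂μ) = ∫ x, φ x * CE μ τ ψ x ∂μ)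
    (k : ℕ) : ∀ (φ ψ : X → ℝ), BM φ → BM ψ →
      itM M (k + 1) (fun b => ∫ x, φ x * ψ (τ b x) ∂μ) = ∫ x, φ x * CE μ τ ψ x ∂μ := by
  induction k with
  | zero =>
    intro φ ψ hφ hψ
    simp only [itM, add_zero]
    exact hm2 φ ψ hφ hψ
  | succ k ih =>
    intro φ ψ hφ hψ
    obtain ⟨ψ', hψ', he⟩ := vdcb_clip hτ ψ hψ
    rw [itM]
    have h1 : ∀ b : A, itM M (k + 1) (fun c => ∫ x, φ x * ψ (τ (b + c) x) ∂μ)
        = ∫ x, φ x * ψ' (τ b x) ∂μ := by
      intro b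
      have h2 := ih φ (fun x => ψ (τ b x)) hφ (vdcb_BM_comp hτ b hψ)
      simp only [hτ.add]
      rw [h2]
      have h3 := CE_comp hτ b ψ (vdcb_int hψ)
      have h4 : (fun x => ψ' (τ b x)) =ᵐ[μ] fun x => CE μ τ ψ (τ b x) :=
        (hτ.mp b).quasiMeasurePreserving.ae_eq_comp he
      refine integral_congr_ae ?_
      filter_upwards [h3, h4] with x hx3 hx4
      rw [hx3, hx4]
    simp only [h1]
    rw [hm2 φ ψ' hφ hψ']
    refine integral_congr_ae ?_
    filter_upwards [vdcb_CE_CE hτ ψ ψ' he] with x hx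
    rw [hx]

/-- Cauchy-Schwarz for bounded functions, in additive form -/
theorem vdcb_cs (F G : X → ℝ) (hF : Measurable F) (hG : Measurable G)
    (hFb : ∀ᵐ x ∂μ, |F x| ≤ 1) (hGb : ∀ᵐ x ∂μ, |G x| ≤ 1) (ε : ℝ) (hε : 0 < ε) :
    |∫ x, F x * G x ∂μ| ≤ ε + (∫ x, (F x) ^ 2 ∂μ) / ε := by
  have hFi : Integrable (fun x => (F x) ^ 2) μ := by
    refine Integrable.of_bound (hF.pow_const 2).aestronglyMeasurable 1 ?_
    filter_upwards [hFb] with x hx
    rw [Real.norm_eq_abs, abs_pow]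
    exact pow_le_one₀ (abs_nonneg _) hx
  have h1 : |∫ x, F x * G x ∂μ| ≤ ∫ x, (ε + (F x) ^ 2 / ε) ∂μ := by
    refine (abs_integral_le_integral_abs).trans ?_
    refine integral_mono_ae ?_ ?_ ?_
    · refine Integrable.of_bound (hF.mul hG).abs.aestronglyMeasurable 1 ?_
      filter_upwards [hFb, hGb] with x hx hx'
      rw [Real.norm_eq_abs, abs_abs, abs_mul]
      exact mul_le_one₀ hx (abs_nonneg _) hx'
    · exact (integrable_const _).add (hFi.div_const _)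
    · filter_upwards [hGb] with x hx'
      rw [abs_mul]
      have h2 : |F x| * |G x| ≤ |F x| := mul_le_of_le_one_right (abs_nonneg _) hx'
      refine h2.trans ?_
      have h3 : (F x) ^ 2 = |F x| ^ 2 := (sq_abs _).symm
      rw [h3, ← sub_le_iff_le_add', le_div_iff₀ hε]
      nlinarith [sq_nonneg (|F x| - ε), abs_nonneg (F x)]
  refine h1.trans (le_of_eq ?_)
  rw [integral_add (integrable_const _) (hFi.div_const _), integral_const, integral_div]
  simp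

/-- the common part of `vdc1` and `vdc2` -/
theorem vdcb_main (hτ : Act μ τ) (M : (A → ℝ) → ℝ) (hM : IsMean M)
    (hm2 : ∀ φ ψ : X → ℝ, BM φ → BM ψ →
        M (fun b => ∫ x, φ x * ψ (τ b x) ∂μ) = ∫ x, φ x * CE μ τ ψ x ∂μ)
    (g0 G1 G2 : X → ℝ) (h0 : BM1 g0) (h1 : BM1 G1) (h2 : BM1 G2) (γ : A → ℝ) (hγb : Bdd γ)
    (hγ : ∀ c : A, ∀ ε : ℝ, 0 < ε →
      |∫ x, CE μ τ (fun x' => G1 x' * G1 (τ c x')) x *
        CE μ τ (fun x' => G2 x' * G2 (τ (c + c) x')) x ∂μ| ≤ ε + γ c / ε)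
    (hm3 : ∀ c, M (fun b => γ (c + b)) = 0) (K : ℕ) :
    |∑ k ∈ Finset.range K, itM M (k + 1)
      (fun b => ∫ x, g0 x * (G1 (τ b x) * G2 (τ (b + b) x)) ∂μ)| ≤ Real.sqrt K := by
  have hcomm : ∀ (a b : A) (x : X), τ a (τ b x) = τ b (τ a x) := by
    intro a b x
    rw [← hτ.add, ← hτ.add, add_comm]
  have hκb : Bdd (fun c => ∫ x, CE μ τ (fun x' => G1 x' * G1 (τ c x')) x *
        CE μ τ (fun x' => G2 x' * G2 (τ (c + c) x')) x ∂μ) := by
    obtain ⟨C, hC⟩ := hγb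
    refine ⟨1 + C, fun c => ?_⟩
    have h3 := hγ c 1 one_pos
    rw [div_one] at h3
    have h4 := (le_abs_self (γ c)).trans (hC c)
    linarith
  refine vdcA μ M hM (fun b x => G1 (τ b x) * G2 (τ (b + b) x))
    (fun a => vdcb_BM1_mul (vdcb_BM1_comp hτ a h1) (vdcb_BM1_comp hτ (a + a) h2))
    (fun c => ∫ x, CE μ τ (fun x' => G1 x' * G1 (τ c x')) x *
        CE μ τ (fun x' => G2 x' * G2 (τ (c + c) x')) x ∂μ) hκb ?_ ?_ g0 h0 K
  · intro c k
    have hP : BM (fun x => G1 x * G1 (τ c x)) :=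
      vdcb_BM1_BM (vdcb_BM1_mul h1 (vdcb_BM1_comp hτ c h1))
    have hQ : BM (fun x => G2 x * G2 (τ (c + c) x)) :=
      vdcb_BM1_BM (vdcb_BM1_mul h2 (vdcb_BM1_comp hτ (c + c) h2))
    have h3 := vdcb_it hτ M hm2 k _ _ hP hQ
    have h4 := CE_adj hτ _ _ hP hQ Set.univ (@MeasurableSet.univ X (Rig μ τ))
    rw [setIntegral_univ, setIntegral_univ] at h4
    rw [h4] at h3
    rw [← h3]
    congr 1
    funext b
    have hmp := hτ.mp b
    have h5 : ∫ x, (G1 (τ b x) * G1 (τ c (τ b x))) *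
        (G2 (τ b (τ b x)) * G2 (τ (c + c) (τ b (τ b x)))) ∂μ
        = ∫ x, (G1 x * G1 (τ c x)) * (G2 (τ b x) * G2 (τ (c + c) (τ b x))) ∂μ := by
      have h6 := integral_map (μ := μ) (φ := τ b) hmp.measurable.aemeasurable
        (f := fun x => (G1 x * G1 (τ c x)) * (G2 (τ b x) * G2 (τ (c + c) (τ b x)))) ?_
      · rw [hmp.map_eq] at h6
        exact h6.symm
      · exact ((h1.1.mul (h1.1.comp (hτ.mp c).measurable)).mul
          ((h2.1.comp hmp.measurable).mul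
            (h2.1.comp ((hτ.mp (c + c)).measurable.comp hmp.measurable)))).aestronglyMeasurable
    rw [← h5]
    refine integral_congr_ae (Filter.Eventually.of_forall fun x => ?_)
    have e1 : τ (c + b) x = τ c (τ b x) := hτ.add _ _ _
    have e2 : τ (c + b + (c + b)) x = τ (c + c) (τ b (τ b x)) := by
      rw [← hτ.add, ← hτ.add]
      congr 1
      abel
    have e3 : τ (b + b) x = τ b (τ b x) := hτ.add _ _ _
    simp only [e1, e2, e3]
    ring
  · intro c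
    have hcb : Bdd (fun b => γ (c + b)) := by
      obtain ⟨C, hC⟩ := hγb
      exact ⟨C, fun b => hC _⟩
    have hle : ∀ ε : ℝ, 0 < ε → M (fun b => ε + ε⁻¹ * γ (c + b)) = ε := by
      intro ε hε
      rw [hM.add (fun _ => ε) (fun b => ε⁻¹ * γ (c + b)) ⟨|ε|, fun _ => le_rfl⟩ ?_,
        hM.const, hM.smul _ _ hcb, hm3 c]
      · simp
      · obtain ⟨C, hC⟩ := hcb
        refine ⟨|ε⁻¹| * C, fun b => ?_⟩
        rw [abs_mul]
        exact mul_le_mul_of_nonneg_left (hC b) (abs_nonneg _)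
    have hbb : ∀ ε : ℝ, Bdd (fun b => ε + ε⁻¹ * γ (c + b)) := by
      intro ε
      obtain ⟨C, hC⟩ := hcb
      refine ⟨|ε| + |ε⁻¹| * C, fun b => (abs_add_le _ _).trans ?_⟩
      rw [abs_mul]
      exact add_le_add_right (mul_le_mul_of_nonneg_left (hC b) (abs_nonneg _)) _
    have hκcb : Bdd (fun b => ∫ x, CE μ τ (fun x' => G1 x' * G1 (τ (c + b) x')) x *
        CE μ τ (fun x' => G2 x' * G2 (τ (c + b + (c + b)) x')) x ∂μ) := by
      obtain ⟨C, hC⟩ := hκb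
      exact ⟨C, fun b => hC _⟩
    apply le_antisymm
    · refine le_of_forall_pos_le_add fun ε hε => ?_
      rw [zero_add, ← hle ε hε]
      refine hM.mono _ _ hκcb (hbb ε) 0 (fun b _ => ?_)
      refine (le_abs_self _).trans ((hγ (c + b) ε hε).trans (le_of_eq ?_))
      rw [div_eq_inv_mul]
    · refine le_of_forall_pos_le_add fun ε hε => ?_
      have h7 : M (fun b => (-1) * (ε + ε⁻¹ * γ (c + b))) = -ε := by
        rw [hM.smul _ _ (hbb ε), hle ε hε]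
        ring
      have h8 : M (fun b => (-1) * (ε + ε⁻¹ * γ (c + b))) ≤
          M (fun b => ∫ x, CE μ τ (fun x' => G1 x' * G1 (τ (c + b) x')) x *
            CE μ τ (fun x' => G2 x' * G2 (τ (c + b + (c + b)) x')) x ∂μ) := by
        refine hM.mono _ _ ?_ hκcb 0 (fun b _ => ?_)
        · obtain ⟨C, hC⟩ := hbb ε
          refine ⟨C, fun b => ?_⟩
          show |(-1 : ℝ) * (ε + ε⁻¹ * γ (c + b))| ≤ C
          rw [neg_one_mul, abs_neg]
          exact hC b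
        · have h9 := (neg_le_of_abs_le (hγ (c + b) ε hε))
          refine (le_of_eq ?_).trans h9
          rw [div_eq_inv_mul]
          ring
      rw [h7] at h8
      linarith

theorem vdcb_CE_bdd (hτ : Act μ τ) (g : X → ℝ) (hg : BM1 g) (c : A) :
    ∀ᵐ x ∂μ, |CE μ τ (fun x' => g x' * g (τ c x')) x| ≤ 1 :=
  CE_bdd hτ _ (vdcb_BM1_mul hg (vdcb_BM1_comp hτ c hg)).1 1
    (vdcb_BM1_mul hg (vdcb_BM1_comp hτ c hg)).2

theorem vdcb_gam_bdd (hτ : Act μ τ) (g : X → ℝ) (hg : BM1 g) (c : A) : |gam μ τ g c| ≤ 1 := by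
  have h1 := vdcb_CE_bdd hτ g hg c
  unfold gam
  have h2 : ∫ x, (CE μ τ (fun x' => g x' * g (τ c x')) x) ^ 2 ∂μ ≤ ∫ _x, (1 : ℝ) ∂μ := by
    refine integral_mono_ae ?_ (integrable_const _) ?_
    · refine Integrable.of_bound ((CE_meas hτ _).measurable.pow_const 2).aestronglyMeasurable 1 ?_
      filter_upwards [h1] with x hx
      rw [Real.norm_eq_abs, abs_pow]
      exact pow_le_one₀ (abs_nonneg _) hx
    · filter_upwards [h1] with x hx
      rw [← sq_abs]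
      exact pow_le_one₀ (abs_nonneg _) hx
  have h3 : 0 ≤ ∫ x, (CE μ τ (fun x' => g x' * g (τ c x')) x) ^ 2 ∂μ :=
    integral_nonneg (fun x => sq_nonneg _)
  rw [abs_of_nonneg h3]
  refine h2.trans (le_of_eq ?_)
  simp

/-- VDCB: application of `vdcA` with `x b = g1 ∘ τ_{z+b} * g2 ∘ τ_{2z+2b}`:
`∫ x (c+b) x b = ∫ (G1 * G1 ∘ τ_c) * ((G2 * G2 ∘ τ_{2c}) ∘ τ_b)` with `G1 = g1 ∘ τ_z`,
`G2 = g2 ∘ τ_{2z}`; its mean is `κ c = ∫ CE (G1 * G1 ∘ τ_c) * CE (G2 * G2 ∘ τ_{2c})`, and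
`|κ c| ≤ gam g1 c ^ (1/2)`, `|κ c| ≤ gam g2 (2c) ^ (1/2)` (Cauchy-Schwarz, `gam_comp`).
`M sqrt(u) = 0` if `M u = 0`, `u ≥ 0`: `sqrt u ≤ ε + u / ε`. -/
theorem vdc1 (hτ : Act μ τ) (M : (A → ℝ) → ℝ) (hM : IsMean M)
    (hm2 : ∀ φ ψ : X → ℝ, BM φ → BM ψ →
        M (fun b => ∫ x, φ x * ψ (τ b x) ∂μ) = ∫ x, φ x * CE μ τ ψ x ∂μ)
    (g0 g1 g2 : X → ℝ) (h0 : BM1 g0) (h1 : BM1 g1) (h2 : BM1 g2)
    (hm3 : ∀ c, M (fun b => gam μ τ g1 (c + b)) = 0) (z : A) (K : ℕ) :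
    |∑ k ∈ Finset.range K, itM M (k + 1) (fun b => J3 μ τ g0 g1 g2 (z + b))| ≤ Real.sqrt K := by
  have hG1 : BM1 (fun x => g1 (τ z x)) := vdcb_BM1_comp hτ z h1
  have hG2 : BM1 (fun x => g2 (τ (z + z) x)) := vdcb_BM1_comp hτ (z + z) h2
  have h := vdcb_main hτ M hM hm2 g0 _ _ h0 hG1 hG2 (fun c => gam μ τ g1 c)
    ⟨1, vdcb_gam_bdd hτ g1 h1⟩ ?_ hm3 K
  · have e : ∀ b : A, J3 μ τ g0 g1 g2 (z + b) =
        ∫ x, g0 x * (g1 (τ z (τ b x)) * g2 (τ (z + z) (τ (b + b) x))) ∂μ := by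
      intro b
      unfold J3
      refine integral_congr_ae (Filter.Eventually.of_forall fun x => ?_)
      have e1 : z + b + (z + b) = (z + z) + (b + b) := by abel
      simp only [e1, hτ.add]
      ring
    simp only [e]
    exact h
  · intro c ε hε
    refine (vdcb_cs _ _ (CE_meas hτ _).measurable (CE_meas hτ _).measurable
      (vdcb_CE_bdd hτ _ hG1 c) (vdcb_CE_bdd hτ _ hG2 (c + c)) ε hε).trans (le_of_eq ?_)
    have h3 := gam_comp hτ g1 (vdcb_BM1_BM h1) z c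
    show _ = ε + gam μ τ g1 c / ε
    rw [← h3]
    rfl

theorem vdc2 (hτ : Act μ τ) (M : (A → ℝ) → ℝ) (hM : IsMean M)
    (hm2 : ∀ φ ψ : X → ℝ, BM φ → BM ψ →
        M (fun b => ∫ x, φ x * ψ (τ b x) ∂μ) = ∫ x, φ x * CE μ τ ψ x ∂μ)
    (g0 g1 g2 : X → ℝ) (h0 : BM1 g0) (h1 : BM1 g1) (h2 : BM1 g2)
    (hm3 : ∀ c, M (fun b => gam μ τ g2 (c + (b + b))) = 0) (z : A) (K : ℕ) :
    |∑ k ∈ Finset.range K, itM M (k + 1) (fun b => J3 μ τ g0 g1 g2 (z + b))| ≤ Real.sqrt K := by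
  have hG1 : BM1 (fun x => g1 (τ z x)) := vdcb_BM1_comp hτ z h1
  have hG2 : BM1 (fun x => g2 (τ (z + z) x)) := vdcb_BM1_comp hτ (z + z) h2
  have h := vdcb_main hτ M hM hm2 g0 _ _ h0 hG1 hG2 (fun c => gam μ τ g2 (c + c))
    ⟨1, fun c => vdcb_gam_bdd hτ g2 h2 _⟩ ?_ ?_ K
  · have e : ∀ b : A, J3 μ τ g0 g1 g2 (z + b) =
        ∫ x, g0 x * (g1 (τ z (τ b x)) * g2 (τ (z + z) (τ (b + b) x))) ∂μ := by
      intro b
      unfold J3
      refine integral_congr_ae (Filter.Eventually.of_forall fun x => ?_)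
      have e1 : z + b + (z + b) = (z + z) + (b + b) := by abel
      simp only [e1, hτ.add]
      ring
    simp only [e]
    exact h
  · intro c ε hε
    have h4 := vdcb_cs _ _ (CE_meas hτ (fun x' => g2 (τ (z + z) x') *
        g2 (τ (z + z) (τ (c + c) x')))).measurable
      (CE_meas hτ (fun x' => g1 (τ z x') * g1 (τ z (τ c x')))).measurable
      (vdcb_CE_bdd hτ _ hG2 (c + c)) (vdcb_CE_bdd hτ _ hG1 c) ε hε
    have h3 := gam_comp hτ g2 (vdcb_BM1_BM h2) (z + z) (c + c)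
    show _ ≤ ε + gam μ τ g2 (c + c) / ε
    rw [← h3]
    refine (le_of_eq ?_).trans h4
    congr 1
    refine integral_congr_ae (Filter.Eventually.of_forall fun x => ?_)
    exact mul_comm _ _
  · intro c
    have e : ∀ b : A, c + b + (c + b) = (c + c) + (b + b) := by
      intro b
      abel
    simp only [e]
    exact hm3 _

omit [IsProbabilityMeasure μ] in
/-- the reversed action -/
theorem vdcb_neg_act (hτ : Act μ τ) : Act μ (fun a => τ (-a)) where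
  mp := fun a => hτ.mp (-a)
  zero := fun x => by
    show τ (-0) x = x
    rw [neg_zero]
    exact hτ.zero x
  add := fun a b x => by
    show τ (-(a + b)) x = τ (-a) (τ (-b) x)
    rw [neg_add]
    exact hτ.add _ _ _

omit [IsProbabilityMeasure μ] in
theorem vdcb_neg_rig (hτ : Act μ τ) : Rig μ (fun a => τ (-a)) = Rig μ τ := by
  unfold Rig
  congr 1
  ext P
  simp only [RigSet, Set.mem_ofPred_eq]
  refine and_congr_right fun hP => ?_
  have e : ∀ c : A, μ ((τ (-c) ⁻¹' P) ∆ P) = μ ((τ c ⁻¹' P) ∆ P) := by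
    intro c
    have h1 := (hτ.mp c).measure_preimage (s := (τ (-c) ⁻¹' P) ∆ P)
      (((hτ.mp (-c)).measurable hP).symmDiff hP).nullMeasurableSet
    rw [← h1, Set.preimage_symmDiff]
    have h2 : τ c ⁻¹' (τ (-c) ⁻¹' P) = P := by
      ext x
      simp only [Set.mem_preimage]
      rw [← hτ.add, neg_add_cancel, hτ.zero]
    rw [h2, symmDiff_comm]
  simp only [e]

/-- by the change of variables `τ_{-2(z+b)}` this is the same argument for `τ_{-b}`,
`x b = g1 ∘ τ_{-z-b} * g0 ∘ τ_{-2z-2b}`, tested against `g2`; the mean property for `τ_{-b}`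
follows from `hm2` and `CE_adj`; `gam_neg`. -/
theorem vdc0 (hτ : Act μ τ) (M : (A → ℝ) → ℝ) (hM : IsMean M)
    (hm2 : ∀ φ ψ : X → ℝ, BM φ → BM ψ →
        M (fun b => ∫ x, φ x * ψ (τ b x) ∂μ) = ∫ x, φ x * CE μ τ ψ x ∂μ)
    (g0 g1 g2 : X → ℝ) (h0 : BM1 g0) (h1 : BM1 g1) (h2 : BM1 g2)
    (hm3 : ∀ c, M (fun b => gam μ τ g0 (c + (b + b))) = 0) (z : A) (K : ℕ) :
    |∑ k ∈ Finset.range K, itM M (k + 1) (fun b => J3 μ τ g0 g1 g2 (z + b))| ≤ Real.sqrt K := by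
  have hτ' := vdcb_neg_act hτ
  have hCE : ∀ f : X → ℝ, CE μ (fun a => τ (-a)) f = CE μ τ f := by
    intro f
    unfold CE
    rw [vdcb_neg_rig hτ]
  have hgam : ∀ c : A, gam μ (fun a => τ (-a)) g0 c = gam μ τ g0 c := by
    intro c
    rw [← gam_neg hτ g0 (vdcb_BM1_BM h0) c]
    unfold gam
    simp only [hCE]
  have hcv : ∀ (a : A) (F : X → ℝ), Measurable F → ∫ x, F (τ a x) ∂μ = ∫ x, F x ∂μ := by
    intro a F hF
    have h6 := integral_map (μ := μ) (φ := τ a) (hτ.mp a).measurable.aemeasurable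
        (f := F) hF.aestronglyMeasurable
    rw [(hτ.mp a).map_eq] at h6
    exact h6.symm
  have h := vdc2 hτ' M hM ?_ g2 g1 g0 h2 h1 h0 ?_ z K
  · have e : ∀ c : A, J3 μ (fun a => τ (-a)) g2 g1 g0 c = J3 μ τ g0 g1 g2 c := by
      intro c
      unfold J3
      rw [← hcv (c + c) (fun x => g2 x * g1 (τ (-c) x) * g0 (τ (-(c + c)) x)) ?_]
      · refine integral_congr_ae (Filter.Eventually.of_forall fun x => ?_)
        have e1 : τ (-c) (τ (c + c) x) = τ c x := by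
          rw [← hτ.add]
          congr 1
          abel
        have e2 : τ (-(c + c)) (τ (c + c) x) = x := by
          rw [← hτ.add, neg_add_cancel, hτ.zero]
        simp only [e1, e2]
        ring
      · exact (h2.1.mul (h1.1.comp (hτ.mp _).measurable)).mul (h0.1.comp (hτ.mp _).measurable)
    simp only [e] at h
    exact h
  · intro φ ψ hφ hψ
    have e : ∀ b : A, ∫ x, φ x * ψ (τ (-b) x) ∂μ = ∫ x, ψ x * φ (τ b x) ∂μ := by
      intro b
      rw [← hcv b (fun x => φ x * ψ (τ (-b) x)) ?_]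
      · refine integral_congr_ae (Filter.Eventually.of_forall fun x => ?_)
        have e2 : τ (-b) (τ b x) = x := by
          rw [← hτ.add, neg_add_cancel, hτ.zero]
        simp only [e2]
        ring
      · exact hφ.1.mul (hψ.1.comp (hτ.mp _).measurable)
    simp only [e]
    rw [hm2 ψ φ hψ hφ, hCE]
    have h4 := CE_adj hτ ψ φ hψ hφ Set.univ (@MeasurableSet.univ X (Rig μ τ))
    have h5 := CE_adj hτ φ ψ hφ hψ Set.univ (@MeasurableSet.univ X (Rig μ τ))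
    rw [setIntegral_univ, setIntegral_univ] at h4 h5
    rw [h4, h5]
    refine integral_congr_ae (Filter.Eventually.of_forall fun x => ?_)
    exact mul_comm _ _
  · intro c
    simp only [hgam]
    exact hm3 c

end Pool.Agent.H76.CR
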